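import Pool.Agent.H64.Q1.LExchange

/-!
# The sweep of a line over a block of lines, and the weights

Operators `Rop e x y p q` of `LExchange`: the line `x` crosses the line `y`, which goes to the left
of `x`; `p` is the weight of the state in which the incoming piece of `x` continues on `y`.

* `sweep`: a line `u` which first crosses the rows `r_m, ..., r_1` (running down the left side) and
  then the columns (running along the bottom of the block) can be moved: it crosses the columns above
  the block and then the rows `r_m, ..., r_1` (running down the right side).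
* `sweep_up`: if it continues up the right side, it can be moved to the top of the block.
* `wa_ybe`, `wa_unit`: the weights `sin (u / 3) / sin ((u + π) / 3)`.
-/

namespace Pool.Agent.H64.Q1

open LP

namespace LP

section Abs

variable {A : Type*} [Monoid A] {ι : Type*}

theorem comm_prod (x : A) (l : List A) (h : ∀ y ∈ l, x * y = y * x) : x * l.prod = l.prod * x := by
  induction l with
  | nil => simp
  | cons y l ih =>
    rw [List.prod_cons, ← mul_assoc, h y List.mem_cons_self, mul_assoc,
      ih (fun z hz => h z (List.mem_cons_of_mem _ hz)), mul_assoc]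

/-- one row: `L` (crossing of the line with the row), `U i` (crossings of the line with the columns),
`T i` (crossings of the row with the columns) -/
theorem row_sweep (l : List ι) (L : A) (U T : ι → A) (hY : ∀ i ∈ l, L * U i * T i = T i * U i * L)
    (hc : l.Pairwise (fun i j => U j * T i = T i * U j ∧ U i * T j = T j * U i)) :
    L * (l.map U).prod * (l.map T).prod = (l.map T).prod * (l.map U).prod * L := by
  induction l with
  | nil => simp
  | cons i l ih =>
    rw [List.pairwise_cons] at hc
    have ih := ih (fun j hj => hY j (List.mem_cons_of_mem _ hj)) hc.2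
    have h1 : T i * (l.map U).prod = (l.map U).prod * T i := by
      apply comm_prod
      intro y hy
      obtain ⟨j, hj, rfl⟩ := List.mem_map.1 hy
      exact (hc.1 j hj).1.symm
    have h2 : U i * (l.map T).prod = (l.map T).prod * U i := by
      apply comm_prod
      intro y hy
      obtain ⟨j, hj, rfl⟩ := List.mem_map.1 hy
      exact (hc.1 j hj).2
    simp only [List.map_cons, List.prod_cons]
    calc L * (U i * (l.map U).prod) * (T i * (l.map T).prod)
        = L * U i * ((l.map U).prod * T i) * (l.map T).prod := by simp only [mul_assoc]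
      _ = L * U i * T i * (l.map U).prod * (l.map T).prod := by rw [← h1]; simp only [mul_assoc]
      _ = T i * U i * (L * (l.map U).prod * (l.map T).prod) := by
          rw [hY i List.mem_cons_self]; simp only [mul_assoc]
      _ = T i * (U i * (l.map T).prod) * (l.map U).prod * L := by rw [ih]; simp only [mul_assoc]
      _ = T i * (l.map T).prod * (U i * (l.map U).prod) * L := by rw [h2]; simp only [mul_assoc]

/-- **The sweep over a block.** -/
theorem block_sweep (l : List ι) (L T : ι → A) (U : A)
    (hY : ∀ i ∈ l, L i * U * T i = T i * U * L i)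
    (hc : l.Pairwise (fun i j => L j * T i = T i * L j ∧ L i * T j = T j * L i)) :
    (l.reverse.map L).prod * U * (l.map T).prod = (l.map T).prod * U * (l.reverse.map L).prod := by
  induction l with
  | nil => simp
  | cons i l ih =>
    rw [List.pairwise_cons] at hc
    have ih := ih (fun j hj => hY j (List.mem_cons_of_mem _ hj)) hc.2
    have h1 : T i * (l.reverse.map L).prod = (l.reverse.map L).prod * T i := by
      apply comm_prod
      intro y hy
      obtain ⟨j, hj, rfl⟩ := List.mem_map.1 hy
      exact (hc.1 j (List.mem_reverse.1 hj)).1.symm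
    have h2 : L i * (l.map T).prod = (l.map T).prod * L i := by
      apply comm_prod
      intro y hy
      obtain ⟨j, hj, rfl⟩ := List.mem_map.1 hy
      exact (hc.1 j hj).2
    rw [List.reverse_cons, List.map_append, List.prod_append]
    simp only [List.map_cons, List.map_nil, List.prod_cons, List.prod_nil, mul_one]
    calc (l.reverse.map L).prod * L i * U * (T i * (l.map T).prod)
        = (l.reverse.map L).prod * (L i * U * T i) * (l.map T).prod := by simp only [mul_assoc]
      _ = ((l.reverse.map L).prod * T i) * U * (L i * (l.map T).prod) := by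
          rw [hY i List.mem_cons_self]; simp only [mul_assoc]
      _ = T i * ((l.reverse.map L).prod * U * (l.map T).prod) * L i := by
          rw [h2, ← h1]; simp only [mul_assoc]
      _ = T i * (l.map T).prod * U * ((l.reverse.map L).prod * L i) := by
          rw [ih]; simp only [mul_assoc]

theorem cancel_prod (l : List ι) (L R : ι → A) (h : ∀ i ∈ l, L i * R i = 1) :
    (l.reverse.map L).prod * (l.map R).prod = 1 := by
  induction l with
  | nil => simp
  | cons i l ih =>
    rw [List.reverse_cons, List.map_append, List.prod_append]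
    simp only [List.map_cons, List.map_nil, List.prod_cons, List.prod_nil, mul_one]
    calc (l.reverse.map L).prod * L i * (R i * (l.map R).prod)
        = (l.reverse.map L).prod * (L i * R i) * (l.map R).prod := by simp only [mul_assoc]
      _ = 1 := by
          rw [h i List.mem_cons_self, mul_one, ih (fun j hj => h j (List.mem_cons_of_mem _ hj))]

end Abs

section Lines

variable {K : Type*} [CommRing K] {V : Type*} [DecidableEq V]

/-- unitarity -/
theorem Rop_unit (e : ℤ) (x y : V) (h : x ≠ y) (p q p' q' : K) (h1 : p * p' = 1)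
    (h2 : p * q' + q * p' + q * q' = 0) : Rop e x y p q * Rop e y x p' q' = 1 := by
  have e1 : (Rop e y x p' q' : Module.End K (LP V → K)) = Rop (-e) x y p' q' := by
    unfold Rop
    congr 2
    · exact pb_congr fun f => sw_comm y x f
    · exact pb_congr fun f => jn_comm y x e e f h.symm
  rw [e1, Rop_Rop_neg e x y h, h1, h2, one_smul, zero_smul, add_zero]

/-- the row `r` crosses the columns -/
def rowX (e : ℤ) (r : V) (cs : List V) (p q : V → K) : Module.End K (LP V → K) :=
  (cs.map fun c => Rop e r c (p c) (q c)).prod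

/-- **The sweep of a line over a block.** -/
theorem sweep (e : ℤ) (u : V) (rs cs : List V) (hr : rs.Nodup) (hcs : cs.Nodup)
    (hur : ∀ r ∈ rs, u ≠ r) (huc : ∀ c ∈ cs, u ≠ c) (hrc : ∀ r ∈ rs, ∀ c ∈ cs, r ≠ c)
    (pl ql : V → K) (pu qu : V → K) (pt qt : V → V → K)
    (hY : ∀ r ∈ rs, ∀ c ∈ cs, pl r * qu c * pt r c =
      ql r * pu c * pt r c + pl r * pu c * qt r c + ql r * pu c * qt r c + ql r * qu c * qt r c) :
    (rs.reverse.map fun r => Rop e u r (pl r) (ql r)).prod * rowX e u cs pu qu *
        (rs.map fun r => rowX e r cs (pt r) (qt r)).prod =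
      (rs.map fun r => rowX e r cs (pt r) (qt r)).prod * rowX e u cs pu qu *
        (rs.reverse.map fun r => Rop e u r (pl r) (ql r)).prod := by
  apply block_sweep rs (fun r => Rop e u r (pl r) (ql r)) (fun r => rowX e r cs (pt r) (qt r))
  · intro r hr'
    unfold rowX
    apply row_sweep cs (Rop e u r (pl r) (ql r)) (fun c => Rop e u c (pu c) (qu c))
      (fun c => Rop e r c (pt r c) (qt r c))
    · intro c hc
      exact ybe e u r c (hur r hr') (huc c hc) (hrc r hr' c hc) _ _ _ _ _ _ (hY r hr' c hc)
    · refine hcs.imp_of_mem ?_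
      intro c c' hc hc' hne
      exact ⟨Rop_comm e e u c' r c _ _ _ _ (huc c' hc') (hur r hr') (huc c hc)
          (hrc r hr' c' hc').symm hne.symm (hrc r hr' c hc),
        Rop_comm e e u c r c' _ _ _ _ (huc c hc) (hur r hr') (huc c' hc')
          (hrc r hr' c hc).symm hne (hrc r hr' c' hc')⟩
  · refine hr.imp_of_mem ?_
    intro r r' hr1 hr2 hne
    have key : ∀ s t, s ∈ rs → t ∈ rs → s ≠ t →
        Rop e u s (pl s) (ql s) * rowX e t cs (pt t) (qt t) =
        rowX e t cs (pt t) (qt t) * Rop e u s (pl s) (ql s) := by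
      intro s t hs ht hst
      unfold rowX
      apply comm_prod
      intro y hy
      obtain ⟨c, hc, rfl⟩ := List.mem_map.1 hy
      exact Rop_comm e e u s t c _ _ _ _ (hur s hs) (hur t ht) (huc c hc) hst
        (hrc s hs c hc) (hrc t ht c hc)
    exact ⟨key r' r hr2 hr1 (fun h => hne h.symm), key r r' hr1 hr2 hne⟩

/-- **The line is moved from the left, bottom and right side of the block to its top.** -/
theorem sweep_up (e : ℤ) (u : V) (rs cs : List V) (hr : rs.Nodup) (hcs : cs.Nodup)
    (hur : ∀ r ∈ rs, u ≠ r) (huc : ∀ c ∈ cs, u ≠ c) (hrc : ∀ r ∈ rs, ∀ c ∈ cs, r ≠ c)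
    (pl ql pr qr : V → K) (pu qu : V → K) (pt qt : V → V → K)
    (hY : ∀ r ∈ rs, ∀ c ∈ cs, pl r * qu c * pt r c =
      ql r * pu c * pt r c + pl r * pu c * qt r c + ql r * pu c * qt r c + ql r * qu c * qt r c)
    (h1 : ∀ r ∈ rs, pl r * pr r = 1)
    (h2 : ∀ r ∈ rs, pl r * qr r + ql r * pr r + ql r * qr r = 0) :
    (rs.reverse.map fun r => Rop e u r (pl r) (ql r)).prod * rowX e u cs pu qu *
        (rs.map fun r => rowX e r cs (pt r) (qt r)).prod *
        (rs.map fun r => Rop e r u (pr r) (qr r)).prod =
      (rs.map fun r => rowX e r cs (pt r) (qt r)).prod * rowX e u cs pu qu := by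
  rw [sweep e u rs cs hr hcs hur huc hrc pl ql pu qu pt qt hY, mul_assoc,
    cancel_prod rs (fun r => Rop e u r (pl r) (ql r)) (fun r => Rop e r u (pr r) (qr r))
      (fun r hr => Rop_unit e u r (hur r hr) _ _ _ _ (h1 r hr) (h2 r hr)), mul_one]

end Lines

end LP

/-! ### The weights -/

/-- weight of the state left in, right out at relative angle `u` (`1/2` at `u = π/2`) -/
noncomputable def wa (u : ℂ) : ℂ := Complex.sin (u / 3) / Complex.sin ((u + Real.pi) / 3)

theorem one_sub_wa (u : ℂ) (h : Complex.sin ((u + Real.pi) / 3) ≠ 0) :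
    1 - wa u = Complex.sin ((Real.pi - u) / 3) / Complex.sin ((u + Real.pi) / 3) := by
  unfold wa
  rw [eq_div_iff h, sub_mul, div_mul_cancel₀ _ h, one_mul]
  have e1 : (u + Real.pi) / 3 = u / 3 + ((Real.pi / 3 : ℝ) : ℂ) := by push_cast; ring
  have e2 : (Real.pi - u) / 3 = ((Real.pi / 3 : ℝ) : ℂ) - u / 3 := by push_cast; ring
  rw [e1, e2, Complex.sin_add, Complex.sin_sub, ← Complex.ofReal_cos, ← Complex.ofReal_sin,
    Real.cos_pi_div_three, Real.sin_pi_div_three]
  push_cast
  ring

theorem trig_aux (sx cx sy cy r : ℂ) (h1 : r ^ 2 = 3) (h2 : sx ^ 2 + cx ^ 2 = 1)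
    (h3 : sy ^ 2 + cy ^ 2 = 1) :
    sx * (r / 2 * (cx * cy - sx * sy) + (sx * cy + cx * sy) / 2) * sy =
      (r / 2 * cx - sx / 2) * ((sx * cy + cx * sy) / 2 - r / 2 * (cx * cy - sx * sy)) * sy +
      sx * ((sx * cy + cx * sy) / 2 - r / 2 * (cx * cy - sx * sy)) * (r / 2 * cy - sy / 2) +
      (r / 2 * cx - sx / 2) * ((sx * cy + cx * sy) / 2 - r / 2 * (cx * cy - sx * sy)) *
        (r / 2 * cy - sy / 2) +
      (r / 2 * cx - sx / 2) * (r / 2 * (cx * cy - sx * sy) + (sx * cy + cx * sy) / 2) *
        (r / 2 * cy - sy / 2) := by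
  grind

/-- The weights `wa v`, `wa (v + w - π)`, `wa w` satisfy the Yang-Baxter condition. -/
theorem wa_ybe (v w : ℂ) (h1 : Complex.sin ((v + Real.pi) / 3) ≠ 0)
    (h2 : Complex.sin ((v + w - Real.pi + Real.pi) / 3) ≠ 0)
    (h3 : Complex.sin ((w + Real.pi) / 3) ≠ 0) :
    wa v * (1 - wa (v + w - Real.pi)) * wa w =
      (1 - wa v) * wa (v + w - Real.pi) * wa w + wa v * wa (v + w - Real.pi) * (1 - wa w) +
      (1 - wa v) * wa (v + w - Real.pi) * (1 - wa w) +
      (1 - wa v) * (1 - wa (v + w - Real.pi)) * (1 - wa w) := by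
  rw [one_sub_wa _ h1, one_sub_wa _ h2, one_sub_wa _ h3]
  unfold wa
  have hr : ((Real.sqrt 3 : ℝ) : ℂ) ^ 2 = 3 := by
    rw [← Complex.ofReal_pow, Real.sq_sqrt (by norm_num)]
    norm_num
  have hx := Complex.sin_sq_add_cos_sq (v / 3)
  have hy := Complex.sin_sq_add_cos_sq (w / 3)
  have key := trig_aux _ _ _ _ _ hr hx hy
  have e0 : (v + w - Real.pi + Real.pi) / 3 = v / 3 + w / 3 := by ring
  have e1 : Complex.sin ((v + w - Real.pi) / 3) =
      (Complex.sin (v / 3) * Complex.cos (w / 3) + Complex.cos (v / 3) * Complex.sin (w / 3)) / 2 -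
      (Real.sqrt 3 : ℝ) / 2 * (Complex.cos (v / 3) * Complex.cos (w / 3) -
        Complex.sin (v / 3) * Complex.sin (w / 3)) := by
    have : (v + w - Real.pi) / 3 = (v / 3 + w / 3) - ((Real.pi / 3 : ℝ) : ℂ) := by push_cast; ring
    rw [this, Complex.sin_sub, ← Complex.ofReal_cos, ← Complex.ofReal_sin,
      Real.cos_pi_div_three, Real.sin_pi_div_three, Complex.sin_add, Complex.cos_add]
    push_cast
    ring
  have e2 : Complex.sin ((Real.pi - (v + w - Real.pi)) / 3) =
      (Real.sqrt 3 : ℝ) / 2 * (Complex.cos (v / 3) * Complex.cos (w / 3) -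
        Complex.sin (v / 3) * Complex.sin (w / 3)) +
      (Complex.sin (v / 3) * Complex.cos (w / 3) + Complex.cos (v / 3) * Complex.sin (w / 3)) / 2 := by
    have : (Real.pi - (v + w - Real.pi)) / 3 =
        ((Real.pi : ℝ) : ℂ) - ((v / 3 + w / 3) + ((Real.pi / 3 : ℝ) : ℂ)) := by push_cast; ring
    rw [this, Complex.sin_pi_sub, Complex.sin_add, ← Complex.ofReal_cos, ← Complex.ofReal_sin,
      Real.cos_pi_div_three, Real.sin_pi_div_three, Complex.sin_add, Complex.cos_add]
    push_cast
    ring
  have e3 : ∀ z : ℂ, Complex.sin ((Real.pi - z) / 3) =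
      (Real.sqrt 3 : ℝ) / 2 * Complex.cos (z / 3) - Complex.sin (z / 3) / 2 := by
    intro z
    have : (Real.pi - z) / 3 = ((Real.pi / 3 : ℝ) : ℂ) - z / 3 := by push_cast; ring
    rw [this, Complex.sin_sub, ← Complex.ofReal_cos, ← Complex.ofReal_sin,
      Real.cos_pi_div_three, Real.sin_pi_div_three]
    push_cast
    ring
  rw [e0] at h2 ⊢
  rw [e1, e2, e3 v, e3 w]
  rw [Complex.sin_add] at h2 ⊢
  generalize Complex.sin (v / 3) = sx at *
  generalize Complex.cos (v / 3) = cx at *
  generalize Complex.sin (w / 3) = sy at *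
  generalize Complex.cos (w / 3) = cy at *
  generalize ((Real.sqrt 3 : ℝ) : ℂ) = r at *
  generalize Complex.sin ((v + Real.pi) / 3) = A at *
  generalize Complex.sin ((w + Real.pi) / 3) = B at *
  field_simp
  linear_combination (norm := ring_nf) 8 * key

/-- unitarity of the weights on the two sides of a block -/
theorem wa_unit (v : ℂ) (h1 : Complex.sin ((v + Real.pi) / 3) ≠ 0)
    (h2 : Complex.sin ((v - Real.pi + Real.pi) / 3) ≠ 0) :
    wa v * (1 - wa (v - Real.pi)) = 1 := by
  rw [one_sub_wa _ h2]
  unfold wa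
  have e0 : (v - Real.pi + Real.pi) / 3 = v / 3 := by ring
  have e1 : Complex.sin ((Real.pi - (v - Real.pi)) / 3) = Complex.sin ((v + Real.pi) / 3) := by
    have : (Real.pi - (v - Real.pi)) / 3 = ((Real.pi : ℝ) : ℂ) - (v + Real.pi) / 3 := by
      push_cast; ring
    rw [this, Complex.sin_pi_sub]
  rw [e0] at h2 ⊢
  rw [e1]
  field_simp

end Pool.Agent.H64.Q1
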