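import Pool.Agent.H64.Q1.Reg9

/-!
# The exchange theorem for networks: statement and proof
-/

namespace Pool.Agent.H64.Q1

open LP Pool.Agent.H81.G1 Pool.Agent.H13.Q1

/-! ### Dependence -/

section dep

variable {D : Type*} [DecidableEq D]

theorem Dep.jns {A : Set D} {Φ : LP D → ℂ} (hΦ : Dep A Φ) {J : List (D × D × ℤ)}
    (hJ : ∀ x ∈ jm J, x ∈ A) : Dep A (fun s => Φ (Q1.jns J s)) := by
  induction J with
  | nil => exact hΦ
  | cons j J ih =>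
    have h1 := ih fun x hx => hJ x (List.mem_cons_of_mem _ (List.mem_cons_of_mem _ hx))
    intro s s' hs
    exact h1 _ _ (hs.jn (hJ j.1 (by simp [jm])) (hJ j.2.1 (by simp [jm])) _ _)

theorem Dep.SF {A : Set D} {Φ : LP D → ℂ} (hΦ : Dep A Φ) {l : List (Tl D)}
    (hl : ∀ t ∈ l, t.z0 ∈ A ∧ t.z1 ∈ A ∧ t.z2 ∈ A ∧ t.z3 ∈ A) :
    Dep A (fun s => Q1.SF s l Φ) := by
  induction l generalizing Φ with
  | nil => exact hΦ
  | cons t l ih =>
    obtain ⟨h0, h1, h2, h3⟩ := hl t List.mem_cons_self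
    refine ih (Φ := fun s => t.w * Φ (t.op false s) + (1 - t.w) * Φ (t.op true s)) ?_
      fun t' ht' => hl t' (List.mem_cons_of_mem _ ht')
    intro s s' hs
    have e1 : Φ (t.op false s) = Φ (t.op false s') := by
      apply hΦ
      unfold Tl.op tl
      simp only [Bool.false_eq_true, if_false]
      exact (hs.jn h1 h2 _ _).jn h0 h3 _ _
    have e2 : Φ (t.op true s) = Φ (t.op true s') := by
      apply hΦ
      unfold Tl.op tl
      simp only [if_true]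
      exact (hs.jn h2 h3 _ _).jn h0 h1 _ _
    simp only [e1, e2]

end dep

/-! ### Regions -/

/-- the tile `i` of a region -/
def rgT {R A : Type*} (er : R × Dir → A) (st : R → Dir) (wt : R → ℂ) (i : R) : Tl A :=
  ⟨er (i, st i), er (i, rc (st i)), er (i, rc (rc (st i))), er (i, rc (rc (rc (st i)))), wt i⟩

/-- **A region** with the tiles `R`, the names `A`, the front `f1`, `f2`, the ports `p1`, `p2` -/
structure Rgn (R A : Type*) [DecidableEq A] (n1 n2 : ℕ) where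
  g : LP A
  u : A
  v : A
  er : R × Dir → A
  f1 : Fin n1 → A
  f2 : Fin n2 → A
  kf : A → ℤ
  t1 : Fin n1 → ℂ
  t2 : Fin n2 → ℂ
  p1 : Fin n1 → R × Dir
  p2 : Fin n2 → R × Dir
  st : R → Dir
  I : List R
  wt : R → ℂ
  nd : I.Nodup
  all : ∀ i, i ∈ I
  er_inj : Function.Injective er
  kuv : kf u = 0 ∧ kf v = 0
  erf : ∀ x, er x ≠ u ∧ er x ≠ v ∧ (∀ i, er x ≠ f1 i) ∧ ∀ i, er x ≠ f2 i
  gp1 : ∀ i, g (er (p1 i)) = f1 i
  gp2 : ∀ i, g (er (p2 i)) = f2 i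
  cls : ∀ x, (∃ y, g (er x) = er y) ∨ (∃ i, x = p1 i) ∨ ∃ i, x = p2 i
  bt : ∃ T, Bt g u v T (I.map (rgT er st wt))
    (List.ofFn (fun i => (f1 i, kf (f1 i), t1 i)) ++ List.ofFn fun i => (f2 i, kf (f2 i), t2 i))

/-- exposed ends -/
inductive Ex (O : Type*) (n1 n2 : ℕ)
  | f1 (i : Fin n1)
  | f2 (i : Fin n2)
  | o (x : O × Dir)
  | u
  | v
  deriving DecidableEq, Fintype

namespace Rgn

variable {R A : Type*} [DecidableEq A] {n1 n2 : ℕ} (X : Rgn R A n1 n2)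

theorem fn1 : fn (List.ofFn (fun i => (X.f1 i, X.kf (X.f1 i), X.t1 i)) ++
    List.ofFn fun i => (X.f2 i, X.kf (X.f2 i), X.t2 i)) =
      List.ofFn X.f1 ++ List.ofFn X.f2 := by
  rw [fn_append]
  unfold fn
  rw [List.map_ofFn, List.map_ofFn]
  rfl

theorem f1_inj : Function.Injective X.f1 := by
  obtain ⟨T, h⟩ := X.bt
  have h1 := h.inv.nd
  rw [X.fn1, List.nodup_append] at h1
  exact List.nodup_ofFn.1 h1.1

theorem f2_inj : Function.Injective X.f2 := by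
  obtain ⟨T, h⟩ := X.bt
  have h1 := h.inv.nd
  rw [X.fn1, List.nodup_append] at h1
  exact List.nodup_ofFn.1 h1.2.1

theorem f1_ne_f2 (i : Fin n1) (j : Fin n2) : X.f1 i ≠ X.f2 j := by
  obtain ⟨T, h⟩ := X.bt
  have h1 := h.inv.nd
  rw [X.fn1, List.nodup_append] at h1
  exact h1.2.2 _ ((List.mem_ofFn' _ _).2 ⟨i, rfl⟩) _ ((List.mem_ofFn' _ _).2 ⟨j, rfl⟩)

theorem f1_uv (i : Fin n1) : X.f1 i ≠ X.u ∧ X.f1 i ≠ X.v := by
  obtain ⟨T, h⟩ := X.bt
  have h1 := h.inv.F0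
  rw [X.fn1] at h1
  have h2 : X.f1 i ∈ List.ofFn X.f1 ++ List.ofFn X.f2 :=
    List.mem_append_left _ ((List.mem_ofFn' _ _).2 ⟨i, rfl⟩)
  exact ⟨fun e => h1.1 (e ▸ h2), fun e => h1.2 (e ▸ h2)⟩

theorem f2_uv (i : Fin n2) : X.f2 i ≠ X.u ∧ X.f2 i ≠ X.v := by
  obtain ⟨T, h⟩ := X.bt
  have h1 := h.inv.F0
  rw [X.fn1] at h1
  have h2 : X.f2 i ∈ List.ofFn X.f1 ++ List.ofFn X.f2 :=
    List.mem_append_right _ ((List.mem_ofFn' _ _).2 ⟨i, rfl⟩)
  exact ⟨fun e => h1.1 (e ▸ h2), fun e => h1.2 (e ▸ h2)⟩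

theorem guv : X.g X.u = X.v := by
  obtain ⟨T, h⟩ := X.bt
  exact h.inv.gu

theorem p1_inj : Function.Injective X.p1 := fun i j h => X.f1_inj (by
  rw [← X.gp1, ← X.gp1, h])

theorem p2_inj : Function.Injective X.p2 := fun i j h => X.f2_inj (by
  rw [← X.gp2, ← X.gp2, h])

variable (h1 : 0 < n1) (h2 : 0 < n2)

/-- the turnings of the exposures of the first network -/
def lam1 {O : Type*} : Ex O n1 n2 → ℤ
  | .f1 _ => 0
  | .f2 i => X.g.d (X.er (X.p2 i))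
  | .o _ => 0
  | .u => 0 - (X.kf (X.f1 ⟨n1 - 1, by omega⟩) + 1)
  | .v => 1 - X.kf (X.f1 ⟨0, h1⟩) + 0

/-- the turnings of the exposures of the second network -/
def lam2 {O : Type*} : Ex O n1 n2 → ℤ
  | .f1 i => X.g.d (X.er (X.p1 i))
  | .f2 _ => 0
  | .o _ => 0
  | .u => 1 - X.kf (X.f2 ⟨0, h2⟩) + 0
  | .v => 4 - (X.kf (X.f2 ⟨n2 - 1, by omega⟩) + 1)

variable {O ι1 ι2 : Type*}

/-- the exposed ends of the first network -/
def E1 (J : R ⊕ O ⊕ Fin n1 ≃ ι1) (s : Fin n1 → Dir) : Ex O n1 n2 → ι1 × Dir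
  | .f1 i => jl J i (rc (rc (rc (s i))))
  | .f2 i => jr J (X.p2 i)
  | .o x => jo J x
  | .u => jl J ⟨n1 - 1, by omega⟩ (rc (rc (s ⟨n1 - 1, by omega⟩)))
  | .v => jl J ⟨0, h1⟩ (s ⟨0, h1⟩)

/-- the exposed ends of the second network -/
def E2 (J : R ⊕ O ⊕ Fin n2 ≃ ι2) (s : Fin n2 → Dir) : Ex O n1 n2 → ι2 × Dir
  | .f1 i => jr J (X.p1 i)
  | .f2 i => jl J i (rc (rc (rc (s i))))
  | .o x => jo J x
  | .u => jl J ⟨0, h2⟩ (s ⟨0, h2⟩)
  | .v => jl J ⟨n2 - 1, by omega⟩ (rc (rc (s ⟨n2 - 1, by omega⟩)))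

/-- the names of the exposures -/
def ex {C E : Type*} : Ex O n1 n2 → Nm A (O × Dir) C E
  | .f1 i => .r (X.f1 i)
  | .f2 i => .r (X.f2 i)
  | .o x => .o x true
  | .u => .r X.u
  | .v => .r X.v

theorem ex_inj {C E : Type*} : Function.Injective (X.ex (O := O) (C := C) (E := E)) := by
  have huv : X.u ≠ X.v := by rw [← X.guv]; exact X.g.ne2 _
  rintro (i | i | x | _ | _) (j | j | y | _ | _) h <;> simp only [ex] at h
  · rw [X.f1_inj (Nm.r.inj h)]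
  · exact absurd (Nm.r.inj h) (X.f1_ne_f2 _ _)
  · exact absurd h (by simp)
  · exact absurd (Nm.r.inj h) (X.f1_uv _).1
  · exact absurd (Nm.r.inj h) (X.f1_uv _).2
  · exact absurd (Nm.r.inj h).symm (X.f1_ne_f2 _ _)
  · rw [X.f2_inj (Nm.r.inj h)]
  · exact absurd h (by simp)
  · exact absurd (Nm.r.inj h) (X.f2_uv _).1
  · exact absurd (Nm.r.inj h) (X.f2_uv _).2
  · exact absurd h (by simp)
  · exact absurd h (by simp)
  · rw [(Nm.o.inj h).1]
  · exact absurd h (by simp)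
  · exact absurd h (by simp)
  · exact absurd (Nm.r.inj h).symm (X.f1_uv _).1
  · exact absurd (Nm.r.inj h).symm (X.f2_uv _).1
  · exact absurd h (by simp)
  · rfl
  · exact absurd (Nm.r.inj h) huv
  · exact absurd (Nm.r.inj h).symm (X.f1_uv _).2
  · exact absurd (Nm.r.inj h).symm (X.f2_uv _).2
  · exact absurd h (by simp)
  · exact absurd (Nm.r.inj h).symm huv
  · rfl

theorem exps1 {C E : Type*} (J : R ⊕ O ⊕ Fin n1 ≃ ι1) (s : Fin n1 → Dir) :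
    Exps (C := C) (Q := Ex O n1 n2) X.er X.p1 X.p2 (fun i => X.kf (X.f1 i)) X.g X.f1 X.f2 X.u X.v
      0 0 J s (X.E1 h1 J s) (X.lam1 h1) X.ex := by
  refine ⟨?_, fun i => ⟨.f1 i, rfl⟩, fun i => ⟨.f2 i, rfl⟩, fun x => ⟨.o x, rfl⟩, ?_, ?_, X.ex_inj⟩
  · rintro (i | i | x | _ | _)
    · exact Or.inl ⟨i, rfl, rfl, rfl⟩
    · exact Or.inr (Or.inl ⟨i, rfl, rfl, rfl⟩)
    · exact Or.inr (Or.inr (Or.inl ⟨x, rfl, rfl, rfl⟩))
    · exact Or.inr (Or.inr (Or.inr (Or.inl ⟨⟨n1 - 1, by omega⟩, by simp; omega, rfl, rfl, rfl⟩)))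
    · exact Or.inr (Or.inr (Or.inr (Or.inr ⟨⟨0, h1⟩, rfl, rfl, rfl, rfl⟩)))
  · intro i hi
    have : i = ⟨n1 - 1, by omega⟩ := Fin.ext (by simp; omega)
    refine ⟨.u, ?_⟩
    rw [this]
    rfl
  · intro i hi
    have : i = ⟨0, h1⟩ := Fin.ext hi
    subst this
    exact ⟨.v, rfl⟩

theorem exps2 {C E : Type*} (J : R ⊕ O ⊕ Fin n2 ≃ ι2) (s : Fin n2 → Dir) :
    Exps (C := C) (Q := Ex O n1 n2) X.er X.p2 X.p1 (fun i => X.kf (X.f2 i)) X.g X.f2 X.f1 X.v X.u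
      4 0 J s (X.E2 h2 J s) (X.lam2 h2) X.ex := by
  refine ⟨?_, fun i => ⟨.f2 i, rfl⟩, fun i => ⟨.f1 i, rfl⟩, fun x => ⟨.o x, rfl⟩, ?_, ?_, X.ex_inj⟩
  · rintro (i | i | x | _ | _)
    · exact Or.inr (Or.inl ⟨i, rfl, rfl, rfl⟩)
    · exact Or.inl ⟨i, rfl, rfl, rfl⟩
    · exact Or.inr (Or.inr (Or.inl ⟨x, rfl, rfl, rfl⟩))
    · exact Or.inr (Or.inr (Or.inr (Or.inr ⟨⟨0, h2⟩, rfl, rfl, rfl, rfl⟩)))
    · exact Or.inr (Or.inr (Or.inr (Or.inl ⟨⟨n2 - 1, by omega⟩, by simp; omega, rfl, rfl, rfl⟩)))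
  · intro i hi
    have : i = ⟨n2 - 1, by omega⟩ := Fin.ext (by simp; omega)
    refine ⟨.v, ?_⟩
    rw [this]
    rfl
  · intro i hi
    have : i = ⟨0, h2⟩ := Fin.ext hi
    subst this
    exact ⟨.u, rfl⟩

end Rgn

/-! ### The list of the tiles -/

section list

variable {R A O C Q ι : Type*} [DecidableEq A] [DecidableEq O] [DecidableEq C] [DecidableEq Q]
  [Fintype O] {n : ℕ}

/-- the tiles: others, line, region -/
noncomputable def allT (J : R ⊕ O ⊕ Fin n ≃ ι) (I : List R) : List ι :=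
  (Finset.univ : Finset O).toList.map (fun o => J (.inr (.inl o))) ++
    ((List.ofFn fun i : Fin n => J (.inr (.inr i))).reverse ++ I.map fun i => J (.inl i))

omit [DecidableEq O] in
theorem allT_nodup (J : R ⊕ O ⊕ Fin n ≃ ι) {I : List R} (hI : I.Nodup) : (allT J I).Nodup := by
  unfold allT
  rw [List.nodup_append, List.nodup_append]
  refine ⟨(Finset.nodup_toList _).map fun a b h => ?_, ⟨?_, hI.map fun a b h => ?_, ?_⟩, ?_⟩
  · simpa using h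
  · rw [List.nodup_reverse, List.nodup_ofFn]
    intro a b h
    simpa using h
  · simpa using h
  · intro a ha b hb hab
    subst hab
    rw [List.mem_reverse, List.mem_ofFn'] at ha
    obtain ⟨i, hi⟩ := ha
    obtain ⟨j, -, hj⟩ := List.mem_map.1 hb
    have := J.injective (hi.trans hj.symm)
    simp at this
  · intro a ha b hb hab
    subst hab
    obtain ⟨o, -, ho⟩ := List.mem_map.1 ha
    rcases List.mem_append.1 hb with hb | hb
    · rw [List.mem_reverse, List.mem_ofFn'] at hb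
      obtain ⟨i, hi⟩ := hb
      have := J.injective (ho.trans hi.symm)
      simp at this
    · obtain ⟨j, -, hj⟩ := List.mem_map.1 hb
      have := J.injective (ho.trans hj.symm)
      simp at this

omit [DecidableEq O] in
theorem allT_all (J : R ⊕ O ⊕ Fin n ≃ ι) {I : List R} (hI : ∀ i, i ∈ I) (x : ι) :
    x ∈ allT J I := by
  obtain ⟨j, rfl⟩ := J.surjective x
  unfold allT
  rw [List.mem_append, List.mem_append]
  rcases j with j | j | j
  · exact Or.inr (Or.inr (List.mem_map.2 ⟨j, hI j, rfl⟩))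
  · exact Or.inl (List.mem_map.2 ⟨j, by simp, rfl⟩)
  · refine Or.inr (Or.inl ?_)
    rw [List.mem_reverse, List.mem_ofFn']
    exact ⟨j, rfl⟩

/-- the first ends of the tiles -/
def stJ (J : R ⊕ O ⊕ Fin n ≃ ι) (st : R → Dir) (s : Fin n → Dir) (x : ι) : Dir :=
  match J.symm x with
  | .inl i => st i
  | .inr (.inl _) => .W
  | .inr (.inr i) => s i

/-- the other tiles -/
noncomputable def lO {E : Type*} (b : O → ℂ) : List (Tl (Nm A (O × Dir) C E)) :=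
  (Finset.univ : Finset O).toList.map fun o =>
    ⟨.o (o, .W) false, .o (o, .N) false, .o (o, .E) false, .o (o, .S) false, b o⟩

theorem allT_map (J : R ⊕ O ⊕ Fin n ≃ ι) (I : List R) (er : R × Dir → A) (cL : Fin n → C)
    (fL : Fin n → A) (s : Fin n → Dir) (st : R → Dir) (wt : R → ℂ) (p : Fin n → ℂ)
    {a b : ι → ℂ} (hR : ∀ i, (if (st i).v then a (J (.inl i)) else b (J (.inl i))) = wt i)
    (hL : ∀ i, (if (s i).v then a (J (.inr (.inr i))) else b (J (.inr (.inr i)))) = p i) :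
    (allT J I).map (nTl (eN (Q := Q) J er cL s) a b (stJ J st s)) =
      lO (fun o => b (J (.inr (.inl o)))) ++
        (((List.ofFn (lnT cL fL p)).map Lt.tl).reverse ++ (I.map (rgT er st wt)).map
          (Tl.map Nm.r)) := by
  unfold allT lO
  rw [List.map_append, List.map_append, List.map_map, List.map_map, List.map_map, List.map_reverse,
    List.map_ofFn, List.map_ofFn]
  refine congrArg₂ (· ++ ·) ?_ (congrArg₂ (· ++ ·) ?_ ?_)
  · apply List.map_congr_left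
    intro o _
    have e1 : stJ J st s (J (.inr (.inl o))) = .W := by
      unfold stJ; simp only [Equiv.symm_apply_apply]
    have e2 : ∀ d, eN (Q := Q) J er cL s (J (.inr (.inl o)), d) = .o (o, d) false :=
      fun d => eN_o J er cL s (o, d)
    simp only [Function.comp_apply]
    unfold nTl
    rw [e1, e2, e2, e2, e2]
    rfl
  · congr 2
    funext i
    have e1 : stJ J st s (J (.inr (.inr i))) = s i := by
      unfold stJ; simp only [Equiv.symm_apply_apply]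
    have e2 : ∀ d, eN (Q := Q) J er cL s (J (.inr (.inr i)), d) = .l (cL i) (rel (s i) d) :=
      fun d => eN_l J er cL s i d
    simp only [Function.comp_apply]
    unfold nTl
    rw [e1, e2, e2, e2, e2, rel_0, rel_1, rel_2, rel_3, hL]
    rfl
  · apply List.map_congr_left
    intro i _
    have e1 : stJ J st s (J (.inl i)) = st i := by
      unfold stJ; simp only [Equiv.symm_apply_apply]
    have e2 : ∀ d, eN (Q := Q) J er cL s (J (.inl i), d) = .r (er (i, d)) :=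
      fun d => eN_r J er cL s (i, d)
    simp only [Function.comp_apply]
    unfold nTl
    rw [e1, e2, e2, e2, e2, hR]
    rfl

end list

/-! ### The theorem -/

section main

variable {R A O ι1 ι2 : Type*} [DecidableEq A] [DecidableEq O] [Fintype O] [Fintype ι1]
  [DecidableEq ι1] [Fintype ι2] [DecidableEq ι2] {n1 n2 : ℕ}

/-- the names of the theorem -/
abbrev NN (A O : Type*) (n1 n2 : ℕ) : Type _ :=
  Nm A (O × Dir) (Fin n1 ⊕ Fin n2) (Ex O n1 n2 ⊕ Fin 4)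

/-- the names of a line are fresh -/
theorem fresh_line (X : Rgn R A n1 n2) (gE : LP (Ex O n1 n2 ⊕ Fin 4)) {n : ℕ} (T : Set A)
    {cL : Fin n → Fin n1 ⊕ Fin n2} (hcL : Function.Injective cL) (fL : Fin n → A) (p : Fin n → ℂ)
    (kC : Fin n1 ⊕ Fin n2 → ℤ) :
    Fresh (gN X.g gE) (Nm.r '' T) (kN (B := O × Dir) X.kf kC) (List.ofFn (lnT cL fL p)) := by
  refine ⟨?_, ?_, ?_, ?_, ?_⟩
  · intro t ht x hx
    obtain ⟨i, rfl⟩ := (List.mem_ofFn' _ _).1 ht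
    rintro ⟨y, -, rfl⟩
    rcases hx with h | h | h | h <;> simp [lnT] at h
  · intro t ht
    obtain ⟨i, rfl⟩ := (List.mem_ofFn' _ _).1 ht
    simp [lnT]
  · rw [List.pairwise_ofFn]
    intro i j hij x hx hx'
    have h1 : cL i ≠ cL j := fun h => hij.ne (hcL h)
    rcases hx with h | h | h | h <;> rcases hx' with h' | h' | h' | h' <;>
      rw [h] at h' <;> simp only [lnT] at h' <;> exact h1 (Nm.l.inj h').1
  · intro t ht
    obtain ⟨i, rfl⟩ := (List.mem_ofFn' _ _).1 ht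
    exact ⟨rfl, rfl, rfl⟩
  · intro t ht
    obtain ⟨i, rfl⟩ := (List.mem_ofFn' _ _).1 ht
    exact ⟨rfl, rfl, rfl, rfl⟩

theorem mem_le_line {X : Type*} {n : ℕ} {cL : Fin n → Fin n1 ⊕ Fin n2} {fL : Fin n → X}
    {p : Fin n → ℂ} {x : Nm X (O × Dir) (Fin n1 ⊕ Fin n2) (Ex O n1 n2 ⊕ Fin 4)}
    (h : Le (List.ofFn (lnT cL fL p)) x) : ∃ i d, x = .l (cL i) d := by
  obtain ⟨t, ht, hx⟩ := h
  obtain ⟨i, rfl⟩ := (List.mem_ofFn' _ _).1 ht
  rcases hx with h | h | h | h <;> exact ⟨i, _, h⟩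

/-- **The exchange theorem for networks with a given outer wiring.** -/
theorem net_exchange' (X : Rgn R A n1 n2) (h1 : 0 < n1) (h2 : 0 < n2)
    {N1 : Net ι1} {N2 : Net ι2} {P1 : ι1 → Bool} {P2 : ι2 → Bool} (G1 : N1.Good P1)
    (G2 : N2.Good P2) (J1 : R ⊕ O ⊕ Fin n1 ≃ ι1) (J2 : R ⊕ O ⊕ Fin n2 ≃ ι2)
    (s1 : Fin n1 → Dir) (s2 : Fin n2 → Dir)
    (H1 : LineNet X.g X.er X.p1 (fun i => X.kf (X.f1 i)) J1 s1 N1)
    (H2 : LineNet X.g X.er X.p2 (fun i => X.kf (X.f2 i)) J2 s2 N2)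
    (ρ : LP (Ex O n1 n2))
    (hρ1 : ∀ q, N1.π (X.E1 h1 J1 s1 q) = X.E1 h1 J1 s1 (ρ q) ∧
      N1.t (X.E1 h1 J1 s1 q) = X.lam1 h1 q + ρ.d q - X.lam1 h1 (ρ q))
    (hρ2 : ∀ q, N2.π (X.E2 h2 J2 s2 q) = X.E2 h2 J2 s2 (ρ q) ∧
      N2.t (X.E2 h2 J2 s2 q) = X.lam2 h2 q + ρ.d q - X.lam2 h2 (ρ q))
    {q0 q1 : Ex O n1 n2} (hq : q1 ≠ q0) (hq' : q1 ≠ ρ q0)
    (x01 : N1.x0 = X.E1 h1 J1 s1 q0) (y01 : N1.y0 = X.E1 h1 J1 s1 q1)
    (x02 : N2.x0 = X.E2 h2 J2 s2 q0) (y02 : N2.y0 = X.E2 h2 J2 s2 q1)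
    {a1 b1 : ι1 → ℂ} {a2 b2 : ι2 → ℂ} (hab1 : ∀ i, a1 i + b1 i = 1) (hab2 : ∀ i, a2 i + b2 i = 1)
    (wR1 : ∀ i, (if (X.st i).v then a1 (J1 (.inl i)) else b1 (J1 (.inl i))) = X.wt i)
    (wR2 : ∀ i, (if (X.st i).v then a2 (J2 (.inl i)) else b2 (J2 (.inl i))) = X.wt i)
    (wO : ∀ o, b1 (J1 (.inr (.inl o))) = b2 (J2 (.inr (.inl o))))
    (wL1 : ∀ i, (if (s1 i).v then a1 (J1 (.inr (.inr i))) else b1 (J1 (.inr (.inr i)))) =
      wa (X.t1 i))
    (wL2 : ∀ i, (if (s2 i).v then a2 (J2 (.inr (.inr i))) else b2 (J2 (.inr (.inr i)))) =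
      1 - (wa (X.t2 i))⁻¹) :
    N2.Z a2 b2 = zt ^ (2 * ((X.lam2 h2 q1 - X.lam1 h1 q1) - (X.lam2 h2 q0 - X.lam1 h1 q0))) *
      N1.Z a1 b1 := by
  classical
  obtain ⟨T, hT⟩ := X.bt
  have huv : X.u ≠ X.v := by rw [← X.guv]; exact X.g.ne2 _
  set gE : LP (Ex O n1 n2 ⊕ Fin 4) := cut ρ hq hq' with hgE
  set kC : Fin n1 ⊕ Fin n2 → ℤ := Sum.elim (fun i => X.kf (X.f1 i)) (fun i => X.kf (X.f2 i)) with hkC
  set κ : NN A O n1 n2 → ℤ := kN X.kf kC with hκ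
  set κ2 : NN A O n1 n2 → ℤ := Function.update κ (.r X.v) 4 with hκ2
  set g : LP (NN A O n1 n2) := gN X.g gE with hg
  set L1 : List (Lt (NN A O n1 n2)) :=
    List.ofFn (lnT Sum.inl X.f1 (fun i => wa (X.t1 i))) with hL1
  set L2 : List (Lt (NN A O n1 n2)) :=
    List.ofFn (lnT Sum.inr X.f2 (fun i => 1 - (wa (X.t2 i))⁻¹)) with hL2
  have κu : κ (.r X.u) = 0 := X.kuv.1
  have κv : κ (.r X.v) = 0 := X.kuv.2
  have κ2v : κ2 (.r X.v) = 4 := Function.update_self _ _ _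
  have κ2u : κ2 (.r X.u) = 0 := by
    rw [hκ2, Function.update_of_ne (fun e => huv (Nm.r.inj e)), κu]
  -- the two sides
  obtain ⟨A1, B1⟩ := side_half (C := Fin n1 ⊕ Fin n2) (Q := Ex O n1 n2) (gE := gE) (κ0 := κ)
    (κ := κ) (c := 2) (cL := Sum.inl) X.guv (Or.inl ⟨rfl, rfl⟩) X.er_inj Sum.inl_injective X.f1_inj
    X.erf X.f1_uv X.f2_uv (fun i j => (X.f1_ne_f2 j i).symm) X.gp1 X.gp2 X.cls
    (fun _ _ _ => rfl) (fun i => ⟨rfl, rfl, rfl, rfl, rfl⟩)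
    ⟨fun _ => rfl, fun h => absurd h huv⟩ (fun i => wa (X.t1 i)) H1 (by
      rw [κu, κv]; exact X.exps1 (E := Ex O n1 n2 ⊕ Fin 4) h1 J1 s1) hρ1
  obtain ⟨A2, B2⟩ := side_half (C := Fin n1 ⊕ Fin n2) (Q := Ex O n1 n2) (gE := gE) (κ0 := κ)
    (κ := κ2) (c := -2) (cL := Sum.inr) X.guv (Or.inr ⟨rfl, rfl⟩) X.er_inj Sum.inr_injective
    X.f2_inj (fun x => ⟨(X.erf x).1, (X.erf x).2.1, (X.erf x).2.2.2, (X.erf x).2.2.1⟩)
    X.f2_uv X.f1_uv X.f1_ne_f2 X.gp2 X.gp1 (fun x => (X.cls x).imp id Or.symm)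
    (fun x hx _ => Function.update_of_ne hx _ _) (fun i => ⟨rfl, rfl, rfl, rfl, rfl⟩)
    ⟨fun h => absurd h.symm huv, fun _ => rfl⟩ (fun i => 1 - (wa (X.t2 i))⁻¹) H2 (by
      rw [κ2u, κ2v]; exact X.exps2 (E := Ex O n1 n2 ⊕ Fin 4) h2 J2 s2) hρ2
  have R1 := A1.rlz hq hq' B1 x01 y01
  have R2 := A2.rlz hq hq' B2 x02 y02
  have Z1 := R1.Z G1 (allT_nodup J1 X.nd) (allT_all J1 X.all) a1 b1 hab1 (stJ J1 X.st s1)
  have Z2 := R2.Z G2 (allT_nodup J2 X.nd) (allT_all J2 X.all) a2 b2 hab2 (stJ J2 X.st s2)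
  rw [allT_map J1 X.I X.er Sum.inl X.f1 s1 X.st X.wt (fun i => wa (X.t1 i)) wR1 wL1,
    SF_append] at Z1
  rw [allT_map J2 X.I X.er Sum.inr X.f2 s2 X.st X.wt (fun i => 1 - (wa (X.t2 i))⁻¹) wR2 wL2,
    SF_append] at Z2
  have hO : (fun o => b1 (J1 (.inr (.inl o)))) = fun o => b2 (J2 (.inr (.inl o))) := funext wO
  rw [hO] at Z1
  -- the exchange
  have hB := hT.map (g' := g) (j := Nm.r) (fun a b h => Nm.r.inj h) (fun _ => rfl) (fun _ => rfl)
  rw [List.map_append, List.map_ofFn, List.map_ofFn] at hB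
  set V := sockets (X.ex (O := O) (C := Fin n1 ⊕ Fin n2) (E := Ex O n1 n2 ⊕ Fin 4))
    (fun q => Nm.s (.inl q)) with hV
  set Ψ : LP (NN A O n1 n2) → ℂ := fun s => SF s (lO fun o => b2 (J2 (.inr (.inl o))))
    (fun r => obn (Nm.s (.inr 0)) (Nm.s (.inr 3)) (jns V r)) with hΨ
  have key := exchange_wiring (L1 := L1) (L2 := L2) (κ := κ) (κ2 := κ2) (Ψ := Ψ) hB (by
      intro c hc
      rcases List.mem_append.1 hc with hc | hc
      · obtain ⟨i, rfl⟩ := (List.mem_ofFn' _ _).1 hc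
        rfl
      · obtain ⟨i, rfl⟩ := (List.mem_ofFn' _ _).1 hc
        rfl) (by rw [κ2v, κv]; rfl) (fun z hz => Function.update_of_ne hz _ _) (by
      rw [hL1, List.map_ofFn, List.map_ofFn]; rfl) (by
      rw [hL2, List.map_ofFn, List.map_ofFn]; rfl)
    (fresh_line X gE T Sum.inl_injective _ _ kC) (fresh_line X gE T Sum.inr_injective _ _ kC)
    (by
      intro x hx hx'
      obtain ⟨i, d, e⟩ := mem_le_line hx
      obtain ⟨i', d', e'⟩ := mem_le_line hx'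
      rw [e] at e'
      exact absurd (Nm.l.inj e').1 (by simp)) (by
      have nle : ∀ x : NN A O n1 n2, (∀ c d, x ≠ .l c d) → ¬ Le L1 x ∧ ¬ Le L2 x := by
        intro x hx
        refine ⟨fun h => ?_, fun h => ?_⟩
        · obtain ⟨i, d, e⟩ := mem_le_line h; exact hx _ _ e
        · obtain ⟨i, d, e⟩ := mem_le_line h; exact hx _ _ e
      have ms : ∀ x, (Nm.s x : NN A O n1 n2) ∉ Nm.r '' T := by rintro x ⟨y, -, h⟩; simp at h
      have mo : ∀ x b, (Nm.o x b : NN A O n1 n2) ∉ Nm.r '' T := by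
        rintro x b ⟨y, -, h⟩; simp at h
      apply Dep.SF
      · apply Dep.jns
        · apply obn_dep
          exact ⟨Or.inr (ms _), nle _ (by simp)⟩
        · intro x hx
          rw [hV, jm_sockets] at hx
          obtain ⟨q, h | h⟩ := hx
          · rw [h]
            rcases q with i | i | y | _ | _
            · refine ⟨Or.inl (Or.inr (Or.inr ?_)), nle _ (by simp [Rgn.ex])⟩
              rw [fn_append, List.mem_append]
              left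
              exact List.mem_map.2 ⟨_, (List.mem_ofFn' _ _).2 ⟨i, rfl⟩, rfl⟩
            · refine ⟨Or.inl (Or.inr (Or.inr ?_)), nle _ (by simp [Rgn.ex])⟩
              rw [fn_append, List.mem_append]
              right
              exact List.mem_map.2 ⟨_, (List.mem_ofFn' _ _).2 ⟨i, rfl⟩, rfl⟩
            · exact ⟨Or.inr (mo _ _), nle _ (by simp [Rgn.ex])⟩
            · exact ⟨Or.inl (Or.inl rfl), nle _ (by simp [Rgn.ex])⟩
            · exact ⟨Or.inl (Or.inr (Or.inl rfl)), nle _ (by simp [Rgn.ex])⟩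
          · rw [h]
            exact ⟨Or.inr (ms _), nle _ (by simp)⟩
      · intro t ht
        unfold lO at ht
        obtain ⟨o, -, rfl⟩ := List.mem_map.1 ht
        exact ⟨⟨Or.inr (mo _ _), nle _ (by simp)⟩, ⟨Or.inr (mo _ _), nle _ (by simp)⟩,
          ⟨Or.inr (mo _ _), nle _ (by simp)⟩, ⟨Or.inr (mo _ _), nle _ (by simp)⟩⟩)
  have Z1' : zt ^ (-2 * (-X.lam1 h1 q0 + X.lam1 h1 q1)) * N1.Z a1 b1 =
      SF (Jn κ κ (.r X.u) (.r X.v) (.r X.u) 2 L1 g) ((L1.map Lt.tl).reverse ++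
        (X.I.map (rgT X.er X.st X.wt)).map (Tl.map Nm.r)) Ψ := Z1
  have Z2' : zt ^ (-2 * (-X.lam2 h2 q0 + X.lam2 h2 q1)) * N2.Z a2 b2 =
      SF (Jn κ κ2 (.r X.u) (.r X.v) (.r X.v) (-2) L2 g) ((L2.map Lt.tl).reverse ++
        (X.I.map (rgT X.er X.st X.wt)).map (Tl.map Nm.r)) Ψ := Z2
  rw [← Z1', ← Z2'] at key
  have e1 : N2.Z a2 b2 = zt ^ (2 * (-X.lam2 h2 q0 + X.lam2 h2 q1)) *
      (zt ^ (-2 * (-X.lam2 h2 q0 + X.lam2 h2 q1)) * N2.Z a2 b2) := by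
    rw [← mul_assoc, ← zpow_add₀ zt_ne]
    have : 2 * (-X.lam2 h2 q0 + X.lam2 h2 q1) + -2 * (-X.lam2 h2 q0 + X.lam2 h2 q1) = 0 := by ring
    rw [this, zpow_zero, one_mul]
  rw [e1, ← key, ← mul_assoc, ← zpow_add₀ zt_ne]
  congr 2
  ring

end main

end Pool.Agent.H64.Q1
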