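import Pool.Agent.H64.Q1.Reg10
import Pool.Agent.H81.G1.Exists
import Pool.Agent.Q1.M6a.WClosed

/-!
# The exchange theorem for environments
-/

namespace Pool.Agent.H64.Q1

open LP Pool.Agent.H81.G1 Pool.Agent.H13.Q1 Pool.Agent.Q1
open Pool.Agent.H75.Perc Pool.Agent.H75.TwoArm

/-! ### Increments at the corners of a wire -/

section wire

variable {X : Env} {ω : Finset (ℤ × ℤ)}

theorem ph_neg (k : ℤ) : ph (-k) * ph k = 1 := by rw [← ph_add, neg_add_cancel, ph_zero]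

/-- one deterministic step -/
theorem incO_step (hω : ω ⊆ X.E) {c : ℤ × ℤ} (hc : c ∈ X.S) (hl : lab c ∉ X.E)
    (h0 : X.out c ≠ X.c0) : X.incO ω (X.out c) = ph (X.dout c) * X.incO ω c := by
  have hf := Env.f_out (ω := ω) hc hl
  have hd := Env.d_out (ω := ω) hc hl
  by_cases hv : ∃ i < X.len ω, X.z ω i = c
  · obtain ⟨i, hi, hz⟩ := hv
    have h1 : X.z ω (i + 1) = X.out c := by rw [Env.z_succ, hz, hf]
    have h2 : i + 1 < X.len ω := by
      rcases Nat.lt_or_ge (i + 1) (X.len ω) with h | h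
      · exact h
      · exfalso
        have : i + 1 = X.len ω := by omega
        rw [this, Env.z_len hω] at h1
        exact h0 h1.symm
    rw [Env.incO_of hω h2 h1, Env.incO_of hω hi hz, Env.K_succ, hz, hd, ph_add, mul_comm]
  · push Not at hv
    rw [Env.incO_zero hv, mul_zero]
    apply Env.incO_zero
    intro i hi h
    rcases Nat.eq_zero_or_pos i with rfl | hpos
    · exact h0 (by rw [← h]; rfl)
    · obtain ⟨k, rfl⟩ : ∃ k, i = k + 1 := ⟨i - 1, by omega⟩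
      rw [Env.z_succ, ← hf] at h
      exact hv k (by omega) (Env.f_injective hω h)

/-- the last deterministic step -/
theorem incO_last (hω : ω ⊆ X.E) {c : ℤ × ℤ} (hc : c ∈ X.S) (hl : lab c ∉ X.E)
    (h0 : X.out c = X.c0) : X.incO ω c = ph (X.k0 + X.T - X.dout c) := by
  have hf := Env.f_out (ω := ω) hc hl
  have hd := Env.d_out (ω := ω) hc hl
  have hpos := Env.len_pos hω
  obtain ⟨k, hk⟩ : ∃ k, X.len ω = k + 1 := ⟨X.len ω - 1, by omega⟩
  have h1 := Env.z_len hω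
  rw [hk, Env.z_succ, ← h0, ← hf] at h1
  have h2 := Env.f_injective hω h1
  rw [Env.incO_of hω (by omega) h2]
  congr 1
  have h3 := Env.K_len hω
  rw [hk, Env.K_succ, h2, hd] at h3
  omega

variable {ι : Type*} [Fintype ι] [DecidableEq ι] {lb : ι → ℤ × ℤ} {p : ι → Bool}
  {cr : ι × Dir → ℤ × ℤ}

omit [Fintype ι] [DecidableEq ι] in
theorem out_S (T : Tiles X lb p cr) {z : ι × Dir} (hz : inc p z = false) :
    ∀ i ≤ wl T z, X.out^[i] (cr z) ∈ X.S := by
  intro i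
  induction i with
  | zero => intro _; exact out_mem_S T hz
  | succ i ih =>
    intro hi
    have h1 := ih (by omega)
    rw [Function.iterate_succ_apply', ← Env.f_out (ω := ∅) h1 (wl_lt T hz (by omega))]
    exact Env.f_mem (Finset.empty_subset _) h1

omit [Fintype ι] [DecidableEq ι] in
/-- along a wire which does not contain the root -/
theorem incO_along (T : Tiles X lb p cr) (hω : ω ⊆ X.E) {z : ι × Dir} (hz : inc p z = false)
    {n : ℕ} (hn : n ≤ wl T z) (h0 : ∀ i, 1 ≤ i → i ≤ n → X.out^[i] (cr z) ≠ X.c0) :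
    X.incO ω (X.out^[n] (cr z)) =
      ph (∑ i ∈ Finset.range n, X.dout (X.out^[i] (cr z))) * X.incO ω (cr z) := by
  induction n with
  | zero => simp [ph_zero]
  | succ n ih =>
    have h1 := ih (by omega) fun i hi hi' => h0 i hi (by omega)
    have h2 := h0 (n + 1) (by omega) le_rfl
    rw [Function.iterate_succ_apply'] at h2 ⊢
    rw [incO_step hω (out_S T hz n (by omega)) (wl_lt T hz (by omega)) h2, h1,
      Finset.sum_range_succ, ph_add]
    ring

omit [Fintype ι] [DecidableEq ι] in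
theorem wire_root (T : Tiles X lb p cr) (hm : Meets X) {z : ι × Dir} (hz : inc p z = false)
    {m : ℕ} (hm1 : m ≤ wl T z) (hm2 : X.out^[m] (cr z) = X.c0) :
    sg T z = rx0 T hm ∧ wl T z = m + rn0 X := by
  have h1 : ∀ i, X.out^[i] X.c0 = X.out^[i + m] (cr z) := by
    intro i; rw [Function.iterate_add_apply, hm2]
  have h2 : wl T z = m + rn0 X := by
    have a1 : ¬ (wl T z < m + rn0 X) := by
      intro h
      have : wl T z - m < rn0 X := by omega
      apply rn0_lt hm this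
      rw [h1, Nat.sub_add_cancel hm1]
      exact wl_mem T hz
    have a2 : ¬ (m + rn0 X < wl T z) := by
      intro h
      apply wl_lt T hz (i := rn0 X + m) (by omega)
      rw [← h1]
      exact rn0_mem hm
    omega
  refine ⟨?_, h2⟩
  apply cr_inj T (sg_in T hz) (rx0_in T hm)
  rw [sg_cr T hz, rx0_cr T hm, h1, h2, Nat.add_comm]

omit [Fintype ι] [DecidableEq ι] in
theorem cr_ne_c0 (T : Tiles X lb p cr) {z : ι × Dir} (hz : inc p z = false) : cr z ≠ X.c0 := by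
  obtain ⟨i, d⟩ := z
  unfold inc at hz
  cases hp : p i
  · obtain ⟨l1, l2, l3, l4, l5⟩ := T.ff i hp
    rw [hp] at hz
    cases d
    · rw [l5]; exact X.root _ (by rw [l2]; exact T.mem i)
    · simp [Dir.v] at hz
    · rw [l4]; exact X.root _ (by rw [l1]; exact T.mem i)
    · simp [Dir.v] at hz
  · obtain ⟨l1, l2, l3, l4, l5⟩ := T.tt i hp
    rw [hp] at hz
    cases d
    · simp [Dir.v] at hz
    · rw [l4]; exact X.root _ (by rw [l1]; exact T.mem i)
    · simp [Dir.v] at hz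
    · rw [l5]; exact X.root _ (by rw [l2]; exact T.mem i)

omit [Fintype ι] [DecidableEq ι] in
/-- the wire of an outgoing end, not the wire of the root -/
theorem incO_wire (T : Tiles X lb p cr) (hm : Meets X) (hω : ω ⊆ X.E) {z : ι × Dir}
    (hz : inc p z = false) (hne : sg T z ≠ rx0 T hm) :
    X.incO ω (cr (sg T z)) = ph (Pool.Agent.H81.G1.wt T z) * X.incO ω (cr z) := by
  rw [sg_cr T hz]
  exact incO_along T hω hz le_rfl fun i _ hi h => hne (wire_root T hm hz hi h).1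

omit [Fintype ι] [DecidableEq ι] in
/-- the wire of the root -/
theorem incO_wire_root (T : Tiles X lb p cr) (hm : Meets X) (hω : ω ⊆ X.E) {z : ι × Dir}
    (hz : inc p z = false) (he : sg T z = rx0 T hm) :
    X.incO ω (cr z) = ph (X.k0 + X.T - (Pool.Agent.H81.G1.wt T z - dsh X (rn0 X))) := by
  have h0 : (∅ : Finset (ℤ × ℤ)) ⊆ X.E := Finset.empty_subset _
  -- the root is on the wire
  have hex : ∃ m, m ≤ wl T z ∧ X.out^[m] (cr z) = X.c0 := by
    have hc := congrArg cr he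
    rw [sg_cr T hz, rx0_cr T hm] at hc
    have e1 := (wire_iter h0 (out_mem_S T hz) (n := wl T z) (fun i hi => wl_lt T hz hi)).1
    have e2 := (wire_iter h0 X.c0_mem (n := rn0 X) (fun i hi => rn0_lt hm hi)).1
    rcases le_total (rn0 X) (wl T z) with h | h
    · refine ⟨wl T z - rn0 X, by omega, ?_⟩
      rw [← e1 _ (by omega)]
      rw [← e1 _ le_rfl, ← e2 _ le_rfl] at hc
      have e3 : wl T z = rn0 X + (wl T z - rn0 X) := by omega
      rw [e3, Function.iterate_add_apply] at hc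
      exact (Env.f_injective h0).iterate _ hc
    · exfalso
      rw [← e1 _ le_rfl, ← e2 _ le_rfl] at hc
      obtain ⟨k, hk⟩ : ∃ k, rn0 X = wl T z + k := ⟨rn0 X - wl T z, by omega⟩
      rw [hk, Function.iterate_add_apply] at hc
      have h3 := (Env.f_injective h0).iterate _ hc
      rcases Nat.eq_zero_or_pos k with rfl | hpos
      · exact cr_ne_c0 T hz h3
      · obtain ⟨j, rfl⟩ : ∃ j, k = j + 1 := ⟨k - 1, by omega⟩
        rw [Function.iterate_succ_apply', cr_out (ω := ∅) T hz] at h3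
        have h4 := Env.f_injective h0 h3
        rw [e2 j (by omega)] at h4
        apply rn0_lt hm (i := j) (by omega)
        rw [← h4]
        exact mem_cr T (by rw [inc_par, hz]; rfl)
  obtain ⟨m, hm1, hm2⟩ := hex
  have hm0 : m ≠ 0 := by
    rintro rfl
    exact cr_ne_c0 T hz hm2
  obtain ⟨k, rfl⟩ : ∃ k, m = k + 1 := ⟨m - 1, by omega⟩
  obtain ⟨-, hwl⟩ := wire_root T hm hz hm1 hm2
  -- the sums
  have hsum : Pool.Agent.H81.G1.wt T z = ∑ i ∈ Finset.range (k + 1), X.dout (X.out^[i] (cr z)) +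
      dsh X (rn0 X) := by
    unfold Pool.Agent.H81.G1.wt dsh
    rw [hwl, Finset.sum_range_add]
    congr 1
    refine Finset.sum_congr rfl fun i _ => ?_
    rw [Nat.add_comm, Function.iterate_add_apply, hm2]
  have hno : ∀ i, 1 ≤ i → i ≤ k → X.out^[i] (cr z) ≠ X.c0 := by
    intro i hi1 hi2 h
    obtain ⟨-, hw2⟩ := wire_root T hm hz (show i ≤ wl T z by omega) h
    omega
  have h1 := incO_along T hω hz (n := k) (by omega) hno
  have h2 := incO_last hω (out_S T hz k (by omega)) (wl_lt T hz (by omega))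
    (by rw [Function.iterate_succ_apply'] at hm2; exact hm2)
  rw [h2] at h1
  rw [hsum, Finset.sum_range_succ]
  have h3 : X.incO ω (cr z) = ph (-(∑ i ∈ Finset.range k, X.dout (X.out^[i] (cr z)))) *
      (ph (∑ i ∈ Finset.range k, X.dout (X.out^[i] (cr z))) * X.incO ω (cr z)) := by
    rw [← mul_assoc, ph_neg, one_mul]
  rw [h3, ← h1, ← ph_add]
  congr 1
  ring

omit [Fintype ι] [DecidableEq ι] in
/-- types along a wire -/
theorem ty_wire (T : Tiles X lb p cr) {z : ι × Dir} (hz : inc p z = false) :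
    (ty (cr z) + Pool.Agent.H81.G1.wt T z) % 4 = ty (cr (sg T z)) := by
  rw [sg_cr T hz]
  unfold Pool.Agent.H81.G1.wt
  have key : ∀ n ≤ wl T z, (ty (cr z) + ∑ i ∈ Finset.range n, X.dout (X.out^[i] (cr z))) % 4 =
      ty (X.out^[n] (cr z)) := by
    intro n
    induction n with
    | zero =>
      intro _
      have h0 : (∅ : Finset (ℤ × ℤ)) ⊆ X.E := Finset.empty_subset _
      simp only [Finset.range_zero, Finset.sum_empty, add_zero, Function.iterate_zero, id_eq]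
      unfold ty
      split_ifs <;> rfl
    | succ n ih =>
      intro hn
      have h1 := ih (by omega)
      have h2 := X.typed _ (out_S T hz n (by omega)) (wl_lt T hz (i := n) (by omega))
      rw [Finset.sum_range_succ, Function.iterate_succ_apply', ← h2, ← h1]
      omega
  exact key _ le_rfl

omit [Fintype ι] [DecidableEq ι] in
/-- type of the first incoming end -/
theorem ty_root (T : Tiles X lb p cr) (hm : Meets X) :
    (X.k0 + dsh X (rn0 X)) % 4 = ty (cr (rx0 T hm)) := by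
  have h0 : (∅ : Finset (ℤ × ℤ)) ⊆ X.E := Finset.empty_subset _
  obtain ⟨e1, e2⟩ := wire_iter h0 X.c0_mem (n := rn0 X) (fun i hi => rn0_lt hm hi)
  have h1 := Env.K_mod h0 (rn0 X)
  have h2 : X.z ∅ (rn0 X) = cr (rx0 T hm) := by
    rw [rx0_cr T hm]; exact e1 _ le_rfl
  rw [h2] at h1
  rw [← h1]
  congr 1
  unfold Env.K KK dsh
  congr 1
  refine Finset.sum_congr rfl fun i hi => ?_
  have hi := Finset.mem_range.1 hi
  rw [e1 i hi.le, e2 i hi]

omit [Fintype ι] [DecidableEq ι] in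
/-- the root does not meet the tiles -/
theorem incO_not_meets (T : Tiles X lb p cr) (hm : ¬ Meets X) (hω : ω ⊆ X.E) (z : ι × Dir) :
    X.incO ω (cr z) = 0 := by
  unfold Meets at hm
  push Not at hm
  have hz : ∀ i, X.z ω i = X.out^[i] X.c0 := fun i =>
    (wire_iter hω X.c0_mem (n := i) (fun k _ => hm k)).1 i le_rfl
  have hin : ∀ z : ι × Dir, inc p z = true → ∀ i, X.z ω i ≠ cr z := by
    intro z hz' i h
    apply hm i
    rw [← hz, h]
    exact mem_cr T hz'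
  apply Env.incO_zero
  intro i hi
  cases hz' : inc p z
  · intro h
    have hp : inc p (par (stt lb p ω) z) = true := by rw [inc_par, hz']; rfl
    have key : ∀ k, X.z ω (k + 1) ≠ cr z := by
      intro k h
      rw [Env.z_succ, cr_out (ω := ω) T hz'] at h
      exact hin _ hp k (Env.f_injective hω h)
    rcases Nat.eq_zero_or_pos i with rfl | hpos
    · have h2 := Env.z_len hω
      obtain ⟨k, hk⟩ : ∃ k, X.len ω = k + 1 := ⟨X.len ω - 1, by omega⟩
      rw [hk] at h2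
      exact key k (h2.trans h)
    · obtain ⟨k, rfl⟩ : ∃ k, i = k + 1 := ⟨i - 1, by omega⟩
      exact key k h
  · exact hin z hz' i

end wire

/-! ### Weighted increments -/

section inc

variable {X : Env} {ι : Type*} [Fintype ι] [DecidableEq ι] {lb : ι → ℤ × ℤ} {p : ι → Bool}
  {cr : ι × Dir → ℤ × ℤ}

omit [DecidableEq ι] in
theorem incW_wire (T : Tiles X lb p cr) (hm : Meets X) (q : ℤ × ℤ → ℂ) {z : ι × Dir}
    (hz : inc p z = false) (hne : wπ T z ≠ rx0 T hm) :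
    X.incW q (cr (wπ T z)) = ph (wτ T z) * X.incW q (cr z) := by
  have e1 : wπ T z = sg T z := by unfold wπ; rw [if_pos hz]
  have e2 : wτ T z = Pool.Agent.H81.G1.wt T z := by unfold wτ; rw [if_pos hz]
  rw [e1] at hne ⊢
  rw [e2]
  unfold Env.incW
  rw [← Ec_smul]
  exact Ec_congr fun ω hω => incO_wire T hm hω hz hne

omit [Fintype ι] [DecidableEq ι] in
theorem Ec_one (q : ℤ × ℤ → ℂ) (E : Finset (ℤ × ℤ)) (c : ℂ) : Ec q E (fun _ => c) = c := by
  unfold Ec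
  rw [← Finset.sum_mul]
  have : ∑ ω ∈ E.powerset, wtc q E ω = 1 := by
    unfold wtc
    rw [← Finset.prod_add]
    simp
  rw [this, one_mul]

omit [DecidableEq ι] in
theorem incW_wire_root (T : Tiles X lb p cr) (hm : Meets X) (q : ℤ × ℤ → ℂ) {z : ι × Dir}
    (hz : inc p z = false) (he : wπ T z = rx0 T hm) :
    X.incW q (cr z) = ph (X.k0 + X.T - (wτ T z - dsh X (rn0 X))) := by
  have e1 : wπ T z = sg T z := by unfold wπ; rw [if_pos hz]
  have e2 : wτ T z = Pool.Agent.H81.G1.wt T z := by unfold wτ; rw [if_pos hz]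
  rw [e1] at he
  rw [e2]
  unfold Env.incW
  rw [← Ec_one q X.E (ph (X.k0 + X.T - (Pool.Agent.H81.G1.wt T z - dsh X (rn0 X))))]
  exact Ec_congr fun ω hω => incO_wire_root T hm hω hz he

omit [Fintype ι] [DecidableEq ι] in
theorem incW_first (T : Tiles X lb p cr) (hm : Meets X) (q : ℤ × ℤ → ℂ) :
    X.incW q (cr (rx0 T hm)) = ph (X.k0 + dsh X (rn0 X)) := by
  unfold Env.incW
  rw [← Ec_one q X.E (ph (X.k0 + dsh X (rn0 X)))]
  exact Ec_congr fun ω hω => incO_root T hm hω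

omit [Fintype ι] [DecidableEq ι] in
theorem incW_not_meets (T : Tiles X lb p cr) (hm : ¬ Meets X) (q : ℤ × ℤ → ℂ) (z : ι × Dir) :
    X.incW q (cr z) = 0 := by
  unfold Env.incW
  rw [← Ec_one q X.E 0]
  exact Ec_congr fun ω hω => incO_not_meets T hm hω z

end inc

/-! ### The theorem -/

section pair

variable {R A O ι1 ι2 : Type*} [DecidableEq A] [DecidableEq O] [Fintype O] [Fintype ι1]
  [DecidableEq ι1] [Fintype ι2] [DecidableEq ι2] {n1 n2 : ℕ}

namespace Rgn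

variable (X : Rgn R A n1 n2) (h1 : 0 < n1) (h2 : 0 < n2)

omit [DecidableEq O] [Fintype O] in
theorem J_facts {ι : Type*} {n : ℕ} (J : R ⊕ O ⊕ Fin n ≃ ι) :
    (∀ i i' d d', jl (R := R) (O := O) J i d = jl J i' d' → i = i' ∧ d = d') ∧
    (∀ x y, jr J x = jr J y → x = y) ∧ (∀ x y, jo (R := R) J x = jo J y → x = y) ∧
    (∀ i d y, jl J i d ≠ jr J y) ∧ (∀ i d y, jl J i d ≠ jo J y) ∧ ∀ x y, jr J x ≠ jo J y := by
  refine ⟨?_, ?_, ?_, ?_, ?_, ?_⟩
  · intro i i' d d' h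
    unfold jl at h
    rw [Prod.mk.injEq] at h
    have := J.injective h.1
    simp only [Sum.inr.injEq] at this
    exact ⟨this, h.2⟩
  · intro x y h
    unfold jr at h
    rw [Prod.mk.injEq] at h
    have := J.injective h.1
    simp only [Sum.inl.injEq] at this
    exact Prod.ext this h.2
  · intro x y h
    unfold jo at h
    rw [Prod.mk.injEq] at h
    have := J.injective h.1
    simp only [Sum.inr.injEq, Sum.inl.injEq] at this
    exact Prod.ext this h.2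
  · intro i d y h
    unfold jl jr at h
    rw [Prod.mk.injEq] at h
    have := J.injective h.1
    simp at this
  · intro i d y h
    unfold jl jo at h
    rw [Prod.mk.injEq] at h
    have := J.injective h.1
    simp at this
  · intro x y h
    unfold jr jo at h
    rw [Prod.mk.injEq] at h
    have := J.injective h.1
    simp at this

theorem rc_ne (d : Dir) : rc d ≠ d ∧ rc (rc d) ≠ d ∧ rc (rc (rc d)) ≠ d := by
  cases d <;> simp [rc]

omit [DecidableEq O] [Fintype O] [Fintype ι1] [DecidableEq ι1] in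
theorem E1_inj (J : R ⊕ O ⊕ Fin n1 ≃ ι1) (s : Fin n1 → Dir) :
    Function.Injective (X.E1 (n2 := n2) h1 J s) := by
  obtain ⟨hl, hr, ho, hlr, hlo, hro⟩ := J_facts J
  have hne3 : ∀ d : Dir, rc (rc (rc d)) ≠ d := fun d => (rc_ne d).2.2
  have hne2 : ∀ d : Dir, rc (rc d) ≠ d := fun d => (rc_ne d).2.1
  have hne1 : ∀ d : Dir, rc d ≠ d := fun d => (rc_ne d).1
  rintro (i | i | x | _ | _) (j | j | y | _ | _) h <;> simp only [E1] at h
  · rw [(hl _ _ _ _ h).1]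
  · exact absurd h (hlr _ _ _)
  · exact absurd h (hlo _ _ _)
  · obtain ⟨rfl, h'⟩ := hl _ _ _ _ h
    exact absurd h' (hne1 _)
  · obtain ⟨rfl, h'⟩ := hl _ _ _ _ h
    exact absurd h' (hne3 _)
  · exact absurd h.symm (hlr _ _ _)
  · rw [X.p2_inj (hr _ _ h)]
  · exact absurd h (hro _ _)
  · exact absurd h.symm (hlr _ _ _)
  · exact absurd h.symm (hlr _ _ _)
  · exact absurd h.symm (hlo _ _ _)
  · exact absurd h.symm (hro _ _)
  · rw [ho _ _ h]
  · exact absurd h.symm (hlo _ _ _)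
  · exact absurd h.symm (hlo _ _ _)
  · obtain ⟨e, h'⟩ := hl _ _ _ _ h
    rw [e] at h'
    exact absurd h'.symm (hne1 _)
  · exact absurd h (hlr _ _ _)
  · exact absurd h (hlo _ _ _)
  · rfl
  · obtain ⟨e, h'⟩ := hl _ _ _ _ h
    rw [e] at h'
    exact absurd h' (hne2 _)
  · obtain ⟨e, h'⟩ := hl _ _ _ _ h
    rw [e] at h'
    exact absurd h'.symm (hne3 _)
  · exact absurd h (hlr _ _ _)
  · exact absurd h (hlo _ _ _)
  · obtain ⟨e, h'⟩ := hl _ _ _ _ h
    rw [← e] at h'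
    exact absurd h'.symm (hne2 _)
  · rfl

omit [DecidableEq O] [Fintype O] [Fintype ι2] [DecidableEq ι2] in
theorem E2_inj (J : R ⊕ O ⊕ Fin n2 ≃ ι2) (s : Fin n2 → Dir) :
    Function.Injective (X.E2 (n1 := n1) h2 J s) := by
  obtain ⟨hl, hr, ho, hlr, hlo, hro⟩ := J_facts J
  have hne3 : ∀ d : Dir, rc (rc (rc d)) ≠ d := fun d => (rc_ne d).2.2
  have hne2 : ∀ d : Dir, rc (rc d) ≠ d := fun d => (rc_ne d).2.1
  have hne1 : ∀ d : Dir, rc d ≠ d := fun d => (rc_ne d).1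
  rintro (i | i | x | _ | _) (j | j | y | _ | _) h <;> simp only [E2] at h
  · rw [X.p1_inj (hr _ _ h)]
  · exact absurd h.symm (hlr _ _ _)
  · exact absurd h (hro _ _)
  · exact absurd h.symm (hlr _ _ _)
  · exact absurd h.symm (hlr _ _ _)
  · exact absurd h (hlr _ _ _)
  · rw [(hl _ _ _ _ h).1]
  · exact absurd h (hlo _ _ _)
  · obtain ⟨rfl, h'⟩ := hl _ _ _ _ h
    exact absurd h' (hne3 _)
  · obtain ⟨rfl, h'⟩ := hl _ _ _ _ h
    exact absurd h' (hne1 _)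
  · exact absurd h.symm (hro _ _)
  · exact absurd h.symm (hlo _ _ _)
  · rw [ho _ _ h]
  · exact absurd h.symm (hlo _ _ _)
  · exact absurd h.symm (hlo _ _ _)
  · exact absurd h (hlr _ _ _)
  · obtain ⟨e, h'⟩ := hl _ _ _ _ h
    rw [e] at h'
    exact absurd h'.symm (hne3 _)
  · exact absurd h (hlo _ _ _)
  · rfl
  · obtain ⟨e, h'⟩ := hl _ _ _ _ h
    rw [← e] at h'
    exact absurd h'.symm (hne2 _)
  · exact absurd h (hlr _ _ _)
  · obtain ⟨e, h'⟩ := hl _ _ _ _ h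
    rw [e] at h'
    exact absurd h'.symm (hne1 _)
  · exact absurd h (hlo _ _ _)
  · obtain ⟨e, h'⟩ := hl _ _ _ _ h
    rw [e] at h'
    exact absurd h' (hne2 _)
  · rfl

/-- difference of the turnings of the exposures -/
def dl {O : Type*} (q : Ex O n1 n2) : ℤ := X.lam2 h2 q - X.lam1 h1 q

end Rgn

/-- **Data for the comparison of two environments** -/
structure EPair (X : Rgn R A n1 n2) (h1 : 0 < n1) (h2 : 0 < n2) {X1 X2 : Env}
    {lb1 : ι1 → ℤ × ℤ} {lb2 : ι2 → ℤ × ℤ} {P1 : ι1 → Bool} {P2 : ι2 → Bool}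
    {cr1 : ι1 × Dir → ℤ × ℤ} {cr2 : ι2 × Dir → ℤ × ℤ}
    (T1 : Tiles X1 lb1 P1 cr1) (T2 : Tiles X2 lb2 P2 cr2) (J1 : R ⊕ O ⊕ Fin n1 ≃ ι1)
    (J2 : R ⊕ O ⊕ Fin n2 ≃ ι2) (s1 : Fin n1 → Dir) (s2 : Fin n2 → Dir)
    (w1 w2 : ℤ × ℤ → ℂ) : Prop where
  L1 : ∀ x y, LineNet X.g X.er X.p1 (fun i => X.kf (X.f1 i)) J1 s1 ⟨wπ T1, wτ T1, x, y⟩
  L2 : ∀ x y, LineNet X.g X.er X.p2 (fun i => X.kf (X.f2 i)) J2 s2 ⟨wπ T2, wτ T2, x, y⟩
  pair : ∀ q, ∃ q', wπ T1 (X.E1 h1 J1 s1 q) = X.E1 h1 J1 s1 q' ∧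
    wπ T2 (X.E2 h2 J2 s2 q) = X.E2 h2 J2 s2 q' ∧
    wτ T2 (X.E2 h2 J2 s2 q) = wτ T1 (X.E1 h1 J1 s1 q) + X.dl h1 h2 q - X.dl h1 h2 q'
  io : ∀ q, inc P1 (X.E1 h1 J1 s1 q) = inc P2 (X.E2 h2 J2 s2 q)
  wR1 : ∀ i, (if (X.st i).v then wA lb1 P1 w1 (J1 (.inl i)) else wB lb1 P1 w1 (J1 (.inl i))) = X.wt i
  wR2 : ∀ i, (if (X.st i).v then wA lb2 P2 w2 (J2 (.inl i)) else wB lb2 P2 w2 (J2 (.inl i))) = X.wt i
  wO : ∀ o, wB lb1 P1 w1 (J1 (.inr (.inl o))) = wB lb2 P2 w2 (J2 (.inr (.inl o)))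
  wL1 : ∀ i, (if (s1 i).v then wA lb1 P1 w1 (J1 (.inr (.inr i))) else
    wB lb1 P1 w1 (J1 (.inr (.inr i)))) = wa (X.t1 i)
  wL2 : ∀ i, (if (s2 i).v then wA lb2 P2 w2 (J2 (.inr (.inr i))) else
    wB lb2 P2 w2 (J2 (.inr (.inr i)))) = 1 - (wa (X.t2 i))⁻¹
  k0 : X1.k0 = X2.k0
  T0 : X1.T = X2.T
  root : (¬ Meets X1 ∧ ¬ Meets X2) ∨ ∃ (m1 : Meets X1) (m2 : Meets X2) (q0 : Ex O n1 n2),
    rx0 T1 m1 = X.E1 h1 J1 s1 q0 ∧ rx0 T2 m2 = X.E2 h2 J2 s2 q0 ∧
    dsh X2 (rn0 X2) = dsh X1 (rn0 X1) - X.dl h1 h2 q0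

theorem wab {ι : Type*} (lb : ι → ℤ × ℤ) (p : ι → Bool) (q : ℤ × ℤ → ℂ) (i : ι) :
    wA lb p q i + wB lb p q i = 1 := by
  unfold wA wB
  cases p i <;> simp

theorem zt_mod {a b : ℤ} (h : a % 4 = b % 4) : zt ^ (6 * a) = zt ^ (6 * b) := by
  obtain ⟨k, hk⟩ : ∃ k, a = b + 4 * k := ⟨a / 4 - b / 4, by omega⟩
  have : 6 * a = 6 * b + 24 * k := by rw [hk]; ring
  rw [this, zpow_add₀ zt_ne, zt_24, mul_one]

/-- **The exchange theorem for environments.** -/
theorem env_exchange {X : Rgn R A n1 n2} {h1 : 0 < n1} {h2 : 0 < n2} {X1 X2 : Env}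
    {lb1 : ι1 → ℤ × ℤ} {lb2 : ι2 → ℤ × ℤ} {P1 : ι1 → Bool} {P2 : ι2 → Bool}
    {cr1 : ι1 × Dir → ℤ × ℤ} {cr2 : ι2 × Dir → ℤ × ℤ}
    {T1 : Tiles X1 lb1 P1 cr1} {T2 : Tiles X2 lb2 P2 cr2} {J1 : R ⊕ O ⊕ Fin n1 ≃ ι1}
    {J2 : R ⊕ O ⊕ Fin n2 ≃ ι2} {s1 : Fin n1 → Dir} {s2 : Fin n2 → Dir}
    {w1 w2 : ℤ × ℤ → ℂ} (H : EPair X h1 h2 T1 T2 J1 J2 s1 s2 w1 w2) (q : Ex O n1 n2) :
    X2.incW w2 (cr2 (X.E2 h2 J2 s2 q)) =
      zt ^ (6 * (ty (cr2 (X.E2 h2 J2 s2 q)) - ty (cr1 (X.E1 h1 J1 s1 q))) +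
        2 * X.dl h1 h2 q) * X1.incW w1 (cr1 (X.E1 h1 J1 s1 q)) := by
  classical
  rcases H.root with ⟨m1, m2⟩ | ⟨m1, m2, q0, r1, r2, r3⟩
  · rw [incW_not_meets T1 m1, incW_not_meets T2 m2, mul_zero]
  -- the common wiring
  have hex := H.pair
  choose ρ0 hρ0 using hex
  have E1i := X.E1_inj h1 J1 s1
  have ρρ : ∀ q, ρ0 (ρ0 q) = q := by
    intro q
    apply E1i
    rw [← (hρ0 (ρ0 q)).1, ← (hρ0 q).1, wπ_wπ]
  set ρ : LP (Ex O n1 n2) :=
    { p := Function.Involutive.toPerm ρ0 ρρ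
      d := fun q => wτ T1 (X.E1 h1 J1 s1 q) - X.lam1 h1 q + X.lam1 h1 (ρ0 q)
      inv := ρρ
      ne' := fun q hq => by
        have h3 := (hρ0 q).1
        have h4 := inc_wπ T1 (X.E1 h1 J1 s1 q)
        change ρ0 q = q at hq
        rw [h3, hq] at h4
        cases h5 : inc P1 (X.E1 h1 J1 s1 q) <;> rw [h5] at h4 <;> simp at h4
      ant := fun q => by
        change wτ T1 (X.E1 h1 J1 s1 (ρ0 q)) - X.lam1 h1 (ρ0 q) + X.lam1 h1 (ρ0 (ρ0 q)) =
          -(wτ T1 (X.E1 h1 J1 s1 q) - X.lam1 h1 q + X.lam1 h1 (ρ0 q))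
        rw [ρρ, ← (hρ0 q).1, wτ_wπ]
        ring } with hρ
  have ρa : ∀ q, ρ q = ρ0 q := fun _ => rfl
  have ρd : ∀ q, ρ.d q = wτ T1 (X.E1 h1 J1 s1 q) - X.lam1 h1 q + X.lam1 h1 (ρ0 q) := fun _ => rfl
  have hin0 : inc P1 (X.E1 h1 J1 s1 q0) = true := by rw [← r1]; exact rx0_in T1 m1
  -- incoming exposed ends
  have key : ∀ q, inc P1 (X.E1 h1 J1 s1 q) = true → X2.incW w2 (cr2 (X.E2 h2 J2 s2 q)) =
      zt ^ (6 * (ty (cr2 (X.E2 h2 J2 s2 q)) - ty (cr1 (X.E1 h1 J1 s1 q))) +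
        2 * X.dl h1 h2 q) * X1.incW w1 (cr1 (X.E1 h1 J1 s1 q)) := by
    intro q hq
    by_cases hqq : q = q0
    · subst hqq
      have f1 := incW_first T1 m1 w1
      have f2 := incW_first T2 m2 w2
      have t1 := ty_root T1 m1
      have t2 := ty_root T2 m2
      rw [r1] at f1 t1
      rw [r2] at f2 t2
      rw [f1, f2, ph_zt, ph_zt]
      have e1 : zt ^ (6 * (ty (cr2 (X.E2 h2 J2 s2 q)) - ty (cr1 (X.E1 h1 J1 s1 q)))) =
          zt ^ (6 * (-X.dl h1 h2 q)) := by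
        apply zt_mod
        rw [← H.k0, r3] at t2
        omega
      rw [zpow_add₀ zt_ne, e1, ← zpow_add₀ zt_ne, ← zpow_add₀ zt_ne, ← H.k0, r3]
      congr 1
      ring
    · have hq2 : inc P2 (X.E2 h2 J2 s2 q) = true := by rw [← H.io]; exact hq
      have n1' : X.E1 h1 J1 s1 q ≠ rx0 T1 m1 := by rw [r1]; exact fun h => hqq (E1i h)
      have n2' : X.E2 h2 J2 s2 q ≠ rx0 T2 m2 := by
        rw [r2]
        exact fun h => hqq (X.E2_inj h2 J2 s2 h)
      have W1 := net_wired T1 m1 hq n1'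
      have W2 := net_wired T2 m2 hq2 n2'
      have e1 := incW_eq W1 w1
      have e2 := incW_eq W2 w2
      have key := net_exchange' X h1 h2 W1.good W2.good J1 J2 s1 s2 (H.L1 _ _) (H.L2 _ _) ρ
        (fun q => ⟨(hρ0 q).1, by
          rw [ρd, ρa]
          change wτ T1 _ = _
          ring⟩)
        (fun q => ⟨(hρ0 q).2.1, by
          rw [ρd, ρa]
          have h5 := (hρ0 q).2.2
          unfold Rgn.dl at h5
          change wτ T2 _ = _
          rw [h5]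
          ring⟩) (q0 := q0) (q1 := q) hqq (by
            rw [ρa]
            intro h
            have h5 := inc_wπ T1 (X.E1 h1 J1 s1 q0)
            rw [(hρ0 q0).1, ← h, hq, hin0] at h5
            simp at h5) r1 rfl r2 rfl (wab lb1 P1 w1) (wab lb2 P2 w2) H.wR1 H.wR2 H.wO H.wL1 H.wL2
      unfold Env.incW
      change Ec w2 X2.E (fun ω => X2.incO ω (cr2 (X.E2 h2 J2 s2 q))) = _ at e2
      change Ec w1 X1.E (fun ω => X1.incO ω (cr1 (X.E1 h1 J1 s1 q))) = _ at e1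
      rw [e1, e2, key, r3, ← H.k0, ← mul_assoc, ← mul_assoc, ← zpow_add₀ zt_ne,
        ← zpow_add₀ zt_ne]
      congr 2
      change 6 * ty (cr2 (X.E2 h2 J2 s2 q)) - _ + _ = _ + (6 * ty (cr1 (X.E1 h1 J1 s1 q)) - _)
      unfold Rgn.dl
      ring
  cases hq : inc P1 (X.E1 h1 J1 s1 q)
  swap
  · exact key q hq
  -- outgoing exposed ends
  have hq2 : inc P2 (X.E2 h2 J2 s2 q) = false := by rw [← H.io]; exact hq
  obtain ⟨p1, p2, p3⟩ := hρ0 q
  set q' := ρ0 q with hq'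
  have t1 := ty_wire T1 hq
  have t2 := ty_wire T2 hq2
  have s1' : sg T1 (X.E1 h1 J1 s1 q) = X.E1 h1 J1 s1 q' := by
    rw [← p1]; unfold wπ; rw [if_pos hq]
  have s2' : sg T2 (X.E2 h2 J2 s2 q) = X.E2 h2 J2 s2 q' := by
    rw [← p2]; unfold wπ; rw [if_pos hq2]
  have u1 : wτ T1 (X.E1 h1 J1 s1 q) = Pool.Agent.H81.G1.wt T1 (X.E1 h1 J1 s1 q) := by unfold wτ; rw [if_pos hq]
  have u2 : wτ T2 (X.E2 h2 J2 s2 q) = Pool.Agent.H81.G1.wt T2 (X.E2 h2 J2 s2 q) := by unfold wτ; rw [if_pos hq2]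
  rw [s1', ← u1] at t1
  rw [s2', ← u2] at t2
  by_cases h0 : q' = q0
  · have f1 := incW_wire_root T1 m1 w1 hq (by rw [p1, r1, h0])
    have f2 := incW_wire_root T2 m2 w2 hq2 (by rw [p2, r2, h0])
    have v1 := ty_root T1 m1
    have v2 := ty_root T2 m2
    rw [r1, ← h0] at v1
    rw [r2, ← h0] at v2
    rw [← h0] at r3
    rw [f1, f2, ph_zt, ph_zt]
    have e1 : zt ^ (6 * (ty (cr2 (X.E2 h2 J2 s2 q)) - ty (cr1 (X.E1 h1 J1 s1 q)))) =
        zt ^ (6 * (-X.dl h1 h2 q)) := by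
      apply zt_mod
      rw [← H.k0, r3] at v2
      omega
    rw [zpow_add₀ zt_ne, e1, ← zpow_add₀ zt_ne, ← zpow_add₀ zt_ne, ← H.k0, ← H.T0, r3, p3]
    congr 1
    ring
  · have f1 := incW_wire T1 m1 w1 hq (by rw [p1, r1]; exact fun h => h0 (E1i h))
    have f2 := incW_wire T2 m2 w2 hq2 (by rw [p2, r2]; exact fun h => h0 (X.E2_inj h2 J2 s2 h))
    rw [p1] at f1
    rw [p2] at f2
    have hin' : inc P1 (X.E1 h1 J1 s1 q') = true := by
      rw [← p1, inc_wπ, hq]; rfl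
    have k := key q' hin'
    rw [f1, f2] at k
    have e1 : zt ^ (6 * (ty (cr2 (X.E2 h2 J2 s2 q')) - ty (cr1 (X.E1 h1 J1 s1 q')))) =
        zt ^ (6 * ((ty (cr2 (X.E2 h2 J2 s2 q)) - ty (cr1 (X.E1 h1 J1 s1 q))) +
          (X.dl h1 h2 q - X.dl h1 h2 q'))) := by
      apply zt_mod
      omega
    rw [zpow_add₀ zt_ne, e1] at k
    have e2 : X2.incW w2 (cr2 (X.E2 h2 J2 s2 q)) = ph (-wτ T2 (X.E2 h2 J2 s2 q)) *
        (ph (wτ T2 (X.E2 h2 J2 s2 q)) * X2.incW w2 (cr2 (X.E2 h2 J2 s2 q))) := by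
      rw [← mul_assoc, ph_neg, one_mul]
    rw [e2, k, ph_zt, ph_zt, p3]
    have e3 : ∀ (a b c d : ℤ) (F : ℂ), zt ^ a * (zt ^ b * zt ^ c * (zt ^ d * F)) =
        zt ^ (a + b + c + d) * F := by
      intro a b c d F
      rw [zpow_add₀ zt_ne, zpow_add₀ zt_ne, zpow_add₀ zt_ne]
      ring
    rw [e3]
    congr 2
    ring

end pair

end Pool.Agent.H64.Q1
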