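import Pool.Agent.H64.Q1.NetX

/-!
# Rows of tiles with their turnings

The turnings of the four arcs in a tile (quarter turns): west to north `+1`, south to east `-1`,
west to south `-1`, north to east `+1`. A change of the zero of the turnings at every end brings
them to the form of `exch_net`.
-/

namespace Pool.Agent.H64.Q1

open LP Finset Pool.Agent.Q1

namespace LP

variable {D : Type*} [DecidableEq D]

/-- change of the zero of the turnings -/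
def gau (φ : D → ℤ) (f : LP D) : LP D where
  p := f.p
  d := fun x => f.d x + φ x - φ (f x)
  inv := f.inv
  ne' := f.ne'
  ant := by
    intro x
    have h1 := f.ant x
    have h2 := f.inv x
    change f.d (f.p x) + φ (f.p x) - φ (f.p (f.p x)) = -(f.d x + φ x - φ (f.p x))
    rw [h1, h2]; ring

theorem gau_apply (φ : D → ℤ) (f : LP D) (x : D) : gau φ f x = f x := rfl

theorem gau_d (φ : D → ℤ) (f : LP D) (x : D) : (gau φ f).d x = f.d x + φ x - φ (f x) := rfl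

theorem gau_neg (φ : D → ℤ) (f : LP D) : gau (fun x => - φ x) (gau φ f) = f := by
  apply ext
  · intro x; rfl
  · intro x
    rw [gau_d, gau_d, gau_apply]; ring

theorem gau_jn (φ : D → ℤ) (x y : D) (τ κ : ℤ) (f : LP D) : gau φ (jn x y τ κ f) =
    jn x y (τ + φ x - φ y) (κ + φ x - φ y) (gau φ f) := by
  by_cases h : x = y
  · unfold jn; rw [dif_pos h, dif_pos h]
  · apply ext
    · intro t
      rw [gau_apply, jn_apply x y _ _ f h, jn_apply x y _ _ _ h]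
      rfl
    · intro t
      rw [gau_d, jn_d x y _ _ _ h, jn_d x y _ _ _ h, jn_apply x y _ _ _ h]
      simp only [gau_apply, gau_d]
      have i1 := f.invol x
      have i2 := f.invol y
      grind

theorem Eqv.gau {A : Set D} {f g : LP D} (h : Eqv A f g) (φ : D → ℤ) :
    Eqv A (gau φ f) (gau φ g) := by
  refine ⟨h.1, fun x hx => ?_⟩
  obtain ⟨h1, h2⟩ := h.2 x hx
  rw [gau_apply, gau_apply, gau_d, gau_d, h1, h2]
  exact ⟨rfl, rfl⟩

/-- The two resolutions of a tile, with their turnings. -/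
def tileR (b : Bool) (W E S T : D) (g : LP D) : LP D :=
  if b then jn W T 1 1 (jn S E (-1) (-1) g) else jn W S (-1) 1 (jn T E 1 (-1) g)

/-- The first `n` tiles of a row. -/
def rowR (Z : ℕ → Fin 5 → D) (B : ℕ → Bool) : ℕ → LP D → LP D
  | 0, g => g
  | n + 1, g => tileR (B n) (Z n 0) (Z n 1) (Z n 2) (Z n 3) (rowR Z B n g)

/-- the zeros of the turnings at the ends of the tiles -/
structure Gg (φ : D → ℤ) (N : ℕ) (Z : ℕ → Fin 5 → D) (a : ℕ → ℤ) : Prop where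
  g0 : ∀ i < N, φ (Z i 0) = a i
  g1 : ∀ i < N, φ (Z i 1) = a i
  g2 : ∀ i < N, φ (Z i 2) = a i + 1
  g3 : ∀ i < N, φ (Z i 3) = a i + 1
  g4 : ∀ i < N, φ (Z i 4) = a i + 1

theorem gau_tileR {φ : D → ℤ} {W E S T : D} {a : ℤ} (h0 : φ W = a) (h1 : φ E = a)
    (h2 : φ S = a + 1) (h3 : φ T = a + 1) (b : Bool) (g : LP D) :
    gau φ (tileR b W E S T g) = tile (-2) 0 b W E S T (gau φ g) := by
  unfold tileR tile
  cases b
  · simp only [Bool.false_eq_true, if_false]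
    rw [gau_jn, gau_jn, h0, h1, h2, h3]
    congr 1 <;> [ring; ring; (congr 1 <;> ring)]
  · simp only [if_true]
    rw [gau_jn, gau_jn, h0, h1, h2, h3]
    congr 1 <;> [ring; ring; (congr 1 <;> ring)]

theorem gau_rowR {φ : D → ℤ} {N : ℕ} {Z : ℕ → Fin 5 → D} {a : ℕ → ℤ} (h : Gg φ N Z a)
    (B : ℕ → Bool) (n : ℕ) (hn : n ≤ N) (g : LP D) :
    gau φ (rowR Z B n g) = rowt (-2) 0 Z B n (gau φ g) := by
  induction n with
  | zero => rfl
  | succ n ih =>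
    rw [rowR, rowt, gau_tileR (h.g0 n hn) (h.g1 n hn) (h.g2 n hn) (h.g3 n hn), ih (by omega)]

/-- existence of the zeros -/
theorem exists_Gg {N : ℕ} {Z Z' : ℕ → Fin 5 → D} (a : ℕ → ℤ) (h1 : Inj5 N Z) (h2 : Inj5 N Z')
    (hQ : ∀ i < N, Z' i 2 = Z i 4) (dis : ∀ i < N, ∀ j < N, ∀ a b, b ≠ 2 → Z i a ≠ Z' j b) :
    ∃ φ : D → ℤ, Gg φ N Z a ∧ Gg φ N Z' a := by
  classical
  set val : ℕ × Fin 5 → ℤ := fun p => a p.1 + (if p.2 = 0 ∨ p.2 = 1 then 0 else 1) with hval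
  set φ : D → ℤ := fun x => if h : ∃ p : ℕ × Fin 5, p.1 < N ∧ Z p.1 p.2 = x then val h.choose else
    if h : ∃ p : ℕ × Fin 5, p.1 < N ∧ Z' p.1 p.2 = x then val h.choose else 0 with hφ
  have k1 : ∀ i < N, ∀ b, φ (Z i b) = val (i, b) := by
    intro i hi b
    have hex : ∃ p : ℕ × Fin 5, p.1 < N ∧ Z p.1 p.2 = Z i b := ⟨(i, b), hi, rfl⟩
    rw [hφ]
    simp only
    rw [dif_pos hex]
    obtain ⟨c1, c2⟩ := hex.choose_spec
    obtain ⟨c3, c4⟩ := h1 _ _ _ _ c1 hi c2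
    congr 1
    exact Prod.ext c3 c4
  have k2 : ∀ i < N, ∀ b, b ≠ 2 → φ (Z' i b) = val (i, b) := by
    intro i hi b hb
    have hnex : ¬ ∃ p : ℕ × Fin 5, p.1 < N ∧ Z p.1 p.2 = Z' i b := by
      rintro ⟨p, hp, h⟩
      exact dis p.1 hp i hi p.2 b hb h
    have hex : ∃ p : ℕ × Fin 5, p.1 < N ∧ Z' p.1 p.2 = Z' i b := ⟨(i, b), hi, rfl⟩
    rw [hφ]
    simp only
    rw [dif_neg hnex, dif_pos hex]
    obtain ⟨c1, c2⟩ := hex.choose_spec
    obtain ⟨c3, c4⟩ := h2 _ _ _ _ c1 hi c2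
    congr 1
    exact Prod.ext c3 c4
  refine ⟨φ, ⟨fun i hi => ?_, fun i hi => ?_, fun i hi => ?_, fun i hi => ?_, fun i hi => ?_⟩,
    ⟨fun i hi => ?_, fun i hi => ?_, fun i hi => ?_, fun i hi => ?_, fun i hi => ?_⟩⟩
  · rw [k1 i hi]; simp [hval]
  · rw [k1 i hi]; simp [hval]
  · rw [k1 i hi]; simp [hval]
  · rw [k1 i hi]; simp [hval]
  · rw [k1 i hi]; simp [hval]
  · rw [k2 i hi 0 (by decide)]; simp [hval]
  · rw [k2 i hi 1 (by decide)]; simp [hval]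
  · rw [hQ i hi, k1 i hi]; simp [hval]
  · rw [k2 i hi 3 (by decide)]; simp [hval]
  · rw [k2 i hi 4 (by decide)]; simp [hval]

/-- the hypotheses on a row, with the turnings `s i` between the tiles -/
structure RowS (f : LP D) (N : ℕ) (Z : ℕ → Fin 5 → D) (s : ℕ → ℤ) : Prop where
  inj : Inj5 N Z
  hT : ∀ i < N, f (Z i 3) = Z i 4 ∧ f.d (Z i 3) = 0
  hE : ∀ i, i + 1 < N → f (Z i 1) = Z (i + 1) 0 ∧ f.d (Z i 1) = s i

theorem RowS.gau {f : LP D} {N : ℕ} {Z : ℕ → Fin 5 → D} {s : ℕ → ℤ} (h : RowS f N Z s)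
    {φ : D → ℤ} (hφ : Gg φ N Z (fun i => ∑ j ∈ range i, s j)) :
    RowH Set.univ (LP.gau φ f) N Z := by
  refine ⟨h.inj, fun _ _ _ => Set.mem_univ _, fun i hi => ?_, fun i hi => ?_⟩
  · obtain ⟨h1, h2⟩ := h.hT i hi
    rw [gau_apply, gau_d, h1, h2, hφ.g3 i hi, hφ.g4 i hi]
    exact ⟨rfl, by ring⟩
  · obtain ⟨h1, h2⟩ := h.hE i hi
    rw [gau_apply, gau_d, h1, h2, hφ.g1 i (by omega), hφ.g0 (i + 1) hi, sum_range_succ]
    exact ⟨rfl, by ring⟩

/-- the ends which are alive after both rows -/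
def Aw (Z Z' : ℕ → Fin 5 → D) (N : ℕ) : Set D :=
  {x | ∀ i < N, ∀ b : Fin 5, b ≠ 4 → x ≠ Z i b ∧ x ≠ Z' i b}

theorem Aw_eq (Z Z' : ℕ → Fin 5 → D) (N : ℕ) : Al (Al Set.univ Z N) Z' N = Aw Z Z' N := by
  ext x
  simp only [Al, Aw, Set.mem_setOf_eq, Set.mem_univ, true_and]
  constructor
  · rintro ⟨h1, h2⟩ i hi b hb
    obtain ⟨a0, a1, a2, a3⟩ := h1 i hi
    obtain ⟨b0, b1, b2, b3⟩ := h2 i hi
    fin_cases b
    · exact ⟨a0, b0⟩
    · exact ⟨a1, b1⟩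
    · exact ⟨a2, b2⟩
    · exact ⟨a3, b3⟩
    · exact absurd rfl hb
  · intro h
    exact ⟨fun i hi => ⟨(h i hi 0 (by decide)).1, (h i hi 1 (by decide)).1,
      (h i hi 2 (by decide)).1, (h i hi 3 (by decide)).1⟩,
      fun i hi => ⟨(h i hi 0 (by decide)).2, (h i hi 1 (by decide)).2,
      (h i hi 2 (by decide)).2, (h i hi 3 (by decide)).2⟩⟩

/-- **Exchange of two adjacent rows in a network, with turnings.** -/
theorem exch_real {f : LP D} {N : ℕ} {Z Z' : ℕ → Fin 5 → D} {s : ℕ → ℤ}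
    (H : RowS f (N + 1) Z s) (H' : RowS f (N + 1) Z' s)
    (hQ : ∀ i < N + 1, Z' i 2 = Z i 4)
    (dis : ∀ i < N + 1, ∀ j < N + 1, ∀ a b, b ≠ 2 → Z i a ≠ Z' j b) (κ : ℤ)
    (hu : f (Z 0 0) = Z N 1 ∧ f.d (Z 0 0) = κ) (hu' : f (Z' 0 0) = Z' N 1 ∧ f.d (Z' 0 0) = κ)
    (Φ : LP D → ℂ) (hΦ : ∀ g g', Eqv (Aw Z Z' (N + 1)) g g' → Φ g = Φ g') (a a' : ℂ) :
    Ec (fun _ => a) (range (N + 1)) (fun B => Ec (fun _ => a') (range (N + 1)) (fun B' =>
      Φ (rowR Z' (fun i => decide (i ∈ B')) (N + 1)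
        (rowR Z (fun i => decide (i ∈ B)) (N + 1) f)))) =
    Ec (fun _ => a') (range (N + 1)) (fun B => Ec (fun _ => a) (range (N + 1)) (fun B' =>
      Φ (rowR Z' (fun i => decide (i ∈ B')) (N + 1)
        (rowR Z (fun i => decide (i ∈ B)) (N + 1) f)))) := by
  obtain ⟨φ, g1, g2⟩ := exists_Gg (fun i => ∑ j ∈ range i, s j) H.inj H'.inj hQ dis
  have key := exch_net (A := Set.univ) (f := gau φ f) (N := N) (Z := Z) (Z' := Z')
    ⟨H.gau g1, H'.gau g2, hQ, dis⟩ (fun _ _ => Set.mem_univ _) (-2) 0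
    (κ + ∑ j ∈ range 0, s j - ∑ j ∈ range N, s j)
    (by rw [gau_apply, gau_d, hu.1, hu.2, g1.g0 0 (by omega), g1.g1 N (by omega)]
        exact ⟨rfl, rfl⟩)
    (by rw [gau_apply, gau_d, hu'.1, hu'.2, g2.g0 0 (by omega), g2.g1 N (by omega)]
        exact ⟨rfl, rfl⟩)
    (fun g => Φ (gau (fun x => - φ x) g))
    (fun g g' h => hΦ _ _ (by rw [← Aw_eq]; exact h.gau _)) a a'
  have e1 : ∀ B B' : Finset ℕ, gau (fun x => - φ x) (rowt (-2) 0 Z' (fun i => decide (i ∈ B')) (N + 1)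
      (rowt (-2) 0 Z (fun i => decide (i ∈ B)) (N + 1) (gau φ f))) =
      rowR Z' (fun i => decide (i ∈ B')) (N + 1) (rowR Z (fun i => decide (i ∈ B)) (N + 1) f) := by
    intro B B'
    rw [← gau_rowR g1 _ _ le_rfl, ← gau_rowR g2 _ _ le_rfl, gau_neg]
  simp only [e1] at key
  exact key

end LP

end Pool.Agent.H64.Q1
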