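import Pool.Agent.H64.Q1.LExchange

/-!
# Rows of tiles in a network, and their exchange
-/

namespace Pool.Agent.H64.Q1

open LP

namespace LP

variable {D : Type*}

/-- `A` is a union of arcs of `f`. -/
def Stable (A : Set D) (f : LP D) : Prop := ∀ x ∈ A, f x ∈ A

/-- `f` and `g` agree on `A`, a union of arcs. -/
def Eqv (A : Set D) (f g : LP D) : Prop := Stable A f ∧ ∀ x ∈ A, f x = g x ∧ f.d x = g.d x

theorem Eqv.stable {A : Set D} {f g : LP D} (h : Eqv A f g) : Stable A g := fun x hx => by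
  rw [← (h.2 x hx).1]; exact h.1 x hx

theorem Eqv.refl {A : Set D} {f : LP D} (h : Stable A f) : Eqv A f f := ⟨h, fun _ _ => ⟨rfl, rfl⟩⟩

theorem Eqv.symm {A : Set D} {f g : LP D} (h : Eqv A f g) : Eqv A g f :=
  ⟨h.stable, fun x hx => ⟨(h.2 x hx).1.symm, (h.2 x hx).2.symm⟩⟩

theorem Eqv.trans {A : Set D} {f g k : LP D} (h : Eqv A f g) (h' : Eqv A g k) : Eqv A f k :=
  ⟨h.1, fun x hx => ⟨(h.2 x hx).1.trans (h'.2 x hx).1, (h.2 x hx).2.trans (h'.2 x hx).2⟩⟩

theorem Eqv.mono {A B : Set D} {f g : LP D} (h : Eqv A f g) (hB : B ⊆ A) (hs : Stable B f) :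
    Eqv B f g := ⟨hs, fun x hx => h.2 x (hB hx)⟩

variable [DecidableEq D]

theorem Stable.jn {A : Set D} {f : LP D} (h : Stable A f) {x y : D} (hx : x ∈ A) (hy : y ∈ A)
    (τ κ : ℤ) : Stable A (jn x y τ κ f) := by
  by_cases hxy : x = y
  · unfold LP.jn; rw [dif_pos hxy]; exact h
  · intro t ht
    rw [jn_apply x y τ κ f hxy]
    have h1 := h x hx
    have h2 := h y hy
    have h3 := h t ht
    split_ifs <;> assumption

theorem Eqv.jn {A : Set D} {f g : LP D} (h : Eqv A f g) {x y : D} (hx : x ∈ A) (hy : y ∈ A)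
    (τ κ : ℤ) : Eqv A (jn x y τ κ f) (jn x y τ κ g) := by
  refine ⟨h.1.jn hx hy τ κ, fun t ht => ?_⟩
  by_cases hxy : x = y
  · unfold LP.jn; rw [dif_pos hxy, dif_pos hxy]; exact h.2 t ht
  · obtain ⟨a1, a2⟩ := h.2 x hx
    obtain ⟨b1, b2⟩ := h.2 y hy
    obtain ⟨c1, c2⟩ := h.2 t ht
    rw [jn_apply x y τ κ f hxy, jn_apply x y τ κ g hxy, jn_d x y τ κ f hxy,
      jn_d x y τ κ g hxy, a1, a2, b1, b2, c1, c2]
    exact ⟨rfl, rfl⟩

theorem Stable.ren {A : Set D} {f : LP D} (h : Stable A f) {s : Equiv.Perm D}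
    (hs : ∀ x, s x ∈ A ↔ x ∈ A) : Stable A (ren s f) := by
  intro t ht
  rw [ren_apply, hs]
  apply h
  rw [← hs, Equiv.apply_symm_apply]
  exact ht

theorem Eqv.ren {A : Set D} {f g : LP D} (h : Eqv A f g) {s : Equiv.Perm D}
    (hs : ∀ x, s x ∈ A ↔ x ∈ A) : Eqv A (ren s f) (ren s g) := by
  refine ⟨h.1.ren hs, fun t ht => ?_⟩
  have ht' : s.symm t ∈ A := by rw [← hs, Equiv.apply_symm_apply]; exact ht
  obtain ⟨c1, c2⟩ := h.2 _ ht'
  rw [ren_apply, ren_apply, ren_d, ren_d, c1, c2]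
  exact ⟨rfl, rfl⟩

theorem swap_mem {A : Set D} {x y : D} (hx : x ∈ A) (hy : y ∈ A) (t : D) :
    Equiv.swap x y t ∈ A ↔ t ∈ A := by
  rw [Equiv.swap_apply_def]
  split_ifs with h1 h2
  · subst h1; simp [hx, hy]
  · subst h2; simp [hx, hy]
  · rfl

theorem Eqv.sw {A : Set D} {f g : LP D} (h : Eqv A f g) {x y : D} (hx : x ∈ A) (hy : y ∈ A) :
    Eqv A (sw x y f) (sw x y g) := h.ren (swap_mem hx hy)

/-- The set without the four ends of a tile. -/
def dl (A : Set D) (W E S T : D) : Set D := {x | x ∈ A ∧ x ≠ W ∧ x ≠ E ∧ x ≠ S ∧ x ≠ T}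

/-- The two resolutions of a tile with the ends `W E S T` (west, east, south, north). -/
def tile (e : ℤ) (k : ℤ) (b : Bool) (W E S T : D) (g : LP D) : LP D :=
  if b then jn W T 0 k (jn S E 0 k g) else jn W S e k (jn T E (-e) k g)

theorem tile_stable {A : Set D} {g : LP D} (hA : Stable A g) (e k : ℤ) (b : Bool) {W E S T : D}
    (hW : W ∈ A) (hE : E ∈ A) (hS : S ∈ A) (hT : T ∈ A)
    (h1 : W ≠ E) (h2 : W ≠ S) (h3 : W ≠ T) (h4 : E ≠ S) (h5 : E ≠ T) (h6 : S ≠ T) :
    Stable A (tile e k b W E S T g) ∧ Stable (dl A W E S T) (tile e k b W E S T g) := by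
  have hs : Stable A (tile e k b W E S T g) := by
    unfold tile
    split_ifs
    · exact (hA.jn hS hE _ _).jn hW hT _ _
    · exact (hA.jn hT hE _ _).jn hW hS _ _
  refine ⟨hs, ?_⟩
  intro x hx
  obtain ⟨x1, x2, x3, x4, x5⟩ := hx
  refine ⟨hs x x1, ?_⟩
  unfold tile
  cases b
  · simp only [Bool.false_eq_true, if_false]
    have f1 : jn W S e k (jn T E (-e) k g) W = S := jn_left _ _ _ _ _ h2
    have f2 : jn W S e k (jn T E (-e) k g) T = E := by
      rw [jn_jn W S T E _ _ _ _ g h2 h3 h1 h6 h4.symm h5.symm, jn_left _ _ _ _ _ h5.symm]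
    generalize jn W S e k (jn T E (-e) k g) = r at f1 f2
    have i1 := r.invol x
    have i2 := r.invol W
    have i3 := r.invol T
    refine ⟨?_, ?_, ?_, ?_⟩ <;> intro hh <;> grind
  · simp only [if_true]
    have f1 : jn W T 0 k (jn S E 0 k g) W = T := jn_left _ _ _ _ _ h3
    have f2 : jn W T 0 k (jn S E 0 k g) S = E := by
      rw [jn_jn W T S E _ _ _ _ g h3 h2 h1 h6.symm h5.symm h4.symm, jn_left _ _ _ _ _ h4.symm]
    generalize jn W T 0 k (jn S E 0 k g) = r at f1 f2
    have i1 := r.invol x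
    have i2 := r.invol W
    have i3 := r.invol S
    refine ⟨?_, ?_, ?_, ?_⟩ <;> intro hh <;> grind

/-- A tile in the middle of a row: the line moves from the end `W` to the end `W'` behind the
tile, the column from the end `S` to the end `Q` above the tile. -/
theorem tile_mid {A : Set D} {g : LP D} (hA : Stable A g) (e k : ℤ) (b : Bool)
    {W E S T Q W' : D}
    (hW : W ∈ A) (hE : E ∈ A) (hS : S ∈ A) (hT : T ∈ A)
    (h1 : W ≠ E) (h2 : W ≠ S) (h3 : W ≠ T) (h4 : E ≠ S) (h5 : E ≠ T) (h6 : S ≠ T)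
    (hQ : Q ≠ W ∧ Q ≠ E ∧ Q ≠ S ∧ Q ≠ T) (hW' : W' ≠ W ∧ W' ≠ E ∧ W' ≠ S ∧ W' ≠ T)
    (hQW : Q ≠ W') (gT : g T = Q) (gTd : g.d T = 0) (gE : g E = W') (gEd : g.d E = 0) :
    Eqv (dl A W E S T) (tile e k b W E S T g)
      (ren (Equiv.swap W W' * Equiv.swap S Q) (if b then sw W S g else jn W S e e g)) := by
  obtain ⟨q1, q2, q3, q4⟩ := hQ
  obtain ⟨w1, w2, w3, w4⟩ := hW'
  refine ⟨(tile_stable hA e k b hW hE hS hT h1 h2 h3 h4 h5 h6).2, ?_⟩
  intro x hx
  obtain ⟨x1, x2, x3, x4, x5⟩ := hx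
  have gQ : g Q = T := by rw [← gT]; simp
  have gW' : g W' = E := by rw [← gE]; simp
  have gQd : g.d Q = 0 := by rw [← gT, g.anti, gTd]; rfl
  have gW'd : g.d W' = 0 := by rw [← gE, g.anti, gEd]; rfl
  have i1 := g.invol W
  have i2 := g.invol S
  have i3 := g.invol x
  have m1 := g.ne W
  have m2 := g.ne S
  have c1 := g.anti W
  have c2 := g.anti S
  have hsx : (Equiv.swap W W' * Equiv.swap S Q).symm x =
      if x = W' then W else if x = Q then S else x := by
    rw [Equiv.symm_apply_eq, Equiv.Perm.mul_apply]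
    simp only [Equiv.swap_apply_def]
    grind
  unfold tile
  cases b
  · simp only [Bool.false_eq_true, if_false]
    rw [ren_apply, ren_d, hsx, Equiv.Perm.mul_apply]
    have a1 := jn_apply T E (-e) k g h5.symm W
    have a2 := jn_apply T E (-e) k g h5.symm S
    have a3 := jn_apply T E (-e) k g h5.symm x
    have b1 := jn_d T E (-e) k g h5.symm W
    have b2 := jn_d T E (-e) k g h5.symm S
    have b3 := jn_d T E (-e) k g h5.symm x
    rw [gT, gE] at a1 a2 a3 b1 b2 b3
    rw [gTd, gEd] at b1 b2 b3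
    constructor
    · rw [jn_apply W S e k _ h2, jn_apply W S e e g h2]
      generalize jn T E (-e) k g W = g1 at *
      generalize jn T E (-e) k g S = g2 at *
      generalize jn T E (-e) k g x = g3 at *
      clear b1 b2 b3 c1 c2
      simp only [Equiv.swap_apply_def]
      grind (splits := 40)
    · rw [jn_d W S e k _ h2, jn_d W S e e g h2]
      generalize jn T E (-e) k g W = g1 at *
      generalize jn T E (-e) k g S = g2 at *
      generalize (jn T E (-e) k g).d W = k1 at *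
      generalize (jn T E (-e) k g).d S = k2 at *
      generalize (jn T E (-e) k g).d x = k3 at *
      grind (splits := 40)
  · simp only [if_true]
    rw [ren_apply, ren_d, hsx, Equiv.Perm.mul_apply]
    have a1 := jn_apply S E 0 k g h4.symm W
    have a2 := jn_apply S E 0 k g h4.symm T
    have a3 := jn_apply S E 0 k g h4.symm x
    have b1 := jn_d S E 0 k g h4.symm W
    have b2 := jn_d S E 0 k g h4.symm T
    have b3 := jn_d S E 0 k g h4.symm x
    rw [gE] at a1 a2 a3 b1 b2 b3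
    rw [gEd] at b1 b2 b3
    unfold sw
    rw [ren_apply, ren_d, Equiv.symm_swap]
    constructor
    · rw [jn_apply W T 0 k _ h3]
      generalize jn S E 0 k g W = g1 at *
      generalize jn S E 0 k g T = g2 at *
      generalize jn S E 0 k g x = g3 at *
      clear b1 b2 b3 c1 c2
      simp only [Equiv.swap_apply_def]
      grind (splits := 40)
    · rw [jn_d W T 0 k _ h3]
      generalize jn S E 0 k g W = g1 at *
      generalize jn S E 0 k g T = g2 at *
      generalize (jn S E 0 k g).d W = k1 at *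
      generalize (jn S E 0 k g).d T = k2 at *
      generalize (jn S E 0 k g).d x = k3 at *
      simp only [Equiv.swap_apply_def]
      grind (splits := 40)

/-- The last tile of a row: the line is closed with the end `E`. -/
theorem tile_last {A : Set D} {g : LP D} (hA : Stable A g) (e k κ : ℤ) (b : Bool)
    {W E S T Q : D}
    (hW : W ∈ A) (hE : E ∈ A) (hS : S ∈ A) (hT : T ∈ A)
    (h1 : W ≠ E) (h2 : W ≠ S) (h3 : W ≠ T) (h4 : E ≠ S) (h5 : E ≠ T) (h6 : S ≠ T)
    (hQ : Q ≠ W ∧ Q ≠ E ∧ Q ≠ S ∧ Q ≠ T) (gT : g T = Q) (gTd : g.d T = 0) :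
    Eqv (dl A W E S T) (tile e k b W E S T g)
      (ren (Equiv.swap S Q) (jn W E 0 κ (if b then sw W S g else jn W S e e g))) := by
  obtain ⟨q1, q2, q3, q4⟩ := hQ
  refine ⟨(tile_stable hA e k b hW hE hS hT h1 h2 h3 h4 h5 h6).2, ?_⟩
  intro x hx
  obtain ⟨x1, x2, x3, x4, x5⟩ := hx
  have gQ : g Q = T := by rw [← gT]; simp
  have gQd : g.d Q = 0 := by rw [← gT, g.anti, gTd]; rfl
  have i1 := g.invol W
  have i2 := g.invol S
  have i3 := g.invol x
  have i4 := g.invol E
  have m1 := g.ne W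
  have m2 := g.ne S
  have m4 := g.ne E
  have c1 := g.anti W
  have c2 := g.anti S
  have c4 := g.anti E
  have hsx : (Equiv.swap S Q).symm x = if x = Q then S else x := by
    rw [Equiv.symm_swap]
    simp only [Equiv.swap_apply_def]
    grind
  unfold tile
  cases b
  · simp only [Bool.false_eq_true, if_false]
    rw [ren_apply, ren_d, hsx]
    have a1 := jn_apply T E (-e) k g h5.symm W
    have a2 := jn_apply T E (-e) k g h5.symm S
    have a3 := jn_apply T E (-e) k g h5.symm x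
    have b1 := jn_d T E (-e) k g h5.symm W
    have b2 := jn_d T E (-e) k g h5.symm S
    have b3 := jn_d T E (-e) k g h5.symm x
    have a4 := jn_apply W S e e g h2 E
    have a5 := jn_apply W S e e g h2 (if x = Q then S else x)
    have b4 := jn_d W S e e g h2 E
    have b5 := jn_d W S e e g h2 (if x = Q then S else x)
    have a6 := jn_left W S e e g h2
    have b6 := jn_d_left W S e e g h2
    rw [gT] at a1 a2 a3 b1 b2 b3
    rw [gTd] at b1 b2 b3
    constructor
    · rw [jn_apply W S e k _ h2, jn_apply W E 0 κ _ h1, a6]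
      generalize jn T E (-e) k g W = g1 at *
      generalize jn T E (-e) k g S = g2 at *
      generalize jn T E (-e) k g x = g3 at *
      generalize jn W S e e g E = g4 at *
      generalize jn W S e e g (if x = Q then S else x) = g5 at *
      clear b1 b2 b3 c1 c2 c4 b4 b5 b6 a6
      simp only [Equiv.swap_apply_def]
      grind (splits := 60)
    · rw [jn_d W S e k _ h2, jn_d W E 0 κ _ h1, a6, b6]
      generalize jn T E (-e) k g W = g1 at *
      generalize jn T E (-e) k g S = g2 at *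
      generalize (jn T E (-e) k g).d W = k1 at *
      generalize (jn T E (-e) k g).d S = k2 at *
      generalize (jn T E (-e) k g).d x = k3 at *
      generalize jn W S e e g E = g4 at *
      generalize (jn W S e e g).d E = k4 at *
      generalize (jn W S e e g).d (if x = Q then S else x) = k5 at *
      clear a3 a5 a6
      grind (splits := 60)
  · simp only [if_true]
    rw [ren_apply, ren_d, hsx]
    have a1 := jn_apply S E 0 k g h4.symm W
    have a2 := jn_apply S E 0 k g h4.symm T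
    have a3 := jn_apply S E 0 k g h4.symm x
    have b1 := jn_d S E 0 k g h4.symm W
    have b2 := jn_d S E 0 k g h4.symm T
    have b3 := jn_d S E 0 k g h4.symm x
    have hsw : ∀ t, sw W S g t = Equiv.swap W S (g (Equiv.swap W S t)) := fun t => rfl
    have hswd : ∀ t, (sw W S g).d t = g.d (Equiv.swap W S t) := fun t => rfl
    constructor
    · rw [jn_apply W T 0 k _ h3, jn_apply W E 0 κ _ h1]
      simp only [hsw]
      generalize jn S E 0 k g W = g1 at *
      generalize jn S E 0 k g T = g2 at *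
      generalize jn S E 0 k g x = g3 at *
      clear b1 b2 b3 c1 c2 c4
      simp only [Equiv.swap_apply_def]
      grind (splits := 60)
    · rw [jn_d W T 0 k _ h3, jn_d W E 0 κ _ h1]
      simp only [hsw, hswd]
      generalize jn S E 0 k g W = g1 at *
      generalize jn S E 0 k g T = g2 at *
      generalize (jn S E 0 k g).d W = k1 at *
      generalize (jn S E 0 k g).d T = k2 at *
      generalize (jn S E 0 k g).d x = k3 at *
      simp only [Equiv.swap_apply_def]
      grind (splits := 60)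

/-- Joins away from an arc keep the arc. -/
theorem jn_keep {x y z w : D} {g : LP D} (h : g x = y) (h1 : x ≠ z) (h2 : x ≠ w) (h3 : y ≠ z)
    (h4 : y ≠ w) (τ κ : ℤ) : jn z w τ κ g x = y ∧ (jn z w τ κ g).d x = g.d x := by
  by_cases hzw : z = w
  · unfold jn; rw [dif_pos hzw]; exact ⟨h, rfl⟩
  · have e1 : x ≠ g z := fun e => h3 (by rw [← h, e]; simp)
    have e2 : x ≠ g w := fun e => h4 (by rw [← h, e]; simp)
    rw [jn_apply z w _ _ g hzw, jn_d z w _ _ g hzw, if_neg h1, if_neg h2, if_neg e1, if_neg e2,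
      if_neg h1, if_neg h2, if_neg e1, if_neg e2, h]
    exact ⟨rfl, rfl⟩

theorem tile_keep {x y W E S T : D} {g : LP D} (h : g x = y)
    (hx : x ≠ W ∧ x ≠ E ∧ x ≠ S ∧ x ≠ T) (hy : y ≠ W ∧ y ≠ E ∧ y ≠ S ∧ y ≠ T) (e k : ℤ)
    (b : Bool) : tile e k b W E S T g x = y ∧ (tile e k b W E S T g).d x = g.d x := by
  obtain ⟨x1, x2, x3, x4⟩ := hx
  obtain ⟨y1, y2, y3, y4⟩ := hy
  unfold tile
  cases b
  · simp only [Bool.false_eq_true, if_false]
    have a := jn_keep h x4 x2 y4 y2 (-e) k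
    have b := jn_keep a.1 x1 x3 y1 y3 e k
    exact ⟨b.1, b.2.trans a.2⟩
  · simp only [if_true]
    have a := jn_keep h x3 x2 y3 y2 0 k
    have b := jn_keep a.1 x1 x4 y1 y4 0 k
    exact ⟨b.1, b.2.trans a.2⟩

/-- The first `n` tiles of a row. The ends of the tile number `i` are `Z i 0 = W`, `Z i 1 = E`,
`Z i 2 = S`, `Z i 3 = T`; `Z i 4 = Q` is the end above the tile. -/
def rowt (e k : ℤ) (Z : ℕ → Fin 5 → D) (B : ℕ → Bool) : ℕ → LP D → LP D
  | 0, g => g
  | n + 1, g => tile e k (B n) (Z n 0) (Z n 1) (Z n 2) (Z n 3) (rowt e k Z B n g)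

/-- the set `A` without the ends of the first `n` tiles -/
def Al (A : Set D) (Z : ℕ → Fin 5 → D) (n : ℕ) : Set D :=
  {x | x ∈ A ∧ ∀ i < n, x ≠ Z i 0 ∧ x ≠ Z i 1 ∧ x ≠ Z i 2 ∧ x ≠ Z i 3}

/-- The line `u` crosses the columns `Z 0 2, Z 1 2, ...`. -/
def stB (e : ℤ) (u : D) (S : ℕ → D) (B : ℕ → Bool) : ℕ → LP D → LP D
  | 0, g => g
  | n + 1, g => if B n then sw u (S n) (stB e u S B n g) else jn u (S n) e e (stB e u S B n g)

/-- The renaming of the ends by the first `n` tiles of a row. -/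
def rho (Z : ℕ → Fin 5 → D) : ℕ → Equiv.Perm D
  | 0 => 1
  | n + 1 => Equiv.swap (Z n 0) (Z (n + 1) 0) * Equiv.swap (Z n 2) (Z n 4) * rho Z n

/-- the ends of the tiles are different -/
def Inj5 (N : ℕ) (Z : ℕ → Fin 5 → D) : Prop :=
  ∀ i j a b, i < N → j < N → Z i a = Z j b → i = j ∧ a = b

theorem Inj5.ne {N : ℕ} {Z : ℕ → Fin 5 → D} (h : Inj5 N Z) {i j : ℕ} {a b : Fin 5} (hi : i < N)
    (hj : j < N) (hab : i ≠ j ∨ a ≠ b) : Z i a ≠ Z j b := by
  intro e
  obtain ⟨h1, h2⟩ := h i j a b hi hj e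
  rcases hab with hab | hab
  · exact hab h1
  · exact hab h2

theorem rho_W {N : ℕ} {Z : ℕ → Fin 5 → D} (h : Inj5 N Z) {n : ℕ} (hn : n < N) :
    rho Z n (Z 0 0) = Z n 0 := by
  induction n with
  | zero => rfl
  | succ n ih =>
    have hn' : n < N := by omega
    rw [rho, Equiv.Perm.mul_apply, Equiv.Perm.mul_apply, ih hn',
      Equiv.swap_apply_of_ne_of_ne (h.ne hn' hn' (Or.inr (by decide)))
        (h.ne hn' hn' (Or.inr (by decide))), Equiv.swap_apply_left]

theorem rho_fix {N : ℕ} {Z : ℕ → Fin 5 → D} {x : D}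
    (hx : ∀ i < N, x ≠ Z i 0 ∧ x ≠ Z i 2 ∧ x ≠ Z i 4) {n : ℕ} (hn : n < N) :
    rho Z n x = x := by
  induction n with
  | zero => rfl
  | succ n ih =>
    have hn' : n < N := by omega
    rw [rho, Equiv.Perm.mul_apply, Equiv.Perm.mul_apply, ih hn',
      Equiv.swap_apply_of_ne_of_ne (hx n hn').2.1 (hx n hn').2.2,
      Equiv.swap_apply_of_ne_of_ne (hx n hn').1 (hx _ hn).1]

theorem rho_S_ge {N : ℕ} {Z : ℕ → Fin 5 → D} (h : Inj5 N Z) {n j : ℕ} (hnj : n ≤ j)
    (hj : j < N) : rho Z n (Z j 2) = Z j 2 := by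
  induction n with
  | zero => rfl
  | succ n ih =>
    have hn' : n < N := by omega
    have hn1 : n + 1 < N := by omega
    rw [rho, Equiv.Perm.mul_apply, Equiv.Perm.mul_apply, ih (by omega),
      Equiv.swap_apply_of_ne_of_ne (h.ne hj hn' (Or.inl (by omega)))
        (h.ne hj hn' (Or.inr (by decide))),
      Equiv.swap_apply_of_ne_of_ne (h.ne hj hn' (Or.inr (by decide)))
        (h.ne hj hn1 (Or.inr (by decide)))]

theorem rho_S_lt {N : ℕ} {Z : ℕ → Fin 5 → D} (h : Inj5 N Z) {n i : ℕ} (hin : i < n)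
    (hn : n < N) : rho Z n (Z i 2) = Z i 4 := by
  induction n with
  | zero => omega
  | succ n ih =>
    have hn' : n < N := by omega
    rw [rho, Equiv.Perm.mul_apply, Equiv.Perm.mul_apply]
    by_cases hi : i = n
    · subst hi
      rw [rho_S_ge h le_rfl hn', Equiv.swap_apply_left,
        Equiv.swap_apply_of_ne_of_ne (h.ne hn' hn' (Or.inr (by decide)))
          (h.ne hn' hn (Or.inr (by decide)))]
    · have hi' : i < N := by omega
      rw [ih (by omega) hn', Equiv.swap_apply_of_ne_of_ne (h.ne hi' hn' (Or.inr (by decide)))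
        (h.ne hi' hn' (Or.inl hi)),
        Equiv.swap_apply_of_ne_of_ne (h.ne hi' hn' (Or.inr (by decide)))
          (h.ne hi' hn (Or.inr (by decide)))]

theorem ren_sw (s : Equiv.Perm D) (x y : D) (f : LP D) :
    ren s (sw x y f) = sw (s x) (s y) (ren s f) := by
  unfold sw
  rw [← ren_mul, ← ren_mul]
  congr 1
  rw [Equiv.mul_swap_eq_swap_mul]

section RowLemma

variable {A : Set D} {f : LP D} {N : ℕ} {Z : ℕ → Fin 5 → D} (e k : ℤ) (B : ℕ → Bool)

/-- the hypotheses on a row in the state `f` -/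
structure RowH (A : Set D) (f : LP D) (N : ℕ) (Z : ℕ → Fin 5 → D) : Prop where
  inj : Inj5 N Z
  mem : ∀ i < N, ∀ a, Z i a ∈ A
  hT : ∀ i < N, f (Z i 3) = Z i 4 ∧ f.d (Z i 3) = 0
  hE : ∀ i, i + 1 < N → f (Z i 1) = Z (i + 1) 0 ∧ f.d (Z i 1) = 0

theorem rowt_keep {x y : D} (h : f x = y) {n : ℕ}
    (hx : ∀ i < n, x ≠ Z i 0 ∧ x ≠ Z i 1 ∧ x ≠ Z i 2 ∧ x ≠ Z i 3)
    (hy : ∀ i < n, y ≠ Z i 0 ∧ y ≠ Z i 1 ∧ y ≠ Z i 2 ∧ y ≠ Z i 3) :
    rowt e k Z B n f x = y ∧ (rowt e k Z B n f).d x = f.d x := by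
  induction n with
  | zero => exact ⟨h, rfl⟩
  | succ n ih =>
    obtain ⟨h1, h2⟩ := ih (fun i hi => hx i (by omega)) (fun i hi => hy i (by omega))
    obtain ⟨h3, h4⟩ := tile_keep h1 (hx n (by omega)) (hy n (by omega)) e k (B n)
    exact ⟨h3, h4.trans h2⟩

theorem RowH.top (H : RowH A f N Z) {n j : ℕ} (hnj : n ≤ j) (hj : j < N) :
    rowt e k Z B n f (Z j 3) = Z j 4 ∧ (rowt e k Z B n f).d (Z j 3) = 0 := by
  have := rowt_keep e k B (f := f) (Z := Z) (n := n) (H.hT j hj).1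
    (fun i hi => ⟨H.inj.ne hj (by omega) (Or.inr (by decide)),
      H.inj.ne hj (by omega) (Or.inr (by decide)), H.inj.ne hj (by omega) (Or.inr (by decide)),
      H.inj.ne hj (by omega) (Or.inl (by omega))⟩)
    (fun i hi => ⟨H.inj.ne hj (by omega) (Or.inr (by decide)),
      H.inj.ne hj (by omega) (Or.inr (by decide)), H.inj.ne hj (by omega) (Or.inr (by decide)),
      H.inj.ne hj (by omega) (Or.inr (by decide))⟩)
  exact ⟨this.1, this.2.trans (H.hT j hj).2⟩

theorem RowH.east (H : RowH A f N Z) {n j : ℕ} (hnj : n ≤ j) (hj : j + 1 < N) :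
    rowt e k Z B n f (Z j 1) = Z (j + 1) 0 ∧ (rowt e k Z B n f).d (Z j 1) = 0 := by
  have hj' : j < N := by omega
  have := rowt_keep e k B (f := f) (Z := Z) (n := n) (H.hE j hj).1
    (fun i hi => ⟨H.inj.ne hj' (by omega) (Or.inr (by decide)),
      H.inj.ne hj' (by omega) (Or.inl (by omega)), H.inj.ne hj' (by omega) (Or.inr (by decide)),
      H.inj.ne hj' (by omega) (Or.inr (by decide))⟩)
    (fun i hi => ⟨H.inj.ne hj (by omega) (Or.inl (by omega)),
      H.inj.ne hj (by omega) (Or.inr (by decide)), H.inj.ne hj (by omega) (Or.inr (by decide)),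
      H.inj.ne hj (by omega) (Or.inr (by decide))⟩)
  exact ⟨this.1, this.2.trans (H.hE j hj).2⟩

theorem Al_zero : Al A Z 0 = A := by
  ext x; simp [Al]

theorem Al_succ (n : ℕ) : Al A Z (n + 1) = dl (Al A Z n) (Z n 0) (Z n 1) (Z n 2) (Z n 3) := by
  ext x
  simp only [Al, dl, Set.mem_setOf_eq]
  constructor
  · rintro ⟨h1, h2⟩
    exact ⟨⟨h1, fun i hi => h2 i (by omega)⟩, h2 n (by omega)⟩
  · rintro ⟨⟨h1, h2⟩, h3⟩
    refine ⟨h1, fun i hi => ?_⟩
    rcases Nat.lt_succ_iff_lt_or_eq.1 hi with h | h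
    · exact h2 i h
    · subst h; exact h3

theorem RowH.mem_Al (H : RowH A f N Z) {n j : ℕ} (hnj : n ≤ j) (hj : j < N) (a : Fin 5) :
    Z j a ∈ Al A Z n :=
  ⟨H.mem j hj a, fun i hi => ⟨H.inj.ne hj (by omega) (Or.inl (by omega)),
    H.inj.ne hj (by omega) (Or.inl (by omega)), H.inj.ne hj (by omega) (Or.inl (by omega)),
    H.inj.ne hj (by omega) (Or.inl (by omega))⟩⟩

/-- The first `n` tiles, up to the ends of these tiles. -/
theorem row_mid (H : RowH A f N Z) (hA : Stable A f) {n : ℕ} (hn : n < N) :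
    Eqv (Al A Z n) (rowt e k Z B n f) (ren (rho Z n) (stB e (Z 0 0) (fun i => Z i 2) B n f)) := by
  induction n with
  | zero => rw [Al_zero]; exact Eqv.refl hA
  | succ n ih =>
    have hn' : n < N := by omega
    have ih := ih hn'
    have hm : ∀ a, Z n a ∈ Al A Z n := fun a => H.mem_Al le_rfl hn' a
    have hm' : Z (n + 1) 0 ∈ Al A Z n := H.mem_Al (by omega) hn 0
    obtain ⟨t1, t2⟩ := H.top e k B (le_refl n) hn'
    obtain ⟨t3, t4⟩ := H.east e k B (le_refl n) hn
    have hne : ∀ a b : Fin 5, a ≠ b → Z n a ≠ Z n b := fun a b h =>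
      H.inj.ne hn' hn' (Or.inr h)
    have hne' : ∀ a b : Fin 5, Z (n + 1) a ≠ Z n b := fun a b =>
      H.inj.ne hn hn' (Or.inl (by omega))
    have key := tile_mid (ih.1) e k (B n) (hm 0) (hm 1) (hm 2) (hm 3)
      (hne _ _ (by decide)) (hne _ _ (by decide)) (hne _ _ (by decide)) (hne _ _ (by decide))
      (hne _ _ (by decide)) (hne _ _ (by decide))
      ⟨hne 4 0 (by decide), hne 4 1 (by decide), hne 4 2 (by decide), hne 4 3 (by decide)⟩
      ⟨hne' 0 0, hne' 0 1, hne' 0 2, hne' 0 3⟩ (hne' 0 4).symm t1 t2 t3 t4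
    rw [← Al_succ] at key
    have hop : Eqv (Al A Z n)
        (if B n then sw (Z n 0) (Z n 2) (rowt e k Z B n f)
          else jn (Z n 0) (Z n 2) e e (rowt e k Z B n f))
        (ren (rho Z n) (stB e (Z 0 0) (fun i => Z i 2) B (n + 1) f)) := by
      rw [stB]
      split_ifs
      · rw [ren_sw, rho_W H.inj hn', rho_S_ge H.inj le_rfl hn']
        exact ih.sw (hm 0) (hm 2)
      · rw [ren_jn, rho_W H.inj hn', rho_S_ge H.inj le_rfl hn']
        exact ih.jn (hm 0) (hm 2) _ _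
    have hop2 := hop.ren (s := Equiv.swap (Z n 0) (Z (n + 1) 0) * Equiv.swap (Z n 2) (Z n 4))
      (by
        intro x
        rw [Equiv.Perm.mul_apply, swap_mem (hm 0) hm', swap_mem (hm 2) (hm 4)])
    rw [← ren_mul] at hop2
    have hsub : Al A Z (n + 1) ⊆ Al A Z n := by
      rw [Al_succ]
      exact fun x hx => hx.1
    exact key.trans (hop2.mono hsub key.stable)

/-- A complete row, up to the ends of its tiles. -/
theorem row_full (H : RowH A f (N + 1) Z) (hA : Stable A f) (κ : ℤ) :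
    Eqv (Al A Z (N + 1)) (rowt e k Z B (N + 1) f)
      (ren (Equiv.swap (Z N 2) (Z N 4) * rho Z N)
        (jn (Z 0 0) (Z N 1) 0 κ (stB e (Z 0 0) (fun i => Z i 2) B (N + 1) f))) := by
  have hn : N < N + 1 := by omega
  have ih := row_mid e k B H hA hn
  have hm : ∀ a, Z N a ∈ Al A Z N := fun a => H.mem_Al le_rfl hn a
  obtain ⟨t1, t2⟩ := H.top e k B (le_refl N) hn
  have hne : ∀ a b : Fin 5, a ≠ b → Z N a ≠ Z N b := fun a b h =>
    H.inj.ne hn hn (Or.inr h)
  have key := tile_last (ih.1) e k κ (B N) (hm 0) (hm 1) (hm 2) (hm 3)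
    (hne _ _ (by decide)) (hne _ _ (by decide)) (hne _ _ (by decide)) (hne _ _ (by decide))
    (hne _ _ (by decide)) (hne _ _ (by decide))
    ⟨hne 4 0 (by decide), hne 4 1 (by decide), hne 4 2 (by decide), hne 4 3 (by decide)⟩ t1 t2
  rw [← Al_succ] at key
  have hfix : rho Z N (Z N 1) = Z N 1 := by
    apply rho_fix (N := N + 1) _ hn
    intro i hi
    exact ⟨H.inj.ne hn hi (Or.inr (by decide)), H.inj.ne hn hi (Or.inr (by decide)),
      H.inj.ne hn hi (Or.inr (by decide))⟩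
  have hop : Eqv (Al A Z N)
      (jn (Z N 0) (Z N 1) 0 κ (if B N then sw (Z N 0) (Z N 2) (rowt e k Z B N f)
        else jn (Z N 0) (Z N 2) e e (rowt e k Z B N f)))
      (ren (rho Z N) (jn (Z 0 0) (Z N 1) 0 κ (stB e (Z 0 0) (fun i => Z i 2) B (N + 1) f))) := by
    rw [ren_jn, rho_W H.inj hn, hfix]
    refine Eqv.jn ?_ (hm 0) (hm 1) _ _
    rw [stB]
    split_ifs
    · rw [ren_sw, rho_W H.inj hn, rho_S_ge H.inj le_rfl hn]
      exact ih.sw (hm 0) (hm 2)
    · rw [ren_jn, rho_W H.inj hn, rho_S_ge H.inj le_rfl hn]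
      exact ih.jn (hm 0) (hm 2) _ _
  have hop2 := hop.ren (s := Equiv.swap (Z N 2) (Z N 4))
    (by
      intro x
      rw [swap_mem (hm 2) (hm 4)])
  rw [← ren_mul] at hop2
  have hsub : Al A Z (N + 1) ⊆ Al A Z N := by
    rw [Al_succ]
    exact fun x hx => hx.1
  exact key.trans (hop2.mono hsub key.stable)

end RowLemma

end LP

end Pool.Agent.H64.Q1
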