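import Pool.Agent.H64.Q1.Reg5
import Pool.Agent.H81.G1.Bridge

/-!
# Systems of joins and the state sum of a network

`jns J g` joins the pairs of the list `J` in the wiring `g`. `Pth g R z w d`: the strand of `g` and of
the joins `R` which starts at `z` reaches the end `w` with the turning `d`. `Pth.jns`: the arc of `jns J g`
which starts at `z` is the strand. `Net.real`: the state sum of a network is the mean `SF`.
-/

namespace Pool.Agent.H64.Q1

open LP Pool.Agent.H81.G1 Pool.Agent.H13.Q1 Finset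

variable {D : Type*} [DecidableEq D]

/-! ### Systems of joins -/

/-- the joins of a list, the first one first -/
def jns : List (D × D × ℤ) → LP D → LP D
  | [], g => g
  | j :: J, g => jns J (LP.jn j.1 j.2.1 j.2.2 0 g)

theorem jns_append (J J' : List (D × D × ℤ)) (g : LP D) : jns (J ++ J') g = jns J' (jns J g) := by
  induction J generalizing g with
  | nil => rfl
  | cons j J ih => exact ih _

/-- the names of a list of joins -/
def jm : List (D × D × ℤ) → List D
  | [] => []
  | j :: J => j.1 :: j.2.1 :: jm J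

omit [DecidableEq D] in
theorem jm_append (J J' : List (D × D × ℤ)) : jm (J ++ J') = jm J ++ jm J' := by
  induction J with
  | nil => rfl
  | cons j J ih => simp only [List.cons_append, jm, ih]

/-- two ends are joined -/
def JR (J : List (D × D × ℤ)) (x y : D) (τ : ℤ) : Prop := (x, y, τ) ∈ J ∨ (y, x, -τ) ∈ J

omit [DecidableEq D] in
theorem JR.symm {J : List (D × D × ℤ)} {x y : D} {τ : ℤ} (h : JR J x y τ) : JR J y x (-τ) := by
  unfold JR at h ⊢
  rw [neg_neg]
  exact Or.symm h

omit [DecidableEq D] in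
theorem mem_jm {J : List (D × D × ℤ)} {x y : D} {τ : ℤ} (h : (x, y, τ) ∈ J) :
    x ∈ jm J ∧ y ∈ jm J := by
  induction J with
  | nil => exact absurd h List.not_mem_nil
  | cons j J ih =>
    rcases List.mem_cons.1 h with rfl | h
    · simp [jm]
    · obtain ⟨h1, h2⟩ := ih h
      exact ⟨List.mem_cons_of_mem _ (List.mem_cons_of_mem _ h1),
        List.mem_cons_of_mem _ (List.mem_cons_of_mem _ h2)⟩

omit [DecidableEq D] in
theorem JR.mem {J : List (D × D × ℤ)} {x y : D} {τ : ℤ} (h : JR J x y τ) : x ∈ jm J ∧ y ∈ jm J := by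
  rcases h with h | h
  · exact mem_jm h
  · exact (mem_jm h).symm

omit [DecidableEq D] in
theorem JR.mono {J J' : List (D × D × ℤ)} (hs : ∀ j ∈ J, j ∈ J') {x y : D} {τ : ℤ}
    (h : JR J x y τ) : JR J' x y τ := h.imp (hs _) (hs _)

/-- the strand which starts at `z` -/
inductive Pth (g : LP D) (R : D → D → ℤ → Prop) (z : D) : D → ℤ → Prop
  | base : Pth g R z (g z) (g.d z)
  | step {x y : D} {d τ : ℤ} (h : Pth g R z x d) (hR : R x y τ) : Pth g R z (g y) (d + τ + g.d y)

omit [DecidableEq D] in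
theorem Pth.mono {g : LP D} {R R' : D → D → ℤ → Prop} (hR : ∀ x y τ, R x y τ → R' x y τ) {z w : D}
    {d : ℤ} (h : Pth g R z w d) : Pth g R' z w d := by
  induction h with
  | base => exact Pth.base
  | step h h' ih => exact Pth.step ih (hR _ _ _ h')

omit [DecidableEq D] in
theorem Pth.trans {g : LP D} {R : D → D → ℤ → Prop} {z x y w : D} {d τ d' : ℤ}
    (h : Pth g R z x d) (hR : R x y τ) (h' : Pth g R y w d') : Pth g R z w (d + τ + d') := by
  induction h' with
  | base => exact Pth.step h hR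
  | step h1 h2 ih =>
    have := Pth.step ih h2
    convert this using 1
    ring

omit [DecidableEq D] in
/-- a wire without joins -/
theorem Pth.of {g : LP D} {R : D → D → ℤ → Prop} {z w : D} {d : ℤ} (h1 : g z = w) (h2 : g.d z = d) :
    Pth g R z w d := by
  subst h1 h2
  exact Pth.base

/-- the first join of a list is performed -/
theorem Pth.first {g : LP D} {a b : D} {τ0 : ℤ} {J : List (D × D × ℤ)}
    (hJ : (jm ((a, b, τ0) :: J)).Nodup) {z : D} (hz : z ∉ jm ((a, b, τ0) :: J)) {w : D} {d : ℤ}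
    (h : Pth g (JR ((a, b, τ0) :: J)) z w d) :
    (w ≠ a → w ≠ b → Pth (LP.jn a b τ0 0 g) (JR J) z w d) ∧
    (w = a → g a ≠ b ∧ Pth (LP.jn a b τ0 0 g) (JR J) z (g b) (d + τ0 + g.d b)) ∧
    (w = b → g b ≠ a ∧ Pth (LP.jn a b τ0 0 g) (JR J) z (g a) (d - τ0 + g.d a)) := by
  unfold jm at hJ hz
  simp only [List.nodup_cons, List.mem_cons, not_or] at hJ hz
  obtain ⟨⟨hab, ha⟩, hb, -⟩ := hJ
  obtain ⟨za, zb, -⟩ := hz
  set g' := LP.jn a b τ0 0 g with hg'
  have A1 : ∀ t, g' t = if t = a then b else if t = b then a else if t = g a then g b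
    else if t = g b then g a else g t := fun t => jn_apply a b τ0 0 g hab t
  have A2 : ∀ t, g'.d t = if t = a then 0 else if t = b then -0 else if t = g a then
      -g.d a + τ0 + g.d b else if t = g b then -g.d b - τ0 + g.d a else g.d t :=
    fun t => jn_d a b τ0 0 g hab t
  -- one wire which starts at `y`
  have wire : ∀ y, y ≠ a → y ≠ b → (g y ≠ a → g y ≠ b → g' y = g y ∧ g'.d y = g.d y) ∧
      (g y = a → g a ≠ b ∧ g' y = g b ∧ g'.d y = g.d y + τ0 + g.d b) ∧
      (g y = b → g b ≠ a ∧ g' y = g a ∧ g'.d y = g.d y - τ0 + g.d a) := by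
    intro y ya yb
    refine ⟨fun h1 h2 => ?_, fun h1 => ?_, fun h1 => ?_⟩
    · have e1 : y ≠ g a := fun e => h1 (by rw [e, g.invol])
      have e2 : y ≠ g b := fun e => h2 (by rw [e, g.invol])
      rw [A1, A2, if_neg ya, if_neg yb, if_neg e1, if_neg e2, if_neg ya, if_neg yb, if_neg e1,
        if_neg e2]
      exact ⟨rfl, rfl⟩
    · have e1 : y = g a := by rw [← h1, g.invol]
      rw [A1, A2, if_neg ya, if_neg yb, if_pos e1, if_neg ya, if_neg yb, if_pos e1]
      refine ⟨fun e => yb (e1.trans e), rfl, ?_⟩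
      rw [e1, g.anti]
    · have e1 : y = g b := by rw [← h1, g.invol]
      have e2 : y ≠ g a := fun e => hab (by rw [← g.invol a, ← e, e1, g.invol])
      rw [A1, A2, if_neg ya, if_neg yb, if_neg e2, if_pos e1, if_neg ya, if_neg yb, if_neg e2,
        if_pos e1]
      refine ⟨fun e => ya (e1.trans e), rfl, ?_⟩
      rw [e1, g.anti]
  induction h with
  | base =>
    obtain ⟨w1, w2, w3⟩ := wire z za zb
    refine ⟨fun h1 h2 => ?_, fun h1 => ?_, fun h1 => ?_⟩
    · obtain ⟨e1, e2⟩ := w1 h1 h2
      exact Pth.of e1 e2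
    · obtain ⟨e0, e1, e2⟩ := w2 h1
      exact ⟨e0, Pth.of e1 e2⟩
    · obtain ⟨e0, e1, e2⟩ := w3 h1
      exact ⟨e0, Pth.of e1 e2⟩
  | @step x y d τ h hR ih =>
    obtain ⟨i1, i2, i3⟩ := ih
    -- the join
    have hcase : (x = a ∧ y = b ∧ τ = τ0) ∨ (x = b ∧ y = a ∧ τ = -τ0) ∨ JR J x y τ := by
      rcases hR with hR | hR
      · rcases List.mem_cons.1 hR with hR | hR
        · left; simpa using hR
        · right; right; exact Or.inl hR
      · rcases List.mem_cons.1 hR with hR | hR
        · right; left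
          simp only [Prod.mk.injEq] at hR
          exact ⟨hR.2.1, hR.1, by omega⟩
        · right; right; exact Or.inr hR
    rcases hcase with ⟨rfl, rfl, rfl⟩ | ⟨rfl, rfl, rfl⟩ | hJ'
    · obtain ⟨j1, j2⟩ := i2 rfl
      have n1 : g y ≠ x := fun e => j1 (by rw [← e, g.invol])
      refine ⟨fun _ _ => j2, fun e => absurd e n1, fun e => absurd e (g.ne y)⟩
    · obtain ⟨j1, j2⟩ := i3 rfl
      have n1 : g y ≠ x := fun e => j1 (by rw [← e, g.invol])
      refine ⟨fun _ _ => j2, fun e => absurd e (g.ne y), fun e => absurd e n1⟩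
    · obtain ⟨m1, m2⟩ := hJ'.mem
      have xa : x ≠ a := fun e => ha (e ▸ m1)
      have xb : x ≠ b := fun e => hb (e ▸ m1)
      have ya : y ≠ a := fun e => ha (e ▸ m2)
      have yb : y ≠ b := fun e => hb (e ▸ m2)
      have k := i1 xa xb
      obtain ⟨w1, w2, w3⟩ := wire y ya yb
      refine ⟨fun h1 h2 => ?_, fun h1 => ?_, fun h1 => ?_⟩
      · obtain ⟨e1, e2⟩ := w1 h1 h2
        have := Pth.step k hJ'
        rwa [e1, e2] at this
      · obtain ⟨e0, e1, e2⟩ := w2 h1
        refine ⟨e0, ?_⟩
        have := Pth.step k hJ'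
        rw [e1, e2] at this
        convert this using 1
        ring
      · obtain ⟨e0, e1, e2⟩ := w3 h1
        refine ⟨e0, ?_⟩
        have := Pth.step k hJ'
        rw [e1, e2] at this
        convert this using 1
        ring

/-- **Strands are arcs.** -/
theorem Pth.jns {J : List (D × D × ℤ)} {g : LP D} (hJ : (jm J).Nodup) {z w : D} {d : ℤ}
    (hz : z ∉ jm J) (hw : w ∉ jm J) (h : Pth g (JR J) z w d) :
    Q1.jns J g z = w ∧ (Q1.jns J g).d z = d := by
  induction J generalizing g with
  | nil =>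
    cases h with
    | base => exact ⟨rfl, rfl⟩
    | step _ hR => rcases hR with h | h <;> exact absurd h List.not_mem_nil
  | cons j J ih =>
    obtain ⟨a, b, τ⟩ := j
    obtain ⟨h1, -, -⟩ := Pth.first hJ hz h
    unfold jm at hJ hz hw
    simp only [List.nodup_cons, List.mem_cons, not_or] at hJ hz hw
    exact ih hJ.2.2 hz.2.2 hw.2.2 (h1 hw.1 hw.2.1)

/-! ### The states of the tiles as joins -/

/-- the joins of a tile -/
def Tl.jo (t : Tl D) (b : Bool) : List (D × D × ℤ) :=
  if b then [(t.z2, t.z3, 1), (t.z0, t.z1, 1)] else [(t.z1, t.z2, 1), (t.z0, t.z3, -1)]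

theorem Tl.op_eq (t : Tl D) (b : Bool) (g : LP D) : t.op b g = jns (t.jo b) g := by
  cases b <;> rfl

theorem SF_append (g : LP D) (l l' : List (Tl D)) (Φ : LP D → ℂ) :
    SF g (l ++ l') Φ = SF g l' (fun s => SF s l Φ) := by
  induction l generalizing Φ with
  | nil => rfl
  | cons t l ih => rw [List.cons_append, SF_cons, ih]; rfl

section sum

variable {ι : Type*} [Fintype ι] [DecidableEq ι]

/-- the state `s` of the tiles of the list `I`, the last one first -/
def stj (T : ι → Tl D) (s : ι → Bool) : List ι → List (D × D × ℤ)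
  | [] => []
  | i :: I => stj T s I ++ (T i).jo (s i)

omit [Fintype ι] [DecidableEq D] in
theorem stj_update (T : ι → Tl D) (s : ι → Bool) (i : ι) (b : Bool) {I : List ι} (hi : i ∉ I) :
    stj T (Function.update s i b) I = stj T s I := by
  induction I with
  | nil => rfl
  | cons j I ih =>
    rw [List.mem_cons, not_or] at hi
    rw [stj, stj, ih hi.2, Function.update_of_ne (Ne.symm hi.1)]

/-- the weight of a state -/
def wts (w : ι → ℂ) (s : ι → Bool) : ℂ := ∏ i, if s i then 1 - w i else w i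

omit [DecidableEq D] in
/-- the mean over one coordinate -/
theorem sum_mean (w : ι → ℂ) (i : ι) (f : (ι → Bool) → ℂ) :
    ∑ s, wts w s * f s = ∑ s, wts w s * (w i * f (Function.update s i false) +
      (1 - w i) * f (Function.update s i true)) := by
  have key : ∀ h : (ι → Bool) → ℂ, ∑ s, wts w s * h s =
      ∑ r : {j // j ≠ i} → Bool, (∏ j, if r j then 1 - w j else w j) *
        (w i * h ((Equiv.funSplitAt i Bool).symm (false, r)) +
          (1 - w i) * h ((Equiv.funSplitAt i Bool).symm (true, r))) := by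
    intro h
    rw [← (Equiv.funSplitAt i Bool).symm.sum_comp, Fintype.sum_prod_type, Fintype.sum_bool,
      ← Finset.sum_add_distrib]
    refine Finset.sum_congr rfl fun r _ => ?_
    have hw : ∀ b, wts w ((Equiv.funSplitAt i Bool).symm (b, r)) =
        (if b then 1 - w i else w i) * ∏ j : {j // j ≠ i}, if r j then 1 - w j else w j := by
      intro b
      unfold wts
      rw [Fintype.prod_eq_mul_prod_subtype_ne _ i]
      congr 1
      · simp [Equiv.funSplitAt]
      · refine Finset.prod_congr rfl fun j _ => ?_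
        have : (Equiv.funSplitAt i Bool).symm (b, r) j = r j := by
          simp [Equiv.funSplitAt, j.2]
        rw [this]
    rw [hw, hw]
    simp only [if_true, Bool.false_eq_true, if_false]
    ring
  rw [key f, key (fun s => w i * f (Function.update s i false) +
    (1 - w i) * f (Function.update s i true))]
  refine Finset.sum_congr rfl fun r _ => ?_
  have hu : ∀ b c, Function.update ((Equiv.funSplitAt i Bool).symm (b, r)) i c =
      (Equiv.funSplitAt i Bool).symm (c, r) := by
    intro b c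
    funext j
    by_cases hj : j = i
    · subst hj
      simp [Equiv.funSplitAt]
    · simp [Equiv.funSplitAt, Function.update_of_ne hj, hj]
  rw [hu, hu, hu, hu]
  ring

omit [DecidableEq D] in
theorem sum_wts (w : ι → ℂ) : ∑ s, wts w s = 1 := by
  unfold wts
  have h := Finset.prod_univ_sum (t := fun _ : ι => (Finset.univ : Finset Bool))
    (f := fun i b => if b then 1 - w i else w i)
  rw [Fintype.piFinset_univ] at h
  rw [← h]
  apply Finset.prod_eq_one
  intro i _
  rw [Fintype.sum_bool]
  simp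

/-- **the mean over the states as a sum** -/
theorem SF_sum (T : ι → Tl D) (g : LP D) {I : List ι} (hI : I.Nodup) (Φ : LP D → ℂ) :
    SF g (I.map T) Φ = ∑ s, wts (fun i => (T i).w) s * Φ (jns (stj T s I) g) := by
  induction I generalizing Φ with
  | nil =>
    change Φ g = ∑ s, wts (fun i => (T i).w) s * Φ g
    rw [← Finset.sum_mul, sum_wts, one_mul]
  | cons i I ih =>
    rw [List.nodup_cons] at hI
    rw [List.map_cons, SF_cons, ih hI.2, sum_mean _ i (fun s => Φ (jns (stj T s (i :: I)) g))]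
    refine Finset.sum_congr rfl fun s _ => ?_
    congr 1
    simp only [stj, stj_update T s i _ hI.1, Function.update_self, jns_append, Tl.op_eq]

end sum

/-! ### The tiles of a network -/

/-- the next end, clockwise -/
def rc : Dir → Dir
  | .W => .N | .N => .E | .E => .S | .S => .W

section net

variable {ι : Type*} [Fintype ι] [DecidableEq ι]

/-- the tile `i` of a network, read from the end `o` -/
def nTl (e : ι × Dir → D) (a b : ι → ℂ) (st : ι → Dir) (i : ι) : Tl D :=
  ⟨e (i, st i), e (i, rc (st i)), e (i, rc (rc (st i))), e (i, rc (rc (rc (st i)))),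
    if (st i).v then a i else b i⟩

/-- the state of a tile read from the end `st i` -/
def stN (st : ι → Dir) (s : ι → Bool) (i : ι) : Bool := s i == (st i).v

omit [Fintype ι] [DecidableEq ι] [DecidableEq D] in
theorem jo_nTl (e : ι × Dir → D) (a b : ι → ℂ) (st : ι → Dir) (i : ι) (c : Bool) (d : Dir) :
    JR ((nTl e a b st i).jo c) (e (i, d)) (e (i, d.mate (c == (st i).v)))
      (d.tn (c == (st i).v)) := by
  unfold nTl Tl.jo JR
  cases h : st i <;> cases c <;> cases d <;> simp [rc, Dir.mate, Dir.tn, Dir.v]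

omit [DecidableEq D] in
theorem mem_stj {T : ι → Tl D} {s : ι → Bool} {I : List ι} {i : ι} (hi : i ∈ I)
    {j : D × D × ℤ} (hj : j ∈ (T i).jo (s i)) : j ∈ stj T s I := by
  induction I with
  | nil => exact absurd hi List.not_mem_nil
  | cons k I ih =>
    rw [stj, List.mem_append]
    rcases List.mem_cons.1 hi with rfl | hi
    · exact Or.inr hj
    · exact Or.inl (ih hi)

omit [DecidableEq D] in
theorem jm_jo {t : Tl D} {c : Bool} {x : D} (hx : x ∈ jm (t.jo c)) :
    x = t.z0 ∨ x = t.z1 ∨ x = t.z2 ∨ x = t.z3 := by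
  cases c
  · have : x ∈ [t.z1, t.z2, t.z0, t.z3] := hx
    simp only [List.mem_cons, List.not_mem_nil, or_false] at this
    tauto
  · have : x ∈ [t.z2, t.z3, t.z0, t.z1] := hx
    simp only [List.mem_cons, List.not_mem_nil, or_false] at this
    tauto

omit [DecidableEq D] in
theorem jm_stj {T : ι → Tl D} {s : ι → Bool} {I : List ι} {x : D} (hx : x ∈ jm (stj T s I)) :
    ∃ i ∈ I, x = (T i).z0 ∨ x = (T i).z1 ∨ x = (T i).z2 ∨ x = (T i).z3 := by
  induction I with
  | nil => exact absurd hx List.not_mem_nil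
  | cons k I ih =>
    rw [stj, jm_append, List.mem_append] at hx
    rcases hx with hx | hx
    · obtain ⟨i, hi, h⟩ := ih hx
      exact ⟨i, List.mem_cons_of_mem _ hi, h⟩
    · refine ⟨k, List.mem_cons_self, ?_⟩
      exact jm_jo hx

omit [Fintype ι] [DecidableEq ι] [DecidableEq D] in
theorem nTl_ends (e : ι × Dir → D) (a b : ι → ℂ) (st : ι → Dir) {i : ι} {x : D}
    (hx : x = (nTl e a b st i).z0 ∨ x = (nTl e a b st i).z1 ∨ x = (nTl e a b st i).z2 ∨
      x = (nTl e a b st i).z3) : ∃ d, x = e (i, d) := by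
  rcases hx with h | h | h | h <;> exact ⟨_, h⟩

omit [DecidableEq D] in
theorem stj_nodup {e : ι × Dir → D} (he : Function.Injective e) (a b : ι → ℂ) (st : ι → Dir)
    (s : ι → Bool) {I : List ι} (hI : I.Nodup) : (jm (stj (nTl e a b st) s I)).Nodup := by
  induction I with
  | nil => exact List.nodup_nil
  | cons i I ih =>
    rw [List.nodup_cons] at hI
    rw [stj, jm_append, List.nodup_append]
    refine ⟨ih hI.2, ?_, ?_⟩
    · unfold Tl.jo nTl
      cases s i <;> cases h : st i <;>
        simp [jm, rc, he.eq_iff]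
    · intro x hx y hy hxy
      subst hxy
      obtain ⟨j, hj, h1⟩ := jm_stj hx
      obtain ⟨d, h2⟩ := nTl_ends e a b st h1
      obtain ⟨d', h3⟩ := nTl_ends e a b st (jm_jo hy)
      have := he (h2.symm.trans h3)
      rw [Prod.mk.injEq] at this
      exact hI.1 (this.1 ▸ hj)

/-- the observable of a root `R0` and a mark `M1` -/
noncomputable def obn (R0 M1 : D) (r : LP D) : ℂ := if r R0 = M1 then zt ^ (-2 * r.d R0) else 0

theorem obn_dep {A : Set D} {R0 M1 : D} (h : R0 ∈ A) : Dep A (obn R0 M1) := by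
  intro s s' hs
  unfold obn
  rw [(hs.2 R0 h).1, (hs.2 R0 h).2]

/-- a network inside a wiring `G` with joins `V`: the wires of the network are strands -/
structure Rlz (N : Net ι) (e : ι × Dir → D) (G : LP D) (V : List (D × D × ℤ)) (R0 R1 M1 : D)
    (α β : ℤ) : Prop where
  inj : Function.Injective e
  nd : (jm V).Nodup
  eV : ∀ x, e x ∉ jm V
  rV : R0 ∉ jm V ∧ R1 ∉ jm V ∧ M1 ∉ jm V
  re : ∀ x, e x ≠ R0 ∧ e x ≠ R1 ∧ e x ≠ M1
  rm : R1 ≠ M1
  wire : ∀ x, x ≠ N.π N.x0 → x ≠ N.π N.y0 → x ≠ N.x0 → x ≠ N.y0 →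
    Pth G (JR V) (e x) (e (N.π x)) (N.t x)
  w0 : Pth G (JR V) R0 (e N.x0) α
  w1 : Pth G (JR V) (e (N.π N.y0)) M1 (N.t (N.π N.y0) + β)
  w2 : ∃ c, Pth G (JR V) (e (N.π N.x0)) R1 c

/-- **The amplitude of a state is the observable.** -/
theorem Rlz.amp {N : Net ι} {p : ι → Bool} (hN : N.Good p) {e : ι × Dir → D} {G : LP D}
    {V : List (D × D × ℤ)} {R0 R1 M1 : D} {α β : ℤ} (H : Rlz N e G V R0 R1 M1 α β)
    {I : List ι} (hI : I.Nodup) (hI' : ∀ i, i ∈ I) (a b : ι → ℂ) (st : ι → Dir) (s : ι → Bool) :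
    zt ^ (-2 * (α + β)) * N.amp (stN st s) =
      obn R0 M1 (jns V (jns (stj (nTl e a b st) s I) G)) := by
  classical
  set S := stj (nTl e a b st) s I with hS
  rw [← jns_append]
  have hSe : ∀ x ∈ jm S, ∃ y, x = e y := by
    intro x hx
    obtain ⟨i, -, h⟩ := jm_stj hx
    obtain ⟨d, h⟩ := nTl_ends e a b st h
    exact ⟨_, h⟩
  have hnd : (jm (S ++ V)).Nodup := by
    rw [jm_append, List.nodup_append]
    refine ⟨stj_nodup H.inj a b st s hI, H.nd, ?_⟩
    intro x hx y hy hxy
    obtain ⟨z, hz⟩ := hSe x hx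
    exact H.eV z (hz ▸ hxy ▸ hy)
  have hnot : ∀ x, x ∉ jm V → (∀ z, e z ≠ x) → x ∉ jm (S ++ V) := by
    intro x h1 h2
    rw [jm_append, List.mem_append, not_or]
    refine ⟨fun h => ?_, h1⟩
    obtain ⟨z, hz⟩ := hSe x h
    exact h2 z hz.symm
  have nR0 := hnot R0 H.rV.1 (fun z => (H.re z).1)
  have nR1 := hnot R1 H.rV.2.1 (fun z => (H.re z).2.1)
  have nM1 := hnot M1 H.rV.2.2 (fun z => (H.re z).2.2)
  have hmono : ∀ x y τ, JR V x y τ → JR (S ++ V) x y τ := fun x y τ h =>
    h.mono fun j hj => List.mem_append_right _ hj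
  have hpass : ∀ x : ι × Dir, JR (S ++ V) (e x) (e (x.1, x.2.mate (stN st s x.1)))
      (x.2.tn (stN st s x.1)) := by
    intro x
    have h := jo_nTl e a b st x.1 (s x.1) x.2
    exact h.mono fun j hj => List.mem_append_left _ (mem_stj (hI' x.1) hj)
  set σ := stN st s with hσ
  have hin := hN.x0_in
  have hinc : ∀ k, inc p ((N.step σ)^[k] N.x0) = true := inc_iter hN σ hin
  -- the strand of the root
  have path : ∀ k, (∀ i, 1 ≤ i → i ≤ k → (N.step σ)^[i] N.x0 ≠ N.y0 ∧ (N.step σ)^[i] N.x0 ≠ N.x0) →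
      Pth G (JR (S ++ V)) R0 (e ((N.step σ)^[k] N.x0)) (α + N.KT σ N.x0 k) := by
    intro k
    induction k with
    | zero =>
      intro _
      have := H.w0.mono hmono
      simpa [Net.KT] using this
    | succ k ih =>
      intro hk
      have h1 := ih fun i hi1 hi2 => hk i hi1 (by omega)
      obtain ⟨h2, h3⟩ := hk (k + 1) (by omega) le_rfl
      rw [Function.iterate_succ_apply'] at h2 h3
      set x := (N.step σ)^[k] N.x0 with hx
      set x' : ι × Dir := (x.1, x.2.mate (σ x.1)) with hx'
      have hxx : N.step σ x = N.π x' := rfl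
      rw [hxx] at h2 h3
      have hpx' : inc p x' = false := by
        have h4 : inc p (N.π x') = true := by
          have := hinc (k + 1)
          rw [Function.iterate_succ_apply'] at this
          exact this
        rw [hN.ty] at h4
        simpa using h4
      have h5 := H.wire x' (fun e => h3 (by rw [e, hN.inv])) (fun e => h2 (by rw [e, hN.inv]))
        (fun e => by rw [e, hin] at hpx'; exact absurd hpx' (by simp))
        (fun e => by rw [e, hN.y0_in] at hpx'; exact absurd hpx' (by simp))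
      have h6 := h1.trans (hpass x) (h5.mono hmono)
      rw [Function.iterate_succ_apply', hxx]
      convert h6 using 1
      unfold Net.KT
      rw [Finset.sum_range_succ]
      change _ = α + _ + x.2.tn (σ x.1) + N.t x'
      unfold Net.dt
      rw [← hx]
      ring
  -- the last step
  have last : ∀ k, (∀ i, 1 ≤ i → i ≤ k → (N.step σ)^[i] N.x0 ≠ N.y0 ∧ (N.step σ)^[i] N.x0 ≠ N.x0) →
      ((N.step σ)^[k + 1] N.x0 = N.y0 →
        Pth G (JR (S ++ V)) R0 M1 (α + β + N.KT σ N.x0 (k + 1))) ∧
      ((N.step σ)^[k + 1] N.x0 = N.x0 → ∃ c, Pth G (JR (S ++ V)) R0 R1 c) := by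
    intro k hk
    have h1 := path k hk
    rw [Function.iterate_succ_apply']
    set x := (N.step σ)^[k] N.x0 with hx
    set x' : ι × Dir := (x.1, x.2.mate (σ x.1)) with hx'
    have hxx : N.step σ x = N.π x' := rfl
    rw [hxx]
    constructor
    · intro h
      have e1 : x' = N.π N.y0 := by rw [← h, hN.inv]
      have h5 := h1.trans (hpass x) ((e1 ▸ H.w1.mono hmono :
        Pth G (JR (S ++ V)) (e x') M1 (N.t x' + β)))
      convert h5 using 1
      unfold Net.KT
      rw [Finset.sum_range_succ]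
      unfold Net.dt
      rw [← hx]
      ring
    · intro h
      have e1 : x' = N.π N.x0 := by rw [← h, hN.inv]
      obtain ⟨c, hc⟩ := H.w2
      exact ⟨_, h1.trans (hpass x) ((e1 ▸ hc.mono hmono :
        Pth G (JR (S ++ V)) (e x') R1 c))⟩
  have hln := ln_pos hN σ hin
  have hper : (N.step σ)^[N.ln σ N.x0] N.x0 = N.x0 :=
    Function.isPeriodicPt_minimalPeriod (N.step σ) N.x0
  have hinj : ∀ i j, i < N.ln σ N.x0 → j < N.ln σ N.x0 →
      (N.step σ)^[i] N.x0 = (N.step σ)^[j] N.x0 → i = j := fun i j hi hj h =>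
    Function.iterate_injOn_Iio_minimalPeriod (Set.mem_Iio.2 hi) (Set.mem_Iio.2 hj) h
  have hx0ne : ∀ i, 1 ≤ i → i < N.ln σ N.x0 → (N.step σ)^[i] N.x0 ≠ N.x0 := by
    intro i hi1 hi2 h
    have := hinj i 0 hi2 hln h
    omega
  by_cases hex : ∃ k, k < N.ln σ N.x0 ∧ (N.step σ)^[k] N.x0 = N.y0
  · obtain ⟨k, hk, hky⟩ := hex
    obtain ⟨m, rfl⟩ : ∃ m, k = m + 1 := by
      rcases Nat.eq_zero_or_pos k with rfl | h
      · exact absurd hky.symm hN.y0_ne
      · exact ⟨k - 1, by omega⟩
    have h1 := (last m (fun i hi1 hi2 => ⟨fun h => by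
      have := hinj i (m + 1) (by omega) hk (h.trans hky.symm)
      omega, hx0ne i hi1 (by omega)⟩)).1 hky
    obtain ⟨r1, r2⟩ := h1.jns hnd nR0 nM1
    unfold obn
    rw [if_pos r1, r2]
    have hamp : N.amp σ = zt ^ (-2 * N.KT σ N.x0 (m + 1)) := by
      unfold Net.amp
      rw [Finset.sum_eq_single (m + 1)]
      · rw [if_pos hky]
      · intro i hi hne
        rw [if_neg]
        intro h
        exact hne (hinj i (m + 1) (mem_range.1 hi) hk (h.trans hky.symm))
      · intro h; exact absurd (mem_range.2 hk) h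
    rw [hamp, ← zpow_add₀ zt_ne]
    congr 1
    ring
  · push Not at hex
    obtain ⟨m, hm⟩ : ∃ m, N.ln σ N.x0 = m + 1 := ⟨N.ln σ N.x0 - 1, by omega⟩
    have h1 := (last m (fun i hi1 hi2 => ⟨hex i (by omega), hx0ne i hi1 (by omega)⟩)).2
      (by rw [← hm]; exact hper)
    obtain ⟨c, hc⟩ := h1
    obtain ⟨r1, -⟩ := hc.jns hnd nR0 nR1
    unfold obn
    rw [if_neg (by rw [r1]; exact H.rm)]
    have hamp : N.amp σ = 0 := by
      unfold Net.amp
      apply Finset.sum_eq_zero
      intro i hi
      rw [if_neg (hex i (mem_range.1 hi))]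
    rw [hamp, mul_zero]

/-- the involution of the states -/
def stE (st : ι → Dir) : (ι → Bool) ≃ (ι → Bool) where
  toFun s := stN st s
  invFun s := stN st s
  left_inv s := by
    funext i
    change ((s i == (st i).v) == (st i).v) = s i
    cases s i <;> cases (st i).v <;> rfl
  right_inv s := by
    funext i
    change ((s i == (st i).v) == (st i).v) = s i
    cases s i <;> cases (st i).v <;> rfl

/-- **The state sum of a network is the mean over the states in a wiring.** -/
theorem Rlz.Z {N : Net ι} {p : ι → Bool} (hN : N.Good p) {e : ι × Dir → D} {G : LP D}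
    {V : List (D × D × ℤ)} {R0 R1 M1 : D} {α β : ℤ} (H : Rlz N e G V R0 R1 M1 α β)
    {I : List ι} (hI : I.Nodup) (hI' : ∀ i, i ∈ I) (a b : ι → ℂ) (hab : ∀ i, a i + b i = 1)
    (st : ι → Dir) :
    zt ^ (-2 * (α + β)) * N.Z a b =
      SF G (I.map (nTl e a b st)) (fun r => obn R0 M1 (jns V r)) := by
  rw [SF_sum _ _ hI]
  unfold Net.Z
  rw [Finset.mul_sum, ← (stE st).sum_comp]
  refine Finset.sum_congr rfl fun s _ => ?_
  rw [← H.amp hN hI hI' a b st s]
  have hw : (∏ i, if (stE st) s i then b i else a i) = wts (fun i => (nTl e a b st i).w) s := by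
    unfold wts
    refine Finset.prod_congr rfl fun i _ => ?_
    have h1 := hab i
    change (if (s i == (st i).v) then b i else a i) = if s i then 1 - (if (st i).v then a i else b i)
      else (if (st i).v then a i else b i)
    cases s i <;> cases (st i).v <;> simp <;> linear_combination h1
  rw [hw]
  change zt ^ (-2 * (α + β)) * (_ * N.amp (stN st s)) = _
  ring

end net

end Pool.Agent.H64.Q1
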