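import Pool.Agent.H64.Q1.Net

/-!
# Joining pieces along a partial injection: the arcs are the chains
-/

namespace Pool.Agent.H64.Q1

open LP

namespace LP

variable {C : Type*}

/-- every piece has two ends, joined by the piece -/
def base : LP (C × Bool) where
  p := { toFun := fun x => (x.1, !x.2), invFun := fun x => (x.1, !x.2)
         left_inv := fun x => by simp, right_inv := fun x => by simp }
  d := fun _ => 0
  inv x := by simp
  ne' x h := by
    have := congrArg Prod.snd h
    simp at this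
  ant x := by simp

theorem base_apply (x : C × Bool) : (base : LP (C × Bool)) x = (x.1, !x.2) := rfl

theorem base_d (x : C × Bool) : (base : LP (C × Bool)).d x = 0 := rfl

variable [DecidableEq C]

/-- join the head of `j.1` with the tail of `j.2.1` for all `j` in the list -/
def gnet (l : List (C × C × ℤ × ℤ)) (g : LP (C × Bool)) : LP (C × Bool) :=
  l.foldr (fun j g => jn (j.1, true) (j.2.1, false) j.2.2.1 j.2.2.2 g) g

@[simp] theorem gnet_nil (g : LP (C × Bool)) : gnet [] g = g := rfl

theorem gnet_cons (j : C × C × ℤ × ℤ) (l : List (C × C × ℤ × ℤ)) (g : LP (C × Bool)) :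
    gnet (j :: l) g = jn (j.1, true) (j.2.1, false) j.2.2.1 j.2.2.2 (gnet l g) := rfl

theorem gnet_append (l l' : List (C × C × ℤ × ℤ)) (g : LP (C × Bool)) :
    gnet (l ++ l') g = gnet l (gnet l' g) := by
  unfold gnet; rw [List.foldr_append]

/-- chains of joins -/
inductive Ch (l : List (C × C × ℤ × ℤ)) : C → C → ℤ → Prop
  | refl (y : C) : Ch l y y 0
  | step {y a b : C} {n δ κ : ℤ} : Ch l y a n → (a, b, δ, κ) ∈ l → Ch l y b (n + δ)

theorem Ch.back {l : List (C × C × ℤ × ℤ)} (ht : (l.map (fun j => j.2.1)).Nodup) {y y' a : C}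
    {n n' : ℤ} (h : Ch l y a n) (h' : Ch l y' a n') (hy : y ∉ l.map (fun j => j.2.1))
    (hy' : y' ∉ l.map (fun j => j.2.1)) : y = y' ∧ n = n' := by
  induction h generalizing y' n' with
  | refl =>
    cases h' with
    | refl => exact ⟨rfl, rfl⟩
    | step h1 h2 =>
      exact absurd (List.mem_map.2 ⟨_, h2, rfl⟩) hy
  | step h1 h2 ih =>
    cases h' with
    | refl => exact absurd (List.mem_map.2 ⟨_, h2, rfl⟩) hy'
    | step h3 h4 =>
      have := List.inj_on_of_nodup_map ht h2 h4 rfl
      simp only [Prod.mk.injEq] at this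
      obtain ⟨e1, -, e2, -⟩ := this
      subst e1; subst e2
      obtain ⟨e3, e4⟩ := ih h3 hy'
      exact ⟨e3, by rw [e4]⟩

theorem Ch.split {l : List (C × C × ℤ × ℤ)} {a b : C} {δ κ : ℤ}
    (ht : (((a, b, δ, κ) :: l).map (fun j => j.2.1)).Nodup) {y z : C} {n : ℤ}
    (h : Ch ((a, b, δ, κ) :: l) y z n) (hy : y ∉ ((a, b, δ, κ) :: l).map (fun j => j.2.1)) :
    Ch l y z n ∨ ∃ n1 n2, Ch l y a n1 ∧ Ch l b z n2 ∧ n = n1 + δ + n2 := by
  have ht' : (l.map (fun j => j.2.1)).Nodup ∧ b ∉ l.map (fun j => j.2.1) := by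
    rw [List.map_cons, List.nodup_cons] at ht
    exact ⟨ht.2, ht.1⟩
  have hy' : y ∉ l.map (fun j => j.2.1) ∧ y ≠ b := by
    rw [List.map_cons, List.mem_cons, not_or] at hy
    exact ⟨hy.2, hy.1⟩
  induction h with
  | refl => exact Or.inl (Ch.refl y)
  | @step a' b' n' δ' κ' h1 h2 ih =>
    rcases ih with h3 | ⟨n1, n2, h3, h4, h5⟩
    · rcases List.mem_cons.1 h2 with h6 | h6
      · simp only [Prod.mk.injEq] at h6
        obtain ⟨e1, e2, e3, e4⟩ := h6
        subst e1; subst e2; subst e3; subst e4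
        exact Or.inr ⟨n', 0, h3, Ch.refl _, by ring⟩
      · exact Or.inl (h3.step h6)
    · rcases List.mem_cons.1 h2 with h6 | h6
      · exfalso
        simp only [Prod.mk.injEq] at h6
        obtain ⟨e1, -, -, -⟩ := h6
        subst e1
        exact hy'.2 (Ch.back ht'.1 h3 h4 hy'.1 ht'.2).1
      · exact Or.inr ⟨n1, n2 + δ', h3, h4.step h6, by rw [h5]; ring⟩

/-- **The arcs of the joined pieces are the chains.** -/
theorem gnet_chain (l : List (C × C × ℤ × ℤ)) (hs : (l.map (fun j => j.1)).Nodup)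
    (ht : (l.map (fun j => j.2.1)).Nodup) {y z : C} {n : ℤ}
    (hy : y ∉ l.map (fun j => j.2.1)) (hz : z ∉ l.map (fun j => j.1)) (h : Ch l y z n) :
    gnet l base (y, false) = (z, true) ∧ (gnet l base).d (y, false) = n := by
  induction l generalizing y z n with
  | nil =>
    cases h with
    | refl => exact ⟨rfl, rfl⟩
    | step h1 h2 => exact absurd h2 (List.not_mem_nil)
  | cons j l ih =>
    obtain ⟨a, b, δ, κ⟩ := j
    have hs' := hs
    have ht' := ht
    rw [List.map_cons, List.nodup_cons] at hs' ht'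
    have hy' := hy
    have hz' := hz
    rw [List.map_cons, List.mem_cons, not_or] at hy' hz'
    simp only at hs' ht' hy' hz'
    rw [gnet_cons]
    simp only
    have hab : ((a, true) : C × Bool) ≠ (b, false) := fun e => by
      have := congrArg Prod.snd e
      simp at this
    rcases h.split ht hy with h1 | ⟨n1, n2, h1, h2, h3⟩
    · obtain ⟨g1, g2⟩ := ih hs'.2 ht'.2 hy'.2 hz'.2 h1
      have := jn_keep g1 (z := (a, true)) (w := (b, false))
        (fun e => by simpa using congrArg Prod.snd e)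
        (fun e => hy'.1 (congrArg Prod.fst e))
        (fun e => hz'.1 (congrArg Prod.fst e))
        (fun e => by simpa using congrArg Prod.snd e) δ κ
      exact ⟨this.1, this.2.trans g2⟩
    · obtain ⟨g1, g2⟩ := ih hs'.2 ht'.2 hy'.2 hs'.1 h1
      obtain ⟨g3, g4⟩ := ih hs'.2 ht'.2 ht'.1 hz'.2 h2
      generalize gnet l base = g at g1 g2 g3 g4 ⊢
      have g5 : g (a, true) = (y, false) := by rw [← g1]; simp
      have g6 : g.d (a, true) = -n1 := by rw [← g1, g.anti, g2]
      have e1 : ((y, false) : C × Bool) ≠ (a, true) := fun e => by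
        have := congrArg Prod.snd e
        simp at this
      have e2 : ((y, false) : C × Bool) ≠ (b, false) := fun e => hy'.1 (congrArg Prod.fst e)
      rw [jn_apply _ _ _ _ g hab, jn_d _ _ _ _ g hab, if_neg e1, if_neg e2, if_pos g5.symm,
        if_neg e1, if_neg e2, if_pos g5.symm, g3, g4, g6, h3]
      exact ⟨rfl, by ring⟩

theorem gnet_keep {l : List (C × C × ℤ × ℤ)} {g : LP (C × Bool)} {x y : C × Bool} (h : g x = y)
    (hx : ∀ j ∈ l, x ≠ (j.1, true) ∧ x ≠ (j.2.1, false))
    (hy : ∀ j ∈ l, y ≠ (j.1, true) ∧ y ≠ (j.2.1, false)) :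
    gnet l g x = y ∧ (gnet l g).d x = g.d x := by
  induction l with
  | nil => exact ⟨h, rfl⟩
  | cons j l ih =>
    obtain ⟨h1, h2⟩ := ih (fun i hi => hx i (List.mem_cons_of_mem _ hi))
      (fun i hi => hy i (List.mem_cons_of_mem _ hi))
    have hx1 := hx j List.mem_cons_self
    have hy1 := hy j List.mem_cons_self
    have := jn_keep h1 hx1.1 hx1.2 hy1.1 hy1.2 j.2.2.1 j.2.2.2
    rw [gnet_cons]
    exact ⟨this.1, this.2.trans h2⟩

theorem Eqv.gnet {A : Set (C × Bool)} {f g : LP (C × Bool)} (h : Eqv A f g)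
    {l : List (C × C × ℤ × ℤ)} (hl : ∀ j ∈ l, (j.1, true) ∈ A ∧ (j.2.1, false) ∈ A) :
    Eqv A (LP.gnet l f) (LP.gnet l g) := by
  induction l with
  | nil => exact h
  | cons j l ih =>
    have := ih (fun i hi => hl i (List.mem_cons_of_mem _ hi))
    rw [gnet_cons, gnet_cons]
    exact this.jn (hl j List.mem_cons_self).1 (hl j List.mem_cons_self).2 _ _

end LP

end Pool.Agent.H64.Q1
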