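import Pool.Agent.H64.Q1.Gauge
import Pool.Agent.H64.Q1.Chain
import Pool.Agent.Q1.M6a.WClosed
import Pool.Agent.Q1.Rigid

/-!
# The network of an environment
-/

namespace Pool.Agent.H64.Q1

open LP Finset Pool.Agent.Q1 Pool.Agent.H75.Perc Pool.Agent.H75.TwoArm

namespace EX

/-- corners; the marked corners are cut in two pieces -/
abbrev Cn : Type := (ℤ × ℤ) × Bool

/-- ends of pieces -/
abbrev En : Type := Cn × Bool

section Defs

variable (X : Env) (c : ℤ × ℤ)

/-- the root and the observed corner are marked -/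
def mk (x : ℤ × ℤ) : Bool := decide (x = X.c0 ∨ x = c)

/-- head of the corner -/
def hd (x : ℤ × ℤ) : En := ((x, mk X c x), true)

/-- tail of the corner -/
def td (x : ℤ × ℤ) : En := ((x, false), false)

/-- the join behind the corner -/
def ent (κ : ℤ × ℤ → ℤ) (ω : Finset (ℤ × ℤ)) (x : ℤ × ℤ) : Cn × Cn × ℤ × ℤ :=
  ((x, mk X c x), (X.f ω x, false), X.d ω x, κ x)

/-- all joins behind the corners of the list -/
def nt (κ : ℤ × ℤ → ℤ) (ω : Finset (ℤ × ℤ)) (l : List (ℤ × ℤ)) (g : LP En) : LP En :=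
  gnet (l.map (ent X c κ ω)) g

open Classical in
/-- the observable -/
noncomputable def obs (g : LP En) : ℂ :=
  if g ((X.c0, true), false) = ((c, false), true) then ph (X.k0 + g.d ((X.c0, true), false)) else 0

end Defs

variable {X : Env} {c : ℤ × ℤ}

theorem mk_c0 : mk X c X.c0 = true := by simp [mk]

theorem mk_c : mk X c c = true := by simp [mk]

theorem mk_of {x : ℤ × ℤ} (h1 : x ≠ X.c0) (h2 : x ≠ c) : mk X c x = false := by
  simp [mk, h1, h2]

theorem nt_append (κ : ℤ × ℤ → ℤ) (ω : Finset (ℤ × ℤ)) (l l' : List (ℤ × ℤ)) (g : LP En) :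
    nt X c κ ω (l ++ l') g = nt X c κ ω l (nt X c κ ω l' g) := by
  unfold nt; rw [List.map_append, gnet_append]

theorem nt_cons (κ : ℤ × ℤ → ℤ) (ω : Finset (ℤ × ℤ)) (x : ℤ × ℤ) (l : List (ℤ × ℤ)) (g : LP En) :
    nt X c κ ω (x :: l) g =
      jn (hd X c x) (td (X.f ω x)) (X.d ω x) (κ x) (nt X c κ ω l g) := rfl

theorem f_congr {ω ω' : Finset (ℤ × ℤ)} {x : ℤ × ℤ}
    (h : lab x ∈ X.E → (lab x ∈ ω ↔ lab x ∈ ω')) :
    X.f ω x = X.f ω' x ∧ X.d ω x = X.d ω' x := by
  unfold Env.f Env.d stp tur nx del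
  by_cases h1 : lab x ∈ X.E
  · simp only [h h1, and_self]
  · simp only [h1, if_false, and_self]

theorem nt_congr {κ : ℤ × ℤ → ℤ} {ω ω' : Finset (ℤ × ℤ)} {l : List (ℤ × ℤ)}
    (h : ∀ x ∈ l, lab x ∈ X.E → (lab x ∈ ω ↔ lab x ∈ ω')) (g : LP En) :
    nt X c κ ω l g = nt X c κ ω' l g := by
  induction l with
  | nil => rfl
  | cons x l ih =>
    obtain ⟨h1, h2⟩ := f_congr (h x List.mem_cons_self)
    rw [nt_cons, nt_cons, ih (fun y hy => h y (List.mem_cons_of_mem _ hy)), h1, h2]

theorem src_nodup {κ : ℤ × ℤ → ℤ} {ω : Finset (ℤ × ℤ)} {l : List (ℤ × ℤ)} (hl : l.Nodup) :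
    ((l.map (ent X c κ ω)).map (fun j => j.1)).Nodup := by
  rw [List.map_map]
  apply List.Nodup.map_on _ hl
  intro x _ y _ h
  have := congrArg Prod.fst h
  exact this

theorem tgt_nodup {κ : ℤ × ℤ → ℤ} {ω : Finset (ℤ × ℤ)} (hω : ω ⊆ X.E) {l : List (ℤ × ℤ)}
    (hl : l.Nodup) : ((l.map (ent X c κ ω)).map (fun j => j.2.1)).Nodup := by
  rw [List.map_map]
  apply List.Nodup.map_on _ hl
  intro x _ y _ h
  have := congrArg Prod.fst h
  exact Env.f_injective hω this

/-- **The observable of the full network is the increment.** -/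
theorem obs_full {ω : Finset (ℤ × ℤ)} (hω : ω ⊆ X.E) (hc : c ≠ X.c0) (κ : ℤ × ℤ → ℤ)
    {l : List (ℤ × ℤ)} (hl : l.Nodup) (hS : ∀ x, x ∈ l ↔ x ∈ X.S) :
    obs X c (nt X c κ ω l base) = X.incO ω c := by
  set L := l.map (ent X c κ ω) with hL
  have hent : ∀ x ∈ X.S, ((x, mk X c x), (X.f ω x, false), X.d ω x, κ x) ∈ L := fun x hx =>
    List.mem_map.2 ⟨x, (hS x).2 hx, rfl⟩
  have hlen := Env.len_pos (X := X) hω
  have hch : ∀ i, i < X.len ω → (∀ j, 1 ≤ j → j ≤ i → X.z ω j ≠ c) →
      Ch L (X.c0, true) (X.z ω (i + 1), false) (X.K ω (i + 1) - X.k0) := by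
    intro i
    induction i with
    | zero =>
      intro _ _
      have h1 := (Ch.refl (l := L) (X.c0, true)).step (b := (X.f ω X.c0, false))
        (δ := X.d ω X.c0) (κ := κ X.c0)
        (by have := hent X.c0 X.c0_mem; rw [mk_c0] at this; exact this)
      rw [Env.z_succ, Env.K_succ, Env.z_zero, Env.K_zero]
      have e : X.k0 + X.d ω X.c0 - X.k0 = 0 + X.d ω X.c0 := by ring
      rw [e]; exact h1
    | succ i ih =>
      intro hi hj
      have h1 := ih (by omega) (fun j h2 h3 => hj j h2 (by omega))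
      have h2 : X.z ω (i + 1) ≠ c := hj (i + 1) (by omega) le_rfl
      have h3 : X.z ω (i + 1) ≠ X.c0 := by
        intro h
        have := Env.z_inj hω hi hlen h
        omega
      have h4 := h1.step (b := (X.f ω (X.z ω (i + 1)), false)) (δ := X.d ω (X.z ω (i + 1)))
        (κ := κ (X.z ω (i + 1)))
        (by have := hent _ (Env.z_mem hω (i + 1)); rw [mk_of h3 h2] at this; exact this)
      rw [Env.z_succ (i + 1), Env.K_succ (i + 1)]
      have e : X.K ω (i + 1) + X.d ω (X.z ω (i + 1)) - X.k0 =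
        X.K ω (i + 1) - X.k0 + X.d ω (X.z ω (i + 1)) := by ring
      rw [e]; exact h4
  have hy : ((X.c0, true) : Cn) ∉ L.map (fun j => j.2.1) := by
    intro h
    obtain ⟨j, hj, hj'⟩ := List.mem_map.1 h
    obtain ⟨x, -, rfl⟩ := List.mem_map.1 hj
    have := congrArg Prod.snd hj'
    simp [ent] at this
  have hz : ∀ y, y = X.c0 ∨ y = c → ((y, false) : Cn) ∉ L.map (fun j => j.1) := by
    intro y hy h
    obtain ⟨j, hj, hj'⟩ := List.mem_map.1 h
    obtain ⟨x, -, rfl⟩ := List.mem_map.1 hj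
    simp only [ent, Prod.mk.injEq] at hj'
    obtain ⟨e1, e2⟩ := hj'
    subst e1
    simp [mk, hy] at e2
  by_cases hon : ∃ i < X.len ω, X.z ω i = c
  · obtain ⟨i, hi, hic⟩ := hon
    have hi0 : i ≠ 0 := by
      rintro rfl
      exact hc (by rw [← hic]; rfl)
    obtain ⟨i', rfl⟩ := Nat.exists_eq_succ_of_ne_zero hi0
    have h1 := hch i' (by omega) (fun j hj1 hj2 h => by
      have := Env.z_inj hω (by omega) hi (h.trans hic.symm)
      omega)
    have hic' : X.z ω (i' + 1) = c := hic
    rw [hic'] at h1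
    obtain ⟨g1, g2⟩ := gnet_chain L (src_nodup hl) (tgt_nodup hω hl) hy (hz c (Or.inr rfl)) h1
    have e1 : nt X c κ ω l base = gnet L base := rfl
    unfold obs
    rw [e1, g1, g2, if_pos rfl, Env.incO_of hω hi hic]
    congr 1
    change X.k0 + (X.K ω (i' + 1) - X.k0) = X.K ω (i' + 1)
    ring
  · push Not at hon
    obtain ⟨n, hn⟩ := Nat.exists_eq_succ_of_ne_zero hlen.ne'
    have h1 := hch n (by omega) (fun j hj1 hj2 h => hon j (by omega) h)
    have e2 : X.z ω (n + 1) = X.c0 := by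
      have := Env.z_len (X := X) hω
      rw [hn] at this
      exact this
    rw [e2] at h1
    obtain ⟨g1, -⟩ := gnet_chain L (src_nodup hl) (tgt_nodup hω hl) hy (hz X.c0 (Or.inl rfl)) h1
    have e1 : nt X c κ ω l base = gnet L base := rfl
    unfold obs
    rw [e1, g1, if_neg, Env.incO_zero hon]
    intro h
    have := congrArg (fun y : En => y.1.1) h
    exact hc this.symm

/-! ### Rows of tiles -/

/-- The corners `w, e, s, t` are the west, east, south and north side of the random tile `a`.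
`o`: the sides west and east are in front of the tile (and south, north behind). -/
structure Til (X : Env) (a : ℤ × ℤ) (o : Bool) (w e s t : ℤ × ℤ) : Prop where
  mem : a ∈ X.E
  tt : o = true → lab w = a ∧ lab e = a ∧ w ≠ e ∧ t = nxC w ∧ s = nxC e
  ff : o = false → lab t = a ∧ lab s = a ∧ t ≠ s ∧ e = nxC t ∧ w = nxC s

theorem nxO_other {a x y : ℤ × ℤ} (ho : (a.1 + a.2) % 2 = 1) (hx : lab x = a) (hy : lab y = a)
    (hne : x ≠ y) : nxO x = nxC y ∧ nxO y = nxC x := by
  rcases (lab_eq_iff a x ho).1 hx with h1 | h1 <;> rcases (lab_eq_iff a y ho).1 hy with h2 | h2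
  · exact absurd (h1.trans h2.symm) hne
  · rw [h1, h2]; exact ⟨nxO_in1 a ho, nxO_in2 a ho⟩
  · rw [h1, h2]; exact ⟨nxO_in2 a ho, nxO_in1 a ho⟩
  · exact absurd (h1.trans h2.symm) hne

theorem nxC_inj {x y : ℤ × ℤ} (h : nxC x = nxC y) : x = y := by
  have h1 : nx ∅ x = nx ∅ y := by
    unfold nx
    rw [if_neg (notMem_empty _), if_neg (notMem_empty _)]
    exact h
  exact nx_injective ∅ h1

theorem plab_nxC (x : ℤ × ℤ) : plab (nxC x) = lab x := by
  have h := plab_nx ∅ x
  unfold nx at h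
  rwa [if_neg (notMem_empty _)] at h

/-- the data of a row of tiles; `n i` is the length of the deterministic path between the tile `i`
and the next tile -/
structure Rw where
  lb : ℕ → ℤ × ℤ
  o : ℕ → Bool
  w : ℕ → ℤ × ℤ
  e : ℕ → ℤ × ℤ
  s : ℕ → ℤ × ℤ
  t : ℕ → ℤ × ℤ
  n : ℕ → ℕ

/-- the next tile of a row with the tiles `0, ..., N` -/
def nxt (N i : ℕ) : ℕ := if i = N then 0 else i + 1

theorem nxt_le {N i : ℕ} (h : i ≤ N) : nxt N i ≤ N := by unfold nxt; split_ifs <;> omega

namespace Rw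

variable (r : Rw) (N : ℕ)

/-- start of the deterministic path between the tile `i` and the next tile -/
def st (i : ℕ) : ℤ × ℤ := if r.o i then r.w (nxt N i) else r.e i

/-- end of the deterministic path between the tile `i` and the next tile -/
def en (i : ℕ) : ℤ × ℤ := if r.o i then r.e i else r.w (nxt N i)

/-- A closed row of tiles. -/
structure Ok (X : Env) (σ : ℕ → ℤ) : Prop where
  til : ∀ i ≤ N, Til X (r.lb i) (r.o i) (r.w i) (r.e i) (r.s i) (r.t i)
  inj : ∀ i ≤ N, ∀ j ≤ N, r.lb i = r.lb j → i = j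
  alt : ∀ i ≤ N, r.o (nxt N i) = !r.o i
  seam : ∀ i ≤ N, X.out^[r.n i] (r.st N i) = r.en N i
  free : ∀ i ≤ N, ∀ k < r.n i, lab (X.out^[k] (r.st N i)) ∉ X.E
  turn : ∀ i ≤ N, X.aT (r.st N i) (r.n i) = if r.o i then - σ i else σ i

/-- the corner `m` is not on the row -/
def Avoid (X : Env) (m : ℤ × ℤ) : Prop := ∀ i ≤ N, ∀ k ≤ r.n i, X.out^[k] (r.st N i) ≠ m

/-- the ends of the tiles; the last one is the end above the tile -/
def Z (X : Env) (c : ℤ × ℤ) (i : ℕ) : Fin 5 → En :=
  ![if r.o i then hd X c (r.w i) else td (r.w i),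
    if r.o i then hd X c (r.e i) else td (r.e i),
    if r.o i then td (r.s i) else hd X c (r.s i),
    if r.o i then td (r.t i) else hd X c (r.t i),
    if r.o i then ((r.t i, false), true) else ((r.t i, EX.mk X c (r.t i)), false)]

/-- corners in front of the tiles -/
def p (i : ℕ) : ℤ × ℤ := if r.o i then r.w i else r.t i

/-- corners in front of the tiles -/
def q (i : ℕ) : ℤ × ℤ := if r.o i then r.e i else r.s i

/-- the corners in front of the first `n` tiles -/
def rowL : ℕ → List (ℤ × ℤ)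
  | 0 => []
  | n + 1 => r.p n :: r.q n :: rowL n

end Rw

/-- the dummy labels -/
def Kap (κ : ℤ × ℤ → ℤ) (r : Rw) (N : ℕ) : Prop := ∀ i ≤ N,
  κ (r.p i) = (if r.o i then 1 else -1) ∧ κ (r.q i) = (if r.o i then 1 else -1)

/-- the two joins at a tile -/
theorem tile_ent {κ : ℤ × ℤ → ℤ} {ω : Finset (ℤ × ℤ)} {a : ℤ × ℤ} {o : Bool} {w e s t : ℤ × ℤ}
    (H : Til X a o w e s t) (g : LP En)
    (h1 : κ (if o then w else t) = if o then 1 else -1)
    (h2 : κ (if o then e else s) = if o then 1 else -1) :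
    jn (hd X c (if o then w else t)) (td (X.f ω (if o then w else t)))
      (X.d ω (if o then w else t)) (κ (if o then w else t))
      (jn (hd X c (if o then e else s)) (td (X.f ω (if o then e else s)))
        (X.d ω (if o then e else s)) (κ (if o then e else s)) g) =
    tileR (decide (a ∈ ω) != o) (if o then hd X c w else td w) (if o then hd X c e else td e)
      (if o then td s else hd X c s) (if o then td t else hd X c t) g := by
  have ho := X.odd a H.mem
  cases o
  · obtain ⟨l1, l2, l3, l4, l5⟩ := H.ff rfl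
    obtain ⟨m1, m2⟩ := nxO_other ho l1 l2 l3
    simp only [Bool.false_eq_true, if_false] at h1 h2 ⊢
    have l1' : lab t ∈ X.E := l1 ▸ H.mem
    have l2' : lab s ∈ X.E := l2 ▸ H.mem
    rw [Env.f_in l1', Env.f_in l2', Env.d_in l1', Env.d_in l2', h1, h2]
    have hts : hd X c t ≠ hd X c s := fun h => l3 (congrArg (fun y : En => y.1.1) h)
    have hsd : ∀ x y, hd X c x ≠ td y := fun x y h => by
      have := congrArg Prod.snd h
      simp [hd, td] at this
    have hew : td e ≠ td w := by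
      intro h
      have h' : e = w := congrArg (fun y : En => y.1.1) h
      rw [l4, l5] at h'
      exact l3 (nxC_inj h')
    by_cases ha : a ∈ ω
    · have e1 : nx ω t = w := by unfold nx; rw [l1, if_pos ha, m1, l5]
      have e2 : nx ω s = e := by unfold nx; rw [l2, if_pos ha, m2, l4]
      have d1 : del ω t = -1 := by unfold del; rw [l1, if_pos ha]
      have d2 : del ω s = -1 := by unfold del; rw [l2, if_pos ha]
      rw [e1, e2, d1, d2]
      simp only [ha, decide_true, bne_iff_ne, ne_eq, Bool.true_eq_false, not_false_eq_true,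
        Bool.bne_false]
      unfold tileR
      rw [if_pos rfl]
      rw [jn_comm (hd X c t) (td w) (-1) (-1) _ (hsd _ _)]
      rfl
    · have e1 : nx ω t = e := by unfold nx; rw [l1, if_neg ha, l4]
      have e2 : nx ω s = w := by unfold nx; rw [l2, if_neg ha, l5]
      have d1 : del ω t = 1 := by unfold del; rw [l1, if_neg ha]
      have d2 : del ω s = 1 := by unfold del; rw [l2, if_neg ha]
      rw [e1, e2, d1, d2]
      simp only [ha, decide_false, Bool.bne_false]
      unfold tileR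
      rw [if_neg (by decide)]
      rw [jn_jn (hd X c t) (td e) (hd X c s) (td w) _ _ _ _ g (hsd _ _) hts (hsd _ _)
        (hsd _ _).symm hew (hsd _ _), jn_comm (hd X c s) (td w) 1 (-1) _ (hsd _ _)]
      rfl
  · obtain ⟨l1, l2, l3, l4, l5⟩ := H.tt rfl
    obtain ⟨m1, m2⟩ := nxO_other ho l1 l2 l3
    simp only [if_true] at h1 h2 ⊢
    have l1' : lab w ∈ X.E := l1 ▸ H.mem
    have l2' : lab e ∈ X.E := l2 ▸ H.mem
    rw [Env.f_in l1', Env.f_in l2', Env.d_in l1', Env.d_in l2', h1, h2]
    have hsd : ∀ x y, hd X c x ≠ td y := fun x y h => by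
      have := congrArg Prod.snd h
      simp [hd, td] at this
    by_cases ha : a ∈ ω
    · have e1 : nx ω w = s := by unfold nx; rw [l1, if_pos ha, m1, l5]
      have e2 : nx ω e = t := by unfold nx; rw [l2, if_pos ha, m2, l4]
      have d1 : del ω w = -1 := by unfold del; rw [l1, if_pos ha]
      have d2 : del ω e = -1 := by unfold del; rw [l2, if_pos ha]
      rw [e1, e2, d1, d2]
      simp only [ha, decide_true, bne_self_eq_false]
      unfold tileR
      rw [if_neg (by decide)]
      rw [jn_comm (hd X c e) (td t) (-1) 1 _ (hsd _ _)]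
      rfl
    · have e1 : nx ω w = t := by unfold nx; rw [l1, if_neg ha, l4]
      have e2 : nx ω e = s := by unfold nx; rw [l2, if_neg ha, l5]
      have d1 : del ω w = 1 := by unfold del; rw [l1, if_neg ha]
      have d2 : del ω e = 1 := by unfold del; rw [l2, if_neg ha]
      rw [e1, e2, d1, d2]
      simp only [ha, decide_false]
      unfold tileR
      rw [if_pos (by decide)]
      rw [jn_comm (hd X c e) (td s) 1 1 _ (hsd _ _)]

/-- all joins at the tiles of a row -/
theorem nt_rowL {κ : ℤ × ℤ → ℤ} {ω : Finset (ℤ × ℤ)} {r : Rw} {N : ℕ} {σ : ℕ → ℤ}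
    (H : r.Ok N X σ) (hκ : Kap κ r N) (g : LP En) : ∀ n, n ≤ N + 1 →
    nt X c κ ω (r.rowL n) g = rowR (r.Z X c) (fun i => decide (r.lb i ∈ ω) != r.o i) n g := by
  intro n
  induction n with
  | zero => intro _; rfl
  | succ n ih =>
    intro hn
    rw [Rw.rowL, nt_cons, nt_cons, ih (by omega), rowR]
    have h := hκ n (by omega)
    exact tile_ent (H.til n (by omega)) _ h.1 h.2

end EX

end Pool.Agent.H64.Q1
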