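import Pool.Agent.H64.Q1.EnvA

/-!
# Geometry of the ends of two rows in an environment
-/

namespace Pool.Agent.H64.Q1

open LP Finset Pool.Agent.Q1 Pool.Agent.H75.Perc Pool.Agent.H75.TwoArm

namespace EX

variable {X : Env} {c : ℤ × ℤ}

/-- the label of the tile at the end -/
def tl (y : En) : ℤ × ℤ := if y.2 then lab y.1.1 else plab y.1.1

theorem tl_hd (x : ℤ × ℤ) : tl (hd X c x) = lab x := rfl

theorem tl_td (x : ℤ × ℤ) : tl (td x) = plab x := rfl

theorem hd_ne_td (x y : ℤ × ℤ) : hd X c x ≠ td y := fun h => by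
  have := congrArg Prod.snd h
  simp [hd, td] at this

theorem hd_inj {x y : ℤ × ℤ} (h : hd X c x = hd X c y) : x = y :=
  congrArg (fun y : En => y.1.1) h

theorem td_inj {x y : ℤ × ℤ} (h : td x = td y) : x = y := congrArg (fun y : En => y.1.1) h

/-- the label above the corner `t i` -/
def Rw.ol (r : Rw) (i : ℕ) : ℤ × ℤ := if r.o i then lab (r.t i) else plab (r.t i)

section OneRow

variable {r : Rw} {N : ℕ} {σ : ℕ → ℤ}

theorem Z4 (r : Rw) (i : ℕ) : r.Z X c i 4 = ((r.Z X c i 3).1, !(r.Z X c i 3).2) := by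
  unfold Rw.Z
  cases r.o i <;> rfl

theorem tl_Z4 (r : Rw) (i : ℕ) : tl (r.Z X c i 4) = r.ol i := by
  unfold Rw.Z Rw.ol
  cases r.o i <;> rfl

theorem tl_Z (H : r.Ok N X σ) {i : ℕ} (hi : i ≤ N) {b : Fin 5} (hb : b ≠ 4) :
    tl (r.Z X c i b) = r.lb i := by
  have T := H.til i hi
  unfold Rw.Z
  cases ho : r.o i
  · obtain ⟨l1, l2, l3, l4, l5⟩ := T.ff ho
    fin_cases b
    · change plab (r.w i) = _
      rw [l5, plab_nxC, l2]
    · change plab (r.e i) = _
      rw [l4, plab_nxC, l1]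
    · exact l2
    · exact l1
    · exact absurd rfl hb
  · obtain ⟨l1, l2, l3, l4, l5⟩ := T.tt ho
    fin_cases b
    · exact l1
    · exact l2
    · change plab (r.s i) = _
      rw [l5, plab_nxC, l2]
    · change plab (r.t i) = _
      rw [l4, plab_nxC, l1]
    · exact absurd rfl hb

theorem Z_inj_tile (H : r.Ok N X σ) {i : ℕ} (hi : i ≤ N) {b b' : Fin 5} (hb : b ≠ 4)
    (hb' : b' ≠ 4) (h : r.Z X c i b = r.Z X c i b') : b = b' := by
  have T := H.til i hi
  unfold Rw.Z at h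
  cases ho : r.o i
  · obtain ⟨l1, l2, l3, l4, l5⟩ := T.ff ho
    have hwe : r.w i ≠ r.e i := fun h => by
      rw [l4, l5] at h
      exact l3 (nxC_inj h).symm
    rw [ho] at h
    fin_cases b <;> fin_cases b' <;> first
      | rfl
      | exact absurd rfl hb
      | exact absurd rfl hb'
      | exact absurd h (hd_ne_td _ _)
      | exact absurd h.symm (hd_ne_td _ _)
      | exact absurd (td_inj h) hwe
      | exact absurd (td_inj h) hwe.symm
      | exact absurd (hd_inj h) l3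
      | exact absurd (hd_inj h) l3.symm
  · obtain ⟨l1, l2, l3, l4, l5⟩ := T.tt ho
    have hst : r.s i ≠ r.t i := fun h => by
      rw [l4, l5] at h
      exact l3 (nxC_inj h).symm
    rw [ho] at h
    fin_cases b <;> fin_cases b' <;> first
      | rfl
      | exact absurd rfl hb
      | exact absurd rfl hb'
      | exact absurd h (hd_ne_td _ _)
      | exact absurd h.symm (hd_ne_td _ _)
      | exact absurd (td_inj h) hst
      | exact absurd (td_inj h) hst.symm
      | exact absurd (hd_inj h) l3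
      | exact absurd (hd_inj h) l3.symm

theorem Z_inj5 (H : r.Ok N X σ) (hol : ∀ i ≤ N, ∀ j ≤ N, r.ol i ≠ r.lb j) :
    Inj5 (N + 1) (r.Z X c) := by
  intro i j a b hi hj h
  have hi : i ≤ N := by omega
  have hj : j ≤ N := by omega
  by_cases ha : a = 4 <;> by_cases hb : b = 4
  · subst ha; subst hb
    rw [Z4, Z4] at h
    have h3 : r.Z X c i 3 = r.Z X c j 3 := by
      have h1 := congrArg Prod.fst h
      have h2 := congrArg Prod.snd h
      simp only [Bool.not_inj_iff] at h1 h2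
      exact Prod.ext h1 h2
    have h4 := congrArg tl h3
    rw [tl_Z H hi (by decide), tl_Z H hj (by decide)] at h4
    exact ⟨H.inj i hi j hj h4, rfl⟩
  · subst ha
    have h4 := congrArg tl h
    rw [tl_Z4, tl_Z H hj hb] at h4
    exact absurd h4 (hol i hi j hj)
  · subst hb
    have h4 := congrArg tl h
    rw [tl_Z4, tl_Z H hi ha] at h4
    exact absurd h4.symm (hol j hj i hi)
  · have h4 := congrArg tl h
    rw [tl_Z H hi ha, tl_Z H hj hb] at h4
    have h5 := H.inj i hi j hj h4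
    subst h5
    exact ⟨rfl, Z_inj_tile H hi ha hb h⟩

end OneRow

/-- The row `r'` lies above the row `r`. -/
structure Over (r r' : Rw) (N : ℕ) : Prop where
  o : ∀ i ≤ N, r'.o i = !r.o i
  st : ∀ i ≤ N, r'.s i = r.t i
  dis : ∀ i ≤ N, ∀ j ≤ N, r.lb i ≠ r'.lb j
  top : ∀ i ≤ N, ∀ j ≤ N, r'.ol i ≠ r.lb j ∧ r'.ol i ≠ r'.lb j

section TwoRow

variable {r r' : Rw} {N : ℕ} {σ : ℕ → ℤ}

theorem ol_lower (H' : r'.Ok N X σ) (O : Over r r' N) {i : ℕ} (hi : i ≤ N) :
    r.ol i = r'.lb i := by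
  unfold Rw.ol
  have T := H'.til i hi
  have h1 := O.o i hi
  rw [← O.st i hi]
  cases ho : r.o i
  · rw [ho] at h1
    obtain ⟨l1, l2, l3, l4, l5⟩ := T.tt h1
    rw [if_neg (by decide), l5, plab_nxC, l2]
  · rw [ho] at h1
    obtain ⟨l1, l2, l3, l4, l5⟩ := T.ff h1
    rw [if_pos rfl, l2]

theorem Z'_two (O : Over r r' N) {i : ℕ} (hi : i ≤ N) (h0 : r.t i ≠ X.c0) (h1 : r.t i ≠ c) :
    r'.Z X c i 2 = r.Z X c i 4 := by
  have ho := O.o i hi
  have hs := O.st i hi
  have hm : mk X c (r.t i) = false := mk_of h0 h1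
  unfold Rw.Z
  cases h : r.o i
  · rw [h] at ho
    rw [ho]
    change td (r'.s i) = ((r.t i, mk X c (r.t i)), false)
    rw [hs, hm]; rfl
  · rw [h] at ho
    rw [ho]
    change hd X c (r'.s i) = ((r.t i, false), true)
    rw [hs]
    unfold hd
    rw [hm]

theorem Z_dis (H : r.Ok N X σ) (H' : r'.Ok N X σ) (O : Over r r' N)
    (h0 : ∀ i ≤ N, r.t i ≠ X.c0) (h1 : ∀ i ≤ N, r.t i ≠ c) :
    ∀ i < N + 1, ∀ j < N + 1, ∀ a b, b ≠ 2 → r.Z X c i a ≠ r'.Z X c j b := by
  intro i hi j hj a b hb2 h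
  have hi : i ≤ N := by omega
  have hj : j ≤ N := by omega
  have hI := Z_inj5 (c := c) H' (fun i hi j hj => (O.top i hi j hj).2)
  by_cases ha : a = 4
  · subst ha
    rw [← Z'_two O hi (h0 i hi) (h1 i hi)] at h
    exact hb2 (hI i j 2 b (by omega) (by omega) h).2.symm
  · have h4 := congrArg tl h
    rw [tl_Z H hi ha] at h4
    by_cases hb : b = 4
    · subst hb
      rw [tl_Z4] at h4
      exact (O.top j hj i hi).1 h4.symm
    · rw [tl_Z H' hj hb] at h4
      exact O.dis i hi j hj h4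

end TwoRow

/-! ### The deterministic paths -/

theorem mem_of_plab {y : ℤ × ℤ} (h : plab y ∈ X.E) : y ∈ X.S := by
  have h1 : lab (pv ∅ y) ∈ X.E := by rw [lab_pv]; exact h
  have h2 : X.f ∅ (pv ∅ y) = y := by rw [Env.f_in h1, nx_pv]
  rw [← h2]
  exact Env.f_mem (empty_subset _) (X.in_mem _ h1)

theorem plab_out {x : ℤ × ℤ} (hx : x ∈ X.S) (h : lab x ∉ X.E) : plab (X.out x) ∉ X.E := by
  intro hp
  have h1 : lab (pv ∅ (X.out x)) ∈ X.E := by rw [lab_pv]; exact hp
  have h2 : X.f ∅ (pv ∅ (X.out x)) = X.f ∅ x := by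
    rw [Env.f_in h1, nx_pv, Env.f_out hx h]
  have h3 := Env.f_injective (X := X) (empty_subset _) h2
  rw [h3] at h1
  exact h h1

section Seam

variable {r : Rw} {N : ℕ} {σ : ℕ → ℤ}

theorem st_spec (H : r.Ok N X σ) {i : ℕ} (hi : i ≤ N) :
    ∃ m ≤ N, r.o m = false ∧ plab (r.st N i) = r.lb m := by
  unfold Rw.st
  cases ho : r.o i
  · refine ⟨i, hi, ho, ?_⟩
    obtain ⟨l1, l2, l3, l4, l5⟩ := (H.til i hi).ff ho
    rw [if_neg (by decide), l4, plab_nxC, l1]
  · have h1 := H.alt i hi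
    rw [ho] at h1
    refine ⟨nxt N i, nxt_le hi, h1, ?_⟩
    obtain ⟨l1, l2, l3, l4, l5⟩ := (H.til _ (nxt_le hi)).ff h1
    rw [if_pos rfl, l5, plab_nxC, l2]

theorem en_spec (H : r.Ok N X σ) {i : ℕ} (hi : i ≤ N) :
    ∃ m ≤ N, r.o m = true ∧ lab (r.en N i) = r.lb m := by
  unfold Rw.en
  cases ho : r.o i
  · have h1 := H.alt i hi
    rw [ho] at h1
    refine ⟨nxt N i, nxt_le hi, h1, ?_⟩
    obtain ⟨l1, l2, l3, l4, l5⟩ := (H.til _ (nxt_le hi)).tt h1
    rw [if_neg (by decide), l1]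
  · refine ⟨i, hi, ho, ?_⟩
    obtain ⟨l1, l2, l3, l4, l5⟩ := (H.til i hi).tt ho
    rw [if_pos rfl, l2]

/-- corners of the deterministic paths which are followed by a deterministic step -/
def seamF (r : Rw) (N : ℕ) (X : Env) : Finset (ℤ × ℤ) :=
  (range (N + 1)).biUnion fun i => (range (r.n i)).image fun k => X.out^[k] (r.st N i)

theorem mem_seamF {x : ℤ × ℤ} :
    x ∈ seamF r N X ↔ ∃ i ≤ N, ∃ k < r.n i, X.out^[k] (r.st N i) = x := by
  unfold seamF
  simp only [mem_biUnion, mem_range, mem_image]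
  constructor
  · rintro ⟨i, hi, k, hk, h⟩
    exact ⟨i, by omega, k, hk, h⟩
  · rintro ⟨i, hi, k, hk, h⟩
    exact ⟨i, by omega, k, hk, h⟩

theorem path_mem (H : r.Ok N X σ) {i : ℕ} (hi : i ≤ N) {k : ℕ} (hk : k ≤ r.n i) :
    X.out^[k] (r.st N i) ∈ X.S := by
  induction k with
  | zero =>
    obtain ⟨m, hm, -, h⟩ := st_spec H hi
    apply mem_of_plab
    change plab (r.st N i) ∈ X.E
    rw [h]
    exact (H.til m hm).mem
  | succ k ih =>
    have h1 := ih (by omega)
    rw [Function.iterate_succ_apply', ← Env.f_out (ω := ∅) h1 (H.free i hi k (by omega))]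
    exact Env.f_mem (empty_subset _) h1

theorem seam_mem (H : r.Ok N X σ) {x : ℤ × ℤ} (hx : x ∈ seamF r N X) :
    x ∈ X.S ∧ lab x ∉ X.E := by
  obtain ⟨i, hi, k, hk, rfl⟩ := mem_seamF.1 hx
  exact ⟨path_mem H hi hk.le, H.free i hi k hk⟩

/-- the ends `T` and `Q` of a tile do not meet the joins of the deterministic paths -/
theorem keepT {r r2 : Rw} (H : r.Ok N X σ) (H2 : r2.Ok N X σ)
    (cp : ∀ i ≤ N, ∀ m ≤ N, r.lb i = r2.lb m → r.o i = r2.o m) {x : ℤ × ℤ}
    (hx : x ∈ seamF r2 N X) {i : ℕ} (hi : i ≤ N) :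
    r.Z X c i 3 ≠ hd X c x ∧ r.Z X c i 3 ≠ td (X.f ∅ x) ∧
    r.Z X c i 4 ≠ hd X c x ∧ r.Z X c i 4 ≠ td (X.f ∅ x) := by
  obtain ⟨hS, hE⟩ := seam_mem H2 hx
  have hout : X.f ∅ x = X.out x := Env.f_out hS hE
  have hm := (H.til i hi).mem
  have T := H.til i hi
  refine ⟨?_, ?_, ?_, ?_⟩
  · intro h
    have h4 := congrArg tl h
    rw [tl_Z H hi (by decide), tl_hd] at h4
    rw [← h4] at hE
    exact hE hm
  · intro h
    have h4 := congrArg tl h
    rw [tl_Z H hi (by decide), tl_td, hout] at h4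
    have := plab_out hS hE
    rw [← h4] at this
    exact this hm
  · intro h
    unfold Rw.Z at h
    cases ho : r.o i
    · rw [ho] at h
      have h' : false = true := congrArg Prod.snd h
      exact absurd h' (by decide)
    · rw [ho] at h
      have hxt : r.t i = x := congrArg (fun y : En => y.1.1) h
      obtain ⟨l1, l2, l3, l4, l5⟩ := T.tt ho
      have hp : plab (r.t i) = r.lb i := by rw [l4, plab_nxC, l1]
      obtain ⟨j, hj, k, hk, hkx⟩ := mem_seamF.1 hx
      rcases Nat.eq_zero_or_pos k with hk0 | hk0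
      · subst hk0
        obtain ⟨m, hm', hom, hpm⟩ := st_spec H2 hj
        have e1 : r.lb i = r2.lb m := by
          rw [← hp, hxt, ← hkx, ← hpm]; rfl
        have := cp i hi m hm' e1
        rw [ho, hom] at this
        exact absurd this (by decide)
      · obtain ⟨k', rfl⟩ := Nat.exists_eq_succ_of_ne_zero hk0.ne'
        rw [Nat.succ_eq_add_one, Function.iterate_succ_apply'] at hkx
        have := plab_out (path_mem H2 hj (by omega : k' ≤ r2.n j)) (H2.free j hj k' (by omega))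
        rw [hkx, ← hxt, hp] at this
        exact this hm
  · intro h
    rw [hout] at h
    unfold Rw.Z at h
    cases ho : r.o i
    · rw [ho] at h
      have hxt : r.t i = X.out x := congrArg (fun y : En => y.1.1) h
      obtain ⟨l1, l2, l3, l4, l5⟩ := T.ff ho
      obtain ⟨j, hj, k, hk, hkx⟩ := mem_seamF.1 hx
      have e1 : X.out^[k + 1] (r2.st N j) = r.t i := by
        rw [Function.iterate_succ_apply', hkx, hxt]
      rcases Nat.lt_or_ge (k + 1) (r2.n j) with h5 | h5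
      · have := H2.free j hj (k + 1) h5
        rw [e1, l1] at this
        exact this hm
      · have h6 : k + 1 = r2.n j := by omega
        rw [h6, H2.seam j hj] at e1
        obtain ⟨m, hm', hom, hpm⟩ := en_spec H2 hj
        have e2 : r.lb i = r2.lb m := by rw [← hpm, e1, l1]
        have := cp i hi m hm' e2
        rw [ho, hom] at this
        exact absurd this (by decide)
    · rw [ho] at h
      have h' : true = false := congrArg Prod.snd h
      exact absurd h' (by decide)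

/-- the deterministic paths in the network of a set `U` of deterministic corners -/
theorem seam_arc (H : r.Ok N X σ) (κ : ℤ × ℤ → ℤ) {U : Finset (ℤ × ℤ)} (hU : seamF r N X ⊆ U)
    (hU' : ∀ x ∈ U, x ∈ X.S ∧ lab x ∉ X.E) (a0 : r.Avoid N X X.c0) (a1 : r.Avoid N X c) {i : ℕ}
    (hi : i ≤ N) :
    nt X c κ ∅ U.toList base (td (r.st N i)) = hd X c (r.en N i) ∧
    (nt X c κ ∅ U.toList base).d (td (r.st N i)) = X.aT (r.st N i) (r.n i) := by
  set L := U.toList.map (ent X c κ ∅) with hL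
  have hch : ∀ k ≤ r.n i, Ch L (r.st N i, false) (X.out^[k] (r.st N i), false)
      (X.aT (r.st N i) k) := by
    intro k
    induction k with
    | zero => intro _; simpa [Env.aT] using Ch.refl (l := L) (r.st N i, false)
    | succ k ih =>
      intro hk
      have h1 := ih (by omega)
      have hxU : X.out^[k] (r.st N i) ∈ U := hU (mem_seamF.2 ⟨i, hi, k, by omega, rfl⟩)
      obtain ⟨hS, hE⟩ := hU' _ hxU
      have h2 := h1.step (b := (X.out (X.out^[k] (r.st N i)), false))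
        (δ := X.dout (X.out^[k] (r.st N i))) (κ := κ (X.out^[k] (r.st N i))) (by
          refine List.mem_map.2 ⟨_, mem_toList.2 hxU, ?_⟩
          unfold ent
          rw [mk_of (a0 i hi k (by omega)) (a1 i hi k (by omega)), Env.f_out hS hE,
            Env.d_out hS hE])
      rw [Function.iterate_succ_apply']
      have e : X.aT (r.st N i) (k + 1) = X.aT (r.st N i) k + X.dout (X.out^[k] (r.st N i)) := by
        unfold Env.aT
        rw [Finset.sum_range_succ]
      rw [e]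
      exact h2
  have h := hch (r.n i) le_rfl
  rw [H.seam i hi] at h
  have hy : ((r.st N i, false) : Cn) ∉ L.map (fun j => j.2.1) := by
    intro h
    obtain ⟨j, hj, hj'⟩ := List.mem_map.1 h
    obtain ⟨x, hx, rfl⟩ := List.mem_map.1 hj
    obtain ⟨hS, hE⟩ := hU' x (mem_toList.1 hx)
    have h1 : X.f ∅ x = r.st N i := congrArg Prod.fst hj'
    rw [Env.f_out hS hE] at h1
    have h2 := plab_out hS hE
    obtain ⟨m, hm, -, h3⟩ := st_spec H hi
    rw [h1, h3] at h2
    exact h2 (H.til m hm).mem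
  have hz : ((r.en N i, false) : Cn) ∉ L.map (fun j => j.1) := by
    intro h
    obtain ⟨j, hj, hj'⟩ := List.mem_map.1 h
    obtain ⟨x, hx, rfl⟩ := List.mem_map.1 hj
    obtain ⟨hS, hE⟩ := hU' x (mem_toList.1 hx)
    have h1 : x = r.en N i := congrArg Prod.fst hj'
    obtain ⟨m, hm, -, h3⟩ := en_spec H hi
    rw [h1, h3] at hE
    exact hE (H.til m hm).mem
  obtain ⟨g1, g2⟩ := gnet_chain L (src_nodup (nodup_toList U))
    (tgt_nodup (empty_subset _) (nodup_toList U)) hy hz h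
  have hen : mk X c (r.en N i) = false := by
    have h0 := a0 i hi (r.n i) le_rfl
    have h1 := a1 i hi (r.n i) le_rfl
    rw [H.seam i hi] at h0 h1
    exact mk_of h0 h1
  refine ⟨?_, g2⟩
  have e1 : nt X c κ ∅ U.toList base (td (r.st N i)) = ((r.en N i, false), true) := g1
  rw [e1]
  unfold hd
  rw [hen]

/-- east end of a tile and west end of the next tile -/
theorem seam_Z (H : r.Ok N X σ) (κ : ℤ × ℤ → ℤ) {U : Finset (ℤ × ℤ)} (hU : seamF r N X ⊆ U)
    (hU' : ∀ x ∈ U, x ∈ X.S ∧ lab x ∉ X.E) (a0 : r.Avoid N X X.c0) (a1 : r.Avoid N X c) {i : ℕ}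
    (hi : i ≤ N) :
    nt X c κ ∅ U.toList base (r.Z X c i 1) = r.Z X c (nxt N i) 0 ∧
    (nt X c κ ∅ U.toList base).d (r.Z X c i 1) = σ i := by
  obtain ⟨h1, h2⟩ := seam_arc H κ hU hU' a0 a1 hi
  have h3 := H.turn i hi
  have h4 := H.alt i hi
  rw [h3] at h2
  generalize nt X c κ ∅ U.toList base = g at h1 h2 ⊢
  unfold Rw.Z
  unfold Rw.st Rw.en at h1
  unfold Rw.st at h2
  cases ho : r.o i
  · rw [ho] at h1 h2 h4
    rw [h4]
    exact ⟨h1, h2⟩
  · rw [ho] at h1 h2 h4
    rw [h4]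
    change g (hd X c (r.e i)) = td (r.w (nxt N i)) ∧ g.d (hd X c (r.e i)) = σ i
    change g (td (r.w (nxt N i))) = hd X c (r.e i) at h1
    change g.d (td (r.w (nxt N i))) = - σ i at h2
    rw [← h1, g.invol, g.anti, h2, neg_neg]
    exact ⟨rfl, rfl⟩

/-- the row in the network of the deterministic paths -/
theorem row_S {r r' : Rw} (H : r.Ok N X σ) (H' : r'.Ok N X σ)
    (cp : ∀ i ≤ N, ∀ m ≤ N, r.lb i = r'.lb m → r.o i = r'.o m)
    (hol : ∀ i ≤ N, ∀ j ≤ N, r.ol i ≠ r.lb j) (κ : ℤ × ℤ → ℤ)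
    {U : Finset (ℤ × ℤ)} (hU : U = seamF r N X ∪ seamF r' N X)
    (a0 : r.Avoid N X X.c0) (a1 : r.Avoid N X c) :
    RowS (nt X c κ ∅ U.toList base) (N + 1) (r.Z X c) σ ∧
    nt X c κ ∅ U.toList base (r.Z X c 0 0) = r.Z X c N 1 ∧
    (nt X c κ ∅ U.toList base).d (r.Z X c 0 0) = - σ N := by
  have hsub : seamF r N X ⊆ U := by rw [hU]; exact subset_union_left
  have hU' : ∀ x ∈ U, x ∈ X.S ∧ lab x ∉ X.E := by
    intro x hx
    rw [hU] at hx
    rcases mem_union.1 hx with h | h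
    · exact seam_mem H h
    · exact seam_mem H' h
  refine ⟨⟨Z_inj5 H hol, fun i hi => ?_, fun i hi => ?_⟩, ?_⟩
  · have hi : i ≤ N := by omega
    have hbase : (base : LP En) (r.Z X c i 3) = r.Z X c i 4 := by
      rw [base_apply, Z4]
    have hk : ∀ x ∈ U, r.Z X c i 3 ≠ hd X c x ∧ r.Z X c i 3 ≠ td (X.f ∅ x) ∧
        r.Z X c i 4 ≠ hd X c x ∧ r.Z X c i 4 ≠ td (X.f ∅ x) := by
      intro x hx
      rw [hU] at hx
      rcases mem_union.1 hx with h | h
      · exact keepT H H (fun i hi m hm h => by rw [H.inj i hi m hm h]) h hi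
      · exact keepT H H' cp h hi
    have := gnet_keep (l := U.toList.map (ent X c κ ∅)) hbase
      (by
        intro j hj
        obtain ⟨x, hx, rfl⟩ := List.mem_map.1 hj
        obtain ⟨h1, h2, -, -⟩ := hk x (mem_toList.1 hx)
        exact ⟨h1, h2⟩)
      (by
        intro j hj
        obtain ⟨x, hx, rfl⟩ := List.mem_map.1 hj
        obtain ⟨-, -, h1, h2⟩ := hk x (mem_toList.1 hx)
        exact ⟨h1, h2⟩)
    exact ⟨this.1, this.2⟩
  · have h1 := seam_Z H κ hsub hU' a0 a1 (i := i) (by omega)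
    have h2 : nxt N i = i + 1 := by unfold nxt; rw [if_neg (by omega)]
    rw [h2] at h1
    exact h1
  · have h1 := seam_Z H κ hsub hU' a0 a1 (i := N) le_rfl
    have h2 : nxt N N = 0 := by unfold nxt; rw [if_pos rfl]
    rw [h2] at h1
    generalize nt X c κ ∅ U.toList base = g at h1 ⊢
    obtain ⟨h3, h4⟩ := h1
    rw [← h3, g.invol, g.anti, h4]
    exact ⟨rfl, rfl⟩

end Seam

end EX

end Pool.Agent.H64.Q1
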