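import Pool.Agent.H64.Q1.EnvB

/-!
# Exchange of two adjacent rows of tiles in an environment

Main result: `exchange_env`. In an environment with complex product weights let `r` and `r'` be two
closed rows of random tiles, `r'` directly above `r`, with the parameters `a` and `a'` (the weight of
the state west-north, south-east). The increment across every corner which is neither on the two
rows nor between them does not change when the two parameters are exchanged.
-/

namespace Pool.Agent.H64.Q1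

open LP Finset Pool.Agent.Q1 Pool.Agent.H75.Perc Pool.Agent.H75.TwoArm

namespace EX

/-- labels which realise the states `B` of the tiles -/
def lset (lb : ℕ → ℤ × ℤ) (o : ℕ → Bool) (s B : Finset ℕ) : Finset (ℤ × ℤ) :=
  (s.filter (fun i => (decide (i ∈ B) != o i) = true)).image lb

theorem Ec_image {q : ℤ × ℤ → ℂ} {lb : ℕ → ℤ × ℤ} {o : ℕ → Bool} {a : ℂ} (s : Finset ℕ)
    (hinj : ∀ i ∈ s, ∀ j ∈ s, lb i = lb j → i = j)
    (hq : ∀ i ∈ s, q (lb i) = if o i then 1 - a else a) (G : Finset (ℤ × ℤ) → ℂ) :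
    Ec q (s.image lb) G = Ec (fun _ => a) s (fun B => G (lset lb o s B)) := by
  induction s using Finset.induction_on generalizing G with
  | empty => simp [lset]
  | insert i s hi ih =>
    have hinj' : ∀ i ∈ s, ∀ j ∈ s, lb i = lb j → i = j := fun i hi j hj =>
      hinj i (mem_insert_of_mem hi) j (mem_insert_of_mem hj)
    have hq' : ∀ i ∈ s, q (lb i) = if o i then 1 - a else a := fun i hi =>
      hq i (mem_insert_of_mem hi)
    have hni : lb i ∉ s.image lb := by
      intro h
      obtain ⟨j, hj, hj'⟩ := mem_image.1 h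
      have := hinj j (mem_insert_of_mem hj) i (mem_insert_self _ _) hj'
      exact hi (this ▸ hj)
    rw [image_insert, Ec_insert q hni, Ec_insert _ hi, ih hinj' hq', ih hinj' hq',
      hq i (mem_insert_self _ _)]
    have e1 : ∀ B, B ⊆ s → lset lb o (insert i s) B =
        if o i then insert (lb i) (lset lb o s B) else lset lb o s B := by
      intro B hB
      have hiB : i ∉ B := fun h => hi (hB h)
      unfold lset
      rw [filter_insert]
      cases o i
      · simp [hiB]
      · simp [hiB, image_insert]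
    have e2 : ∀ B, B ⊆ s → lset lb o (insert i s) (insert i B) =
        if o i then lset lb o s B else insert (lb i) (lset lb o s B) := by
      intro B hB
      have h3 : s.filter (fun j => (decide (j ∈ insert i B) != o j) = true) =
          s.filter (fun j => (decide (j ∈ B) != o j) = true) := by
        apply filter_congr
        intro j hj
        have : j ≠ i := fun h => hi (h ▸ hj)
        simp [mem_insert, this]
      unfold lset
      rw [filter_insert, h3]
      cases o i
      · simp [image_insert]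
      · simp
    rw [Ec_congr (F := fun B => G (lset lb o (insert i s) B))
      (G := fun B => G (if o i then insert (lb i) (lset lb o s B) else lset lb o s B))
      (fun B hB => by rw [e1 B hB]),
      Ec_congr (F := fun B => G (lset lb o (insert i s) (insert i B)))
      (G := fun B => G (if o i then lset lb o s B else insert (lb i) (lset lb o s B)))
      (fun B hB => by rw [e2 B hB])]
    cases o i
    · simp
    · simp only [if_true]
      ring

theorem rowR_congr {D : Type*} [DecidableEq D] {Z : ℕ → Fin 5 → D} {B B' : ℕ → Bool} {n : ℕ}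
    (h : ∀ i < n, B i = B' i) (g : LP D) : rowR Z B n g = rowR Z B' n g := by
  induction n with
  | zero => rfl
  | succ n ih => rw [rowR, rowR, ih (fun i hi => h i (by omega)), h n (by omega)]

variable {X : Env} {c : ℤ × ℤ}

section RowList

variable {r : Rw} {N : ℕ} {σ : ℕ → ℤ}

theorem lab_pq (H : r.Ok N X σ) {i : ℕ} (hi : i ≤ N) :
    lab (r.p i) = r.lb i ∧ lab (r.q i) = r.lb i ∧ r.p i ≠ r.q i := by
  have T := H.til i hi
  unfold Rw.p Rw.q
  cases ho : r.o i
  · obtain ⟨l1, l2, l3, -, -⟩ := T.ff ho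
    exact ⟨l1, l2, l3⟩
  · obtain ⟨l1, l2, l3, -, -⟩ := T.tt ho
    exact ⟨l1, l2, l3⟩

theorem mem_rowL {x : ℤ × ℤ} {n : ℕ} : x ∈ r.rowL n ↔ ∃ i < n, x = r.p i ∨ x = r.q i := by
  induction n with
  | zero => simp [Rw.rowL]
  | succ n ih =>
    rw [Rw.rowL, List.mem_cons, List.mem_cons, ih]
    constructor
    · rintro (h | h | ⟨i, hi, h⟩)
      · exact ⟨n, by omega, Or.inl h⟩
      · exact ⟨n, by omega, Or.inr h⟩
      · exact ⟨i, by omega, h⟩
    · rintro ⟨i, hi, h⟩
      rcases Nat.lt_succ_iff_lt_or_eq.1 hi with h1 | h1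
      · exact Or.inr (Or.inr ⟨i, h1, h⟩)
      · subst h1
        rcases h with h | h
        · exact Or.inl h
        · exact Or.inr (Or.inl h)

theorem mem_rowL' (H : r.Ok N X σ) {x : ℤ × ℤ} :
    x ∈ r.rowL (N + 1) ↔ ∃ i ≤ N, lab x = r.lb i := by
  rw [mem_rowL]
  constructor
  · rintro ⟨i, hi, h⟩
    obtain ⟨h1, h2, -⟩ := lab_pq H (i := i) (by omega)
    refine ⟨i, by omega, ?_⟩
    rcases h with h | h
    · rw [h, h1]
    · rw [h, h2]
  · rintro ⟨i, hi, h⟩
    obtain ⟨h1, h2, h3⟩ := lab_pq H hi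
    have ho := X.odd _ (H.til i hi).mem
    refine ⟨i, by omega, ?_⟩
    rcases (lab_eq_iff _ x ho).1 h with h4 | h4 <;>
      rcases (lab_eq_iff _ _ ho).1 h1 with h5 | h5 <;>
      rcases (lab_eq_iff _ _ ho).1 h2 with h6 | h6
    · exact absurd (h5.trans h6.symm) h3
    · exact Or.inl (h4.trans h5.symm)
    · exact Or.inr (h4.trans h6.symm)
    · exact absurd (h5.trans h6.symm) h3
    · exact absurd (h5.trans h6.symm) h3
    · exact Or.inr (h4.trans h6.symm)
    · exact Or.inl (h4.trans h5.symm)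
    · exact absurd (h5.trans h6.symm) h3

theorem nodup_rowL (H : r.Ok N X σ) {n : ℕ} (hn : n ≤ N + 1) : (r.rowL n).Nodup := by
  induction n with
  | zero => exact List.nodup_nil
  | succ n ih =>
    have ih := ih (by omega)
    obtain ⟨h1, h2, h3⟩ := lab_pq H (i := n) (by omega)
    have h4 : ∀ x ∈ r.rowL n, lab x ≠ r.lb n := by
      intro x hx h
      obtain ⟨i, hi, hx'⟩ := mem_rowL.1 hx
      obtain ⟨h5, h6, -⟩ := lab_pq H (i := i) (by omega)
      have : lab x = r.lb i := by
        rcases hx' with h' | h'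
        · rw [h', h5]
        · rw [h', h6]
      have := H.inj i (by omega) n (by omega) (this.symm.trans h)
      omega
    rw [Rw.rowL, List.nodup_cons, List.nodup_cons, List.mem_cons, not_or]
    exact ⟨⟨h3, fun h => h4 _ h h1⟩, fun h => h4 _ h h2, ih⟩

end RowList

open Classical in
/-- the dummy labels -/
noncomputable def kap (r r' : Rw) (N : ℕ) (x : ℤ × ℤ) : ℤ :=
  if ∃ i ≤ N, (lab x = r.lb i ∧ r.o i = true) ∨ (lab x = r'.lb i ∧ r'.o i = true) then 1 else -1

theorem kap_lo {r r' : Rw} {N : ℕ} {σ : ℕ → ℤ} (H : r.Ok N X σ)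
    (dis : ∀ i ≤ N, ∀ j ≤ N, r.lb i ≠ r'.lb j) : Kap (kap r r' N) r N := by
  intro i hi
  obtain ⟨h1, h2, -⟩ := lab_pq H hi
  have key : ∀ x, lab x = r.lb i → kap r r' N x = if r.o i then 1 else -1 := by
    intro x hx
    unfold kap
    cases ho : r.o i
    · rw [if_neg, if_neg (by decide)]
      rintro ⟨j, hj, ⟨h3, h4⟩ | ⟨h3, -⟩⟩
      · have := H.inj i hi j hj (hx.symm.trans h3)
        subst this
        rw [ho] at h4
        exact absurd h4 (by decide)
      · exact dis i hi j hj (hx.symm.trans h3)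
    · rw [if_pos, if_pos rfl]
      exact ⟨i, hi, Or.inl ⟨hx, ho⟩⟩
  exact ⟨key _ h1, key _ h2⟩

theorem kap_up {r r' : Rw} {N : ℕ} {σ : ℕ → ℤ} (H : r'.Ok N X σ)
    (dis : ∀ i ≤ N, ∀ j ≤ N, r.lb i ≠ r'.lb j) : Kap (kap r r' N) r' N := by
  intro i hi
  obtain ⟨h1, h2, -⟩ := lab_pq H hi
  have key : ∀ x, lab x = r'.lb i → kap r r' N x = if r'.o i then 1 else -1 := by
    intro x hx
    unfold kap
    cases ho : r'.o i
    · rw [if_neg, if_neg (by decide)]
      rintro ⟨j, hj, ⟨h3, -⟩ | ⟨h3, h4⟩⟩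
      · exact dis j hj i hi (h3.symm.trans hx)
      · have := H.inj i hi j hj (hx.symm.trans h3)
        subst this
        rw [ho] at h4
        exact absurd h4 (by decide)
    · rw [if_pos, if_pos rfl]
      exact ⟨i, hi, Or.inr ⟨hx, ho⟩⟩
  exact ⟨key _ h1, key _ h2⟩

/-- labels of a row -/
def labs (r : Rw) (N : ℕ) : Finset (ℤ × ℤ) := (range (N + 1)).image r.lb

theorem mem_labs {r : Rw} {N : ℕ} {x : ℤ × ℤ} : x ∈ labs r N ↔ ∃ i ≤ N, r.lb i = x := by
  unfold labs
  rw [mem_image]
  constructor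
  · rintro ⟨i, hi, h⟩
    exact ⟨i, by have := mem_range.1 hi; omega, h⟩
  · rintro ⟨i, hi, h⟩
    exact ⟨i, mem_range.2 (by omega), h⟩

theorem lset_sub (r : Rw) (N : ℕ) (B : Finset ℕ) :
    lset r.lb r.o (range (N + 1)) B ⊆ labs r N := by
  unfold lset labs
  exact image_subset_image (filter_subset _ _)

theorem mem_lset {r : Rw} {N : ℕ} {σ : ℕ → ℤ} (H : r.Ok N X σ) (B : Finset ℕ) {i : ℕ}
    (hi : i ≤ N) : r.lb i ∈ lset r.lb r.o (range (N + 1)) B ↔
      (decide (i ∈ B) != r.o i) = true := by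
  unfold lset
  rw [mem_image]
  constructor
  · rintro ⟨j, hj, hj'⟩
    obtain ⟨h1, h2⟩ := mem_filter.1 hj
    have := H.inj j (by have := mem_range.1 h1; omega) i hi hj'
    rwa [← this]
  · intro h
    exact ⟨i, mem_filter.2 ⟨mem_range.2 (by omega), h⟩, rfl⟩

/-- the symmetric form of both rows for a fixed configuration elsewhere -/
theorem exchange_fixed {r r' : Rw} {N : ℕ} {σ : ℕ → ℤ} (H : r.Ok N X σ) (H' : r'.Ok N X σ)
    (O : Over r r' N) (a0 : r.Avoid N X X.c0) (a1 : r.Avoid N X c) (b0 : r'.Avoid N X X.c0)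
    (b1 : r'.Avoid N X c) (t1 : ∀ i ≤ N, r.t i ≠ c) (hc : c ≠ X.c0)
    {ω0 : Finset (ℤ × ℤ)} (hω : ω0 ⊆ X.E \ (labs r N ∪ labs r' N)) (a a' : ℂ) :
    Ec (fun _ => a) (range (N + 1)) (fun B => Ec (fun _ => a') (range (N + 1)) (fun B' =>
      X.incO (ω0 ∪ (lset r.lb r.o (range (N + 1)) B ∪ lset r'.lb r'.o (range (N + 1)) B')) c)) =
    Ec (fun _ => a') (range (N + 1)) (fun B => Ec (fun _ => a) (range (N + 1)) (fun B' =>
      X.incO (ω0 ∪ (lset r.lb r.o (range (N + 1)) B ∪ lset r'.lb r'.o (range (N + 1)) B')) c)) := by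
  set κ := kap r r' N with hκ
  obtain ⟨U, hU⟩ : ∃ U, U = seamF r N X ∪ seamF r' N X := ⟨_, rfl⟩
  have hUm : ∀ x ∈ U, x ∈ X.S ∧ lab x ∉ X.E := by
    intro x hx
    rw [hU] at hx
    rcases mem_union.1 hx with h | h
    · exact seam_mem H h
    · exact seam_mem H' h
  obtain ⟨R, hR⟩ : ∃ R, R = X.S \ (U ∪ ((r.rowL (N + 1)).toFinset ∪ (r'.rowL (N + 1)).toFinset)) :=
    ⟨_, rfl⟩
  have hRm : ∀ x, x ∈ R.toList ↔
      x ∈ X.S ∧ x ∉ U ∧ x ∉ r.rowL (N + 1) ∧ x ∉ r'.rowL (N + 1) := by
    intro x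
    rw [mem_toList, hR, mem_sdiff, mem_union, mem_union, List.mem_toFinset,
      List.mem_toFinset, not_or, not_or]
  set l : List (ℤ × ℤ) := R.toList ++ (r'.rowL (N + 1) ++ (r.rowL (N + 1) ++ U.toList)) with hl
  have hrow : ∀ x ∈ r.rowL (N + 1), x ∈ X.S ∧ lab x ∈ X.E := by
    intro x hx
    obtain ⟨i, hi, h⟩ := (mem_rowL' H).1 hx
    have : lab x ∈ X.E := by rw [h]; exact (H.til i hi).mem
    exact ⟨X.in_mem x this, this⟩
  have hrow' : ∀ x ∈ r'.rowL (N + 1), x ∈ X.S ∧ lab x ∈ X.E := by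
    intro x hx
    obtain ⟨i, hi, h⟩ := (mem_rowL' H').1 hx
    have : lab x ∈ X.E := by rw [h]; exact (H'.til i hi).mem
    exact ⟨X.in_mem x this, this⟩
  have hnd : l.Nodup := by
    rw [hl, List.nodup_append', List.nodup_append', List.nodup_append']
    refine ⟨nodup_toList _, ⟨nodup_rowL H' le_rfl, ⟨nodup_rowL H le_rfl, nodup_toList _, ?_⟩, ?_⟩,
      ?_⟩
    · intro x h1 h2
      exact (hUm x (mem_toList.1 h2)).2 (hrow x h1).2
    · intro x h1 h2
      rcases List.mem_append.1 h2 with h3 | h3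
      · obtain ⟨i, hi, h⟩ := (mem_rowL' H').1 h1
        obtain ⟨j, hj, h'⟩ := (mem_rowL' H).1 h3
        exact O.dis j hj i hi (h'.symm.trans h)
      · exact (hUm x (mem_toList.1 h3)).2 (hrow' x h1).2
    · intro x h1 h2
      obtain ⟨-, h5, h6, h7⟩ := (hRm x).1 h1
      rcases List.mem_append.1 h2 with h3 | h3
      · exact h7 h3
      · rcases List.mem_append.1 h3 with h4 | h4
        · exact h6 h4
        · exact h5 (mem_toList.1 h4)
  have hS : ∀ x, x ∈ l ↔ x ∈ X.S := by
    intro x
    rw [hl, List.mem_append, List.mem_append, List.mem_append, hRm, mem_toList]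
    constructor
    · rintro (h | h | h | h)
      · exact h.1
      · exact (hrow' x h).1
      · exact (hrow x h).1
      · exact (hUm x h).1
    · intro h
      by_cases h1 : x ∈ U
      · exact Or.inr (Or.inr (Or.inr h1))
      · by_cases h2 : x ∈ r.rowL (N + 1)
        · exact Or.inr (Or.inr (Or.inl h2))
        · by_cases h3 : x ∈ r'.rowL (N + 1)
          · exact Or.inr (Or.inl h3)
          · exact Or.inl ⟨h, h1, h2, h3⟩
  set f := nt X c κ ∅ U.toList base with hf
  set Φ : LP En → ℂ := fun g => obs X c (nt X c κ ω0 R.toList g) with hΦ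
  have hω0 : ω0 ⊆ X.E := hω.trans sdiff_subset
  have hωr : ∀ x ∈ ω0, x ∉ labs r N ∧ x ∉ labs r' N := by
    intro x hx
    have := (mem_sdiff.1 (hω hx)).2
    rw [mem_union, not_or] at this
    exact this
  have hlab : labs r N ⊆ X.E ∧ labs r' N ⊆ X.E := by
    constructor
    · intro x hx
      obtain ⟨i, hi, h⟩ := mem_labs.1 hx
      rw [← h]; exact (H.til i hi).mem
    · intro x hx
      obtain ⟨i, hi, h⟩ := mem_labs.1 hx
      rw [← h]; exact (H'.til i hi).mem
  have main : ∀ B B' : Finset ℕ,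
      X.incO (ω0 ∪ (lset r.lb r.o (range (N + 1)) B ∪ lset r'.lb r'.o (range (N + 1)) B')) c =
      Φ (rowR (r'.Z X c) (fun i => decide (i ∈ B')) (N + 1)
        (rowR (r.Z X c) (fun i => decide (i ∈ B)) (N + 1) f)) := by
    intro B B'
    set ω := ω0 ∪ (lset r.lb r.o (range (N + 1)) B ∪ lset r'.lb r'.o (range (N + 1)) B') with hωd
    have hsub : ω ⊆ X.E := by
      rw [hωd]
      exact union_subset hω0 (union_subset ((lset_sub _ _ _).trans hlab.1)
        ((lset_sub _ _ _).trans hlab.2))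
    have m1 : ∀ i ≤ N, (r.lb i ∈ ω ↔ (decide (i ∈ B) != r.o i) = true) := by
      intro i hi
      rw [← mem_lset H B hi, hωd, mem_union, mem_union]
      constructor
      · rintro (h | h | h)
        · exact absurd (mem_labs.2 ⟨i, hi, rfl⟩) (hωr _ h).1
        · exact h
        · obtain ⟨j, hj, h'⟩ := mem_labs.1 (lset_sub _ _ _ h)
          exact absurd h'.symm (O.dis i hi j hj)
      · intro h; exact Or.inr (Or.inl h)
    have m2 : ∀ i ≤ N, (r'.lb i ∈ ω ↔ (decide (i ∈ B') != r'.o i) = true) := by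
      intro i hi
      rw [← mem_lset H' B' hi, hωd, mem_union, mem_union]
      constructor
      · rintro (h | h | h)
        · exact absurd (mem_labs.2 ⟨i, hi, rfl⟩) (hωr _ h).2
        · obtain ⟨j, hj, h'⟩ := mem_labs.1 (lset_sub _ _ _ h)
          exact absurd h' (O.dis j hj i hi)
        · exact h
      · intro h; exact Or.inr (Or.inr h)
    have hbool : ∀ x y : Bool, ((x != y) != y) = x := by decide
    rw [← obs_full hsub hc κ hnd hS, hl, nt_append, nt_append, nt_append,
      nt_rowL H' (kap_up H' O.dis) _ _ le_rfl, nt_rowL H (kap_lo H O.dis) _ _ le_rfl]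
    have e1 : nt X c κ ω U.toList base = f := by
      apply nt_congr
      intro x hx hE
      exact absurd hE (hUm x (mem_toList.1 hx)).2
    rw [e1, rowR_congr (Z := r.Z X c) (B' := fun i => decide (i ∈ B)) (fun i hi => by
        have h := m1 i (by omega)
        have h2 : decide (r.lb i ∈ ω) = (decide (i ∈ B) != r.o i) :=
          Bool.eq_iff_iff.2 (by rw [decide_eq_true_iff]; exact h)
        simp only [h2, hbool]),
      rowR_congr (Z := r'.Z X c) (B' := fun i => decide (i ∈ B')) (fun i hi => by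
        have h := m2 i (by omega)
        have h2 : decide (r'.lb i ∈ ω) = (decide (i ∈ B') != r'.o i) :=
          Bool.eq_iff_iff.2 (by rw [decide_eq_true_iff]; exact h)
        simp only [h2, hbool])]
    rw [hΦ]
    simp only
    congr 1
    apply nt_congr
    intro x hx hE
    obtain ⟨-, -, h3, h4⟩ := (hRm x).1 hx
    rw [hωd, mem_union, mem_union]
    constructor
    · rintro (h | h | h)
      · exact h
      · exfalso
        obtain ⟨i, hi, h'⟩ := mem_labs.1 (lset_sub _ _ _ h)
        exact h3 ((mem_rowL' H).2 ⟨i, hi, h'.symm⟩)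
      · exfalso
        obtain ⟨i, hi, h'⟩ := mem_labs.1 (lset_sub _ _ _ h)
        exact h4 ((mem_rowL' H').2 ⟨i, hi, h'.symm⟩)
    · intro h; exact Or.inl h
  -- hypotheses of the network theorem
  have t0 : ∀ i ≤ N, r.t i ≠ X.c0 := by
    intro i hi
    apply Env.ne_root
    have T := H.til i hi
    have T' := H'.til i hi
    have ho := O.o i hi
    cases h : r.o i
    · rw [h] at ho
      obtain ⟨l1, l2, l3, l4, l5⟩ := T'.tt ho
      rw [← O.st i hi, l5, plab_nxC, l2]
      exact T'.mem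
    · obtain ⟨l1, l2, l3, l4, l5⟩ := T.tt h
      rw [l4, plab_nxC, l1]
      exact T.mem
  have hol : ∀ i ≤ N, ∀ j ≤ N, r.ol i ≠ r.lb j := by
    intro i hi j hj h
    rw [ol_lower H' O hi] at h
    exact O.dis j hj i hi h.symm
  have hol' : ∀ i ≤ N, ∀ j ≤ N, r'.ol i ≠ r'.lb j := fun i hi j hj => (O.top i hi j hj).2
  obtain ⟨s1, s2, s3⟩ := row_S H H' (fun i hi m hm h => absurd h (O.dis i hi m hm)) hol κ hU a0 a1
  obtain ⟨s4, s5, s6⟩ := row_S (U := U) H' H (fun i hi m hm h => absurd h.symm (O.dis m hm i hi))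
    hol' κ (by rw [hU, union_comm]) b0 b1
  have key := exch_real s1 s4 (fun i hi => Z'_two O (by omega) (t0 i (by omega))
    (t1 i (by omega))) (Z_dis H H' O t0 t1) (- σ N) ⟨s2, s3⟩ ⟨s5, s6⟩ Φ ?_ a a'
  · simp only [main]
    exact key
  · intro g g' hg
    have hAw : ∀ y : En, (∀ i ≤ N, tl y ≠ r.lb i ∧ tl y ≠ r'.lb i) →
        y ∈ Aw (r.Z X c) (r'.Z X c) (N + 1) := by
      intro y hy i hi b hb
      have hi : i ≤ N := by omega
      constructor
      · intro h
        have := congrArg tl h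
        rw [tl_Z H hi hb] at this
        exact (hy i hi).1 this
      · intro h
        have := congrArg tl h
        rw [tl_Z H' hi hb] at this
        exact (hy i hi).2 this
    have hg2 : Eqv (Aw (r.Z X c) (r'.Z X c) (N + 1)) (nt X c κ ω0 R.toList g)
        (nt X c κ ω0 R.toList g') := by
      apply hg.gnet
      intro j hj
      obtain ⟨x, hx, rfl⟩ := List.mem_map.1 hj
      obtain ⟨hxS, -, h3, h4⟩ := (hRm x).1 hx
      have k3 : ∀ i ≤ N, lab x ≠ r.lb i ∧ lab x ≠ r'.lb i := fun i hi =>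
        ⟨fun h => h3 ((mem_rowL' H).2 ⟨i, hi, h⟩), fun h => h4 ((mem_rowL' H').2 ⟨i, hi, h⟩)⟩
      refine ⟨hAw (hd X c x) (fun i hi => k3 i hi), hAw (td (X.f ω0 x)) (fun i hi => ?_)⟩
      rw [tl_td]
      by_cases hE : lab x ∈ X.E
      · rw [Env.f_in hE, plab_nx]
        exact k3 i hi
      · rw [Env.f_out hxS hE]
        have := plab_out hxS hE
        exact ⟨fun h => this (h ▸ (H.til i hi).mem), fun h => this (h ▸ (H'.til i hi).mem)⟩
    have hend : (((X.c0, true), false) : En) ∈ Aw (r.Z X c) (r'.Z X c) (N + 1) := by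
      have hgen : ∀ (r : Rw) (i : ℕ) (b : Fin 5), b ≠ 4 →
          (((X.c0, true), false) : En) ≠ r.Z X c i b := by
        intro r i b hb h
        have h1 : ∀ x, (((X.c0, true), false) : En) ≠ hd X c x := fun x h => by
          have := congrArg Prod.snd h
          simp [hd] at this
        have h2 : ∀ x, (((X.c0, true), false) : En) ≠ td x := fun x h => by
          have := congrArg (fun y : En => y.1.2) h
          simp [td] at this
        unfold Rw.Z at h
        cases ho : r.o i
        · rw [ho] at h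
          fin_cases b
          · exact h2 _ h
          · exact h2 _ h
          · exact h1 _ h
          · exact h1 _ h
          · exact hb rfl
        · rw [ho] at h
          fin_cases b
          · exact h1 _ h
          · exact h1 _ h
          · exact h2 _ h
          · exact h2 _ h
          · exact hb rfl
      intro i hi b hb
      exact ⟨hgen r i b hb, hgen r' i b hb⟩
    obtain ⟨k1, k2⟩ := hg2.2 _ hend
    rw [hΦ]
    simp only
    unfold obs
    rw [k1, k2]

/-- **Exchange of two rows in an environment.** `r'` is the row above `r`; the parameters of the two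
rows (the weight of the state west-north, south-east) are exchanged; the increment across a corner
`c` which is neither on the two rows nor between them does not change. -/
theorem exchange_env {r r' : Rw} {N : ℕ} {σ : ℕ → ℤ} (H : r.Ok N X σ) (H' : r'.Ok N X σ)
    (O : Over r r' N) (a0 : r.Avoid N X X.c0) (a1 : r.Avoid N X c) (b0 : r'.Avoid N X X.c0)
    (b1 : r'.Avoid N X c) (t1 : ∀ i ≤ N, r.t i ≠ c) {a a' : ℂ} {q q' : ℤ × ℤ → ℂ}
    (q1 : ∀ i ≤ N, q (r.lb i) = if r.o i then 1 - a else a)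
    (q2 : ∀ i ≤ N, q (r'.lb i) = if r'.o i then 1 - a' else a')
    (q3 : ∀ i ≤ N, q' (r.lb i) = if r.o i then 1 - a' else a')
    (q4 : ∀ i ≤ N, q' (r'.lb i) = if r'.o i then 1 - a else a)
    (q5 : ∀ x ∈ X.E, (∀ i ≤ N, x ≠ r.lb i ∧ x ≠ r'.lb i) → q x = q' x) :
    X.incW q c = X.incW q' c := by
  by_cases hc : c = X.c0
  · have h0 : ∀ p : ℤ × ℤ → ℂ, X.incW p c = ph X.k0 := by
      intro p
      unfold Env.incW
      rw [Ec_congr (G := fun _ => ph X.k0) (fun ω hω => ?_), Ec_const]
      rw [Env.incO_of hω (Env.len_pos hω) (i := 0) (by rw [hc]; rfl), Env.K_zero]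
    rw [h0, h0]
  have hR : labs r N ∪ labs r' N ⊆ X.E := by
    intro x hx
    rcases mem_union.1 hx with h | h
    · obtain ⟨i, hi, h⟩ := mem_labs.1 h
      rw [← h]; exact (H.til i hi).mem
    · obtain ⟨i, hi, h⟩ := mem_labs.1 h
      rw [← h]; exact (H'.til i hi).mem
  have hdis : Disjoint (labs r N) (labs r' N) := by
    rw [Finset.disjoint_left]
    intro x h1 h2
    obtain ⟨i, hi, h3⟩ := mem_labs.1 h1
    obtain ⟨j, hj, h4⟩ := mem_labs.1 h2
    exact O.dis i hi j hj (h3.trans h4.symm)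
  have hsd : X.E \ (X.E \ (labs r N ∪ labs r' N)) = labs r N ∪ labs r' N := by
    rw [sdiff_sdiff_right_self]
    exact inf_eq_right.2 hR
  have inj1 : ∀ i ∈ range (N + 1), ∀ j ∈ range (N + 1), r.lb i = r.lb j → i = j :=
    fun i hi j hj h => H.inj i (by have := mem_range.1 hi; omega) j
      (by have := mem_range.1 hj; omega) h
  have inj2 : ∀ i ∈ range (N + 1), ∀ j ∈ range (N + 1), r'.lb i = r'.lb j → i = j :=
    fun i hi j hj h => H'.inj i (by have := mem_range.1 hi; omega) j
      (by have := mem_range.1 hj; omega) h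
  have key : ∀ (p : ℤ × ℤ → ℂ) (b b' : ℂ)
      (_ : ∀ i ≤ N, p (r.lb i) = if r.o i then 1 - b else b)
      (_ : ∀ i ≤ N, p (r'.lb i) = if r'.o i then 1 - b' else b'),
      X.incW p c = Ec p (X.E \ (labs r N ∪ labs r' N)) (fun ω0 =>
        Ec (fun _ => b) (range (N + 1)) (fun B => Ec (fun _ => b') (range (N + 1)) (fun B' =>
          X.incO (ω0 ∪ (lset r.lb r.o (range (N + 1)) B ∪
            lset r'.lb r'.o (range (N + 1)) B')) c))) := by
    intro p b b' p1 p2
    unfold Env.incW
    rw [Ec_split p (sdiff_subset (s := X.E) (t := labs r N ∪ labs r' N)), hsd]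
    refine Ec_congr fun ω0 _ => ?_
    rw [Ec_union p hdis]
    have e1 := Ec_image (q := p) (lb := r.lb) (o := r.o) (a := b) (range (N + 1)) inj1
      (fun i hi => p1 i (by have := mem_range.1 hi; omega))
      (fun ω1 => Ec p (labs r' N) (fun ω2 => X.incO (ω0 ∪ (ω1 ∪ ω2)) c))
    have e1' : Ec p (labs r N) (fun ω1 => Ec p (labs r' N)
        (fun ω2 => X.incO (ω0 ∪ (ω1 ∪ ω2)) c)) = _ := e1
    rw [e1']
    refine Ec_congr fun B _ => ?_
    exact Ec_image (q := p) (lb := r'.lb) (o := r'.o) (a := b') (range (N + 1)) inj2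
      (fun i hi => p2 i (by have := mem_range.1 hi; omega)) _
  rw [key q a a' q1 q2, key q' a' a q3 q4]
  rw [Ec_congr_q (q := q) (q' := q')]
  · refine Ec_congr fun ω0 hω0 => ?_
    exact exchange_fixed H H' O a0 a1 b0 b1 t1 hc hω0 a a'
  · intro x hx
    obtain ⟨h1, h2⟩ := mem_sdiff.1 hx
    rw [mem_union, not_or] at h2
    exact q5 x h1 (fun i hi => ⟨fun h => h2.1 (mem_labs.2 ⟨i, hi, h.symm⟩),
      fun h => h2.2 (mem_labs.2 ⟨i, hi, h.symm⟩)⟩)

end EX

end Pool.Agent.H64.Q1
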