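import Pool.Agent.H64.Q1.LPair

/-!
# Exchange of two rows

A row with parameter `a` acts on pairings: a horizontal line (with ends `u`, `v`) is drawn across
the columns; at every column the crossing is replaced by one of its two planar resolutions, with
weights `a` and `1 - a`; finally the ends `u` and `v` are joined. Two such rows commute.
-/

namespace Pool.Agent.H64.Q1

open LP

section Ring

variable {K A : Type*} [CommRing K] [Ring A] [Algebra K A]

/-- The Yang-Baxter equation from the relations between the words of length three. -/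
theorem ybe_ring (P12 P13 P23 E12 E13 E23 : A) (a1 b1 a2 b2 a3 b3 : K)
    (hc : a1 * b2 * a3 = b1 * a2 * a3 + a1 * a2 * b3 + b1 * a2 * b3 + b1 * b2 * b3)
    (r0 : P12 * P13 * P23 = P23 * P13 * P12)
    (rA : E12 * E13 * P23 = P23 * E13 * E12) (rB : P12 * E13 * E23 = E23 * E13 * P12)
    (x1 : E12 * P13 * P23 = P23 * E13 * P12) (x2 : P12 * P13 * E23 = P23 * E13 * P12)
    (x3 : E12 * P13 * E23 = P23 * E13 * P12) (x4 : E12 * E13 * E23 = P23 * E13 * P12)
    (y1 : P23 * P13 * E12 = P12 * E13 * P23) (y2 : E23 * P13 * P12 = P12 * E13 * P23)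
    (y3 : E23 * P13 * E12 = P12 * E13 * P23) (y4 : E23 * E13 * E12 = P12 * E13 * P23) :
    (a1 • P12 + b1 • E12) * (a2 • P13 + b2 • E13) * (a3 • P23 + b3 • E23) =
      (a3 • P23 + b3 • E23) * (a2 • P13 + b2 • E13) * (a1 • P12 + b1 • E12) := by
  simp only [mul_add, add_mul, smul_mul_assoc, mul_smul_comm, r0, rA, rB, x1, x2, x3, x4, y1, y2,
    y3, y4, smul_smul]
  linear_combination (norm := module) congrArg (fun t : K => t • (P12 * E13 * P23)) hc -
    congrArg (fun t : K => t • (P23 * E13 * P12)) hc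

/-- Abstract exchange: the train argument. -/
theorem train_ring {ι : Type*} (l : List ι) (L M : ι → A) (X Q Qm V Vm : A) (c : K)
    (hY : ∀ i ∈ l, Q * (L i * M i) = (M i * L i) * Q)
    (hQ : Q * Qm = c • 1) (hV : V * Vm = c • 1)
    (hX : Qm * X = Vm * X) (hX' : X * Q = X * V)
    (hVL : ∀ i ∈ l, V * L i = L i * V) (hVM : ∀ i ∈ l, V * M i = M i * V) :
    c • (X * (l.map fun i => L i * M i).prod * X) =
      c • (X * (l.map fun i => M i * L i).prod * X) := by
  have h1 : Q * (l.map fun i => L i * M i).prod = (l.map fun i => M i * L i).prod * Q := by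
    clear hVL hVM
    induction l with
    | nil => simp
    | cons i l ih => rw [List.map_cons, List.prod_cons, List.map_cons, List.prod_cons,
        ← mul_assoc, hY i List.mem_cons_self, mul_assoc,
        ih (fun j hj => hY j (List.mem_cons_of_mem _ hj)), ← mul_assoc]
  have h2 : V * (l.map fun i => L i * M i).prod = (l.map fun i => L i * M i).prod * V := by
    clear h1 hY
    induction l with
    | nil => simp
    | cons i l ih =>
      have e1 := hVL i List.mem_cons_self
      have e2 := hVM i List.mem_cons_self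
      have e3 := ih (fun j hj => hVL j (List.mem_cons_of_mem _ hj))
        (fun j hj => hVM j (List.mem_cons_of_mem _ hj))
      rw [List.map_cons, List.prod_cons, ← mul_assoc, ← mul_assoc V, e1,
        mul_assoc (L i) V, e2, mul_assoc, mul_assoc (M i), e3]
      simp only [mul_assoc]
  calc c • (X * (l.map fun i => L i * M i).prod * X)
      = X * (l.map fun i => L i * M i).prod * (V * Vm) * X := by
        rw [hV]; simp
    _ = X * (V * (l.map fun i => L i * M i).prod) * (Vm * X) := by
        rw [h2]; simp only [mul_assoc]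
    _ = (X * V) * (l.map fun i => L i * M i).prod * (Vm * X) := by simp only [mul_assoc]
    _ = X * (Q * (l.map fun i => L i * M i).prod) * (Qm * X) := by
        rw [← hX', ← hX]; simp only [mul_assoc]
    _ = X * (l.map fun i => M i * L i).prod * (Q * Qm) * X := by
        rw [h1]; simp only [mul_assoc]
    _ = c • (X * (l.map fun i => M i * L i).prod * X) := by
        rw [hQ]; simp

end Ring

section Ops

variable {K : Type*} [CommRing K] {V : Type*} [DecidableEq V]

/-- Pull back of functions of pairings. -/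
def pb (m : LP V → LP V) : Module.End K (LP V → K) := LinearMap.funLeft K K m

@[simp] theorem pb_apply (m : LP V → LP V) (Φ : LP V → K) (f : LP V) :
    (pb m : Module.End K (LP V → K)) Φ f = Φ (m f) := rfl

theorem pb_mul (m m' : LP V → LP V) :
    (pb m : Module.End K (LP V → K)) * pb m' = pb (m' ∘ m) := rfl

theorem pb_mul3 (m m' m'' : LP V → LP V) :
    (pb m : Module.End K (LP V → K)) * pb m' * pb m'' = pb (m'' ∘ m' ∘ m) := rfl

theorem pb_congr {m m' : LP V → LP V} (h : ∀ f, m f = m' f) :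
    (pb m : Module.End K (LP V → K)) = pb m' := by
  rw [funext h]

/-- The crossing of the line `u` with the column `c`. -/
def Rop (e : ℤ) (u c : V) (p q : K) : Module.End K (LP V → K) :=
  p • pb (sw u c) + q • pb (jn u c e e)

theorem ybe (e : ℤ) (x y z : V) (h1 : x ≠ y) (h2 : x ≠ z) (h3 : y ≠ z) (a1 b1 a2 b2 a3 b3 : K)
    (hc : a1 * b2 * a3 = b1 * a2 * a3 + a1 * a2 * b3 + b1 * a2 * b3 + b1 * b2 * b3) :
    Rop e x y a1 b1 * Rop e x z a2 b2 * Rop e y z a3 b3 =
      Rop e y z a3 b3 * Rop e x z a2 b2 * Rop e x y a1 b1 := by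
  unfold Rop
  apply ybe_ring _ _ _ _ _ _ _ _ _ _ _ _ hc
  · rw [pb_mul3, pb_mul3]
    exact pb_congr fun f => rPPP x y z f h1 h2 h3
  · rw [pb_mul3, pb_mul3]
    exact pb_congr fun f => (rA1 e x y z f h1 h2 h3).trans (rA2 e x y z f h1 h2 h3).symm
  · rw [pb_mul3, pb_mul3]
    exact pb_congr fun f => (rB1 e x y z f h1 h2 h3).trans (rB2 e x y z f h1 h2 h3).symm
  · rw [pb_mul3, pb_mul3]
    exact pb_congr fun f => rX1 e x y z f h1 h2 h3
  · rw [pb_mul3, pb_mul3]
    exact pb_congr fun f => rX2 e x y z f h1 h2 h3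
  · rw [pb_mul3, pb_mul3]
    exact pb_congr fun f => rX3 e x y z f h1 h2 h3
  · rw [pb_mul3, pb_mul3]
    exact pb_congr fun f => rX4 e x y z f h1 h2 h3
  · rw [pb_mul3, pb_mul3]
    exact pb_congr fun f => rY1 e x y z f h1 h2 h3
  · rw [pb_mul3, pb_mul3]
    exact pb_congr fun f => rY2 e x y z f h1 h2 h3
  · rw [pb_mul3, pb_mul3]
    exact pb_congr fun f => rY3 e x y z f h1 h2 h3
  · rw [pb_mul3, pb_mul3]
    exact pb_congr fun f => rY4 e x y z f h1 h2 h3

theorem Rop_Rop_neg (e : ℤ) (x y : V) (h : x ≠ y) (p q p' q' : K) :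
    Rop e x y p q * Rop (-e) x y p' q' =
      (p * p') • 1 + (p * q' + q * p' + q * q') • (pb (jn x y e e) * pb (sw x y)) := by
  have e1 : (pb (sw x y) : Module.End K (LP V → K)) * pb (sw x y) = 1 := by
    rw [pb_mul]
    ext Φ f
    simp [pb]
  have e2 : (pb (sw x y) : Module.End K (LP V → K)) * pb (jn x y (-e) (-e)) =
      pb (jn x y e e) * pb (sw x y) := by
    rw [pb_mul, pb_mul]
    refine pb_congr fun f => ?_
    simp only [Function.comp]
    rw [sw_jn, Equiv.swap_apply_left, Equiv.swap_apply_right, jn_comm y x e e _ h.symm]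
  have e4 : (pb (jn x y e e) : Module.End K (LP V → K)) * pb (jn x y (-e) (-e)) =
      pb (jn x y e e) * pb (sw x y) := by
    rw [pb_mul, pb_mul]
    refine pb_congr fun f => ?_
    exact jn_of_eq_neg (jn_left x y e e f h) (by rw [jn_d_left x y e e f h, neg_neg])
  unfold Rop
  simp only [mul_add, add_mul, smul_mul_assoc, mul_smul_comm, e1, e2, e4, smul_smul]
  module

theorem Rop_comm (e e' : ℤ) (x y z w : V) (p q p' q' : K) (h1 : x ≠ y) (h2 : x ≠ z) (h3 : x ≠ w)
    (h4 : y ≠ z) (h5 : y ≠ w) (h6 : z ≠ w) :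
    Rop e x y p q * Rop e' z w p' q' = Rop e' z w p' q' * Rop e x y p q := by
  have e1 : (pb (sw x y) : Module.End K (LP V → K)) * pb (sw z w) =
      pb (sw z w) * pb (sw x y) := by
    rw [pb_mul, pb_mul]
    exact pb_congr fun f => (sw_sw_comm x y z w f h2 h3 h4 h5).symm
  have e2 : (pb (sw x y) : Module.End K (LP V → K)) * pb (jn z w e' e') =
      pb (jn z w e' e') * pb (sw x y) := by
    rw [pb_mul, pb_mul]
    exact pb_congr fun f => (sw_jn_comm x y z w e' e' f h2 h3 h4 h5).symm
  have e3 : (pb (jn x y e e) : Module.End K (LP V → K)) * pb (sw z w) =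
      pb (sw z w) * pb (jn x y e e) := by
    rw [pb_mul, pb_mul]
    exact pb_congr fun f => sw_jn_comm z w x y e e f h2.symm h4.symm h3.symm h5.symm
  have e4 : (pb (jn x y e e) : Module.End K (LP V → K)) * pb (jn z w e' e') =
      pb (jn z w e' e') * pb (jn x y e e) := by
    rw [pb_mul, pb_mul]
    exact pb_congr fun f => (jn_jn x y z w e e e' e' f h1 h2 h3 h4 h5 h6).symm
  unfold Rop
  simp only [mul_add, add_mul, smul_mul_assoc, mul_smul_comm, e1, e2, e3, e4]
  module

theorem Rop_comm_jn (e τ κ : ℤ) (x y z w : V) (p q : K) (h1 : x ≠ y) (h2 : x ≠ z) (h3 : x ≠ w)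
    (h4 : y ≠ z) (h5 : y ≠ w) (h6 : z ≠ w) :
    Rop e x y p q * pb (jn z w τ κ) = pb (jn z w τ κ) * Rop e x y p q := by
  have e2 : (pb (sw x y) : Module.End K (LP V → K)) * pb (jn z w τ κ) =
      pb (jn z w τ κ) * pb (sw x y) := by
    rw [pb_mul, pb_mul]
    exact pb_congr fun f => (sw_jn_comm x y z w τ κ f h2 h3 h4 h5).symm
  have e4 : (pb (jn x y e e) : Module.End K (LP V → K)) * pb (jn z w τ κ) =
      pb (jn z w τ κ) * pb (jn x y e e) := by
    rw [pb_mul, pb_mul]
    exact pb_congr fun f => (jn_jn x y z w e e τ κ f h1 h2 h3 h4 h5 h6).symm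
  unfold Rop
  simp only [mul_add, add_mul, smul_mul_assoc, mul_smul_comm, e2, e4]

/-- The row: the line `u` crosses the columns of the list `l`, then it is joined with `v`. -/
def Row (e τ κ : ℤ) (u v : V) (l : List V) (a : K) : Module.End K (LP V → K) :=
  (l.map fun c => Rop e u c a (1 - a)).prod * pb (jn u v τ κ)

section Two

variable (e τ κ : ℤ) {u v u' v' : V} (n1 : u ≠ v) (n2 : u ≠ u') (n3 : u ≠ v') (n4 : v ≠ u')
  (n5 : v ≠ v') (n6 : u' ≠ v')

/-- The double join at the ends of two rows. -/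
def XX (τ κ : ℤ) (u v u' v' : V) : Module.End K (LP V → K) :=
  pb (jn u v τ κ) * pb (jn u' v' τ κ)

include n1 n2 n3 n4 n5 n6

theorem XX_left (f : LP V) : jn u' v' τ κ (jn u v τ κ f) u = v := by
  rw [jn_jn u' v' u v _ _ _ _ f n6 n2.symm n4.symm n3.symm n5.symm n1, jn_left _ _ _ _ _ n1]

theorem XX_left_d (f : LP V) : (jn u' v' τ κ (jn u v τ κ f)).d u = κ := by
  rw [jn_jn u' v' u v _ _ _ _ f n6 n2.symm n4.symm n3.symm n5.symm n1, jn_d_left _ _ _ _ _ n1]

omit n1 n2 n3 n4 n5 n6 in
theorem eq_of_fix {f : LP V} (h : f u = v) (h' : f u' = v') (hd : f.d u = κ)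
    (hd' : f.d u' = κ) : jn u' v' τ κ (jn u v τ κ f) = f := by
  rw [jn_of_eq h hd, jn_of_eq h' hd']

theorem sw_slide {g : LP V} (h : g u = v) (h' : g u' = v') (hd : g.d u = g.d u') :
    sw u u' g = sw v v' g := by
  have k : g v = u := by rw [← h]; simp
  have k' : g v' = u' := by rw [← h']; simp
  have l : g.d v = - g.d u := by rw [← h]; simp
  have l' : g.d v' = - g.d u' := by rw [← h']; simp
  apply ext
  · intro t
    unfold sw
    rw [ren_apply, ren_apply, Equiv.symm_swap, Equiv.symm_swap]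
    have i1 := g.invol t
    simp only [Equiv.swap_apply_def]
    grind
  · intro t
    unfold sw
    rw [ren_d, ren_d, Equiv.symm_swap, Equiv.symm_swap]
    simp only [Equiv.swap_apply_def]
    grind

theorem jn_slide {g : LP V} (h : g u = v) (h' : g u' = v') (hd : g.d u = g.d u') :
    jn u u' e e g = jn v v' e e g := by
  have k : g v = u := by rw [← h]; simp
  have k' : g v' = u' := by rw [← h']; simp
  have l : g.d v = - g.d u := by rw [← h]; simp
  have l' : g.d v' = - g.d u' := by rw [← h']; simp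
  apply ext
  · intro t
    rw [jn_apply u u' e e g n2, jn_apply v v' e e g n5, h, k, h', k']
    grind
  · intro t
    rw [jn_d u u' e e g n2, jn_d v v' e e g n5, h, k, h', k', l, l', hd]
    grind

theorem ren_tau {g : LP V} (h : g u = v) (h' : g u' = v') (hd : g.d u = g.d u') :
    ren (Equiv.swap u u' * Equiv.swap v v') g = g := by
  rw [ren_mul]
  change sw u u' (sw v v' g) = g
  rw [← sw_slide n1 n2 n3 n4 n5 n6 h h' hd, sw_sw]

theorem X_sw (f : LP V) : jn u' v' τ κ (jn u v τ κ (sw u u' f)) =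
    jn u' v' τ κ (jn u v τ κ (sw v v' f)) := by
  have e1 : jn u' v' τ κ (jn u v τ κ (sw u u' f)) =
      sw u u' (jn u v' τ κ (jn u' v τ κ f)) := by
    rw [sw_jn, sw_jn]
    simp only [Equiv.swap_apply_left, Equiv.swap_apply_right,
      Equiv.swap_apply_of_ne_of_ne n1.symm n4, Equiv.swap_apply_of_ne_of_ne n3.symm n6.symm]
  have e2 : jn u' v' τ κ (jn u v τ κ (sw v v' f)) =
      sw v v' (jn u' v τ κ (jn u v' τ κ f)) := by
    rw [sw_jn, sw_jn]
    simp only [Equiv.swap_apply_left, Equiv.swap_apply_right,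
      Equiv.swap_apply_of_ne_of_ne n1 n3, Equiv.swap_apply_of_ne_of_ne n4.symm n6]
  rw [e1, e2, jn_jn u' v u v' _ _ _ _ f n4.symm n2.symm n6 n1.symm n5 n3]
  have hu : jn u v' τ κ (jn u' v τ κ f) u = v' := jn_left _ _ _ _ _ n3
  have hdu : (jn u v' τ κ (jn u' v τ κ f)).d u = κ := jn_d_left _ _ _ _ _ n3
  have hu' : jn u v' τ κ (jn u' v τ κ f) u' = v := by
    rw [← jn_jn u' v u v' _ _ _ _ f n4.symm n2.symm n6 n1.symm n5 n3, jn_left _ _ _ _ _ n4.symm]
  have hdu' : (jn u v' τ κ (jn u' v τ κ f)).d u' = κ := by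
    rw [← jn_jn u' v u v' _ _ _ _ f n4.symm n2.symm n6 n1.symm n5 n3,
      jn_d_left _ _ _ _ _ n4.symm]
  rw [sw_comm v v']
  exact sw_slide n3 n2 n1 n6.symm n5.symm n4.symm hu hu' (hdu.trans hdu'.symm)

/-- Closing both lines when `u` and `u'` are already connected. -/
theorem T_left {g : LP V} (h : g u = u') (hd : g.d u = e) (t : V) (t1 : t ≠ u) (t2 : t ≠ v)
    (t3 : t ≠ u') (t4 : t ≠ v') :
    jn u' v' τ κ (jn u v τ κ g) t = jn v v' e e g t ∧
    (jn u' v' τ κ (jn u v τ κ g)).d t = (jn v v' e e g).d t := by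
  have k : g u' = u := by rw [← h]; simp
  have l : g.d u' = - e := by rw [← h, g.anti, hd]
  have i1 := g.invol v
  have i2 := g.invol v'
  have i3 := g.invol t
  have a1 := jn_apply u v τ κ g n1 u'
  have a2 := jn_apply u v τ κ g n1 v'
  have a3 := jn_apply u v τ κ g n1 t
  have b1 := jn_d u v τ κ g n1 u'
  have b2 := jn_d u v τ κ g n1 v'
  have b3 := jn_d u v τ κ g n1 t
  have c1 := g.anti v
  have c2 := g.anti v'
  have m1 := g.ne v
  have m2 := g.ne v'
  constructor
  · rw [jn_apply u' v' τ κ (jn u v τ κ g) n6, jn_apply v v' e e g n5]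
    generalize jn u v τ κ g u' = g1 at *
    generalize jn u v τ κ g v' = g2 at *
    generalize jn u v τ κ g t = g3 at *
    clear b1 b2 b3 c1 c2 l hd
    grind (splits := 30)
  · rw [jn_d u' v' τ κ (jn u v τ κ g) n6, jn_d v v' e e g n5]
    generalize jn u v τ κ g u' = g1 at *
    generalize jn u v τ κ g v' = g2 at *
    generalize (jn u v τ κ g).d u' = h1 at *
    generalize (jn u v τ κ g).d v' = h2 at *
    generalize (jn u v τ κ g).d t = h3 at *
    grind (splits := 30)

/-- Closing both lines when `v` and `v'` are already connected. -/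
theorem T_right {g : LP V} (h : g v = v') (hd : g.d v = e) (t : V) (t1 : t ≠ u) (t2 : t ≠ v)
    (t3 : t ≠ u') (t4 : t ≠ v') :
    jn u' v' τ κ (jn u v τ κ g) t = jn u u' e e g t ∧
    (jn u' v' τ κ (jn u v τ κ g)).d t = (jn u u' e e g).d t := by
  have k : g v' = v := by rw [← h]; simp
  have l : g.d v' = - e := by rw [← h, g.anti, hd]
  have i1 := g.invol u
  have i2 := g.invol u'
  have i3 := g.invol t
  have a1 := jn_apply u v τ κ g n1 u'
  have a2 := jn_apply u v τ κ g n1 v'
  have a3 := jn_apply u v τ κ g n1 t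
  have b1 := jn_d u v τ κ g n1 u'
  have b2 := jn_d u v τ κ g n1 v'
  have b3 := jn_d u v τ κ g n1 t
  have c1 := g.anti u
  have c2 := g.anti u'
  have m1 := g.ne u
  have m2 := g.ne u'
  constructor
  · rw [jn_apply u' v' τ κ (jn u v τ κ g) n6, jn_apply u u' e e g n2]
    generalize jn u v τ κ g u' = g1 at *
    generalize jn u v τ κ g v' = g2 at *
    generalize jn u v τ κ g t = g3 at *
    clear b1 b2 b3 c1 c2 l hd
    grind (splits := 30)
  · rw [jn_d u' v' τ κ (jn u v τ κ g) n6, jn_d u u' e e g n2]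
    generalize jn u v τ κ g u' = g1 at *
    generalize jn u v τ κ g v' = g2 at *
    generalize (jn u v τ κ g).d u' = h1 at *
    generalize (jn u v τ κ g).d v' = h2 at *
    generalize (jn u v τ κ g).d t = h3 at *
    grind (splits := 30)

theorem XX_ext {g g' : LP V}
    (H : ∀ t, t ≠ u → t ≠ v → t ≠ u' → t ≠ v' →
      jn u' v' τ κ (jn u v τ κ g) t = jn u' v' τ κ (jn u v τ κ g') t ∧
      (jn u' v' τ κ (jn u v τ κ g)).d t = (jn u' v' τ κ (jn u v τ κ g')).d t) :
    jn u' v' τ κ (jn u v τ κ g) = jn u' v' τ κ (jn u v τ κ g') := by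
  have hu : ∀ f : LP V, jn u' v' τ κ (jn u v τ κ f) v = u := fun f => by
    rw [eq_iff, XX_left τ κ n1 n2 n3 n4 n5 n6]
  have hd : ∀ f : LP V, (jn u' v' τ κ (jn u v τ κ f)).d v = -κ := fun f => by
    have h := (jn u' v' τ κ (jn u v τ κ f)).anti u
    rw [XX_left τ κ n1 n2 n3 n4 n5 n6 f, XX_left_d τ κ n1 n2 n3 n4 n5 n6 f] at h
    exact h
  apply ext
  · intro t
    by_cases t1 : t = u
    · rw [t1, XX_left τ κ n1 n2 n3 n4 n5 n6, XX_left τ κ n1 n2 n3 n4 n5 n6]
    by_cases t2 : t = v
    · rw [t2, hu, hu]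
    by_cases t3 : t = u'
    · rw [t3, jn_left _ _ _ _ _ n6, jn_left _ _ _ _ _ n6]
    by_cases t4 : t = v'
    · rw [t4, jn_right _ _ _ _ _ n6, jn_right _ _ _ _ _ n6]
    exact (H t t1 t2 t3 t4).1
  · intro t
    by_cases t1 : t = u
    · rw [t1, XX_left_d τ κ n1 n2 n3 n4 n5 n6, XX_left_d τ κ n1 n2 n3 n4 n5 n6]
    by_cases t2 : t = v
    · rw [t2, hd, hd]
    by_cases t3 : t = u'
    · rw [t3, jn_d_left _ _ _ _ _ n6, jn_d_left _ _ _ _ _ n6]
    by_cases t4 : t = v'
    · rw [t4, jn_d_right _ _ _ _ _ n6, jn_d_right _ _ _ _ _ n6]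
    exact (H t t1 t2 t3 t4).2

theorem X_jn (f : LP V) : jn u' v' τ κ (jn u v τ κ (jn u u' e e f)) =
    jn u' v' τ κ (jn u v τ κ (jn v v' e e f)) := by
  apply XX_ext τ κ n1 n2 n3 n4 n5 n6
  intro t t1 t2 t3 t4
  have h1 := T_left e τ κ n1 n2 n3 n4 n5 n6 (jn_left u u' e e f n2) (jn_d_left u u' e e f n2)
    t t1 t2 t3 t4
  have h2 := T_right e τ κ n1 n2 n3 n4 n5 n6 (jn_left v v' e e f n5) (jn_d_left v v' e e f n5)
    t t1 t2 t3 t4
  rw [h1.1, h1.2, h2.1, h2.2, jn_jn v v' u u' _ _ _ _ f n5 n1.symm n4 n3.symm n6.symm n2]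
  exact ⟨rfl, rfl⟩

theorem XX_mul_Rop (p q : K) :
    (XX τ κ u v u' v' : Module.End K (LP V → K)) * Rop e u u' p q =
    XX τ κ u v u' v' * Rop e v v' p q := by
  have e1 : (pb (jn u v τ κ) : Module.End K (LP V → K)) * pb (jn u' v' τ κ) * pb (sw u u') =
      pb (jn u v τ κ) * pb (jn u' v' τ κ) * pb (sw v v') := by
    rw [pb_mul3, pb_mul3]
    exact pb_congr fun f => sw_slide n1 n2 n3 n4 n5 n6 (XX_left τ κ n1 n2 n3 n4 n5 n6 f)
      (jn_left _ _ _ _ _ n6) ((XX_left_d τ κ n1 n2 n3 n4 n5 n6 f).trans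
        (jn_d_left _ _ _ _ _ n6).symm)
  have e2 : (pb (jn u v τ κ) : Module.End K (LP V → K)) * pb (jn u' v' τ κ) *
      pb (jn u u' e e) = pb (jn u v τ κ) * pb (jn u' v' τ κ) * pb (jn v v' e e) := by
    rw [pb_mul3, pb_mul3]
    exact pb_congr fun f => jn_slide e n1 n2 n3 n4 n5 n6 (XX_left τ κ n1 n2 n3 n4 n5 n6 f)
      (jn_left _ _ _ _ _ n6) ((XX_left_d τ κ n1 n2 n3 n4 n5 n6 f).trans
        (jn_d_left _ _ _ _ _ n6).symm)
  unfold XX Rop
  simp only [mul_add, mul_smul_comm, e1, e2]

theorem Rop_mul_XX (p q : K) :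
    Rop e u u' p q * (XX τ κ u v u' v' : Module.End K (LP V → K)) =
    Rop e v v' p q * XX τ κ u v u' v' := by
  have e1 : (pb (sw u u') : Module.End K (LP V → K)) * (pb (jn u v τ κ) * pb (jn u' v' τ κ)) =
      pb (sw v v') * (pb (jn u v τ κ) * pb (jn u' v' τ κ)) := by
    rw [← mul_assoc, ← mul_assoc, pb_mul3, pb_mul3]
    exact pb_congr fun f => X_sw τ κ n1 n2 n3 n4 n5 n6 f
  have e2 : (pb (jn u u' e e) : Module.End K (LP V → K)) *
      (pb (jn u v τ κ) * pb (jn u' v' τ κ)) =
      pb (jn v v' e e) * (pb (jn u v τ κ) * pb (jn u' v' τ κ)) := by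
    rw [← mul_assoc, ← mul_assoc, pb_mul3, pb_mul3]
    exact pb_congr fun f => X_jn e τ κ n1 n2 n3 n4 n5 n6 f
  unfold XX Rop
  simp only [add_mul, smul_mul_assoc, e1, e2]

/-- The train argument for two rows. -/
theorem exchange_alg (l : List V) (hl : ∀ c ∈ l, c ≠ u ∧ c ≠ v ∧ c ≠ u' ∧ c ≠ v') (a a' : K) :
    ((1 - a + a * a') * (1 - a' + a * a')) •
      ((XX τ κ u v u' v' : Module.End K (LP V → K)) *
        (l.map fun c => Rop e u c a (1 - a) * Rop e u' c a' (1 - a')).prod *
          XX τ κ u v u' v') =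
    ((1 - a + a * a') * (1 - a' + a * a')) •
      (XX τ κ u v u' v' *
        (l.map fun c => Rop e u' c a' (1 - a') * Rop e u c a (1 - a)).prod *
        XX τ κ u v u' v') := by
  apply train_ring l (fun c => Rop e u c a (1 - a)) (fun c => Rop e u' c a' (1 - a'))
    (XX τ κ u v u' v')
    (Rop e u u' (1 - a' + a * a') (a' - a)) (Rop (-e) u u' (1 - a + a * a') (a - a'))
    (Rop e v v' (1 - a' + a * a') (a' - a)) (Rop (-e) v v' (1 - a + a * a') (a - a'))
  · intro c hc
    obtain ⟨c1, c2, c3, c4⟩ := hl c hc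
    have := ybe e u u' c n2 c1.symm c3.symm (1 - a' + a * a') (a' - a) a (1 - a) a' (1 - a')
      (by ring)
    rw [← mul_assoc]
    exact this
  · rw [Rop_Rop_neg e u u' n2]
    have h0 : (1 - a' + a * a') * (a - a') + (a' - a) * (1 - a + a * a') +
      (a' - a) * (a - a') = 0 := by ring
    rw [h0, zero_smul, add_zero, mul_comm]
  · rw [Rop_Rop_neg e v v' n5]
    have h0 : (1 - a' + a * a') * (a - a') + (a' - a) * (1 - a + a * a') +
      (a' - a) * (a - a') = 0 := by ring
    rw [h0, zero_smul, add_zero, mul_comm]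
  · exact Rop_mul_XX (-e) τ κ n1 n2 n3 n4 n5 n6 _ _
  · exact XX_mul_Rop e τ κ n1 n2 n3 n4 n5 n6 _ _
  · intro c hc
    obtain ⟨c1, c2, c3, c4⟩ := hl c hc
    exact Rop_comm e e v v' u c _ _ _ _ n5 n1.symm c2.symm n3.symm c4.symm c1.symm
  · intro c hc
    obtain ⟨c1, c2, c3, c4⟩ := hl c hc
    exact Rop_comm e e v v' u' c _ _ _ _ n5 n4 c2.symm n6.symm c4.symm c3.symm

/-- Two rows, regrouped by columns. -/
theorem Row_mul_Row (l : List V) (hnd : l.Nodup)
    (hl : ∀ c ∈ l, c ≠ u ∧ c ≠ v ∧ c ≠ u' ∧ c ≠ v') (a a' : K) :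
    (Row e τ κ u v l a * Row e τ κ u' v' l a' : Module.End K (LP V → K)) =
      (l.map fun c => Rop e u c a (1 - a) * Rop e u' c a' (1 - a')).prod *
        XX τ κ u v u' v' := by
  have h1 : (pb (jn u v τ κ) : Module.End K (LP V → K)) *
      (l.map fun c => Rop e u' c a' (1 - a')).prod =
      (l.map fun c => Rop e u' c a' (1 - a')).prod * pb (jn u v τ κ) := by
    clear hnd
    induction l with
    | nil => simp
    | cons c l ih =>
      obtain ⟨c1, c2, c3, c4⟩ := hl c List.mem_cons_self
      rw [List.map_cons, List.prod_cons, ← mul_assoc,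
        ← Rop_comm_jn e τ κ u' c u v _ _ c3.symm n2.symm n4.symm c1 c2 n1, mul_assoc,
        ih (fun d hd => hl d (List.mem_cons_of_mem _ hd)), mul_assoc]
  have h2 : (l.map fun c => (Rop e u c a (1 - a) : Module.End K (LP V → K))).prod *
      (l.map fun c => Rop e u' c a' (1 - a')).prod =
      (l.map fun c => Rop e u c a (1 - a) * Rop e u' c a' (1 - a')).prod := by
    clear h1
    induction l with
    | nil => simp
    | cons c l ih =>
      obtain ⟨c1, c2, c3, c4⟩ := hl c List.mem_cons_self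
      rw [List.nodup_cons] at hnd
      have h3 : (l.map fun c => (Rop e u c a (1 - a) : Module.End K (LP V → K))).prod *
          Rop e u' c a' (1 - a') = Rop e u' c a' (1 - a') *
            (l.map fun c => Rop e u c a (1 - a)).prod := by
        have hcl := hnd.1
        have hl' : ∀ d ∈ l, d ≠ u ∧ d ≠ v ∧ d ≠ u' ∧ d ≠ v' :=
          fun d hd => hl d (List.mem_cons_of_mem _ hd)
        clear ih hnd hl
        induction l with
        | nil => simp
        | cons d l ih =>
          obtain ⟨d1, d2, d3, d4⟩ := hl' d List.mem_cons_self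
          have hcd : c ≠ d := fun h => hcl (h ▸ List.mem_cons_self)
          rw [List.map_cons, List.prod_cons, mul_assoc,
            ih (fun h => hcl (List.mem_cons_of_mem _ h))
              (fun e he => hl' e (List.mem_cons_of_mem _ he)), ← mul_assoc,
            Rop_comm e e u d u' c _ _ _ _ d1.symm n2 c1.symm d3 hcd.symm c3.symm, mul_assoc]
      simp only [List.map_cons, List.prod_cons]
      rw [← ih hnd.2 (fun d hd => hl d (List.mem_cons_of_mem _ hd)), mul_assoc,
        ← mul_assoc _ (Rop e u' c a' (1 - a')), h3]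
      simp only [mul_assoc]
  unfold Row XX
  rw [mul_assoc, ← mul_assoc (pb (jn u v τ κ)), h1, ← h2]
  simp only [mul_assoc]

end Two

section Sums

open Finset

/-- The crossings of the line `u` with the columns of `l`, resolved by `T`. -/
def steps (e : ℤ) (u : V) (l : List V) (T : Finset V) (f : LP V) : LP V :=
  l.foldl (fun g c => if c ∈ T then sw u c g else jn u c e e g) f

@[simp] theorem steps_nil (e : ℤ) (u : V) (T : Finset V) (f : LP V) :
    steps e u [] T f = f := rfl

theorem steps_cons (e : ℤ) (u c : V) (l : List V) (T : Finset V) (f : LP V) :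
    steps e u (c :: l) T f = steps e u l T (if c ∈ T then sw u c f else jn u c e e f) := rfl

/-- One row, resolved by `T`. -/
def rowm (e τ κ : ℤ) (u v : V) (l : List V) (T : Finset V) (f : LP V) : LP V :=
  jn u v τ κ (steps e u l T f)

/-- The weight of the resolution `T`. -/
def wt (a : K) (C T : Finset V) : K := ∏ c ∈ C, if c ∈ T then a else 1 - a

theorem steps_congr (e : ℤ) (u : V) (l : List V) (T T' : Finset V)
    (h : ∀ c ∈ l, c ∈ T ↔ c ∈ T') (f : LP V) : steps e u l T f = steps e u l T' f := by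
  induction l generalizing f with
  | nil => rfl
  | cons c l ih =>
    rw [steps_cons, steps_cons, ih (fun d hd => h d (List.mem_cons_of_mem _ hd))]
    simp only [h c List.mem_cons_self]

theorem prod_apply (e : ℤ) (u : V) (l : List V) (hnd : l.Nodup) (a : K)
    (Y : Module.End K (LP V → K)) (Φ : LP V → K) (f : LP V) :
    ((l.map fun c => Rop e u c a (1 - a)).prod * Y) Φ f =
      ∑ T ∈ l.toFinset.powerset, wt a l.toFinset T * Y Φ (steps e u l T f) := by
  induction l generalizing f with
  | nil => simp [wt]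
  | cons c l ih =>
    rw [List.nodup_cons] at hnd
    have hc : c ∉ l.toFinset := by simpa using hnd.1
    rw [List.map_cons, List.prod_cons, mul_assoc, List.toFinset_cons,
      Finset.sum_powerset_insert hc]
    have e0 : ∀ g, (Rop e u c a (1 - a) *
        ((l.map fun c => Rop e u c a (1 - a)).prod * Y)) Φ g =
        a * (((l.map fun c => Rop e u c a (1 - a)).prod * Y) Φ (sw u c g)) +
        (1 - a) * (((l.map fun c => Rop e u c a (1 - a)).prod * Y) Φ (jn u c e e g)) := by
      intro g
      rfl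
    rw [e0, ih hnd.2, ih hnd.2, add_comm, Finset.mul_sum, Finset.mul_sum]
    congr 1
    · apply Finset.sum_congr rfl
      intro T hT
      have hcT : c ∉ T := fun h => hc (Finset.mem_powerset.1 hT h)
      rw [steps_cons, if_neg hcT]
      unfold wt
      rw [Finset.prod_insert hc, if_neg hcT]
      ring
    · apply Finset.sum_congr rfl
      intro T hT
      have hcT : c ∉ T := fun h => hc (Finset.mem_powerset.1 hT h)
      rw [steps_cons, if_pos (Finset.mem_insert_self c T)]
      have e1 : wt a (insert c l.toFinset) (insert c T) = a * wt a l.toFinset T := by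
        unfold wt
        rw [Finset.prod_insert hc, if_pos (Finset.mem_insert_self c T)]
        congr 1
        apply Finset.prod_congr rfl
        intro d hd
        have hdc : d ≠ c := fun h => hc (h ▸ hd)
        simp [Finset.mem_insert, hdc]
      have e2 : steps e u l (insert c T) (sw u c f) = steps e u l T (sw u c f) := by
        apply steps_congr
        intro d hd
        have hdc : d ≠ c := by
          rintro rfl
          exact hnd.1 hd
        simp [Finset.mem_insert, hdc]
      rw [e1, e2]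
      ring

theorem Row_apply (e τ κ : ℤ) (u v : V) (l : List V) (hnd : l.Nodup) (a : K) (Φ : LP V → K)
    (f : LP V) : Row e τ κ u v l a Φ f =
      ∑ T ∈ l.toFinset.powerset, wt a l.toFinset T * Φ (rowm e τ κ u v l T f) := by
  unfold Row
  rw [prod_apply e u l hnd]
  rfl

theorem Row2_apply (e τ κ : ℤ) (u v u' v' : V) (l : List V) (hnd : l.Nodup) (a a' : K)
    (Φ : LP V → K) (f : LP V) : (Row e τ κ u v l a * Row e τ κ u' v' l a') Φ f =
      ∑ T ∈ l.toFinset.powerset, ∑ T' ∈ l.toFinset.powerset,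
        wt a l.toFinset T * wt a' l.toFinset T' *
          Φ (rowm e τ κ u' v' l T' (rowm e τ κ u v l T f)) := by
  have h : (Row e τ κ u v l a * Row e τ κ u' v' l a') Φ f =
    Row e τ κ u v l a (Row e τ κ u' v' l a' Φ) f := rfl
  rw [h, Row_apply e τ κ u v l hnd]
  apply Finset.sum_congr rfl
  intro T _
  rw [Row_apply e τ κ u' v' l hnd, Finset.mul_sum]
  apply Finset.sum_congr rfl
  intro T' _
  ring

theorem ren_steps (e : ℤ) (s : Equiv.Perm V) (u : V) (l : List V) (hs : ∀ c ∈ l, s c = c)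
    (T : Finset V) (f : LP V) : ren s (steps e u l T f) = steps e (s u) l T (ren s f) := by
  induction l generalizing f with
  | nil => rfl
  | cons c l ih =>
    rw [steps_cons, steps_cons, ih (fun d hd => hs d (List.mem_cons_of_mem _ hd))]
    congr 1
    have hc := hs c List.mem_cons_self
    split_ifs
    · unfold sw
      rw [← ren_mul, ← ren_mul]
      congr 1
      rw [Equiv.mul_swap_eq_swap_mul, hc]
    · rw [ren_jn, hc]

theorem ren_rowm (e τ κ : ℤ) (s : Equiv.Perm V) (u v : V) (l : List V)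
    (hs : ∀ c ∈ l, s c = c) (T : Finset V) (f : LP V) :
    ren s (rowm e τ κ u v l T f) = rowm e τ κ (s u) (s v) l T (ren s f) := by
  unfold rowm
  rw [ren_jn, ren_steps e s u l hs]

theorem steps_fix (e : ℤ) {u x y : V} (l : List V) (hxy : x ≠ y) (hux : u ≠ x) (huy : u ≠ y)
    (hx : ∀ c ∈ l, c ≠ x) (hy : ∀ c ∈ l, c ≠ y) (T : Finset V) {f : LP V} (h : f x = y) :
    steps e u l T f x = y ∧ (steps e u l T f).d x = f.d x := by
  induction l generalizing f with
  | nil => exact ⟨h, rfl⟩
  | cons c l ih =>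
    have hcx := hx c List.mem_cons_self
    have hcy := hy c List.mem_cons_self
    have k : f y = x := by rw [← h]; simp
    have key : (if c ∈ T then sw u c f else jn u c e e f) x = y ∧
        (if c ∈ T then sw u c f else jn u c e e f).d x = f.d x := by
      split_ifs
      · unfold sw
        rw [ren_apply, ren_d, Equiv.symm_swap,
          Equiv.swap_apply_of_ne_of_ne hux.symm hcx.symm, h,
          Equiv.swap_apply_of_ne_of_ne huy.symm hcy.symm]
        exact ⟨rfl, rfl⟩
      · have h1 : x ≠ f u := fun e => huy.symm (by rw [← h, e]; simp)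
        have h2 : x ≠ f c := fun e => hcy.symm (by rw [← h, e]; simp)
        by_cases huc : u = c
        · subst huc
          unfold jn
          rw [dif_pos rfl]
          exact ⟨h, rfl⟩
        · rw [jn_apply u c _ _ f huc, jn_d u c _ _ f huc, if_neg hux.symm, if_neg hcx.symm,
            if_neg h1, if_neg h2, if_neg hux.symm, if_neg hcx.symm, if_neg h1, if_neg h2, h]
          exact ⟨rfl, rfl⟩
    rw [steps_cons]
    have := ih (fun d hd => hx d (List.mem_cons_of_mem _ hd))
      (fun d hd => hy d (List.mem_cons_of_mem _ hd)) key.1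
    exact ⟨this.1, this.2.trans key.2⟩

/-- **Exchange of two rows.** -/
theorem exchange (e τ κ : ℤ) (u v u' v' : V) (n1 : u ≠ v) (n2 : u ≠ u') (n3 : u ≠ v')
    (n4 : v ≠ u') (n5 : v ≠ v') (n6 : u' ≠ v') (l : List V) (hnd : l.Nodup)
    (hl : ∀ c ∈ l, c ≠ u ∧ c ≠ v ∧ c ≠ u' ∧ c ≠ v') (a a' : ℂ) (Φ : LP V → ℂ) (f : LP V)
    (hf : f u = v) (hf' : f u' = v') (hd : f.d u = κ) (hd' : f.d u' = κ) :
    ∑ T ∈ l.toFinset.powerset, ∑ T' ∈ l.toFinset.powerset,
        wt a l.toFinset T * wt a' l.toFinset T' *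
          Φ (rowm e τ κ u' v' l T' (rowm e τ κ u v l T f)) =
    ∑ T ∈ l.toFinset.powerset, ∑ T' ∈ l.toFinset.powerset,
        wt a' l.toFinset T * wt a l.toFinset T' *
          Φ (rowm e τ κ u' v' l T' (rowm e τ κ u v l T f)) := by
  have hX : ∀ Θ : LP V → ℂ, (XX τ κ u v u' v' : Module.End ℂ (LP V → ℂ)) Θ f = Θ f := by
    intro Θ
    change Θ (jn u' v' τ κ (jn u v τ κ f)) = Θ f
    rw [eq_of_fix τ κ hf hf' hd hd']
  have hcomm : XX τ κ u' v' u v = (XX τ κ u v u' v' : Module.End ℂ (LP V → ℂ)) := by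
    unfold XX
    rw [pb_mul, pb_mul]
    exact pb_congr fun f => jn_jn u v u' v' _ _ _ _ f n1 n2 n3 n4 n5 n6
  have key : ∀ a a' : ℂ, ((1 - a + a * a') * (1 - a' + a * a')) *
      ((Row e τ κ u v l a * Row e τ κ u' v' l a') Φ f) =
      ((1 - a + a * a') * (1 - a' + a * a')) *
      ((Row e τ κ u' v' l a' * Row e τ κ u v l a) Φ f) := by
    intro a a'
    have h := exchange_alg (K := ℂ) e τ κ n1 n2 n3 n4 n5 n6 l hl a a'
    have h' := congrFun (congrArg (fun A : Module.End ℂ (LP V → ℂ) => A Φ) h) f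
    rw [Row_mul_Row e τ κ n1 n2 n3 n4 n5 n6 l hnd hl,
      Row_mul_Row e τ κ n6 n2.symm n4.symm n3.symm n5.symm n1 l hnd
        (fun c hc => ⟨(hl c hc).2.2.1, (hl c hc).2.2.2, (hl c hc).1, (hl c hc).2.1⟩), hcomm]
    have e1 : ∀ B : Module.End ℂ (LP V → ℂ),
        ((XX τ κ u v u' v' : Module.End ℂ (LP V → ℂ)) * B *
          (XX τ κ u v u' v' : Module.End ℂ (LP V → ℂ))) Φ f =
        (B * (XX τ κ u v u' v' : Module.End ℂ (LP V → ℂ))) Φ f := by
      intro B
      rw [mul_assoc]
      exact hX _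
    simp only [LinearMap.smul_apply, Pi.smul_apply, smul_eq_mul] at h'
    rw [e1, e1] at h'
    exact h'
  have hsym : ∀ a a' : ℂ, (Row e τ κ u' v' l a' * Row e τ κ u v l a) Φ f =
      (Row e τ κ u v l a' * Row e τ κ u' v' l a) Φ f := by
    intro a a'
    rw [Row2_apply e τ κ u' v' u v l hnd, Row2_apply e τ κ u v u' v' l hnd]
    apply Finset.sum_congr rfl
    intro T _
    apply Finset.sum_congr rfl
    intro T' _
    congr 2
    set s : Equiv.Perm V := Equiv.swap u u' * Equiv.swap v v' with hs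
    have su : s u = u' := by
      rw [hs, Equiv.Perm.mul_apply, Equiv.swap_apply_of_ne_of_ne n1 n3, Equiv.swap_apply_left]
    have sv : s v = v' := by
      rw [hs, Equiv.Perm.mul_apply, Equiv.swap_apply_left,
        Equiv.swap_apply_of_ne_of_ne n3.symm n6.symm]
    have su' : s u' = u := by
      rw [hs, Equiv.Perm.mul_apply, Equiv.swap_apply_of_ne_of_ne n4.symm n6,
        Equiv.swap_apply_right]
    have sv' : s v' = v := by
      rw [hs, Equiv.Perm.mul_apply, Equiv.swap_apply_right,
        Equiv.swap_apply_of_ne_of_ne n1.symm n4]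
    have sc : ∀ c ∈ l, s c = c := by
      intro c hc
      obtain ⟨c1, c2, c3, c4⟩ := hl c hc
      rw [hs, Equiv.Perm.mul_apply, Equiv.swap_apply_of_ne_of_ne c2 c4,
        Equiv.swap_apply_of_ne_of_ne c1 c3]
    have g1 : rowm e τ κ u' v' l T' (rowm e τ κ u v l T f) u = v ∧
        (rowm e τ κ u' v' l T' (rowm e τ κ u v l T f)).d u = κ := by
      unfold rowm
      have := steps_fix e (u := u') l n1 n2.symm n4.symm (fun c hc => (hl c hc).1)
        (fun c hc => (hl c hc).2.1) T' (jn_left u v τ κ (steps e u l T f) n1)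
      rw [jn_d_left _ _ _ _ _ n1] at this
      generalize steps e u' l T' (jn u v τ κ (steps e u l T f)) = g at this ⊢
      obtain ⟨t1, t2⟩ := this
      have h1 : u ≠ g u' := fun e => n4 (by rw [← t1, e]; simp)
      have h2 : u ≠ g v' := fun e => n5 (by rw [← t1, e]; simp)
      rw [jn_apply u' v' _ _ g n6, jn_d u' v' _ _ g n6, if_neg n2, if_neg n3, if_neg h1,
        if_neg h2, t1, if_neg n2, if_neg n3, if_neg h1, if_neg h2, t2]
      exact ⟨rfl, rfl⟩
    have g2 : rowm e τ κ u' v' l T' (rowm e τ κ u v l T f) u' = v' := jn_left _ _ _ _ _ n6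
    have g3 : (rowm e τ κ u' v' l T' (rowm e τ κ u v l T f)).d u' = κ :=
      jn_d_left _ _ _ _ _ n6
    have h1 := ren_tau n1 n2 n3 n4 n5 n6 g1.1 g2 (g1.2.trans g3.symm)
    rw [← hs, ren_rowm e τ κ s u' v' l sc, ren_rowm e τ κ s u v l sc, su, sv, su', sv',
      ren_tau n1 n2 n3 n4 n5 n6 hf hf' (hd.trans hd'.symm)] at h1
    exact h1
  rw [← Row2_apply e τ κ u v u' v' l hnd, ← Row2_apply e τ κ u v u' v' l hnd]
  -- the difference vanishes off a finite set of values of `a`
  have hcont : ∀ b : ℂ, Continuous fun a : ℂ => (Row e τ κ u v l a * Row e τ κ u' v' l b) Φ f := by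
    intro b
    simp only [Row2_apply e τ κ u v u' v' l hnd]
    unfold wt
    refine continuous_finset_sum _ fun T _ => continuous_finset_sum _ fun T' _ => ?_
    refine ((continuous_finset_prod _ fun c _ => ?_).mul continuous_const).mul continuous_const
    split_ifs
    · exact continuous_id
    · exact continuous_const.sub continuous_id
  have hcont' : ∀ b : ℂ, Continuous fun a : ℂ => (Row e τ κ u v l b * Row e τ κ u' v' l a) Φ f := by
    intro b
    simp only [Row2_apply e τ κ u v u' v' l hnd]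
    unfold wt
    refine continuous_finset_sum _ fun T _ => continuous_finset_sum _ fun T' _ => ?_
    refine (continuous_const.mul (continuous_finset_prod _ fun c _ => ?_)).mul continuous_const
    split_ifs
    · exact continuous_id
    · exact continuous_const.sub continuous_id
  have hfin : Set.Finite {x : ℂ | (1 - x + x * a') * (1 - a' + x * a') = 0} := by
    have : {x : ℂ | (1 - x + x * a') * (1 - a' + x * a') = 0} ⊆
        {(1 - a')⁻¹, -(1 - a') / a'} := by
      intro x hx
      simp only [Set.mem_setOf_eq, mul_eq_zero] at hx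
      simp only [Set.mem_insert_iff, Set.mem_singleton_iff]
      rcases hx with hx | hx
      · left
        have h1 : x * (1 - a') = 1 := by linear_combination -hx
        exact eq_inv_of_mul_eq_one_left h1
      · right
        by_cases h0 : a' = 0
        · subst h0
          simp at hx
        · rw [eq_div_iff h0]
          linear_combination hx
    exact (Set.toFinite _).subset this
  have hdense : Dense {x : ℂ | (1 - x + x * a') * (1 - a' + x * a') = 0}ᶜ :=
    hfin.countable.dense_compl ℝ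
  have hext := Continuous.ext_on hdense (hcont a') (hcont' a') (by
    intro x hx
    have h := key x a'
    rw [hsym] at h
    exact mul_left_cancel₀ hx h)
  exact congrFun hext a

end Sums

end Ops

end Pool.Agent.H64.Q1
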