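import Mathlib

/-!
# Pairings of ends whose arcs carry integers

A pairing of a set `D` of ends is a fixed point free involution of `D`; the arc from `x` to its
partner carries the integer `d x` (its turning), and `-d x` in the other direction. For two ends
`x, y` the operation `jn x y τ κ` joins the ends `x` and `y` by a piece of turning `τ` (from `x` to
`y`) and creates a new arc from `x` to `y` with turning `κ`; closed loops are dropped.
-/

namespace Pool.Agent.H64.Q1

open Equiv

/-- Pairings whose arcs carry integers. -/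
structure LP (D : Type*) where
  /-- the involution -/
  p : Equiv.Perm D
  /-- the turning of the arc which starts at the end -/
  d : D → ℤ
  inv : ∀ x, p (p x) = x
  ne' : ∀ x, p x ≠ x
  ant : ∀ x, d (p x) = - d x

namespace LP

variable {D : Type*}

instance : CoeFun (LP D) (fun _ => D → D) := ⟨fun f => f.p⟩

theorem ext {f g : LP D} (h : ∀ x, f x = g x) (h' : ∀ x, f.d x = g.d x) : f = g := by
  obtain ⟨p, d, h1, h2, h3⟩ := f
  obtain ⟨p', d', h1', h2', h3'⟩ := g
  have e1 : p = p' := Equiv.ext h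
  have e2 : d = d' := funext h'
  subst e1; subst e2; rfl

@[simp] theorem invol (f : LP D) (x : D) : f (f x) = x := f.inv x

@[simp] theorem ne (f : LP D) (x : D) : f x ≠ x := f.ne' x

theorem ne2 (f : LP D) (x : D) : x ≠ f x := (f.ne x).symm

@[simp] theorem anti (f : LP D) (x : D) : f.d (f x) = - f.d x := f.ant x

theorem eq_iff (f : LP D) {x y : D} : f x = y ↔ x = f y := by
  constructor
  · rintro rfl; simp
  · rintro rfl; simp

/-- Renaming of the ends by a permutation. -/
def ren (s : Equiv.Perm D) (f : LP D) : LP D where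
  p := s.symm.trans (f.p.trans s)
  d := fun x => f.d (s.symm x)
  inv x := by simp
  ne' x h := by
    simp only [Equiv.trans_apply] at h
    exact f.ne (s.symm x) (by rw [Equiv.eq_symm_apply]; exact h)
  ant x := by simp

theorem ren_apply (s : Equiv.Perm D) (f : LP D) (x : D) : ren s f x = s (f (s.symm x)) := rfl

theorem ren_d (s : Equiv.Perm D) (f : LP D) (x : D) : (ren s f).d x = f.d (s.symm x) := rfl

theorem ren_mul (s t : Equiv.Perm D) (f : LP D) : ren (s * t) f = ren s (ren t f) := rfl

@[simp] theorem ren_one (f : LP D) : ren 1 f = f := rfl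

variable [DecidableEq D]

/-- Exchange of the names `x` and `y`. -/
def sw (x y : D) (f : LP D) : LP D := ren (swap x y) f

/-- The turnings after the join. -/
def jd (x y : D) (τ κ : ℤ) (f : LP D) (t : D) : ℤ :=
  if t = x then κ else if t = y then -κ else if t = f x then -f.d x + τ + f.d y
  else if t = f y then -f.d y - τ + f.d x else f.d t

theorem jp_apply (x y : D) (f : LP D) (h : x ≠ y) (t : D) : ren (swap (f x) y) f t =
    if t = x then y else if t = y then x else if t = f x then f y
    else if t = f y then f x else f t := by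
  rw [ren_apply, symm_swap]
  have h1 := f.ne x
  have h2 := f.ne y
  have h3 := f.invol x
  have h4 := f.invol y
  have h5 := f.invol t
  simp only [swap_apply_def]
  grind

/-- Join the ends `x` and `y`, and create a new arc from `x` to `y`. -/
def jn (x y : D) (τ κ : ℤ) (f : LP D) : LP D :=
  if h : x = y then f else
  { p := (ren (swap (f x) y) f).p
    d := jd x y τ κ f
    inv := (ren (swap (f x) y) f).inv
    ne' := (ren (swap (f x) y) f).ne'
    ant := by
      intro t
      have e := jp_apply x y f h t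
      have h1 := f.ne x
      have h2 := f.ne y
      have h3 := f.invol x
      have h4 := f.invol y
      have h5 := f.invol t
      have h6 := f.anti t
      change jd x y τ κ f (ren (swap (f x) y) f t) = - jd x y τ κ f t
      rw [e]
      unfold jd
      grind }

theorem jn_apply (x y : D) (τ κ : ℤ) (f : LP D) (h : x ≠ y) (t : D) : jn x y τ κ f t =
    if t = x then y else if t = y then x else if t = f x then f y
    else if t = f y then f x else f t := by
  unfold jn
  rw [dif_neg h]
  exact jp_apply x y f h t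

theorem jn_d (x y : D) (τ κ : ℤ) (f : LP D) (h : x ≠ y) (t : D) : (jn x y τ κ f).d t =
    if t = x then κ else if t = y then -κ else if t = f x then -f.d x + τ + f.d y
    else if t = f y then -f.d y - τ + f.d x else f.d t := by
  unfold jn
  rw [dif_neg h]
  rfl

theorem sw_comm (x y : D) (f : LP D) : sw x y f = sw y x f := by
  unfold sw; rw [swap_comm]

@[simp] theorem sw_sw (x y : D) (f : LP D) : sw x y (sw x y f) = f := by
  unfold sw; rw [← ren_mul, swap_mul_self]; rfl

@[simp] theorem jn_left (x y : D) (τ κ : ℤ) (f : LP D) (h : x ≠ y) : jn x y τ κ f x = y := by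
  rw [jn_apply x y τ κ f h, if_pos rfl]

@[simp] theorem jn_right (x y : D) (τ κ : ℤ) (f : LP D) (h : x ≠ y) : jn x y τ κ f y = x := by
  rw [eq_iff, jn_left x y τ κ f h]

@[simp] theorem jn_d_left (x y : D) (τ κ : ℤ) (f : LP D) (h : x ≠ y) :
    (jn x y τ κ f).d x = κ := by
  rw [jn_d x y τ κ f h, if_pos rfl]

@[simp] theorem jn_d_right (x y : D) (τ κ : ℤ) (f : LP D) (h : x ≠ y) :
    (jn x y τ κ f).d y = -κ := by
  rw [jn_d x y τ κ f h, if_neg h.symm, if_pos rfl]

theorem jn_comm (x y : D) (τ κ : ℤ) (f : LP D) (h : x ≠ y) :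
    jn x y τ κ f = jn y x (-τ) (-κ) f := by
  have h1 := f.ne x
  have h2 := f.ne y
  have h3 := f.invol x
  have h4 := f.invol y
  apply ext
  · intro t
    rw [jn_apply x y _ _ f h, jn_apply y x _ _ f h.symm]
    have h5 := f.invol t
    grind
  · intro t
    rw [jn_d x y _ _ f h, jn_d y x _ _ f h.symm]
    have h5 := f.invol t
    grind

/-- Equivariance of the join. -/
theorem ren_jn (s : Equiv.Perm D) (x y : D) (τ κ : ℤ) (f : LP D) :
    ren s (jn x y τ κ f) = jn (s x) (s y) τ κ (ren s f) := by
  by_cases h : x = y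
  · subst h
    unfold jn
    rw [dif_pos rfl, dif_pos rfl]
  · have h' : s x ≠ s y := fun e => h (s.injective e)
    have key : ∀ t u : D, s.symm t = u ↔ t = s u := fun t u => Equiv.symm_apply_eq s
    apply ext
    · intro t
      rw [jn_apply _ _ _ _ _ h', ren_apply, jn_apply _ _ _ _ _ h]
      simp only [ren_apply, symm_apply_apply, key, s.apply_eq_iff_eq]
      split_ifs <;> rfl
    · intro t
      rw [jn_d _ _ _ _ _ h', ren_d, jn_d _ _ _ _ _ h]
      simp only [ren_apply, ren_d, symm_apply_apply, key, s.apply_eq_iff_eq]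

theorem sw_jn (x y z w : D) (τ κ : ℤ) (f : LP D) :
    sw x y (jn z w τ κ f) = jn (swap x y z) (swap x y w) τ κ (sw x y f) := ren_jn _ _ _ _ _ _

/-- Joining `x` with `y` when `x` already has the partner `z`. -/
theorem jn_share {x y z : D} {κ : ℤ} {f : LP D} (h : f x = z) (hd : f.d x = κ) (hxy : x ≠ y) :
    jn x y κ κ f = sw z y f := by
  subst h; subst hd
  have h1 := f.ne x
  have h2 := f.ne y
  have h3 := f.invol x
  have h4 := f.invol y
  have h6 := f.anti x
  have h7 := f.anti y
  apply ext
  · intro t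
    rw [jn_apply x y _ _ f hxy]
    exact (jp_apply x y f hxy t).symm
  · intro t
    rw [jn_d x y _ _ f hxy]
    unfold sw
    rw [ren_d, symm_swap]
    simp only [swap_apply_def]
    grind

theorem jn_of_eq {x y : D} {τ κ : ℤ} {f : LP D} (h : f x = y) (hd : f.d x = κ) :
    jn x y τ κ f = f := by
  subst h; subst hd
  have h1 := f.ne2 x
  have h3 := f.invol x
  have h6 := f.anti x
  apply ext
  · intro t
    rw [jn_apply x _ _ _ f h1]
    grind
  · intro t
    rw [jn_d x _ _ _ f h1]
    grind

/-- Closing a loop whose label is the opposite one. -/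
theorem jn_of_eq_neg {x y : D} {τ κ : ℤ} {f : LP D} (h : f x = y) (hd : f.d x = -κ) :
    jn x y τ κ f = sw x y f := by
  subst h
  have h1 := f.ne2 x
  have h3 := f.invol x
  have h6 := f.anti x
  apply ext
  · intro t
    rw [jn_apply x _ _ _ f h1]
    unfold sw
    rw [ren_apply, symm_swap]
    have h5 := f.invol t
    simp only [swap_apply_def]
    grind
  · intro t
    rw [jn_d x _ _ _ f h1]
    unfold sw
    rw [ren_d, symm_swap]
    simp only [swap_apply_def]
    grind

/-- Joins of disjoint pairs of ends commute. -/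
theorem jn_jn (x y z w : D) (τ κ τ' κ' : ℤ) (f : LP D) (h1 : x ≠ y) (h2 : x ≠ z) (h3 : x ≠ w)
    (h4 : y ≠ z) (h5 : y ≠ w) (h6 : z ≠ w) :
    jn x y τ κ (jn z w τ' κ' f) = jn z w τ' κ' (jn x y τ κ f) := by
  have hx := f.ne x
  have hy := f.ne y
  have hz := f.ne z
  have hw := f.ne w
  have ix := f.invol x
  have iy := f.invol y
  have iz := f.invol z
  have iw := f.invol w
  have ax := f.anti x
  have ay := f.anti y
  have az := f.anti z
  have aw := f.anti w
  apply ext
  · intro t
    have it := f.invol t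
    have a1 := jn_apply z w τ' κ' f h6 x
    have a2 := jn_apply z w τ' κ' f h6 y
    have a3 := jn_apply z w τ' κ' f h6 t
    have b1 := jn_apply x y τ κ f h1 z
    have b2 := jn_apply x y τ κ f h1 w
    have b3 := jn_apply x y τ κ f h1 t
    rw [jn_apply x y τ κ (jn z w τ' κ' f) h1 t, jn_apply z w τ' κ' (jn x y τ κ f) h6 t]
    clear ax ay az aw
    generalize jn z w τ' κ' f x = g1 at *
    generalize jn z w τ' κ' f y = g2 at *
    generalize jn z w τ' κ' f t = g3 at *
    generalize jn x y τ κ f z = k1 at *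
    generalize jn x y τ κ f w = k2 at *
    generalize jn x y τ κ f t = k3 at *
    grind (splits := 30)
  · intro t
    have it := f.invol t
    have a1 := jn_apply z w τ' κ' f h6 x
    have a2 := jn_apply z w τ' κ' f h6 y
    have b1 := jn_apply x y τ κ f h1 z
    have b2 := jn_apply x y τ κ f h1 w
    have c1 := jn_d z w τ' κ' f h6 x
    have c2 := jn_d z w τ' κ' f h6 y
    have c3 := jn_d z w τ' κ' f h6 t
    have d1 := jn_d x y τ κ f h1 z
    have d2 := jn_d x y τ κ f h1 w
    have d3 := jn_d x y τ κ f h1 t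
    rw [jn_d x y τ κ (jn z w τ' κ' f) h1 t, jn_d z w τ' κ' (jn x y τ κ f) h6 t]
    generalize jn z w τ' κ' f x = g1 at *
    generalize jn z w τ' κ' f y = g2 at *
    generalize jn x y τ κ f z = k1 at *
    generalize jn x y τ κ f w = k2 at *
    generalize (jn z w τ' κ' f).d x = u1 at *
    generalize (jn z w τ' κ' f).d y = u2 at *
    generalize (jn z w τ' κ' f).d t = u3 at *
    generalize (jn x y τ κ f).d z = v1 at *
    generalize (jn x y τ κ f).d w = v2 at *
    generalize (jn x y τ κ f).d t = v3 at *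
    grind (splits := 30)

theorem sw_sw_comm (x y z w : D) (f : LP D) (h2 : x ≠ z) (h3 : x ≠ w) (h4 : y ≠ z)
    (h5 : y ≠ w) : sw x y (sw z w f) = sw z w (sw x y f) := by
  unfold sw
  rw [← ren_mul, ← ren_mul]
  congr 1
  ext t
  simp only [Equiv.Perm.mul_apply, Equiv.swap_apply_def]
  grind

theorem sw_jn_comm (x y z w : D) (τ κ : ℤ) (f : LP D) (h2 : x ≠ z) (h3 : x ≠ w) (h4 : y ≠ z)
    (h5 : y ≠ w) : sw x y (jn z w τ κ f) = jn z w τ κ (sw x y f) := by
  rw [sw_jn, swap_apply_of_ne_of_ne h2.symm h4.symm, swap_apply_of_ne_of_ne h3.symm h5.symm]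

section Brauer

variable (e : ℤ) (x y z : D) (f : LP D) (h1 : x ≠ y) (h2 : x ≠ z) (h3 : y ≠ z)

include h1 h2 h3

theorem cyc1 (g : LP D) : sw y z (sw x z g) = sw x y (sw y z g) := by
  unfold sw
  rw [← ren_mul, ← ren_mul]
  congr 1
  ext t
  simp only [Equiv.Perm.mul_apply, Equiv.swap_apply_def]
  grind

theorem cyc2 (g : LP D) : sw x z (sw x y g) = sw x y (sw y z g) := by
  unfold sw
  rw [← ren_mul, ← ren_mul]
  congr 1
  ext t
  simp only [Equiv.Perm.mul_apply, Equiv.swap_apply_def]
  grind

theorem cyc3 (g : LP D) : sw x z (sw y z g) = sw y z (sw x y g) := by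
  unfold sw
  rw [← ren_mul, ← ren_mul]
  congr 1
  ext t
  simp only [Equiv.Perm.mul_apply, Equiv.swap_apply_def]
  grind

theorem cyc4 (g : LP D) : sw x y (sw x z g) = sw y z (sw x y g) := by
  unfold sw
  rw [← ren_mul, ← ren_mul]
  congr 1
  ext t
  simp only [Equiv.Perm.mul_apply, Equiv.swap_apply_def]
  grind

theorem sxy_eyz (τ κ : ℤ) (g : LP D) : sw x y (jn y z τ κ g) = jn x z τ κ (sw x y g) := by
  rw [sw_jn, swap_apply_right, swap_apply_of_ne_of_ne h2.symm h3.symm]

theorem sxz_eyz (τ κ : ℤ) (g : LP D) : sw x z (jn y z τ κ g) = jn y x τ κ (sw x z g) := by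
  rw [sw_jn, swap_apply_right, swap_apply_of_ne_of_ne h1.symm h3]

theorem sxz_exy (τ κ : ℤ) (g : LP D) : sw x z (jn x y τ κ g) = jn z y τ κ (sw x z g) := by
  rw [sw_jn, swap_apply_left, swap_apply_of_ne_of_ne h1.symm h3]

theorem syz_exy (τ κ : ℤ) (g : LP D) : sw y z (jn x y τ κ g) = jn x z τ κ (sw y z g) := by
  rw [sw_jn, swap_apply_left, swap_apply_of_ne_of_ne h1 h2]

theorem rPPP : sw y z (sw x z (sw x y f)) = sw x y (sw x z (sw y z f)) := by
  rw [cyc2 x y z h1 h2 h3, cyc3 x y z h1 h2 h3]
  have := cyc3 x y z h1 h2 h3 (sw x y f)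
  rw [← cyc1 x y z h1 h2 h3, sw_sw, ← cyc4 x y z h1 h2 h3, sw_sw]

theorem rA1 : sw y z (jn x z e e (jn x y e e f)) = jn x y e e f := by
  rw [jn_share (jn_left x y e e f h1) (jn_d_left x y e e f h1) h2, sw_sw]

theorem rA2 : jn x y e e (jn x z e e (sw y z f)) = jn x y e e f := by
  rw [jn_share (jn_left x z e e _ h2) (jn_d_left x z e e _ h2) h1,
    ← syz_exy x y z h1 h2 h3, sw_comm z y, sw_sw]

theorem zx (g : LP D) : jn x z e e g = jn z x (-e) (-e) g := jn_comm _ _ _ _ _ h2

theorem rB1 : jn y z e e (jn x z e e (sw x y f)) = jn y z e e f := by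
  rw [jn_comm y z e e _ h3,
    jn_share (jn_right x z e e _ h2) (jn_d_right x z e e _ h2) h3.symm,
    ← sxy_eyz x y z h1 h2 h3, sw_sw]

theorem rB2 : sw x y (jn x z e e (jn y z e e f)) = jn y z e e f := by
  rw [jn_comm x z e e _ h2,
    jn_share (jn_right y z e e _ h3) (jn_d_right y z e e _ h3) h2.symm, sw_comm y x, sw_sw]

/-- the common value of the first class -/
theorem rX (g : LP D) : sw x y (jn x z e e (sw y z g)) = sw x y (sw y z (jn x y e e g)) := by
  rw [syz_exy x y z h1 h2 h3]

theorem rX1 : sw y z (sw x z (jn x y e e f)) = sw x y (jn x z e e (sw y z f)) := by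
  rw [rX e x y z h1 h2 h3, cyc1 x y z h1 h2 h3]

theorem rX2 : jn y z e e (sw x z (sw x y f)) = sw x y (jn x z e e (sw y z f)) := by
  rw [rX e x y z h1 h2 h3, cyc2 x y z h1 h2 h3]
  unfold sw
  rw [← ren_mul, ← ren_mul, ren_jn]
  congr 1
  · simp only [Equiv.Perm.mul_apply, Equiv.swap_apply_def]; grind
  · simp only [Equiv.Perm.mul_apply, Equiv.swap_apply_def]; grind

theorem rX3 : jn y z e e (sw x z (jn x y e e f)) = sw x y (jn x z e e (sw y z f)) := by
  rw [← rX1 e x y z f h1 h2 h3, sxz_exy x y z h1 h2 h3]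
  apply jn_of_eq_neg (jn_right _ _ _ _ _ h3.symm) (jn_d_right _ _ _ _ _ h3.symm)

theorem rX4 : jn y z e e (jn x z e e (jn x y e e f)) = sw x y (jn x z e e (sw y z f)) := by
  rw [rX e x y z h1 h2 h3,
    jn_share (jn_left x y e e f h1) (jn_d_left x y e e f h1) h2, syz_exy x y z h1 h2 h3,
    jn_comm y z e e _ h3,
    jn_share (jn_right x z e e _ h2) (jn_d_right x z e e _ h2) h3.symm]

/-- the common value of the second class -/
theorem rY (g : LP D) : sw y z (jn x z e e (sw x y g)) = sw y z (sw x y (jn y z e e g)) := by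
  rw [sxy_eyz x y z h1 h2 h3]

theorem rY1 : jn x y e e (sw x z (sw y z f)) = sw y z (jn x z e e (sw x y f)) := by
  rw [rY e x y z h1 h2 h3, cyc3 x y z h1 h2 h3]
  unfold sw
  rw [← ren_mul, ← ren_mul, ren_jn]
  congr 1
  · simp only [Equiv.Perm.mul_apply, Equiv.swap_apply_def]; grind
  · simp only [Equiv.Perm.mul_apply, Equiv.swap_apply_def]; grind

theorem rY2 : sw x y (sw x z (jn y z e e f)) = sw y z (jn x z e e (sw x y f)) := by
  rw [rY e x y z h1 h2 h3, cyc4 x y z h1 h2 h3]

theorem rY3 : jn x y e e (sw x z (jn y z e e f)) = sw y z (jn x z e e (sw x y f)) := by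
  rw [← rY2 e x y z f h1 h2 h3, sxz_eyz x y z h1 h2 h3]
  apply jn_of_eq_neg (jn_right _ _ _ _ _ h1.symm) (jn_d_right _ _ _ _ _ h1.symm)

theorem rY4 : jn x y e e (jn x z e e (jn y z e e f)) = sw y z (jn x z e e (sw x y f)) := by
  rw [rY e x y z h1 h2 h3, jn_comm x z e e _ h2,
    jn_share (jn_right y z e e f h3) (jn_d_right y z e e f h3) h2.symm, sw_comm y x,
    sxy_eyz x y z h1 h2 h3, jn_share (jn_left x z e e _ h2) (jn_d_left x z e e _ h2) h1,
    sw_comm z y]

end Brauer

end LP

end Pool.Agent.H64.Q1
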