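import Pool.Agent.H64.Q1.Net
import Pool.Agent.Q1.ExC

/-!
# Exchange of two adjacent rows of tiles in a network
-/

namespace Pool.Agent.H64.Q1

open LP Finset Pool.Agent.Q1

namespace LP

variable {D : Type*} [DecidableEq D]

/-- the columns chosen by `B` -/
def colS (S : ℕ → D) (B : Finset ℕ) : Finset D := B.image S

theorem stB_eq (e : ℤ) (u : D) (S : ℕ → D) (N : ℕ) (hS : ∀ i < N, ∀ j < N, S i = S j → i = j)
    (B : Finset ℕ) (hB : B ⊆ range N) (n : ℕ) (hn : n ≤ N) (f : LP D) :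
    stB e u S (fun i => decide (i ∈ B)) n f = steps e u ((List.range n).map S) (colS S B) f := by
  induction n with
  | zero => rfl
  | succ n ih =>
    rw [stB, ih (by omega), List.range_succ, List.map_append]
    unfold steps
    rw [List.foldl_append]
    simp only [List.map_cons, List.map_nil, List.foldl_cons, List.foldl_nil]
    have h : S n ∈ colS S B ↔ n ∈ B := by
      unfold colS
      rw [mem_image]
      constructor
      · rintro ⟨j, hj, hj'⟩
        have := hS j (mem_range.1 (hB hj)) n (by omega) hj'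
        rwa [← this]
      · intro h; exact ⟨n, h, rfl⟩
    simp only [h, decide_eq_true_eq]

theorem sum_cols (S : ℕ → D) (N : ℕ) (hS : ∀ i < N, ∀ j < N, S i = S j → i = j)
    (a : ℂ) (G : Finset D → ℂ) :
    ∑ T ∈ ((List.range N).map S).toFinset.powerset, wt a ((List.range N).map S).toFinset T * G T =
      Ec (fun _ => a) (range N) (fun B => G (colS S B)) := by
  have hset : ((List.range N).map S).toFinset = (range N).image S := by
    ext x; simp
  have hinj : Set.InjOn S (range N) := by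
    intro i hi j hj h
    exact hS i (mem_range.1 (mem_coe.1 hi)) j (mem_range.1 (mem_coe.1 hj)) h
  unfold Ec
  rw [hset]
  symm
  refine Finset.sum_bij (fun B _ => colS S B) ?_ ?_ ?_ ?_
  · intro B hB
    rw [mem_powerset] at hB ⊢
    exact image_subset_image hB
  · intro B hB B' hB' h
    rw [mem_powerset] at hB hB'
    ext i
    constructor
    · intro hi
      have h1 : S i ∈ colS S B' := by rw [← h]; exact mem_image_of_mem S hi
      obtain ⟨j, hj, hj'⟩ := mem_image.1 h1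
      have := hinj (mem_coe.2 (hB' hj)) (mem_coe.2 (hB hi)) hj'
      rwa [← this]
    · intro hi
      have h1 : S i ∈ colS S B := by rw [h]; exact mem_image_of_mem S hi
      obtain ⟨j, hj, hj'⟩ := mem_image.1 h1
      have := hinj (mem_coe.2 (hB hj)) (mem_coe.2 (hB' hi)) hj'
      rwa [← this]
  · intro T hT
    rw [mem_powerset] at hT
    refine ⟨(range N).filter (fun i => S i ∈ T), ?_, ?_⟩
    · rw [mem_powerset]; exact filter_subset _ _
    · ext x
      unfold colS
      rw [mem_image]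
      constructor
      · rintro ⟨i, hi, rfl⟩
        exact (mem_filter.1 hi).2
      · intro hx
        obtain ⟨i, hi, rfl⟩ := mem_image.1 (hT hx)
        exact ⟨i, mem_filter.2 ⟨hi, hx⟩, rfl⟩
  · intro B hB
    rw [mem_powerset] at hB
    congr 1
    unfold wt wtc
    rw [prod_image hinj]
    have h : ∀ i ∈ range N, (if S i ∈ colS S B then a else 1 - a) =
        (if i ∈ B then a else 1 - a) := by
      intro i hi
      have : S i ∈ colS S B ↔ i ∈ B := by
        unfold colS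
        rw [mem_image]
        constructor
        · rintro ⟨j, hj, hj'⟩
          have := hinj (mem_coe.2 (hB hj)) (mem_coe.2 hi) hj'
          rwa [← this]
        · intro h; exact ⟨i, h, rfl⟩
      simp only [this]
    rw [prod_congr rfl h, prod_ite]
    congr 1
    · apply prod_congr _ (fun _ _ => rfl)
      ext i
      rw [mem_filter]
      exact ⟨fun h => ⟨hB h, h⟩, fun h => h.2⟩
    · apply prod_congr _ (fun _ _ => rfl)
      ext i
      rw [mem_filter, mem_sdiff]

theorem rowm_eq (e κ : ℤ) (u v : D) (S : ℕ → D) (N : ℕ)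
    (hS : ∀ i < N, ∀ j < N, S i = S j → i = j) (B : Finset ℕ) (hB : B ⊆ range N) (f : LP D) :
    jn u v 0 κ (stB e u S (fun i => decide (i ∈ B)) N f) =
      rowm e 0 κ u v ((List.range N).map S) (colS S B) f := by
  unfold rowm
  rw [stB_eq e u S N hS B hB N le_rfl]

theorem Stable.stB {A : Set D} {f : LP D} (hA : Stable A f) {e : ℤ} {u : D} {S : ℕ → D}
    {B : ℕ → Bool} {n : ℕ} (hu : u ∈ A) (hS : ∀ i < n, S i ∈ A) : Stable A (stB e u S B n f) := by
  induction n with
  | zero => exact hA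
  | succ n ih =>
    have ih := ih (fun i hi => hS i (by omega))
    rw [LP.stB]
    split_ifs
    · exact ih.ren (swap_mem hu (hS n (by omega)))
    · exact ih.jn hu (hS n (by omega)) _ _

theorem Eqv.stB {A : Set D} {f g : LP D} (h : Eqv A f g) {e : ℤ} {u : D} {S : ℕ → D}
    {B : ℕ → Bool} {n : ℕ} (hu : u ∈ A) (hS : ∀ i < n, S i ∈ A) :
    Eqv A (LP.stB e u S B n f) (LP.stB e u S B n g) := by
  induction n with
  | zero => exact h
  | succ n ih =>
    have ih := ih (fun i hi => hS i (by omega))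
    rw [LP.stB, LP.stB]
    split_ifs
    · exact ih.sw hu (hS n (by omega))
    · exact ih.jn hu (hS n (by omega)) _ _

theorem ren_stB (s : Equiv.Perm D) (e : ℤ) (u : D) (S : ℕ → D) (B : ℕ → Bool) (n : ℕ)
    (f : LP D) : ren s (LP.stB e u S B n f) = LP.stB e (s u) (fun i => s (S i)) B n (ren s f) := by
  induction n with
  | zero => rfl
  | succ n ih =>
    rw [LP.stB, LP.stB]
    split_ifs
    · rw [ren_sw, ih]
    · rw [ren_jn, ih]

theorem stB_congr (e : ℤ) (u : D) (S S' : ℕ → D) (B : ℕ → Bool) (n : ℕ)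
    (h : ∀ i < n, S i = S' i) (f : LP D) : LP.stB e u S B n f = LP.stB e u S' B n f := by
  induction n with
  | zero => rfl
  | succ n ih =>
    rw [LP.stB, LP.stB, ih (fun i hi => h i (by omega)), h n (by omega)]

section TwoRows

variable {A : Set D} {f : LP D} {N : ℕ} {Z Z' : ℕ → Fin 5 → D}

/-- the renaming of the ends by a full row -/
def sig (Z : ℕ → Fin 5 → D) (N : ℕ) : Equiv.Perm D := Equiv.swap (Z N 2) (Z N 4) * rho Z N

theorem sig_S (h : Inj5 (N + 1) Z) {i : ℕ} (hi : i < N + 1) : sig Z N (Z i 2) = Z i 4 := by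
  unfold sig
  rw [Equiv.Perm.mul_apply]
  by_cases hiN : i = N
  · subst hiN
    rw [rho_S_ge h le_rfl hi, Equiv.swap_apply_left]
  · have hi' : i < N := by omega
    rw [rho_S_lt h hi' (by omega), Equiv.swap_apply_of_ne_of_ne
      (h.ne hi (by omega) (Or.inr (by decide))) (h.ne hi (by omega) (Or.inl hiN))]

theorem sig_fix {x : D} (hx : ∀ i < N + 1, x ≠ Z i 0 ∧ x ≠ Z i 2 ∧ x ≠ Z i 4) :
    sig Z N x = x := by
  unfold sig
  rw [Equiv.Perm.mul_apply, rho_fix hx (by omega),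
    Equiv.swap_apply_of_ne_of_ne (hx N (by omega)).2.1 (hx N (by omega)).2.2]

/-- two rows of tiles, one above the other -/
structure RowP (A : Set D) (f : LP D) (N : ℕ) (Z Z' : ℕ → Fin 5 → D) : Prop where
  lo : RowH A f N Z
  up : RowH A f N Z'
  hQ : ∀ i < N, Z' i 2 = Z i 4
  dis : ∀ i < N, ∀ j < N, ∀ a b, b ≠ 2 → Z i a ≠ Z' j b

theorem RowP.S'_ne (H : RowP A f N Z Z') {i j : ℕ} (hi : i < N) (hj : j < N) {a : Fin 5}
    (ha : a ≠ 4) : Z i a ≠ Z' j 2 := by
  rw [H.hQ j hj]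
  exact H.lo.inj.ne hi hj (Or.inr ha)

/-- the upper row after the lower row -/
theorem RowP.up' (H : RowP A f N Z Z') (e k : ℤ) (B : ℕ → Bool) :
    RowH (Al A Z N) (rowt e k Z B N f) N Z' := by
  have hne : ∀ i < N, ∀ j < N, ∀ a b, a ≠ 4 → Z' j b ≠ Z i a := by
    intro i hi j hj a b ha
    by_cases hb : b = 2
    · subst hb; exact (H.S'_ne hi hj ha).symm
    · exact (H.dis i hi j hj a b hb).symm
  have hx : ∀ j < N, ∀ b, ∀ i < N, Z' j b ≠ Z i 0 ∧ Z' j b ≠ Z i 1 ∧ Z' j b ≠ Z i 2 ∧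
      Z' j b ≠ Z i 3 := fun j hj b i hi =>
    ⟨hne i hi j hj 0 b (by decide), hne i hi j hj 1 b (by decide), hne i hi j hj 2 b (by decide),
      hne i hi j hj 3 b (by decide)⟩
  refine ⟨H.up.inj, fun i hi a => ⟨H.up.mem i hi a, hx i hi a⟩, fun i hi => ?_,
    fun i hi => ?_⟩
  · have := rowt_keep e k B (f := f) (Z := Z) (n := N) (H.up.hT i hi).1 (hx i hi 3) (hx i hi 4)
    exact ⟨this.1, this.2.trans (H.up.hT i hi).2⟩
  · have := rowt_keep e k B (f := f) (Z := Z) (n := N) (H.up.hE i hi).1 (hx i (by omega) 1)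
      (hx (i + 1) hi 0)
    exact ⟨this.1, this.2.trans (H.up.hE i hi).2⟩

/-- both rows -/
theorem rows_full (H : RowP A f (N + 1) Z Z') (hA : Stable A f) (e k κ : ℤ) (B B' : ℕ → Bool) :
    Eqv (Al (Al A Z (N + 1)) Z' (N + 1)) (rowt e k Z' B' (N + 1) (rowt e k Z B (N + 1) f))
      (ren (sig Z' N * sig Z N)
        (jn (Z' 0 0) (Z' N 1) 0 κ (stB e (Z' 0 0) (fun i => Z i 2) B' (N + 1)
          (jn (Z 0 0) (Z N 1) 0 κ (stB e (Z 0 0) (fun i => Z i 2) B (N + 1) f))))) := by
  have h1 := row_full e k B H.lo hA κ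
  have hA1 := h1.1
  have H' := H.up' e k B
  have h2 := row_full e k B' H' hA1 κ
  refine h2.trans ?_
  have hz : ∀ b, ∀ i < N + 1, Z' i b ∈ Al A Z (N + 1) := fun b i hi => H'.mem i hi b
  have h3 := (h1.stB (e := e) (u := Z' 0 0) (S := fun i => Z' i 2) (B := B') (n := N + 1)
    (hz 0 0 (by omega)) (fun i hi => hz 2 i hi)).jn (hz 0 0 (by omega)) (hz 1 N (by omega)) 0 κ
  have hs : ∀ x, sig Z' N x ∈ Al A Z (N + 1) ↔ x ∈ Al A Z (N + 1) := by
    intro x
    unfold sig
    rw [Equiv.Perm.mul_apply, swap_mem (hz 2 N (by omega)) (hz 4 N (by omega))]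
    have : ∀ n, n < N + 1 → (rho Z' n x ∈ Al A Z (N + 1) ↔ x ∈ Al A Z (N + 1)) := by
      intro n
      induction n with
      | zero => intro _; exact Iff.rfl
      | succ n ih =>
        intro hn
        rw [rho, Equiv.Perm.mul_apply, Equiv.Perm.mul_apply,
          swap_mem (hz 0 n (by omega)) (hz 0 (n + 1) (by omega)),
          swap_mem (hz 2 n (by omega)) (hz 4 n (by omega)), ih (by omega)]
    exact this N (by omega)
  have h4 := h3.ren hs
  have hsub : Al (Al A Z (N + 1)) Z' (N + 1) ⊆ Al A Z (N + 1) := fun x hx => hx.1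
  have h5 := h4.mono hsub h2.stable
  have e1 : ∀ b, b ≠ 2 → sig Z N (Z' 0 b) = Z' 0 b := fun b hb =>
    sig_fix fun i hi => ⟨(H.dis i hi 0 (by omega) 0 b hb).symm,
      (H.dis i hi 0 (by omega) 2 b hb).symm, (H.dis i hi 0 (by omega) 4 b hb).symm⟩
  have e2 : sig Z N (Z' N 1) = Z' N 1 :=
    sig_fix fun i hi => ⟨(H.dis i hi N (by omega) 0 1 (by decide)).symm,
      (H.dis i hi N (by omega) 2 1 (by decide)).symm, (H.dis i hi N (by omega) 4 1 (by decide)).symm⟩
  have e3 : stB e (Z' 0 0) (fun i => Z' i 2) B' (N + 1) (ren (sig Z N)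
      (jn (Z 0 0) (Z N 1) 0 κ (stB e (Z 0 0) (fun i => Z i 2) B (N + 1) f))) =
      ren (sig Z N) (stB e (Z' 0 0) (fun i => Z i 2) B' (N + 1)
        (jn (Z 0 0) (Z N 1) 0 κ (stB e (Z 0 0) (fun i => Z i 2) B (N + 1) f))) := by
    rw [ren_stB, e1 0 (by decide)]
    apply stB_congr
    intro i hi
    rw [H.hQ i hi, sig_S H.lo.inj hi]
  have e4 : sig Z N = Equiv.swap (Z N 2) (Z N 4) * rho Z N := rfl
  rw [← e4, e3] at h5
  rw [ren_mul (sig Z' N) (sig Z N), ren_jn (sig Z N), e1 0 (by decide), e2]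
  exact h5

/-- **Exchange of two adjacent rows in a network.** -/
theorem exch_net (H : RowP A f (N + 1) Z Z') (hA : Stable A f) (e k κ : ℤ)
    (hu : f (Z 0 0) = Z N 1 ∧ f.d (Z 0 0) = κ) (hu' : f (Z' 0 0) = Z' N 1 ∧ f.d (Z' 0 0) = κ)
    (Φ : LP D → ℂ)
    (hΦ : ∀ g g', Eqv (Al (Al A Z (N + 1)) Z' (N + 1)) g g' → Φ g = Φ g') (a a' : ℂ) :
    Ec (fun _ => a) (range (N + 1)) (fun B => Ec (fun _ => a') (range (N + 1)) (fun B' =>
      Φ (rowt e k Z' (fun i => decide (i ∈ B')) (N + 1)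
        (rowt e k Z (fun i => decide (i ∈ B)) (N + 1) f)))) =
    Ec (fun _ => a') (range (N + 1)) (fun B => Ec (fun _ => a) (range (N + 1)) (fun B' =>
      Φ (rowt e k Z' (fun i => decide (i ∈ B')) (N + 1)
        (rowt e k Z (fun i => decide (i ∈ B)) (N + 1) f)))) := by
  set S : ℕ → D := fun i => Z i 2 with hS
  have hSi : ∀ i < N + 1, ∀ j < N + 1, S i = S j → i = j := fun i hi j hj h =>
    (H.lo.inj i j 2 2 hi hj h).1
  set l : List D := (List.range (N + 1)).map S with hl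
  set Ψ : LP D → ℂ := fun g => Φ (ren (sig Z' N * sig Z N) g) with hΨ
  have key : ∀ b b' : ℂ, Ec (fun _ => b) (range (N + 1)) (fun B =>
      Ec (fun _ => b') (range (N + 1)) (fun B' =>
      Φ (rowt e k Z' (fun i => decide (i ∈ B')) (N + 1)
        (rowt e k Z (fun i => decide (i ∈ B)) (N + 1) f)))) =
      ∑ T ∈ l.toFinset.powerset, ∑ T' ∈ l.toFinset.powerset,
        wt b l.toFinset T * wt b' l.toFinset T' *
          Ψ (rowm e 0 κ (Z' 0 0) (Z' N 1) l T' (rowm e 0 κ (Z 0 0) (Z N 1) l T f)) := by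
    intro b b'
    have e1 : ∀ T, ∑ T' ∈ l.toFinset.powerset, wt b l.toFinset T * wt b' l.toFinset T' *
        Ψ (rowm e 0 κ (Z' 0 0) (Z' N 1) l T' (rowm e 0 κ (Z 0 0) (Z N 1) l T f)) =
        wt b l.toFinset T * Ec (fun _ => b') (range (N + 1)) (fun B' =>
          Ψ (rowm e 0 κ (Z' 0 0) (Z' N 1) l (colS S B') (rowm e 0 κ (Z 0 0) (Z N 1) l T f))) := by
      intro T
      rw [← sum_cols S (N + 1) hSi b' (fun T' =>
        Ψ (rowm e 0 κ (Z' 0 0) (Z' N 1) l T' (rowm e 0 κ (Z 0 0) (Z N 1) l T f))), mul_sum]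
      exact sum_congr rfl fun T' _ => by ring
    rw [sum_congr rfl (fun T _ => e1 T)]
    rw [sum_cols S (N + 1) hSi b (fun T => Ec (fun _ => b') (range (N + 1)) (fun B' =>
          Ψ (rowm e 0 κ (Z' 0 0) (Z' N 1) l (colS S B') (rowm e 0 κ (Z 0 0) (Z N 1) l T f))))]
    refine Ec_congr fun B hB => Ec_congr fun B' hB' => ?_
    rw [hΨ]
    simp only
    rw [← rowm_eq e κ _ _ S (N + 1) hSi B hB, ← rowm_eq e κ _ _ S (N + 1) hSi B' hB']
    exact hΦ _ _ (rows_full H hA e k κ _ _)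
  have h0 : 0 < N + 1 := by omega
  have hN : N < N + 1 := by omega
  rw [key, key]
  apply exchange e 0 κ (Z 0 0) (Z N 1) (Z' 0 0) (Z' N 1)
    (H.lo.inj.ne h0 hN (Or.inr (by decide))) (H.dis 0 h0 0 h0 0 0 (by decide))
    (H.dis 0 h0 N hN 0 1 (by decide)) (H.dis N hN 0 h0 1 0 (by decide))
    (H.dis N hN N hN 1 1 (by decide)) (H.up.inj.ne h0 hN (Or.inr (by decide))) l
  · rw [hl]
    apply List.Nodup.map_on _ List.nodup_range
    intro i hi j hj h
    exact hSi i (List.mem_range.1 hi) j (List.mem_range.1 hj) h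
  · intro c hc
    obtain ⟨i, hi, rfl⟩ := List.mem_map.1 hc
    have hi := List.mem_range.1 hi
    exact ⟨H.lo.inj.ne hi h0 (Or.inr (by decide)), H.lo.inj.ne hi hN (Or.inr (by decide)),
      H.dis i hi 0 h0 2 0 (by decide), H.dis i hi N hN 2 1 (by decide)⟩
  · exact hu.1
  · exact hu'.1
  · exact hu.2
  · exact hu'.2

end TwoRows

end LP

end Pool.Agent.H64.Q1
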