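import Pool.Agent.H13.Q1.Track

/-!
# Tiles of a region and tiles of a line

`tl b z0 z1 z2 z3` are the two states of a tile with the ends `z0, z1, z2, z3` (clockwise).
`ins_tile`: a line made of real tiles is the formal crossing of `H13.Q1.Track`.
-/

namespace Pool.Agent.H64.Q1

open LP

namespace LP

variable {D : Type*} [DecidableEq D]

/-! ### Joins outside a set of ends -/

/-- a join of ends outside `A` does not change `A` -/
theorem Eqv.jn_out {A : Set D} {s : LP D} (hA : Stable A s) {a b : D} (ha : a ∉ A) (hb : b ∉ A)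
    (τ κ : ℤ) : Eqv A s (LP.jn a b τ κ s) := by
  refine ⟨hA, fun x hx => ?_⟩
  by_cases hab : a = b
  · unfold LP.jn; rw [dif_pos hab]; exact ⟨rfl, rfl⟩
  · have a1 : x ≠ a := fun e => ha (e ▸ hx)
    have a2 : x ≠ b := fun e => hb (e ▸ hx)
    have a3 : x ≠ s a := fun e => ha (by
      have := hA x hx
      rw [e, s.invol] at this
      exact this)
    have a4 : x ≠ s b := fun e => hb (by
      have := hA x hx
      rw [e, s.invol] at this
      exact this)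
    rw [jn_apply _ _ _ _ _ hab, jn_d _ _ _ _ _ hab, if_neg a1, if_neg a2, if_neg a3, if_neg a4,
      if_neg a1, if_neg a2, if_neg a3, if_neg a4]
    exact ⟨rfl, rfl⟩

/-- the set without two joined ends is a union of arcs -/
theorem stable_jn {A : Set D} {s : LP D} (hA : Stable A s) {a b : D} (ha : a ∈ A) (hb : b ∈ A)
    (hab : a ≠ b) (τ κ : ℤ) : Stable {x | x ∈ A ∧ x ≠ a ∧ x ≠ b} (jn a b τ κ s) := by
  rintro x ⟨x1, x2, x3⟩
  refine ⟨hA.jn ha hb τ κ x x1, ?_, ?_⟩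
  · intro h
    rw [eq_iff, jn_left _ _ _ _ _ hab] at h
    exact x3 h
  · intro h
    rw [eq_iff, jn_right _ _ _ _ _ hab] at h
    exact x2 h

/-- the label of the new arc does not matter -/
theorem jn_dummy {A : Set D} {s : LP D} {a b : D} (hab : a ≠ b) (τ κ κ' : ℤ)
    (hA : Stable A (jn a b τ κ s)) (ha : a ∉ A) (hb : b ∉ A) :
    Eqv A (jn a b τ κ s) (jn a b τ κ' s) := by
  refine ⟨hA, fun x hx => ?_⟩
  have a1 : x ≠ a := fun e => ha (e ▸ hx)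
  have a2 : x ≠ b := fun e => hb (e ▸ hx)
  rw [jn_apply _ _ _ _ _ hab, jn_apply _ _ _ _ _ hab, jn_d _ _ _ _ _ hab, jn_d _ _ _ _ _ hab]
  simp only [if_neg a1, if_neg a2]
  exact ⟨trivial, trivial⟩

/-- an exchange of names outside `A` does not change `A` -/
theorem Eqv.sw_out {A : Set D} {s : LP D} (hA : Stable A s) {a b : D} (ha : a ∉ A) (hb : b ∉ A) :
    Eqv A s (LP.sw a b s) := by
  refine ⟨hA, fun x hx => ?_⟩
  have a1 : x ≠ a := fun e => ha (e ▸ hx)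
  have a2 : x ≠ b := fun e => hb (e ▸ hx)
  have a3 : s x ≠ a := fun e => ha (e ▸ hA x hx)
  have a4 : s x ≠ b := fun e => hb (e ▸ hA x hx)
  unfold LP.sw
  rw [ren_apply, ren_d, Equiv.symm_swap, Equiv.swap_apply_of_ne_of_ne a1 a2,
    Equiv.swap_apply_of_ne_of_ne a3 a4]
  exact ⟨rfl, rfl⟩

/-! ### The tile -/

/-- The two states of a tile with the ends `z0, z1, z2, z3` (clockwise). -/
def tl (b : Bool) (z0 z1 z2 z3 : D) (g : LP D) : LP D :=
  if b then jn z0 z1 1 0 (jn z2 z3 1 0 g) else jn z0 z3 (-1) 0 (jn z1 z2 1 0 g)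

/-- the set without the four ends of a tile -/
def dz (A : Set D) (z0 z1 z2 z3 : D) : Set D := {x | x ∈ A ∧ x ≠ z0 ∧ x ≠ z1 ∧ x ≠ z2 ∧ x ≠ z3}

/-- general joins in the two states -/
def tg (b : Bool) (t1 t2 t3 t4 k1 k2 k3 k4 : ℤ) (z0 z1 z2 z3 : D) (g : LP D) : LP D :=
  if b then jn z0 z1 t1 k1 (jn z2 z3 t2 k2 g) else jn z0 z3 t3 k3 (jn z1 z2 t4 k4 g)

theorem tg_stable {A : Set D} {g : LP D} (hA : Stable A g) (b : Bool)
    (t1 t2 t3 t4 k1 k2 k3 k4 : ℤ) {z0 z1 z2 z3 : D}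
    (h0 : z0 ∈ A) (h1 : z1 ∈ A) (h2 : z2 ∈ A) (h3 : z3 ∈ A)
    (n1 : z0 ≠ z1) (n2 : z0 ≠ z2) (n3 : z0 ≠ z3) (n4 : z1 ≠ z2) (n5 : z1 ≠ z3) (n6 : z2 ≠ z3) :
    Stable (dz A z0 z1 z2 z3) (tg b t1 t2 t3 t4 k1 k2 k3 k4 z0 z1 z2 z3 g) := by
  unfold tg
  cases b
  · simp only [Bool.false_eq_true, if_false]
    have e1 := stable_jn hA h1 h2 n4 t4 k4
    have e2 := stable_jn e1 (a := z0) (b := z3) ⟨h0, n1, n2⟩ ⟨h3, n5.symm, n6.symm⟩ n3 t3 k3
    intro x hx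
    obtain ⟨x0, x1, x2, x3, x4⟩ := hx
    obtain ⟨⟨y0, y1, y2⟩, y3, y4⟩ := e2 x ⟨⟨x0, x2, x3⟩, x1, x4⟩
    exact ⟨y0, y3, y1, y2, y4⟩
  · simp only [if_true]
    have e1 := stable_jn hA h2 h3 n6 t2 k2
    have e2 := stable_jn e1 (a := z0) (b := z1) ⟨h0, n2, n3⟩ ⟨h1, n4, n5⟩ n1 t1 k1
    intro x hx
    obtain ⟨x0, x1, x2, x3, x4⟩ := hx
    obtain ⟨⟨y0, y1, y2⟩, y3, y4⟩ := e2 x ⟨⟨x0, x3, x4⟩, x1, x2⟩
    exact ⟨y0, y3, y4, y1, y2⟩

/-- the labels of the new arcs do not matter -/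
theorem tg_dummy {A : Set D} {g : LP D} (hA : Stable A g) (b : Bool)
    (t1 t2 t3 t4 k1 k2 k3 k4 k1' k2' k3' k4' : ℤ) {z0 z1 z2 z3 : D}
    (h0 : z0 ∈ A) (h1 : z1 ∈ A) (h2 : z2 ∈ A) (h3 : z3 ∈ A)
    (n1 : z0 ≠ z1) (n2 : z0 ≠ z2) (n3 : z0 ≠ z3) (n4 : z1 ≠ z2) (n5 : z1 ≠ z3) (n6 : z2 ≠ z3) :
    Eqv (dz A z0 z1 z2 z3) (tg b t1 t2 t3 t4 k1 k2 k3 k4 z0 z1 z2 z3 g)
      (tg b t1 t2 t3 t4 k1' k2' k3' k4' z0 z1 z2 z3 g) := by
  have hs := fun k1 k2 k3 k4 => tg_stable hA b t1 t2 t3 t4 k1 k2 k3 k4 h0 h1 h2 h3 n1 n2 n3 n4 n5 n6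
  have o0 : z0 ∉ dz A z0 z1 z2 z3 := fun h => h.2.1 rfl
  have o1 : z1 ∉ dz A z0 z1 z2 z3 := fun h => h.2.2.1 rfl
  have o2 : z2 ∉ dz A z0 z1 z2 z3 := fun h => h.2.2.2.1 rfl
  have o3 : z3 ∉ dz A z0 z1 z2 z3 := fun h => h.2.2.2.2 rfl
  unfold tg at hs ⊢
  cases b
  · simp only [Bool.false_eq_true, if_false] at hs ⊢
    refine (jn_dummy n3 t3 k3 k3' (hs 0 0 k3 k4) o0 o3).trans ?_
    have e1 := hs 0 0 k3' k4
    have e2 := hs 0 0 k3' k4'
    rw [jn_jn z0 z3 z1 z2 _ _ _ _ _ n3 n1 n2 n5.symm n6.symm n4] at e1 ⊢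
    rw [jn_jn z0 z3 z1 z2 t3 k3' t4 k4' _ n3 n1 n2 n5.symm n6.symm n4]
    exact jn_dummy n4 t4 k4 k4' e1 o1 o2
  · simp only [if_true] at hs ⊢
    refine (jn_dummy n1 t1 k1 k1' (hs k1 k2 0 0) o0 o1).trans ?_
    have e1 := hs k1' k2 0 0
    rw [jn_jn z0 z1 z2 z3 _ _ _ _ _ n1 n2 n3 n4 n5 n6] at e1 ⊢
    rw [jn_jn z0 z1 z2 z3 t1 k1' t2 k2' _ n1 n2 n3 n4 n5 n6]
    exact jn_dummy n6 t2 k2 k2' e1 o2 o3

/-- the tile in a gauge -/
theorem gau_tl (φ : D → ℤ) (b : Bool) (z0 z1 z2 z3 : D) (g : LP D) :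
    gau φ (tl b z0 z1 z2 z3 g) = tg b (1 + φ z0 - φ z1) (1 + φ z2 - φ z3) (-1 + φ z0 - φ z3)
      (1 + φ z1 - φ z2) (φ z0 - φ z1) (φ z2 - φ z3) (φ z0 - φ z3) (φ z1 - φ z2) z0 z1 z2 z3
      (gau φ g) := by
  unfold tl tg
  cases b
  · simp only [Bool.false_eq_true, if_false]
    rw [gau_jn, gau_jn]
    congr 1 <;> [ring; (congr 1; ring)]
  · simp only [if_true]
    rw [gau_jn, gau_jn]
    congr 1 <;> [ring; (congr 1; ring)]

theorem ren_tg (s : Equiv.Perm D) (b : Bool) (t1 t2 t3 t4 k1 k2 k3 k4 : ℤ) (z0 z1 z2 z3 : D)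
    (g : LP D) : ren s (tg b t1 t2 t3 t4 k1 k2 k3 k4 z0 z1 z2 z3 g) =
      tg b t1 t2 t3 t4 k1 k2 k3 k4 (s z0) (s z1) (s z2) (s z3) (ren s g) := by
  unfold tg
  cases b
  · simp only [Bool.false_eq_true, if_false, ren_jn]
  · simp only [if_true, ren_jn]

theorem ren_tl (s : Equiv.Perm D) (b : Bool) (z0 z1 z2 z3 : D) (g : LP D) :
    ren s (tl b z0 z1 z2 z3 g) = tl b (s z0) (s z1) (s z2) (s z3) (ren s g) := by
  unfold tl
  cases b
  · simp only [Bool.false_eq_true, if_false, ren_jn]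
  · simp only [if_true, ren_jn]

/-- **A real tile of a line is a formal crossing.** The tile with the ends `W N E S` is inserted at the
end `u` of the line and at the end `c` of the front: its ends `W`, `E` are put into the wire of `u`
and its ends `N`, `S` into the wire of `c`. -/
theorem ins_tile {A : Set D} {h : LP D} (hA : Stable A h) {W N E S u c : D}
    (mW : W ∈ A) (mN : N ∈ A) (mE : E ∈ A) (mS : S ∈ A) (mu : u ∈ A) (mc : c ∈ A)
    (n1 : W ≠ N) (n2 : W ≠ E) (n3 : W ≠ S) (n4 : N ≠ E) (n5 : N ≠ S) (n6 : E ≠ S)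
    (nu : u ≠ W ∧ u ≠ N ∧ u ≠ E ∧ u ≠ S) (nc : c ≠ W ∧ c ≠ N ∧ c ≠ E ∧ c ≠ S) (huc : u ≠ c)
    (hWE : h W = E) (dW : h.d W = 0) (hNS : h N = S) (dN : h.d N = 0) (b : Bool)
    (k1 k2 k3 k4 : ℤ) :
    Eqv (dz A W N E S) (tg b 2 2 0 0 k1 k2 k3 k4 W N E S (sw c N (sw u W h)))
      (if b then jn u c 2 2 h else sw u c h) := by
  obtain ⟨u1, u2, u3, u4⟩ := nu
  obtain ⟨c1, c2, c3, c4⟩ := nc
  set h' := sw c N (sw u W h) with hh'
  have hA' : Stable A h' := (hA.ren (swap_mem mu mW)).ren (swap_mem mc mN)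
  have hEW : h E = W := by rw [← hWE]; simp
  have hSN : h S = N := by rw [← hNS]; simp
  have dE : h.d E = 0 := by rw [← hWE, h.anti, dW]; rfl
  have dS : h.d S = 0 := by rw [← hNS, h.anti, dN]; rfl
  have gE : h' E = u := by
    rw [hh']
    unfold sw
    rw [ren_apply, ren_apply, Equiv.symm_swap, Equiv.symm_swap,
      Equiv.swap_apply_of_ne_of_ne c3.symm n4.symm, Equiv.swap_apply_of_ne_of_ne u3.symm n2.symm,
      hEW, Equiv.swap_apply_right, Equiv.swap_apply_of_ne_of_ne huc u2]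
  have gEd : h'.d E = 0 := by
    rw [hh']
    unfold sw
    rw [ren_d, ren_d, Equiv.symm_swap, Equiv.symm_swap,
      Equiv.swap_apply_of_ne_of_ne c3.symm n4.symm, Equiv.swap_apply_of_ne_of_ne u3.symm n2.symm,
      dE]
  have gS : h' S = c := by
    rw [hh']
    unfold sw
    rw [ren_apply, ren_apply, Equiv.symm_swap, Equiv.symm_swap,
      Equiv.swap_apply_of_ne_of_ne c4.symm n5.symm, Equiv.swap_apply_of_ne_of_ne u4.symm n3.symm,
      hSN, Equiv.swap_apply_of_ne_of_ne u2.symm n1.symm, Equiv.swap_apply_right]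
  have gSd : h'.d S = 0 := by
    rw [hh']
    unfold sw
    rw [ren_d, ren_d, Equiv.symm_swap, Equiv.symm_swap,
      Equiv.swap_apply_of_ne_of_ne c4.symm n5.symm, Equiv.swap_apply_of_ne_of_ne u4.symm n3.symm,
      dS]
  have key := tile_mid hA' 2 0 (!b) (W := W) (E := E) (S := N) (T := S) (Q := c) (W' := u)
    mW mE mN mS n2 n1 n3 n4.symm n6 n5 ⟨c1, c3, c2, c4⟩ ⟨u1, u3, u2, u4⟩ huc.symm gS gSd gE gEd
  have hset : dl A W E N S = dz A W N E S := by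
    ext x; unfold dl dz; simp only [Set.mem_setOf_eq]; tauto
  rw [hset] at key
  have hren : ∀ f : LP D, ren (Equiv.swap W u * Equiv.swap N c) (sw c N (sw u W f)) = f := by
    intro f
    unfold sw
    rw [← ren_mul, ← ren_mul]
    have : Equiv.swap W u * Equiv.swap N c * (Equiv.swap c N * Equiv.swap u W) = 1 := by
      rw [Equiv.swap_comm c N, Equiv.swap_comm u W]
      rw [mul_assoc, ← mul_assoc (Equiv.swap N c), Equiv.swap_mul_self, one_mul,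
        Equiv.swap_mul_self]
    rw [← mul_assoc] at this
    rw [this, ren_one]
  have sW : (Equiv.swap W u * Equiv.swap N c) W = u := by
    rw [Equiv.Perm.mul_apply, Equiv.swap_apply_of_ne_of_ne n1 c1.symm, Equiv.swap_apply_left]
  have sN : (Equiv.swap W u * Equiv.swap N c) N = c := by
    rw [Equiv.Perm.mul_apply, Equiv.swap_apply_left, Equiv.swap_apply_of_ne_of_ne c1 huc.symm]
  have e0 : ∀ k1 k2 k3 k4, tg b 2 2 0 0 k1 k2 k3 k4 W N E S h' =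
      (if b then jn W N 2 k1 (jn E S 2 k2 h') else jn W S 0 k3 (jn N E 0 k4 h')) :=
    fun _ _ _ _ => rfl
  have e1 : tile 2 0 (!b) W E N S h' = tg b 2 2 0 0 0 0 0 0 W N E S h' := by
    rw [e0]
    unfold tile
    cases b
    · rfl
    · simp only [Bool.not_true, Bool.false_eq_true, if_false, if_true]
      rw [jn_comm E S 2 0 h' n6]
      rfl
  have e2 : ren (Equiv.swap W u * Equiv.swap N c) (if (!b) then sw W N h' else jn W N 2 2 h') =
      if b then jn u c 2 2 h else sw u c h := by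
    cases b
    · simp only [Bool.not_false, if_true, Bool.false_eq_true, if_false]
      rw [ren_sw, sW, sN, hh', hren]
    · simp only [Bool.not_true, Bool.false_eq_true, if_false, if_true]
      rw [ren_jn, sW, sN, hh', hren]
  rw [e1, e2] at key
  refine Eqv.trans ?_ key
  exact (tg_dummy hA' b 2 2 0 0 k1 k2 k3 k4 0 0 0 0 mW mN mE mS n1 n2 n3 n4 n5 n6)

end LP

end Pool.Agent.H64.Q1
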