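import Pool.Agent.H64.Q1.Reg11

/-!
# The rectangle as a region
-/

namespace Pool.Agent.H64.Q1

open LP Pool.Agent.H81.G1 Pool.Agent.H13.Q1

/-- the tiles of a rectangle -/
abbrev RQ (w m : ℕ) : Type := {p : ℕ × ℕ // p.1 < w ∧ p.2 < m}

/-- the names of a rectangle -/
abbrev RA : Type := (Fin 4 × ℕ × ℕ) ⊕ Bool

/-- the other end of a wire -/
def flk (k : Fin 4) : Fin 4 := if k = 0 then 1 else if k = 1 then 0 else if k = 2 then 3 else 2

theorem flk_flk (k : Fin 4) : flk (flk k) = k := by
  fin_cases k <;> rfl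

theorem flk_ne (k : Fin 4) : flk k ≠ k := by
  fin_cases k <;> decide

/-- the wires of a rectangle -/
def rg : LP RA :=
  let f : RA → RA := fun x => match x with
    | .inl (k, x, y) => .inl (flk k, x, y)
    | .inr b => .inr (!b)
  have hf : ∀ x, f (f x) = x := by
    rintro (⟨k, x, y⟩ | b)
    · simp [f, flk_flk]
    · simp [f]
  { p := Function.Involutive.toPerm f hf
    d := fun _ => 0
    inv := hf
    ne' := by
      rintro (⟨k, x, y⟩ | b) h
      · have := Sum.inl.inj h
        rw [Prod.mk.injEq] at this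
        exact flk_ne k this.1
      · have := Sum.inr.inj h
        cases b <;> exact absurd this (by simp)
    ant := fun _ => rfl }

theorem rg_l (k : Fin 4) (x y : ℕ) : rg (.inl (k, x, y)) = .inl (flk k, x, y) := rfl

theorem rg_d (x : RA) : rg.d x = 0 := rfl

/-- the names of the wires -/
def rnm (k : Fin 4) (x y : ℕ) : RA := .inl (k, x, y)

theorem rectN (w h : ℕ) : RectN rg (.inr true) (.inr false) w h rnm where
  uv := rfl
  inj := by
    intro k x y k' x' y' _ _ h
    have := Sum.inl.inj h
    simp only [Prod.mk.injEq] at this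
    exact this
  nu := by
    intro k x y _
    exact ⟨by simp [rnm], by simp [rnm]⟩
  hor := fun x y _ _ => ⟨rfl, rfl⟩
  ver := fun x y _ _ => ⟨rfl, rfl⟩

section

variable {w m : ℕ}

/-- the ends of the tiles -/
def rer (x : RQ w m × Dir) : RA :=
  match x.2 with
  | .S => rnm 0 x.1.1.1 x.1.1.2
  | .N => rnm 1 x.1.1.1 (x.1.1.2 + 1)
  | .W => rnm 2 x.1.1.1 x.1.1.2
  | .E => rnm 3 (x.1.1.1 + 1) x.1.1.2

/-- the front, left and bottom side -/
def rf1 (w m : ℕ) (i : Fin (m + w)) : RA :=
  if (i : ℕ) < m then rnm 3 0 (m - 1 - i) else rnm 1 (i - m) 0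

/-- the front, right and top side -/
def rf2 (w m : ℕ) (i : Fin (m + w)) : RA :=
  if (i : ℕ) < m then rnm 2 w i else rnm 0 (w - 1 - (i - m)) m

/-- the directions -/
def rkf : RA → ℤ
  | .inl (k, _, _) => if k = 3 then 2 else if k = 1 then 3 else if k = 2 then 4 else 5
  | .inr _ => 0

/-- the ports of the left and bottom side -/
def rp1 (hw : 0 < w) (hm : 0 < m) (i : Fin (m + w)) : RQ w m × Dir :=
  if h : (i : ℕ) < m then (⟨(0, m - 1 - i), hw, by simp; omega⟩, .W)
  else (⟨(i - m, 0), by have := i.2; simp; omega, hm⟩, .S)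

/-- the ports of the right and top side -/
def rp2 (hw : 0 < w) (hm : 0 < m) (i : Fin (m + w)) : RQ w m × Dir :=
  if h : (i : ℕ) < m then (⟨(w - 1, i), by simp; omega, h⟩, .E)
  else (⟨(w - 1 - (i - m), m - 1), by simp; omega, by simp; omega⟩, .N)

theorem mem_rw' {y n : ℕ} {p : ℕ × ℕ} : p ∈ rw' y n ↔ p.1 < n ∧ p.2 = y := by
  unfold rw'
  rw [List.mem_reverse, List.mem_map]
  constructor
  · rintro ⟨x, hx, rfl⟩
    exact ⟨List.mem_range.1 hx, rfl⟩
  · rintro ⟨h1, h2⟩
    exact ⟨p.1, List.mem_range.2 h1, by rw [← h2]⟩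

theorem mem_rI {p : ℕ × ℕ} : p ∈ rI w m ↔ p.1 < w ∧ p.2 < m := by
  induction m with
  | zero => simp [rI]
  | succ y ih =>
    rw [rI, List.mem_append, mem_rw', ih]
    omega

theorem rw'_nodup (y n : ℕ) : (rw' y n).Nodup := by
  unfold rw'
  rw [List.nodup_reverse]
  exact List.nodup_range.map fun a b h => (Prod.mk.inj h).1

theorem rI_nodup : (rI w m).Nodup := by
  induction m with
  | zero => exact List.nodup_nil
  | succ y ih =>
    rw [rI, List.nodup_append]
    refine ⟨rw'_nodup _ _, ih, ?_⟩
    intro a ha b hb hab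
    subst hab
    have h1 := (mem_rw'.1 ha).2
    have h2 := (mem_rI.1 hb).2
    omega

/-- the list of the tiles -/
def rIs (w m : ℕ) : List (RQ w m) :=
  (rI w m).pmap Subtype.mk fun _ hp => mem_rI.1 hp

theorem front1 (w m : ℕ) (φ : ℂ) :
    List.ofFn (fun i : Fin (m + w) => (rf1 w m i, rkf (rf1 w m i), ang φ (rkf (rf1 w m i)))) =
      ((List.range m).map fun y => (rnm 3 0 y, (2 : ℤ), ang φ 2)).reverse ++
        (List.range w).map fun x => (rnm 1 x 0, (3 : ℤ), ang φ 3) := by
  apply List.ext_getElem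
  · simp
  · intro i h1 h2
    rw [List.getElem_ofFn]
    simp only [List.length_append, List.length_reverse, List.length_map, List.length_range] at h2
    by_cases hi : i < m
    · rw [List.getElem_append_left (by simpa using hi), List.getElem_reverse, List.getElem_map,
        List.getElem_range]
      simp only [List.length_map, List.length_range]
      unfold rf1
      simp only [if_pos hi]
      rfl
    · rw [List.getElem_append_right (by simpa using hi), List.getElem_map, List.getElem_range]
      simp only [List.length_reverse, List.length_map, List.length_range]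
      unfold rf1
      simp only [if_neg hi]
      rfl

theorem front2 (w m : ℕ) (φ : ℂ) :
    List.ofFn (fun i : Fin (m + w) => (rf2 w m i, rkf (rf2 w m i), ang φ (rkf (rf2 w m i)))) =
      ((List.range m).map fun y => (rnm 2 w y, (4 : ℤ), ang φ 4)) ++
        ((List.range w).map fun x => (rnm 0 x m, (5 : ℤ), ang φ 5)).reverse := by
  apply List.ext_getElem
  · simp
  · intro i h1 h2
    rw [List.getElem_ofFn]
    simp only [List.length_append, List.length_reverse, List.length_map, List.length_range] at h2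
    by_cases hi : i < m
    · rw [List.getElem_append_left (by simpa using hi), List.getElem_map,
        List.getElem_range]
      unfold rf2
      simp only [if_pos hi]
      rfl
    · rw [List.getElem_append_right (by simpa using hi), List.getElem_reverse, List.getElem_map,
        List.getElem_range]
      simp only [List.length_map, List.length_range]
      unfold rf2
      simp only [if_neg hi]
      rfl

/-- the two cases of a position on the front -/
theorem rp1_lt (hw : 0 < w) (hm : 0 < m) {i : Fin (m + w)} (h : (i : ℕ) < m) :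
    rp1 hw hm i = (⟨(0, m - 1 - i), hw, by simp; omega⟩, .W) := dif_pos h

theorem rp1_ge (hw : 0 < w) (hm : 0 < m) {i : Fin (m + w)} (h : ¬ (i : ℕ) < m) :
    rp1 hw hm i = (⟨(i - m, 0), by have := i.2; simp; omega, hm⟩, .S) := dif_neg h

theorem rp2_lt (hw : 0 < w) (hm : 0 < m) {i : Fin (m + w)} (h : (i : ℕ) < m) :
    rp2 hw hm i = (⟨(w - 1, i), by simp; omega, h⟩, .E) := dif_pos h

theorem rp2_ge (hw : 0 < w) (hm : 0 < m) {i : Fin (m + w)} (h : ¬ (i : ℕ) < m) :
    rp2 hw hm i = (⟨(w - 1 - (i - m), m - 1), by simp; omega, by simp; omega⟩, .N) := dif_neg h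

/-- wires inside the rectangle -/
theorem rer_cases (hw : 0 < w) (hm : 0 < m) (x : RQ w m × Dir) :
    (∃ y : RQ w m × Dir, rg (rer x) = rer y) ∨ (∃ i, x = rp1 hw hm i) ∨ ∃ i, x = rp2 hw hm i := by
  obtain ⟨⟨⟨a, b⟩, ha, hb⟩, d⟩ := x
  simp only at ha hb
  cases d
  · by_cases h : a = 0
    · right; left
      refine ⟨⟨m - 1 - b, by omega⟩, ?_⟩
      rw [rp1_lt hw hm (by simp only; omega)]
      simp only [Prod.mk.injEq, Subtype.mk.injEq, and_true]
      exact ⟨h, by omega⟩
    · left
      refine ⟨(⟨(a - 1, b), by simp; omega, hb⟩, .E), ?_⟩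
      change (Sum.inl (flk 2, a, b) : RA) = .inl (3, a - 1 + 1, b)
      rw [Nat.sub_add_cancel (by omega)]
      rfl
  · by_cases h : b = m - 1
    · right; right
      refine ⟨⟨m + (w - 1 - a), by omega⟩, ?_⟩
      rw [rp2_ge hw hm (by simp only; omega)]
      simp only [Prod.mk.injEq, Subtype.mk.injEq, and_true]
      exact ⟨by omega, h⟩
    · left
      exact ⟨(⟨(a, b + 1), ha, by simp; omega⟩, .S), rfl⟩
  · by_cases h : a = w - 1
    · right; right
      refine ⟨⟨b, by omega⟩, ?_⟩
      rw [rp2_lt hw hm (by simp only; omega)]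
      simp only [Prod.mk.injEq, Subtype.mk.injEq, and_true]
      exact h
    · left
      exact ⟨(⟨(a + 1, b), by simp; omega, hb⟩, .W), rfl⟩
  · by_cases h : b = 0
    · right; left
      refine ⟨⟨m + a, by omega⟩, ?_⟩
      rw [rp1_ge hw hm (by simp only; omega)]
      simp only [Prod.mk.injEq, Subtype.mk.injEq, and_true]
      exact ⟨by omega, h⟩
    · left
      refine ⟨(⟨(a, b - 1), ha, by simp; omega⟩, .N), ?_⟩
      change (Sum.inl (flk 0, a, b) : RA) = .inl (1, a, b - 1 + 1)
      rw [Nat.sub_add_cancel (by omega)]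
      rfl

theorem rer_inj : Function.Injective (rer : RQ w m × Dir → RA) := by
  rintro ⟨⟨⟨a, b⟩, ha, hb⟩, d⟩ ⟨⟨⟨a', b'⟩, ha', hb'⟩, d'⟩ h
  cases d <;> cases d' <;> simp only [rer, rnm, Sum.inl.injEq, Prod.mk.injEq] at h <;>
    first
    | exact absurd h.1 (by decide)
    | (simp only [Prod.mk.injEq, Subtype.mk.injEq, and_true]; omega)

/-- **The rectangle.** -/
noncomputable def rect (w m : ℕ) (hw : 0 < w) (hm : 0 < m) (φ : ℂ)
    (hφ : ∀ k, Complex.sin (ang φ k) ≠ 0) : Rgn (RQ w m) RA (m + w) (m + w) where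
  g := rg
  u := .inr true
  v := .inr false
  er := rer
  f1 := rf1 w m
  f2 := rf2 w m
  kf := rkf
  t1 := fun i => ang φ (rkf (rf1 w m i))
  t2 := fun i => ang φ (rkf (rf2 w m i))
  p1 := rp1 hw hm
  p2 := rp2 hw hm
  st := fun _ => .S
  I := rIs w m
  wt := fun _ => 1 / 2
  nd := by
    unfold rIs
    apply List.Nodup.pmap _ rI_nodup
    intro a ha b hb h
    exact congrArg Subtype.val h
  all := by
    rintro ⟨p, hp⟩
    unfold rIs
    rw [List.mem_pmap]
    exact ⟨p, mem_rI.2 hp, rfl⟩
  er_inj := rer_inj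
  kuv := ⟨rfl, rfl⟩
  erf := by
    rintro ⟨⟨⟨a, b⟩, ha, hb⟩, d⟩
    simp only at ha hb
    refine ⟨by cases d <;> simp [rer, rnm], by cases d <;> simp [rer, rnm], ?_, ?_⟩
    · intro i
      unfold rf1
      cases d <;> split_ifs <;> simp only [rer, rnm, ne_eq, Sum.inl.injEq, Prod.mk.injEq] <;>
        first
        | (intro h; exact absurd h.1 (by decide))
        | omega
    · intro i
      unfold rf2
      cases d <;> split_ifs <;> simp only [rer, rnm, ne_eq, Sum.inl.injEq, Prod.mk.injEq] <;>
        first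
        | (intro h; exact absurd h.1 (by decide))
        | omega
  gp1 := by
    intro i
    by_cases h : (i : ℕ) < m
    · rw [rp1_lt hw hm h]
      unfold rf1
      rw [if_pos h]
      rfl
    · rw [rp1_ge hw hm h]
      unfold rf1
      rw [if_neg h]
      rfl
  gp2 := by
    intro i
    by_cases h : (i : ℕ) < m
    · rw [rp2_lt hw hm h]
      unfold rf2
      rw [if_pos h]
      change (Sum.inl (flk 3, w - 1 + 1, (i : ℕ)) : RA) = .inl (2, w, (i : ℕ))
      rw [Nat.sub_add_cancel hw]
      rfl
    · rw [rp2_ge hw hm h]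
      unfold rf2
      rw [if_neg h]
      change (Sum.inl (flk 1, w - 1 - ((i : ℕ) - m), m - 1 + 1) : RA) =
        .inl (0, w - 1 - ((i : ℕ) - m), m)
      rw [Nat.sub_add_cancel hm]
      rfl
  cls := rer_cases hw hm
  bt := by
    obtain ⟨T, hT⟩ := rect_bt (rectN w m) hw hφ
    refine ⟨T, ?_⟩
    rw [front1, front2]
    have e : (rIs w m).map (rgT rer (fun _ => .S) (fun _ => 1 / 2)) =
        (rI w m).map (rT rnm) := by
      unfold rIs
      rw [List.map_pmap]
      rw [← List.pmap_eq_map (p := fun p => p.1 < w ∧ p.2 < m) (H := fun _ hp => mem_rI.1 hp)]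
      rfl
    rw [e]
    exact hT

end

end Pool.Agent.H64.Q1
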