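import Pool.Agent.H64.Q1.Reg1

/-!
# Regions grown inside a wiring

`g` is a wiring with labels, `l` a list of tiles whose ends are ends of `g`. `Bt g u v T l F`: the region
of the tiles `l` has been grown, `F` is the list of its free ends from left to right (name, direction,
angle of the line). The theorem `Bt.p0`: the line around the region.
-/

namespace Pool.Agent.H64.Q1

open LP Pool.Agent.H13.Q1

variable {D : Type*} [DecidableEq D]

/-! ### Angles -/

theorem sin3 (t : ℂ) : Complex.sin (3 * t) =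
    4 * Complex.sin t * Complex.sin (Real.pi / 3 - t) * Complex.sin (Real.pi / 3 + t) := by
  have hs : Complex.sin ((Real.pi : ℂ) / 3) ^ 2 = 3 / 4 := by
    have : Complex.sin ((Real.pi : ℂ) / 3) = ((Real.sin (Real.pi / 3) : ℝ) : ℂ) := by
      push_cast; rfl
    rw [this, Real.sin_pi_div_three]
    push_cast
    rw [div_pow, ← Complex.ofReal_pow, Real.sq_sqrt (by norm_num)]
    norm_num
  have hc : Complex.cos ((Real.pi : ℂ) / 3) = 1 / 2 := by
    have : Complex.cos ((Real.pi : ℂ) / 3) = ((Real.cos (Real.pi / 3) : ℝ) : ℂ) := by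
      push_cast; rfl
    rw [this, Real.cos_pi_div_three]
    push_cast; rfl
  have h1 := Complex.sin_sq_add_cos_sq t
  rw [Complex.sin_three_mul, Complex.sin_sub, Complex.sin_add, hc]
  linear_combination (-4 * Complex.sin t * Complex.cos t ^ 2) * hs - 3 * Complex.sin t * h1

/-- generic angles -/
theorem gen_ne {θ : ℂ} (h : Complex.sin θ ≠ 0) : Complex.sin (θ / 3) ≠ 0 ∧
    Complex.sin ((θ + Real.pi) / 3) ≠ 0 ∧ Complex.sin ((θ - Real.pi) / 3) ≠ 0 := by
  have e : θ = 3 * (θ / 3) := by ring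
  rw [e, sin3] at h
  refine ⟨fun h' => h (by rw [h']; ring), fun h' => h ?_, fun h' => h ?_⟩
  · have : (Real.pi : ℂ) / 3 + θ / 3 = (θ + Real.pi) / 3 := by ring
    rw [this, h']; ring
  · have : (Real.pi : ℂ) / 3 - θ / 3 = -((θ - Real.pi) / 3) := by ring
    rw [this, Complex.sin_neg, h']; ring

theorem gen_add {θ : ℂ} (h : Complex.sin θ ≠ 0) : Complex.sin (θ + Real.pi) ≠ 0 := by
  rw [Complex.sin_add_pi]; exact neg_ne_zero.2 h

theorem gen_sub {θ : ℂ} (h : Complex.sin θ ≠ 0) : Complex.sin (θ - Real.pi) ≠ 0 := by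
  rw [Complex.sin_sub_pi]; exact neg_ne_zero.2 h

theorem wa_ne {θ : ℂ} (h : Complex.sin θ ≠ 0) : wa θ ≠ 0 := by
  obtain ⟨h1, h2, -⟩ := gen_ne h
  unfold wa
  exact div_ne_zero h1 h2

theorem wa_ne_one {θ : ℂ} (h : Complex.sin θ ≠ 0) : wa θ ≠ 1 := by
  obtain ⟨-, h2, h3⟩ := gen_ne h
  intro h'
  have h4 := one_sub_wa θ h2
  rw [h', sub_self] at h4
  have h5 := (div_eq_zero_iff.1 h4.symm).resolve_right h2
  apply h3
  have : (θ - Real.pi) / 3 = -((Real.pi - θ) / 3) := by ring
  rw [this, Complex.sin_neg, h5, neg_zero]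

/-- a full turn of the line -/
theorem wa_turn {θ : ℂ} (h : Complex.sin θ ≠ 0) : wa (θ + 2 * Real.pi) = 1 - (wa θ)⁻¹ := by
  obtain ⟨h1, h2, h3⟩ := gen_ne h
  have h4 := one_sub_wa θ h2
  have e1 : Complex.sin ((θ + 2 * Real.pi) / 3) = Complex.sin ((Real.pi - θ) / 3) := by
    rw [← Complex.sin_pi_sub]
    congr 1; ring
  have e2 : Complex.sin ((θ + 2 * Real.pi + Real.pi) / 3) = -Complex.sin (θ / 3) := by
    rw [← Complex.sin_add_pi]
    congr 1; ring
  have h5 : wa (θ + 2 * Real.pi) = -(Complex.sin ((Real.pi - θ) / 3) / Complex.sin (θ / 3)) := by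
    unfold wa
    rw [e1, e2, div_neg]
  have h6 : wa θ ≠ 0 := wa_ne h
  rw [h5]
  have h7 : 1 - (wa θ)⁻¹ = -((1 - wa θ) / wa θ) := by
    field_simp
    ring
  rw [h7, h4]
  unfold wa
  field_simp

/-! ### Tiles and their states -/

/-- a tile: its ends (clockwise) and the weight of the state `z0 - z3`, `z1 - z2` -/
structure Tl (D : Type*) where
  z0 : D
  z1 : D
  z2 : D
  z3 : D
  w : ℂ

/-- the state `b` of the tile -/
def Tl.op (t : Tl D) (b : Bool) (g : LP D) : LP D := tl b t.z0 t.z1 t.z2 t.z3 g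

/-- the states of a network -/
inductive St (g : LP D) : List (Tl D) → LP D → Prop
  | nil : St g [] g
  | cons {t : Tl D} {l : List (Tl D)} {s : LP D} (b : Bool) : St g l s → St g (t :: l) (t.op b s)

/-- the mean over the states of a network -/
noncomputable def SF (g : LP D) : List (Tl D) → Module.Dual ℂ (LP D → ℂ)
  | [] => LinearMap.proj g
  | t :: l => (SF g l).comp (t.w • pb (t.op false) + (1 - t.w) • pb (t.op true))

theorem SF_nil (g : LP D) (Φ : LP D → ℂ) : SF g [] Φ = Φ g := rfl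

theorem SF_cons (g : LP D) (t : Tl D) (l : List (Tl D)) (Φ : LP D → ℂ) :
    SF g (t :: l) Φ = SF g l (fun s => t.w * Φ (t.op false s) + (1 - t.w) * Φ (t.op true s)) := rfl

theorem SF_congr (g : LP D) (l : List (Tl D)) {Φ Ψ : LP D → ℂ} (h : ∀ s, St g l s → Φ s = Ψ s) :
    SF g l Φ = SF g l Ψ := by
  induction l generalizing Φ Ψ with
  | nil => exact h g St.nil
  | cons t l ih =>
    rw [SF_cons, SF_cons]
    apply ih
    intro s hs
    rw [h _ (St.cons false hs), h _ (St.cons true hs)]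

/-! ### Growth -/

/-- an end of the front -/
abbrev Fe (D : Type*) : Type _ := D × ℤ × ℂ

/-- the front without the directions -/
noncomputable def fw (F : List (Fe D)) : List (D × ℂ) := F.map fun c => (c.1, wa c.2.2)

/-- the names of the front -/
def fn (F : List (Fe D)) : List D := F.map Prod.fst

omit [DecidableEq D] in
theorem nm_fw (F : List (Fe D)) : nm (fw F) = fn F := by
  unfold nm fw fn
  rw [List.map_map]; rfl

/-- **Growth of a region.** -/
inductive Bt (g : LP D) (u v : D) : Set D → List (Tl D) → List (Fe D) → Prop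
  | nil (h : g u = v) : Bt g u v {x | x = u ∨ x = v} [] []
  | edge {T : Set D} {l : List (Tl D)} (F1 F2 : List (Fe D)) (x : D) (k : ℤ) (θ : ℂ)
      (h : Bt g u v T l (F1 ++ F2)) (hx : x ∉ T) (hθ : Complex.sin θ ≠ 0) :
      Bt g u v {y | y ∈ T ∨ y = x ∨ y = g x} l
        (F1 ++ (x, k, θ) :: (g x, k + g.d x + 2, θ + Real.pi) :: F2)
  | fill {T : Set D} {l : List (Tl D)} (F1 F2 : List (Fe D)) (z0 z1 z2 z3 : D) (k : ℤ)
      (θ0 θ1 : ℂ) (h : Bt g u v T l (F1 ++ (z0, k, θ0) :: (z1, k - 1, θ1) ::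
        (z2, k - 2, θ0 - Real.pi) :: (z3, k - 3, θ1 - Real.pi) :: F2))
      (hw : Complex.sin ((θ1 - θ0 + Real.pi + Real.pi) / 3) ≠ 0) :
      Bt g u v T (⟨z0, z1, z2, z3, wa (θ1 - θ0 + Real.pi)⟩ :: l) (F1 ++ F2)
  | rot {T : Set D} {l : List (Tl D)} (F : List (Fe D)) (x : D) (k : ℤ) (θ : ℂ)
      (h : Bt g u v T l ((x, k, θ) :: F)) : Bt g u v T l (F ++ [(x, k + 4, θ + 2 * Real.pi)])

/-- the ends which are alive -/
def AF (u v : D) (F : List (Fe D)) : Set D := {x | x = u ∨ x = v ∨ x ∈ fn F}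

omit [DecidableEq D] in
theorem alv_fw (u v : D) (F : List (Fe D)) : Alv u v (fw F) = AF u v F := by
  unfold Alv AF
  rw [nm_fw]

/-- the combinatorial facts about a grown region -/
structure Inv (g : LP D) (u v : D) (T : Set D) (l : List (Tl D)) (F : List (Fe D)) : Prop where
  gu : g u = v
  T0 : u ∈ T ∧ v ∈ T
  Tg : ∀ x ∈ T, g x ∈ T
  F0 : u ∉ fn F ∧ v ∉ fn F
  nd : (fn F).Nodup
  FT : ∀ x ∈ fn F, x ∈ T
  gen : ∀ c ∈ F, Complex.sin c.2.2 ≠ 0
  zT : ∀ t ∈ l, ∀ z, z = t.z0 ∨ z = t.z1 ∨ z = t.z2 ∨ z = t.z3 → z ∈ T ∧ z ∉ AF u v F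
  zne : ∀ t ∈ l, t.z0 ≠ t.z1 ∧ t.z0 ≠ t.z2 ∧ t.z0 ≠ t.z3 ∧ t.z1 ≠ t.z2 ∧ t.z1 ≠ t.z3 ∧ t.z2 ≠ t.z3
  out : ∀ s, St g l s → Eqv {x | x ∉ T} g s
  alv : ∀ s, St g l s → Stable (AF u v F) s

omit [DecidableEq D] in
@[simp] theorem fn_append (F G : List (Fe D)) : fn (F ++ G) = fn F ++ fn G := List.map_append ..

omit [DecidableEq D] in
@[simp] theorem fn_cons (c : Fe D) (F : List (Fe D)) : fn (c :: F) = c.1 :: fn F := rfl

omit [DecidableEq D] in
@[simp] theorem fn_nil : fn ([] : List (Fe D)) = [] := rfl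

theorem Bt.inv {g : LP D} {u v : D} {T : Set D} {l : List (Tl D)} {F : List (Fe D)}
    (h : Bt g u v T l F) : Inv g u v T l F := by
  induction h with
  | nil h =>
    have hvu : g v = u := by rw [← h, g.invol]
    refine ⟨h, ⟨Or.inl rfl, Or.inr rfl⟩, ?_, ⟨List.not_mem_nil, List.not_mem_nil⟩, List.nodup_nil,
      fun x hx => absurd hx List.not_mem_nil, fun c hc => absurd hc List.not_mem_nil,
      fun t ht => absurd ht List.not_mem_nil, fun t ht => absurd ht List.not_mem_nil, ?_, ?_⟩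
    · rintro x (rfl | rfl)
      · exact Or.inr h
      · exact Or.inl hvu
    · intro s hs
      cases hs
      refine Eqv.refl fun x hx => ?_
      rintro (h1 | h1)
      · apply hx
        right
        rw [← g.invol x, h1, h]
      · apply hx
        left
        rw [← g.invol x, h1, hvu]
    · intro s hs
      cases hs
      rintro x (rfl | rfl | h1)
      · exact Or.inr (Or.inl h)
      · exact Or.inl hvu
      · exact absurd h1 List.not_mem_nil
  | edge F1 F2 x k θ h hx hθ ih =>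
    rename_i T l
    have hgx : g x ∉ T := fun h1 => hx (by have := ih.Tg _ h1; rwa [g.invol] at this)
    have hxg : x ≠ g x := g.ne2 x
    have nF : ∀ y, y ∉ T → y ∉ fn (F1 ++ F2) := fun y hy h1 => hy (ih.FT y h1)
    have x1 := nF x hx
    have x2 := nF _ hgx
    rw [fn_append, List.mem_append, not_or] at x1 x2
    have hmem : ∀ y, y ∈ fn (F1 ++ (x, k, θ) :: (g x, k + g.d x + 2, θ + Real.pi) :: F2) ↔
        y ∈ fn (F1 ++ F2) ∨ y = x ∨ y = g x := by
      intro y
      simp only [fn_append, fn_cons, List.mem_append, List.mem_cons]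
      tauto
    have hAF : ∀ y, y ∈ AF u v (F1 ++ (x, k, θ) :: (g x, k + g.d x + 2, θ + Real.pi) :: F2) ↔
        y ∈ AF u v (F1 ++ F2) ∨ y = x ∨ y = g x := by
      intro y
      unfold AF
      simp only [Set.mem_setOf_eq]
      rw [hmem]
      tauto
    refine ⟨ih.gu, ⟨Or.inl ih.T0.1, Or.inl ih.T0.2⟩, ?_, ?_, ?_, ?_, ?_, ?_, ih.zne, ?_, ?_⟩
    · rintro y (hy | rfl | rfl)
      · exact Or.inl (ih.Tg y hy)
      · exact Or.inr (Or.inr rfl)
      · exact Or.inr (Or.inl (g.invol x))
    · rw [hmem, hmem]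
      refine ⟨?_, ?_⟩
      · rintro (h1 | h1 | h1)
        · exact ih.F0.1 h1
        · exact hx (h1 ▸ ih.T0.1)
        · exact hgx (h1 ▸ ih.T0.1)
      · rintro (h1 | h1 | h1)
        · exact ih.F0.2 h1
        · exact hx (h1 ▸ ih.T0.2)
        · exact hgx (h1 ▸ ih.T0.2)
    · have hnd := ih.nd
      rw [fn_append, List.nodup_append] at hnd
      obtain ⟨d1, d2, d3⟩ := hnd
      rw [fn_append, fn_cons, fn_cons, List.nodup_append, List.nodup_cons, List.nodup_cons]
      refine ⟨d1, ⟨?_, x2.2, d2⟩, ?_⟩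
      · rw [List.mem_cons, not_or]
        exact ⟨hxg, x1.2⟩
      · intro a ha b hb
        rw [List.mem_cons, List.mem_cons] at hb
        rcases hb with rfl | rfl | hb
        · rintro rfl; exact x1.1 ha
        · rintro rfl; exact x2.1 ha
        · exact d3 a ha b hb
    · intro y hy
      rcases (hmem y).1 hy with h1 | h1 | h1
      · exact Or.inl (ih.FT y h1)
      · exact Or.inr (Or.inl h1)
      · exact Or.inr (Or.inr h1)
    · intro c hc
      rw [List.mem_append, List.mem_cons, List.mem_cons] at hc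
      rcases hc with hc | rfl | rfl | hc
      · exact ih.gen c (List.mem_append_left _ hc)
      · exact hθ
      · exact gen_add hθ
      · exact ih.gen c (List.mem_append_right _ hc)
    · intro t ht z hz
      obtain ⟨h1, h2⟩ := ih.zT t ht z hz
      refine ⟨Or.inl h1, ?_⟩
      rw [hAF]
      rintro (h3 | h3 | h3)
      · exact h2 h3
      · exact hx (h3 ▸ h1)
      · exact hgx (h3 ▸ h1)
    · intro s hs
      have h1 := ih.out s hs
      refine h1.mono (fun y hy h2 => hy (Or.inl h2)) ?_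
      intro y hy h2
      apply hy
      rcases h2 with h2 | h2 | h2
      · left
        have := ih.Tg _ h2
        rwa [g.invol] at this
      · right; right
        rw [← h2, g.invol]
      · right; left
        exact g.p.injective h2
    · intro s hs y hy
      rw [hAF] at hy ⊢
      have h1 := (ih.out s hs).2 x hx
      rcases hy with hy | rfl | rfl
      · exact Or.inl (ih.alv s hs y hy)
      · right; right
        exact h1.1.symm
      · right; left
        rw [h1.1, s.invol]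
  | fill F1 F2 z0 z1 z2 z3 k θ0 θ1 h hw ih =>
    rename_i T l
    have hnd := ih.nd
    have e0 : fn (F1 ++ (z0, k, θ0) :: (z1, k - 1, θ1) :: (z2, k - 2, θ0 - Real.pi) ::
        (z3, k - 3, θ1 - Real.pi) :: F2) = fn F1 ++ z0 :: z1 :: z2 :: z3 :: fn F2 := by
      rw [fn_append]; rfl
    have hmem : ∀ y, y ∈ fn (F1 ++ (z0, k, θ0) :: (z1, k - 1, θ1) ::
        (z2, k - 2, θ0 - Real.pi) :: (z3, k - 3, θ1 - Real.pi) :: F2) ↔
        y ∈ fn (F1 ++ F2) ∨ y = z0 ∨ y = z1 ∨ y = z2 ∨ y = z3 := by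
      intro y
      rw [e0]
      simp only [fn_append, List.mem_append, List.mem_cons]
      tauto
    rw [e0, List.nodup_append] at hnd
    obtain ⟨d1, d2, d3⟩ := hnd
    simp only [List.nodup_cons, List.mem_cons, not_or] at d2
    obtain ⟨⟨n1, n2, n3, m0⟩, ⟨n4, n5, m1⟩, ⟨n6, m2⟩, m3, d4⟩ := d2
    have o0 : z0 ∉ fn F1 := fun h1 => d3 _ h1 z0 (by simp) rfl
    have o1 : z1 ∉ fn F1 := fun h1 => d3 _ h1 z1 (by simp) rfl
    have o2 : z2 ∉ fn F1 := fun h1 => d3 _ h1 z2 (by simp) rfl
    have o3 : z3 ∉ fn F1 := fun h1 => d3 _ h1 z3 (by simp) rfl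
    have q0 := ih.F0
    have hz : ∀ z, z = z0 ∨ z = z1 ∨ z = z2 ∨ z = z3 → z ∈ T ∧ z ∉ AF u v (F1 ++ F2) := by
      intro z hz
      have h1 := (hmem z).2 (Or.inr hz)
      refine ⟨ih.FT z h1, ?_⟩
      rintro (h2 | h2 | h2)
      · exact q0.1 (h2 ▸ h1)
      · exact q0.2 (h2 ▸ h1)
      · rw [fn_append, List.mem_append] at h2
        rcases hz with rfl | rfl | rfl | rfl
        · exact h2.elim o0 m0
        · exact h2.elim o1 m1
        · exact h2.elim o2 m2
        · exact h2.elim o3 m3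
    have hAF : AF u v (F1 ++ F2) = dz (AF u v (F1 ++ (z0, k, θ0) :: (z1, k - 1, θ1) ::
        (z2, k - 2, θ0 - Real.pi) :: (z3, k - 3, θ1 - Real.pi) :: F2)) z0 z1 z2 z3 := by
      ext y
      constructor
      · intro hy
        refine ⟨?_, fun e => (hz y (Or.inl e)).2 hy, fun e => (hz y (Or.inr (Or.inl e))).2 hy,
          fun e => (hz y (Or.inr (Or.inr (Or.inl e)))).2 hy,
          fun e => (hz y (Or.inr (Or.inr (Or.inr e)))).2 hy⟩
        rcases hy with h1 | h1 | h1
        · exact Or.inl h1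
        · exact Or.inr (Or.inl h1)
        · exact Or.inr (Or.inr ((hmem y).2 (Or.inl h1)))
      · rintro ⟨h1 | h1 | h1, y0, y1, y2, y3⟩
        · exact Or.inl h1
        · exact Or.inr (Or.inl h1)
        · rcases (hmem y).1 h1 with h2 | h2 | h2 | h2 | h2
          · exact Or.inr (Or.inr h2)
          · exact absurd h2 y0
          · exact absurd h2 y1
          · exact absurd h2 y2
          · exact absurd h2 y3
    have hza : ∀ z, z = z0 ∨ z = z1 ∨ z = z2 ∨ z = z3 → z ∈ AF u v (F1 ++ (z0, k, θ0) ::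
        (z1, k - 1, θ1) :: (z2, k - 2, θ0 - Real.pi) :: (z3, k - 3, θ1 - Real.pi) :: F2) :=
      fun z hz => Or.inr (Or.inr ((hmem z).2 (Or.inr hz)))
    refine ⟨ih.gu, ih.T0, ih.Tg, ?_, ?_, ?_, ?_, ?_, ?_, ?_, ?_⟩
    · exact ⟨fun h1 => q0.1 ((hmem _).2 (Or.inl h1)), fun h1 => q0.2 ((hmem _).2 (Or.inl h1))⟩
    · rw [fn_append, List.nodup_append]
      exact ⟨d1, d4, fun a ha b hb => d3 a ha b (by simp [hb])⟩
    · exact fun x hx => ih.FT x ((hmem x).2 (Or.inl hx))
    · intro c hc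
      apply ih.gen c
      rw [List.mem_append] at hc ⊢
      rcases hc with hc | hc
      · exact Or.inl hc
      · right
        exact List.mem_cons_of_mem _ (List.mem_cons_of_mem _ (List.mem_cons_of_mem _
          (List.mem_cons_of_mem _ hc)))
    · intro t ht z hzt
      rcases List.mem_cons.1 ht with rfl | ht
      · exact hz z hzt
      · obtain ⟨h1, h2⟩ := ih.zT t ht z hzt
        refine ⟨h1, fun h3 => h2 ?_⟩
        rw [hAF] at h3
        exact h3.1
    · intro t ht
      rcases List.mem_cons.1 ht with rfl | ht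
      · exact ⟨n1, n2, n3, n4, n5, n6⟩
      · exact ih.zne t ht
    · intro s hs
      cases hs with
      | cons b hs =>
        rename_i s
        have h1 := ih.out s hs
        have t0 : z0 ∉ {x | x ∉ T} := fun h => h (hz z0 (Or.inl rfl)).1
        have t1 : z1 ∉ {x | x ∉ T} := fun h => h (hz z1 (Or.inr (Or.inl rfl))).1
        have t2 : z2 ∉ {x | x ∉ T} := fun h => h (hz z2 (Or.inr (Or.inr (Or.inl rfl)))).1
        have t3 : z3 ∉ {x | x ∉ T} := fun h => h (hz z3 (Or.inr (Or.inr (Or.inr rfl)))).1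
        refine h1.trans ?_
        unfold Tl.op tl
        cases b
        · simp only [Bool.false_eq_true, if_false]
          have e1 := Eqv.jn_out h1.stable t1 t2 1 0
          exact e1.trans (Eqv.jn_out e1.stable t0 t3 (-1) 0)
        · simp only [if_true]
          have e1 := Eqv.jn_out h1.stable t2 t3 1 0
          exact e1.trans (Eqv.jn_out e1.stable t0 t1 1 0)
    · intro s hs
      cases hs with
      | cons b hs =>
        rename_i s
        rw [hAF]
        exact tg_stable (ih.alv s hs) b 1 1 (-1) 1 0 0 0 0 (hza _ (Or.inl rfl))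
          (hza _ (Or.inr (Or.inl rfl))) (hza _ (Or.inr (Or.inr (Or.inl rfl))))
          (hza _ (Or.inr (Or.inr (Or.inr rfl)))) n1 n2 n3 n4 n5 n6
  | rot F x k θ h ih =>
    rename_i T l
    have hmem : ∀ y, y ∈ fn (F ++ [(x, k + 4, θ + 2 * Real.pi)]) ↔ y ∈ fn ((x, k, θ) :: F) := by
      intro y
      simp only [fn_append, fn_cons, fn_nil, List.mem_append, List.mem_cons, List.not_mem_nil,
        or_false]
      tauto
    have hAF : AF u v (F ++ [(x, k + 4, θ + 2 * Real.pi)]) = AF u v ((x, k, θ) :: F) := by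
      ext y
      unfold AF
      simp only [Set.mem_setOf_eq]
      rw [hmem]
    refine ⟨ih.gu, ih.T0, ih.Tg, ?_, ?_, ?_, ?_, ?_, ih.zne, ih.out, ?_⟩
    · rw [hmem, hmem]; exact ih.F0
    · have hnd := ih.nd
      rw [fn_cons, List.nodup_cons] at hnd
      rw [fn_append, List.nodup_append]
      refine ⟨hnd.2, by simp, ?_⟩
      intro a ha b hb
      simp only [fn_cons, fn_nil, List.mem_cons, List.not_mem_nil, or_false] at hb
      subst hb
      rintro rfl
      exact hnd.1 ha
    · intro y hy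
      exact ih.FT y ((hmem y).1 hy)
    · intro c hc
      rw [List.mem_append, List.mem_singleton] at hc
      rcases hc with hc | rfl
      · exact ih.gen c (List.mem_cons_of_mem _ hc)
      · have h1 := ih.gen (x, k, θ) List.mem_cons_self
        have e : θ + 2 * (Real.pi : ℂ) = θ + Real.pi + Real.pi := by ring
        change Complex.sin (θ + 2 * Real.pi) ≠ 0
        rw [e]
        exact gen_add (gen_add h1)
    · rw [hAF]; exact ih.zT
    · rw [hAF]; exact ih.alv

end Pool.Agent.H64.Q1
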