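import Pool.Agent.H64.Q1.Reg2

/-!
# The line around a region
-/

namespace Pool.Agent.H64.Q1

open LP Pool.Agent.H13.Q1

variable {D : Type*} [DecidableEq D]

omit [DecidableEq D] in
theorem fw_append (F G : List (Fe D)) : fw (F ++ G) = fw F ++ fw G := List.map_append ..

omit [DecidableEq D] in
theorem fw_cons (c : Fe D) (F : List (Fe D)) : fw (c :: F) = (c.1, wa c.2.2) :: fw F := rfl

/-- the functional of a grown region in a gauge -/
noncomputable def SG (g : LP D) (l : List (Tl D)) (κ : D → ℤ) : Module.Dual ℂ (LP D → ℂ) :=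
  (SF g l).comp (pb (gau κ))

theorem SG_apply (g : LP D) (l : List (Tl D)) (κ : D → ℤ) (Φ : LP D → ℂ) :
    SG g l κ Φ = SF g l (fun s => Φ (gau κ s)) := rfl

theorem comp_pb (S : Module.Dual ℂ (LP D → ℂ)) (m : LP D → LP D) (Φ : LP D → ℂ) :
    (S.comp (pb m)) Φ = S (fun s => Φ (m s)) := rfl

/-- **The line around a region.** -/
theorem Bt.p0 {g : LP D} {u v : D} {T : Set D} {l : List (Tl D)} {F : List (Fe D)}
    (h : Bt g u v T l F) : ∀ κ : D → ℤ, (∀ c ∈ F, κ c.1 = c.2.1) →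
    P0 2 u v (fw F) (SG g l κ) := by
  induction h with
  | nil h =>
    intro κ _
    have huv : u ≠ v := by rw [← h]; exact g.ne2 u
    exact P0.nil huv (g := gau κ g) h (fun Φ _ => rfl)
  | edge F1 F2 x k θ h hx hθ ih =>
    rename_i T l
    intro κ hκ
    have hI := h.inv
    have hI' := (Bt.edge F1 F2 x k θ h hx hθ).inv
    have hκ1 : ∀ c ∈ F1 ++ F2, κ c.1 = c.2.1 := by
      intro c hc
      apply hκ
      rw [List.mem_append] at hc ⊢
      rcases hc with hc | hc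
      · exact Or.inl hc
      · exact Or.inr (List.mem_cons_of_mem _ (List.mem_cons_of_mem _ hc))
    have kx : κ x = k := hκ (x, k, θ) (by simp)
    have kgx : κ (g x) = k + g.d x + 2 := hκ (g x, k + g.d x + 2, θ + Real.pi) (by simp)
    have h0 := ih κ hκ1
    rw [fw_append] at h0
    obtain ⟨g1, g2, g3⟩ := gen_ne hθ
    obtain ⟨g4, g5, g6⟩ := gen_ne (gen_add hθ)
    have hfr : Frt u v (fw (F1 ++ (x, k, θ) :: (g x, k + g.d x + 2, θ + Real.pi) :: F2)) := by
      refine ⟨by rw [← hI.gu]; exact g.ne2 u, by rw [nm_fw]; exact hI'.nd, by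
        rw [nm_fw]; exact hI'.F0.1, by rw [nm_fw]; exact hI'.F0.2, ?_⟩
      intro c hc
      obtain ⟨d, hd, rfl⟩ := List.mem_map.1 hc
      exact wa_ne (hI'.gen d hd)
    rw [fw_append, fw_cons, fw_cons] at hfr ⊢
    simp only at hfr ⊢
    have H : Fxy u v x (g x) (fw F1) (fw F2) := hfr.fxy.1
    have e1 : θ = θ + Real.pi - Real.pi := by ring
    have h1 := P0.cup_wa (α := θ + Real.pi) h0 H (by rw [← e1]; exact wa_ne hθ) g5
      (by rw [← e1]; exact g2) 0
    rw [← e1] at h1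
    refine h1.mod fun Φ _ => ?_
    rw [SG_apply, comp_pb, SG_apply]
    apply SF_congr
    intro s hs
    obtain ⟨s1, s2⟩ := (hI.out s hs).2 x hx
    have e2 : LP.jn x (g x) 0 (-2) (gau κ s) = gau κ s := by
      apply jn_of_eq
      · exact s1.symm
      · rw [gau_d, ← s1, ← s2, kx, kgx]; ring
    rw [e2]
  | fill F1 F2 z0 z1 z2 z3 k θ0 θ1 h hw ih =>
    rename_i T l
    intro κ' hκ'
    have hI := h.inv
    have hI' := (Bt.fill F1 F2 z0 z1 z2 z3 k θ0 θ1 h hw).inv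
    obtain ⟨n1, n2, n3, n4, n5, n6⟩ := hI'.zne _ List.mem_cons_self
    simp only at n1 n2 n3 n4 n5 n6
    set κ : D → ℤ := fun x => if x = z0 then k else if x = z1 then k - 1 else
      if x = z2 then k - 2 else if x = z3 then k - 3 else κ' x with hκdef
    have k0 : κ z0 = k := if_pos rfl
    have k1 : κ z1 = k - 1 := by rw [hκdef]; simp [n1.symm]
    have k2 : κ z2 = k - 2 := by rw [hκdef]; simp [n2.symm, n4.symm]
    have k3 : κ z3 = k - 3 := by rw [hκdef]; simp [n3.symm, n5.symm, n6.symm]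
    have kother : ∀ x, x ≠ z0 → x ≠ z1 → x ≠ z2 → x ≠ z3 → κ x = κ' x := by
      intro x a b c d
      rw [hκdef]; simp [a, b, c, d]
    have hz := hI'.zT _ List.mem_cons_self
    simp only at hz
    have hzF : ∀ z, z = z0 ∨ z = z1 ∨ z = z2 ∨ z = z3 → z ∉ fn (F1 ++ F2) := fun z hz' h1 =>
      (hz z hz').2 (Or.inr (Or.inr h1))
    have hκ : ∀ c ∈ F1 ++ (z0, k, θ0) :: (z1, k - 1, θ1) :: (z2, k - 2, θ0 - Real.pi) ::
        (z3, k - 3, θ1 - Real.pi) :: F2, κ c.1 = c.2.1 := by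
      intro c hc
      have hoth : c ∈ F1 ++ F2 → κ c.1 = c.2.1 := by
        intro hc
        have hm : c.1 ∈ fn (F1 ++ F2) := List.mem_map_of_mem hc
        rw [kother c.1 (fun e => hzF _ (Or.inl e) hm) (fun e => hzF _ (Or.inr (Or.inl e)) hm)
          (fun e => hzF _ (Or.inr (Or.inr (Or.inl e))) hm)
          (fun e => hzF _ (Or.inr (Or.inr (Or.inr e))) hm)]
        exact hκ' c hc
      simp only [List.mem_append, List.mem_cons] at hc hoth
      rcases hc with hc | rfl | rfl | rfl | rfl | hc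
      · exact hoth (Or.inl hc)
      · exact k0
      · exact k1
      · exact k2
      · exact k3
      · exact hoth (Or.inr hc)
    have h0 := ih κ hκ
    have gen : ∀ c ∈ F1 ++ (z0, k, θ0) :: (z1, k - 1, θ1) :: (z2, k - 2, θ0 - Real.pi) ::
        (z3, k - 3, θ1 - Real.pi) :: F2, Complex.sin c.2.2 ≠ 0 := hI.gen
    have gθ0 : Complex.sin θ0 ≠ 0 := gen (z0, k, θ0) (by simp)
    have gθ1 : Complex.sin θ1 ≠ 0 := gen (z1, k - 1, θ1) (by simp)
    obtain ⟨a1, a2, a3⟩ := gen_ne gθ0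
    obtain ⟨b1, b2, b3⟩ := gen_ne gθ1
    have c0 : θ0 - (Real.pi : ℂ) + Real.pi = θ0 := by ring
    have c1 : θ1 - (Real.pi : ℂ) + Real.pi = θ1 := by ring
    set w : ℂ := θ1 - θ0 + Real.pi with hwdef
    have hθ1 : θ1 = θ0 + w - Real.pi := by rw [hwdef]; ring
    simp only [fw_append, fw_cons] at h0 ⊢
    rw [hθ1] at h0
    have hc2 : θ0 + w - (Real.pi : ℂ) + Real.pi = θ1 + Real.pi := by rw [hwdef]; ring
    have h1 := P0.tile_wa (w := w) h0 a2 (by rw [hc2]; exact b2) hw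
    rw [← hθ1] at h1
    have h2 : P0 2 u v ((fw F1 ++ [(z1, wa θ1)]) ++ (z0, wa θ0) :: (z2, wa (θ0 - Real.pi)) ::
        ((z3, wa (θ1 - Real.pi)) :: fw F2))
        ((SG g l κ).comp (Rop 2 z0 z1 (wa w) (1 - wa w))) := by
      simpa using h1
    have h3 := P0.cap_wa h2 a2 (by rw [c0]; exact a1) 2
    have h4 : P0 2 u v (fw F1 ++ (z1, wa θ1) :: (z3, wa (θ1 - Real.pi)) :: fw F2)
        (((SG g l κ).comp (Rop 2 z0 z1 (wa w) (1 - wa w))).comp (pb (LP.jn z0 z2 2 2))) := by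
      simpa using h3
    have h5 := P0.cap_wa h4 b2 (by rw [c1]; exact b1) 0
    refine h5.mod fun Φ hΦ => ?_
    rw [SG_apply, SF_cons]
    have eR : (((((SG g l κ).comp (Rop 2 z0 z1 (wa w) (1 - wa w))).comp (pb (LP.jn z0 z2 2 2))).comp
        (pb (LP.jn z1 z3 2 0))) Φ) = SF g l (fun s =>
          wa w * Φ (LP.jn z1 z3 2 0 (LP.jn z0 z2 2 2 (sw z0 z1 (gau κ s)))) +
          (1 - wa w) * Φ (LP.jn z1 z3 2 0 (LP.jn z0 z2 2 2 (LP.jn z0 z1 2 2 (gau κ s))))) := rfl
    rw [eR]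
    apply SF_congr
    intro s hs
    have hA := hI.alv s hs
    set A := AF u v (F1 ++ (z0, k, θ0) :: (z1, k - 1, θ1) :: (z2, k - 2, θ0 - Real.pi) ::
        (z3, k - 3, θ1 - Real.pi) :: F2) with hAdef
    have hmA : ∀ z, z = z0 ∨ z = z1 ∨ z = z2 ∨ z = z3 → z ∈ A := by
      intro z hz'
      refine Or.inr (Or.inr ?_)
      simp only [fn_append, fn_cons, List.mem_append, List.mem_cons]
      tauto
    have m0 := hmA z0 (Or.inl rfl)
    have m1 := hmA z1 (Or.inr (Or.inl rfl))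
    have m2 := hmA z2 (Or.inr (Or.inr (Or.inl rfl)))
    have m3 := hmA z3 (Or.inr (Or.inr (Or.inr rfl)))
    have hset : Alv u v (fw F1 ++ fw F2) = dz A z0 z1 z2 z3 := by
      rw [← fw_append, alv_fw]
      ext y
      constructor
      · intro hy
        refine ⟨?_, fun e => (hz y (Or.inl e)).2 hy, fun e => (hz y (Or.inr (Or.inl e))).2 hy,
          fun e => (hz y (Or.inr (Or.inr (Or.inl e)))).2 hy,
          fun e => (hz y (Or.inr (Or.inr (Or.inr e)))).2 hy⟩
        rcases hy with h1 | h1 | h1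
        · exact Or.inl h1
        · exact Or.inr (Or.inl h1)
        · refine Or.inr (Or.inr ?_)
          simp only [fn_append, fn_cons, List.mem_append, List.mem_cons] at h1 ⊢
          tauto
      · rintro ⟨h1 | h1 | h1, y0, y1, y2, y3⟩
        · exact Or.inl h1
        · exact Or.inr (Or.inl h1)
        · refine Or.inr (Or.inr ?_)
          simp only [fn_append, fn_cons, List.mem_append, List.mem_cons] at h1 ⊢
          tauto
    have hA' : Stable A (gau κ s) := fun x hx => hA x hx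
    -- the gauges κ and κ' agree on the new front
    have hgau : ∀ r : LP D, Stable (dz A z0 z1 z2 z3) r →
        Eqv (dz A z0 z1 z2 z3) (gau κ' r) (gau κ r) := by
      intro r hr
      refine ⟨fun x hx => hr x hx, fun x hx => ⟨rfl, ?_⟩⟩
      have hx' := hr x hx
      rw [gau_d, gau_d, kother x hx.2.1 hx.2.2.1 hx.2.2.2.1 hx.2.2.2.2,
        kother (r x) hx'.2.1 hx'.2.2.1 hx'.2.2.2.1 hx'.2.2.2.2]
    have hstab : ∀ b, Stable (dz A z0 z1 z2 z3) (tl b z0 z1 z2 z3 s) := fun b =>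
      tg_stable hA b 1 1 (-1) 1 0 0 0 0 m0 m1 m2 m3 n1 n2 n3 n4 n5 n6
    have o1 : z1 ∉ dz A z0 z1 z2 z3 := fun h => h.2.2.1 rfl
    have o2 : z2 ∉ dz A z0 z1 z2 z3 := fun h => h.2.2.2.1 rfl
    have o0 : z0 ∉ dz A z0 z1 z2 z3 := fun h => h.2.1 rfl
    have step1 : ∀ b, Eqv (dz A z0 z1 z2 z3) (gau κ' (tl b z0 z1 z2 z3 s))
        (tg b 2 2 2 2 0 0 0 0 z0 z1 z2 z3 (gau κ s)) := by
      intro b
      refine (hgau _ (hstab b)).trans ?_
      rw [gau_tl, k0, k1, k2, k3]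
      have t1 : (1 : ℤ) + k - (k - 1) = 2 := by ring
      have t2 : (1 : ℤ) + (k - 2) - (k - 3) = 2 := by ring
      have t3 : (-1 : ℤ) + k - (k - 3) = 2 := by ring
      have t4 : (1 : ℤ) + (k - 1) - (k - 2) = 2 := by ring
      rw [t1, t2, t3, t4]
      exact tg_dummy hA' b 2 2 2 2 _ _ _ _ _ _ _ _ m0 m1 m2 m3 n1 n2 n3 n4 n5 n6
    rw [hset] at hΦ
    have hf : Φ (gau κ' (tl false z0 z1 z2 z3 s)) =
        Φ (LP.jn z1 z3 2 0 (LP.jn z0 z2 2 2 (sw z0 z1 (gau κ s)))) := by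
      apply hΦ
      refine (step1 false).trans ?_
      have e1 : LP.jn z1 z3 2 0 (LP.jn z0 z2 2 2 (sw z0 z1 (gau κ s))) =
          sw z0 z1 (tg false 2 2 2 2 0 0 0 2 z0 z1 z2 z3 (gau κ s)) := by
        unfold tg
        simp only [Bool.false_eq_true, if_false]
        rw [sw_jn, sw_jn, Equiv.swap_apply_left, Equiv.swap_apply_right,
          Equiv.swap_apply_of_ne_of_ne n2.symm n4.symm,
          Equiv.swap_apply_of_ne_of_ne n3.symm n5.symm]
      rw [e1]
      refine (tg_dummy hA' false 2 2 2 2 0 0 0 0 0 0 0 2 m0 m1 m2 m3 n1 n2 n3 n4 n5 n6).trans ?_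
      exact Eqv.sw_out (tg_stable hA' false 2 2 2 2 0 0 0 2 m0 m1 m2 m3 n1 n2 n3 n4 n5 n6) o0 o1
    have ht : Φ (gau κ' (tl true z0 z1 z2 z3 s)) =
        Φ (LP.jn z1 z3 2 0 (LP.jn z0 z2 2 2 (LP.jn z0 z1 2 2 (gau κ s)))) := by
      apply hΦ
      refine (step1 true).trans ?_
      have e1 : LP.jn z1 z3 2 0 (LP.jn z0 z2 2 2 (LP.jn z0 z1 2 2 (gau κ s))) =
          sw z1 z2 (tg true 2 2 2 2 2 0 0 0 z0 z1 z2 z3 (gau κ s)) := by
        rw [jn_share (jn_left z0 z1 2 2 _ n1) (jn_d_left z0 z1 2 2 _ n1) n2]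
        unfold tg
        simp only [if_true]
        rw [jn_jn z0 z1 z2 z3 _ _ _ _ _ n1 n2 n3 n4 n5 n6, sw_jn z1 z2 z2 z3,
          Equiv.swap_apply_right, Equiv.swap_apply_of_ne_of_ne n5.symm n6.symm]
      rw [e1]
      refine (tg_dummy hA' true 2 2 2 2 0 0 0 0 2 0 0 0 m0 m1 m2 m3 n1 n2 n3 n4 n5 n6).trans ?_
      exact Eqv.sw_out (tg_stable hA' true 2 2 2 2 2 0 0 0 m0 m1 m2 m3 n1 n2 n3 n4 n5 n6) o1 o2
    change wa w * Φ (gau κ' (tl false z0 z1 z2 z3 s)) + (1 - wa w) *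
      Φ (gau κ' (tl true z0 z1 z2 z3 s)) = _
    rw [hf, ht]
  | rot F x k θ h ih =>
    rename_i T l
    intro κ' hκ'
    have hI := h.inv
    have hx : x ∉ fn F := by
      have := hI.nd
      rw [fn_cons, List.nodup_cons] at this
      exact this.1
    have kx' : κ' x = k + 4 := hκ' (x, k + 4, θ + 2 * Real.pi) (by simp)
    set κ : D → ℤ := fun y => if y = x then k else κ' y with hκdef
    have hκ : ∀ c ∈ (x, k, θ) :: F, κ c.1 = c.2.1 := by
      intro c hc
      rcases List.mem_cons.1 hc with rfl | hc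
      · exact if_pos rfl
      · have : c.1 ≠ x := fun e => hx (e ▸ List.mem_map_of_mem hc)
        rw [hκdef]
        simp only [if_neg this]
        exact hκ' c (List.mem_append_left _ hc)
    have h0 := ih κ hκ
    have gθ : Complex.sin θ ≠ 0 := hI.gen (x, k, θ) (by simp)
    rw [fw_cons] at h0
    have h1 := P0.rot h0 (wa_ne_one gθ)
    rw [← wa_turn gθ] at h1
    have e : fw (F ++ [(x, k + 4, θ + 2 * Real.pi)]) = fw F ++ [(x, wa (θ + 2 * Real.pi))] := by
      rw [fw_append]; rfl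
    rw [e]
    refine h1.mod fun Φ _ => ?_
    rw [SG_apply, comp_pb, SG_apply]
    apply SF_congr
    intro s _
    congr 1
    apply LP.ext
    · intro t; rfl
    · intro t
      rw [gau_d, gau_d, gau_d, gau_apply]
      have e1 : ∀ y, κ' y = κ y + g1 x (2 * 2) y := by
        intro y
        unfold g1
        rw [hκdef]
        simp only
        by_cases hy : y = x
        · rw [if_pos hy, if_pos hy, hy, kx']; ring
        · rw [if_neg hy, if_neg hy]; ring
      rw [e1, e1]; ring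

end Pool.Agent.H64.Q1
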