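import Pool.Agent.H64.Q1.Reg3

/-!
# The exchange of a line made of real tiles around a region
-/

namespace Pool.Agent.H64.Q1

open LP Pool.Agent.H13.Q1

variable {D : Type*} [DecidableEq D]

/-! ### Gluing of two pairings along a union of arcs -/

open Classical in
/-- the pairing `s` on `A` and `G` elsewhere -/
noncomputable def glue (A : Set D) (s G : LP D) (hs : Stable A s) (hG : Stable A G) : LP D where
  p := Function.Involutive.toPerm (fun x => if x ∈ A then s x else G x) (by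
    intro x
    by_cases hx : x ∈ A
    · simp only [if_pos hx, if_pos (hs x hx), s.invol]
    · have : G x ∉ A := fun h => hx (by have := hG _ h; rwa [G.invol] at this)
      simp only [if_neg hx, if_neg this, G.invol])
  d := fun x => if x ∈ A then s.d x else G.d x
  inv := fun x => by
    change (fun x => if x ∈ A then s x else G x) ((fun x => if x ∈ A then s x else G x) x) = x
    by_cases hx : x ∈ A
    · simp only [if_pos hx, if_pos (hs x hx), s.invol]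
    · have : G x ∉ A := fun h => hx (by have := hG _ h; rwa [G.invol] at this)
      simp only [if_neg hx, if_neg this, G.invol]
  ne' := fun x => by
    change (if x ∈ A then s x else G x) ≠ x
    by_cases hx : x ∈ A
    · rw [if_pos hx]; exact s.ne x
    · rw [if_neg hx]; exact G.ne x
  ant := fun x => by
    change (if (if x ∈ A then s x else G x) ∈ A then s.d (if x ∈ A then s x else G x) else
      G.d (if x ∈ A then s x else G x)) = -(if x ∈ A then s.d x else G.d x)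
    by_cases hx : x ∈ A
    · rw [if_pos hx, if_pos (hs x hx), if_pos hx]; exact s.anti x
    · have : G x ∉ A := fun h => hx (by have := hG _ h; rwa [G.invol] at this)
      rw [if_neg hx, if_neg this, if_neg hx]; exact G.anti x

open Classical in
omit [DecidableEq D] in
theorem glue_apply (A : Set D) (s G : LP D) (hs : Stable A s) (hG : Stable A G) (x : D) :
    glue A s G hs hG x = if x ∈ A then s x else G x := rfl

open Classical in
omit [DecidableEq D] in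
theorem glue_d (A : Set D) (s G : LP D) (hs : Stable A s) (hG : Stable A G) (x : D) :
    (glue A s G hs hG).d x = if x ∈ A then s.d x else G.d x := rfl

/-- the states which are unions of arcs on `A` and equal to `G` on `C` -/
structure Pr (A C : Set D) (G s : LP D) : Prop where
  sA : Stable A s
  eC : Eqv C G s

theorem Pr.jn {A C : Set D} {G s : LP D} (h : Pr A C G s) (hd : ∀ x ∈ A, x ∉ C) {x y : D}
    (hx : x ∈ A) (hy : y ∈ A) (τ κ : ℤ) : Pr A C G (LP.jn x y τ κ s) :=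
  ⟨h.sA.jn hx hy τ κ, h.eC.trans (Eqv.jn_out h.eC.stable (hd x hx) (hd y hy) τ κ)⟩

theorem Pr.sw {A C : Set D} {G s : LP D} (h : Pr A C G s) (hd : ∀ x ∈ A, x ∉ C) {x y : D}
    (hx : x ∈ A) (hy : y ∈ A) : Pr A C G (LP.sw x y s) :=
  ⟨h.sA.ren (swap_mem hx hy), h.eC.trans (Eqv.sw_out h.eC.stable (hd x hx) (hd y hy))⟩

theorem Pr.gau {A C : Set D} {G s : LP D} (h : Pr A C G s) (φ : D → ℤ)
    (hφ : ∀ x ∈ C, φ x = 0) : Pr A C G (LP.gau φ s) :=
  ⟨fun x hx => h.sA x hx, h.eC.trans ⟨h.eC.stable, fun x hx => ⟨rfl, by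
    rw [gau_d, hφ x hx, hφ _ (h.eC.stable x hx)]; ring⟩⟩⟩

/-- operators which only look at the states `Pr` -/
def Lc (A C : Set D) (G : LP D) (X : Module.End ℂ (LP D → ℂ)) : Prop :=
  ∀ Φ Ψ : LP D → ℂ, (∀ s, Pr A C G s → Φ s = Ψ s) → ∀ s, Pr A C G s → X Φ s = X Ψ s

theorem Lc.one (A C : Set D) (G : LP D) : Lc A C G 1 := fun _ _ h s hs => h s hs

theorem Lc.mul {A C : Set D} {G : LP D} {X Y : Module.End ℂ (LP D → ℂ)} (hX : Lc A C G X)
    (hY : Lc A C G Y) : Lc A C G (X * Y) := fun Φ Ψ h => hX (Y Φ) (Y Ψ) (hY Φ Ψ h)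

theorem Lc.jn {A C : Set D} {G : LP D} (hd : ∀ x ∈ A, x ∉ C) {x y : D} (hx : x ∈ A) (hy : y ∈ A)
    (τ κ : ℤ) : Lc A C G (pb (LP.jn x y τ κ)) := fun _ _ h s hs => h _ (hs.jn hd hx hy τ κ)

theorem Lc.gau {A C : Set D} {G : LP D} (φ : D → ℤ) (hφ : ∀ x ∈ C, φ x = 0) :
    Lc A C G (pb (LP.gau φ)) := fun _ _ h s hs => h _ (hs.gau φ hφ)

theorem Lc.Rop {A C : Set D} {G : LP D} (hd : ∀ x ∈ A, x ∉ C) {x y : D} (hx : x ∈ A) (hy : y ∈ A)
    (e : ℤ) (p q : ℂ) : Lc A C G (Pool.Agent.H64.Q1.Rop e x y p q) := by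
  intro Φ Ψ h s hs
  change p * Φ (LP.sw x y s) + q * Φ (LP.jn x y e e s) = p * Ψ (LP.sw x y s) +
    q * Ψ (LP.jn x y e e s)
  rw [h _ (hs.sw hd hx hy), h _ (hs.jn hd hx hy e e)]

theorem Lc.Lu {A C : Set D} {G : LP D} (hd : ∀ x ∈ A, x ∉ C) {u : D} (hu : u ∈ A) (e : ℤ)
    (F : List (D × ℂ)) (hF : ∀ x ∈ nm F, x ∈ A) : Lc A C G (Pool.Agent.H13.Q1.Lu e u F) := by
  induction F with
  | nil => exact Lc.one A C G
  | cons c F ih =>
    exact (Lc.Rop hd hu (hF c.1 List.mem_cons_self) _ _ _).mul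
      (ih fun x hx => hF x (List.mem_cons_of_mem _ hx))

theorem Lc.Lv {A C : Set D} {G : LP D} (hd : ∀ x ∈ A, x ∉ C) {u : D} (hu : u ∈ A) (e : ℤ)
    (F : List (D × ℂ)) (hF : ∀ x ∈ nm F, x ∈ A) : Lc A C G (Pool.Agent.H13.Q1.Lv e u F) := by
  induction F with
  | nil => exact Lc.one A C G
  | cons c F ih =>
    exact (Lc.Rop hd hu (hF c.1 List.mem_cons_self) _ _ _).mul
      (ih fun x hx => hF x (List.mem_cons_of_mem _ hx))

/-- **The line around a network, for functions which look at more arcs.** -/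
theorem P0.ext {u v : D} {F1 F2 : List (D × ℂ)} {S : Module.Dual ℂ (LP D → ℂ)}
    (h : P0 2 u v (F1 ++ F2) S) {C : Set D} {G : LP D} (hG : Stable (Alv u v (F1 ++ F2)) G)
    (hC : Stable C G) (hd : ∀ x ∈ Alv u v (F1 ++ F2), x ∉ C)
    (hS : ∀ Φ Ψ : LP D → ℂ, (∀ s, Pr (Alv u v (F1 ++ F2)) C G s → Φ s = Ψ s) → S Φ = S Ψ)
    {Φ : LP D → ℂ} (hΦ : Dep {x | x ∈ Alv u v (F1 ++ F2) ∨ x ∈ C} Φ) :
    S (opA 2 u v F1 Φ) = S ((pb (LP.jn u v 2 (-2)) * Lv 2 v F2 *
      pb (LP.gau (g1 v (-(2 * 2)))) : Module.End ℂ (LP D → ℂ)) Φ) := by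
  classical
  set A := Alv u v (F1 ++ F2) with hA
  set Φ' : LP D → ℂ := fun s => if hs : Stable A s then Φ (glue A s G hs hG) else 0 with hΦ'
  have hu : u ∈ A := Or.inl rfl
  have hv : v ∈ A := Or.inr (Or.inl rfl)
  have hF : ∀ x ∈ nm (F1 ++ F2), x ∈ A := fun x hx => Or.inr (Or.inr hx)
  have hDep : Dep A Φ' := by
    intro s s' hss
    rw [hΦ']
    simp only
    rw [dif_pos hss.1, dif_pos hss.stable]
    congr 1
    apply LP.ext
    · intro x
      rw [glue_apply, glue_apply]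
      by_cases hx : x ∈ A
      · rw [if_pos hx, if_pos hx, (hss.2 x hx).1]
      · rw [if_neg hx, if_neg hx]
    · intro x
      rw [glue_d, glue_d]
      by_cases hx : x ∈ A
      · rw [if_pos hx, if_pos hx, (hss.2 x hx).2]
      · rw [if_neg hx, if_neg hx]
  have hag : ∀ s, Pr A C G s → Φ s = Φ' s := by
    intro s hs
    rw [hΦ']
    simp only
    rw [dif_pos hs.sA]
    apply hΦ
    refine ⟨?_, ?_⟩
    · rintro x (hx | hx)
      · exact Or.inl (hs.sA x hx)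
      · exact Or.inr (hs.eC.stable x hx)
    · intro x hx
      rw [glue_apply, glue_d]
      by_cases hxA : x ∈ A
      · rw [if_pos hxA, if_pos hxA]; exact ⟨rfl, rfl⟩
      · rw [if_neg hxA, if_neg hxA]
        have := hs.eC.2 x (hx.resolve_left hxA)
        exact ⟨this.1.symm, this.2.symm⟩
  have hF1 : ∀ x ∈ nm F1, x ∈ A := fun x hx => hF x (by
    rw [nm_append]; exact List.mem_append_left _ hx)
  have hF2 : ∀ x ∈ nm F2, x ∈ A := fun x hx => hF x (by
    rw [nm_append]; exact List.mem_append_right _ hx)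
  have l1 : Lc A C G (opA 2 u v F1) := (Lc.jn hd hu hv _ _).mul (Lc.Lu hd hu _ _ hF1)
  have l2 : Lc A C G (pb (LP.jn u v 2 (-2)) * Lv 2 v F2 * pb (LP.gau (g1 v (-(2 * 2))))) := by
    refine ((Lc.jn hd hu hv _ _).mul (Lc.Lv hd hv _ _ hF2)).mul (Lc.gau _ ?_)
    intro x hx
    apply g1_ne
    rintro rfl
    exact hd _ hv hx
  rw [hS _ _ (l1 Φ Φ' hag), hS _ _ (l2 Φ Φ' hag)]
  exact P0.split F2 F1 h Φ' hDep

/-! ### Lines made of real tiles -/

/-- a tile of a line: ends `W, N, E, S`, the end `c` of the front which it crosses, the weight `p` of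
the state `W - S`, `N - E` -/
structure Lt (D : Type*) where
  W : D
  N : D
  E : D
  S : D
  c : D
  p : ℂ

/-- the tiles of the line are inserted in the wires of `u` and of the front -/
def insL (u : D) : List (Lt D) → LP D → LP D
  | [], h => h
  | t :: L, h => insL u L (sw t.c t.N (sw u t.W h))

/-- the states of the tiles of the line, in the gauge `κ` -/
noncomputable def RF (κ : D → ℤ) : List (Lt D) → (LP D → ℂ) → LP D → ℂ
  | [], Φ => Φ
  | t :: L, Φ => fun h =>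
    t.p * RF κ L Φ (tg false (1 + κ t.W - κ t.N) (1 + κ t.E - κ t.S) (-1 + κ t.W - κ t.S)
      (1 + κ t.N - κ t.E) (κ t.W - κ t.N) (κ t.E - κ t.S) (κ t.W - κ t.S) (κ t.N - κ t.E)
      t.W t.N t.E t.S h) +
    (1 - t.p) * RF κ L Φ (tg true (1 + κ t.W - κ t.N) (1 + κ t.E - κ t.S) (-1 + κ t.W - κ t.S)
      (1 + κ t.N - κ t.E) (κ t.W - κ t.N) (κ t.E - κ t.S) (κ t.W - κ t.S) (κ t.N - κ t.E)
      t.W t.N t.E t.S h)

/-- the states of the tiles of the line, with the true turnings -/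
noncomputable def RT : List (Lt D) → (LP D → ℂ) → LP D → ℂ
  | [], Φ => Φ
  | t :: L, Φ => fun s =>
    t.p * RT L Φ (tl false t.W t.N t.E t.S s) + (1 - t.p) * RT L Φ (tl true t.W t.N t.E t.S s)

theorem RT_eq (κ : D → ℤ) (L : List (Lt D)) (Ψ : LP D → ℂ) (s : LP D) :
    RT L Ψ s = RF κ L (fun h => Ψ (gau (fun x => -κ x) h)) (gau κ s) := by
  induction L generalizing s with
  | nil =>
    change Ψ s = Ψ (gau (fun x => -κ x) (gau κ s))
    rw [gau_neg]
  | cons t L ih =>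
    rw [RT, RF]
    simp only
    rw [ih, ih, gau_tl, gau_tl]

/-- the formal crossings -/
noncomputable def LF (u : D) (L : List (Lt D)) : Module.End ℂ (LP D → ℂ) :=
  (L.map fun t => Rop 2 u t.c t.p (1 - t.p)).prod

theorem LF_nil (u : D) : LF u ([] : List (Lt D)) = 1 := rfl

theorem LF_cons (u : D) (t : Lt D) (L : List (Lt D)) :
    LF u (t :: L) = Rop 2 u t.c t.p (1 - t.p) * LF u L := rfl

/-- the four ends of a tile of the line -/
def Lt.e (t : Lt D) (x : D) : Prop := x = t.W ∨ x = t.N ∨ x = t.E ∨ x = t.S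

/-- the hypotheses on a line -/
structure LnOk (κ : D → ℤ) (A : Set D) (u : D) (L : List (Lt D)) : Prop where
  uA : u ∈ A
  cA : ∀ t ∈ L, t.c ∈ A ∧ t.c ≠ u
  eA : ∀ t ∈ L, ∀ x, t.e x → x ∈ A ∧ x ≠ u
  ec : ∀ t ∈ L, ∀ t' ∈ L, ¬ t'.e t.c
  ne : ∀ t ∈ L, t.W ≠ t.N ∧ t.W ≠ t.E ∧ t.W ≠ t.S ∧ t.N ≠ t.E ∧ t.N ≠ t.S ∧ t.E ≠ t.S
  dis : L.Pairwise fun t t' => ∀ x, t.e x → ¬ t'.e x
  kap : ∀ t ∈ L, κ t.W = κ t.N + 1 ∧ κ t.E = κ t.N + 1 ∧ κ t.S = κ t.N

/-- the wires of the unused tiles -/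
def Dm (L : List (Lt D)) (h : LP D) : Prop :=
  ∀ t ∈ L, h t.W = t.E ∧ h.d t.W = 0 ∧ h t.N = t.S ∧ h.d t.N = 0

theorem insL_eqv {A : Set D} {u : D} (hu : u ∈ A) (L : List (Lt D))
    (hc : ∀ t ∈ L, t.c ∈ A ∧ t.N ∈ A ∧ t.W ∈ A) {h h' : LP D} (he : Eqv A h h') :
    Eqv A (insL u L h) (insL u L h') := by
  induction L generalizing h h' with
  | nil => exact he
  | cons t L ih =>
    obtain ⟨c1, c2, c3⟩ := hc t List.mem_cons_self
    exact ih (fun t' ht' => hc t' (List.mem_cons_of_mem _ ht')) ((he.sw hu c3).sw c1 c2)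

theorem insL_tg {u : D} (L : List (Lt D)) (b : Bool) (t1 t2 t3 t4 k1 k2 k3 k4 : ℤ)
    (z0 z1 z2 z3 : D) (hz : ∀ z, z = z0 ∨ z = z1 ∨ z = z2 ∨ z = z3 → z ≠ u ∧
      ∀ t ∈ L, z ≠ t.c ∧ z ≠ t.N ∧ z ≠ t.W) (h : LP D) :
    insL u L (tg b t1 t2 t3 t4 k1 k2 k3 k4 z0 z1 z2 z3 h) =
      tg b t1 t2 t3 t4 k1 k2 k3 k4 z0 z1 z2 z3 (insL u L h) := by
  induction L generalizing h with
  | nil => rfl
  | cons t L ih =>
    have hfix : ∀ z, z = z0 ∨ z = z1 ∨ z = z2 ∨ z = z3 → Equiv.swap u t.W z = z ∧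
        Equiv.swap t.c t.N z = z := by
      intro z hz'
      obtain ⟨q1, q2⟩ := hz z hz'
      obtain ⟨q3, q4, q5⟩ := q2 t List.mem_cons_self
      exact ⟨Equiv.swap_apply_of_ne_of_ne q1 q5, Equiv.swap_apply_of_ne_of_ne q3 q4⟩
    obtain ⟨f0, f0'⟩ := hfix z0 (Or.inl rfl)
    obtain ⟨f1, f1'⟩ := hfix z1 (Or.inr (Or.inl rfl))
    obtain ⟨f2, f2'⟩ := hfix z2 (Or.inr (Or.inr (Or.inl rfl)))
    obtain ⟨f3, f3'⟩ := hfix z3 (Or.inr (Or.inr (Or.inr rfl)))
    rw [insL, insL]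
    have e1 : sw t.c t.N (sw u t.W (tg b t1 t2 t3 t4 k1 k2 k3 k4 z0 z1 z2 z3 h)) =
        tg b t1 t2 t3 t4 k1 k2 k3 k4 z0 z1 z2 z3 (sw t.c t.N (sw u t.W h)) := by
      unfold sw
      rw [ren_tg, ren_tg, f0, f1, f2, f3, f0', f1', f2', f3']
    rw [e1]
    exact ih (fun z hz' => ⟨(hz z hz').1, fun t' ht' => (hz z hz').2 t'
      (List.mem_cons_of_mem _ ht')⟩) _

theorem Eqv.tg {A : Set D} {g g' : LP D} (hg : Eqv A g g') (b : Bool)
    (t1 t2 t3 t4 k1 k2 k3 k4 : ℤ) {z0 z1 z2 z3 : D}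
    (h0 : z0 ∈ A) (h1 : z1 ∈ A) (h2 : z2 ∈ A) (h3 : z3 ∈ A)
    (n1 : z0 ≠ z1) (n2 : z0 ≠ z2) (n3 : z0 ≠ z3) (n4 : z1 ≠ z2) (n5 : z1 ≠ z3) (n6 : z2 ≠ z3) :
    Eqv (dz A z0 z1 z2 z3) (LP.tg b t1 t2 t3 t4 k1 k2 k3 k4 z0 z1 z2 z3 g)
      (LP.tg b t1 t2 t3 t4 k1 k2 k3 k4 z0 z1 z2 z3 g') := by
  have hs := tg_stable hg.1 b t1 t2 t3 t4 k1 k2 k3 k4 h0 h1 h2 h3 n1 n2 n3 n4 n5 n6
  refine ⟨hs, fun x hx => ?_⟩
  have h : Eqv A (LP.tg b t1 t2 t3 t4 k1 k2 k3 k4 z0 z1 z2 z3 g)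
      (LP.tg b t1 t2 t3 t4 k1 k2 k3 k4 z0 z1 z2 z3 g') := by
    unfold LP.tg
    cases b
    · simp only [Bool.false_eq_true, if_false]
      exact (hg.jn h1 h2 t4 k4).jn h0 h3 t3 k3
    · simp only [if_true]
      exact (hg.jn h2 h3 t2 k2).jn h0 h1 t1 k1
  exact h.2 x hx.1

theorem RF_dep (κ : D → ℤ) (L : List (Lt D)) {A : Set D} {Φ : LP D → ℂ}
    (hΦ : Dep {x | x ∈ A ∧ ∀ t ∈ L, ¬ t.e x} Φ) (hA : ∀ t ∈ L, ∀ x, t.e x → x ∈ A)
    (hne : ∀ t ∈ L, t.W ≠ t.N ∧ t.W ≠ t.E ∧ t.W ≠ t.S ∧ t.N ≠ t.E ∧ t.N ≠ t.S ∧ t.E ≠ t.S)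
    (hdis : L.Pairwise fun t t' => ∀ x, t.e x → ¬ t'.e x) : Dep A (RF κ L Φ) := by
  induction L generalizing A with
  | nil =>
    refine hΦ.congr ?_
    ext x
    simp
  | cons t L ih =>
    rw [List.pairwise_cons] at hdis
    obtain ⟨n1, n2, n3, n4, n5, n6⟩ := hne t List.mem_cons_self
    have aW := hA t List.mem_cons_self t.W (Or.inl rfl)
    have aN := hA t List.mem_cons_self t.N (Or.inr (Or.inl rfl))
    have aE := hA t List.mem_cons_self t.E (Or.inr (Or.inr (Or.inl rfl)))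
    have aS := hA t List.mem_cons_self t.S (Or.inr (Or.inr (Or.inr rfl)))
    have h1 : Dep (dz A t.W t.N t.E t.S) (RF κ L Φ) := by
      apply ih
      · refine hΦ.congr ?_
        ext x
        simp only [Set.mem_setOf_eq, List.mem_cons, forall_eq_or_imp]
        unfold dz Lt.e
        simp only [Set.mem_setOf_eq]
        tauto
      · intro t' ht' x hx
        refine ⟨hA t' (List.mem_cons_of_mem _ ht') x hx, ?_, ?_, ?_, ?_⟩ <;>
          · rintro rfl
            exact hdis.1 t' ht' _ (by unfold Lt.e; tauto) hx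
      · exact fun t' ht' => hne t' (List.mem_cons_of_mem _ ht')
      · exact hdis.2
    intro g g' hg
    rw [RF]
    simp only
    rw [h1 _ _ (Eqv.tg hg false _ _ _ _ _ _ _ _ aW aN aE aS n1 n2 n3 n4 n5 n6),
      h1 _ _ (Eqv.tg hg true _ _ _ _ _ _ _ _ aW aN aE aS n1 n2 n3 n4 n5 n6)]

/-- **A line made of real tiles.** -/
theorem real_line (κ : D → ℤ) {u : D} (L : List (Lt D)) : ∀ {A : Set D} {h : LP D}
    {Φ : LP D → ℂ}, Stable A h → LnOk κ A u L → Dm L h →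
    Dep {x | x ∈ A ∧ ∀ t ∈ L, ¬ t.e x} Φ → RF κ L Φ (insL u L h) = LF u L Φ h := by
  induction L with
  | nil => intro A h Φ _ _ _ _; rfl
  | cons t L ih =>
    intro A h Φ hA H hD hΦ
    have ht := List.mem_cons_self (a := t) (l := L)
    obtain ⟨n1, n2, n3, n4, n5, n6⟩ := H.ne t ht
    obtain ⟨kW, kE, kS⟩ := H.kap t ht
    obtain ⟨cA, cu⟩ := H.cA t ht
    obtain ⟨aW, uW⟩ := H.eA t ht t.W (Or.inl rfl)
    obtain ⟨aN, uN⟩ := H.eA t ht t.N (Or.inr (Or.inl rfl))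
    obtain ⟨aE, uE⟩ := H.eA t ht t.E (Or.inr (Or.inr (Or.inl rfl)))
    obtain ⟨aS, uS⟩ := H.eA t ht t.S (Or.inr (Or.inr (Or.inr rfl)))
    have hec := H.ec t ht t ht
    unfold Lt.e at hec
    push Not at hec
    obtain ⟨cW, cN, cE, cS⟩ := hec
    obtain ⟨dW, dW0, dN, dN0⟩ := hD t ht
    have hdis := H.dis
    rw [List.pairwise_cons] at hdis
    have e1 : (1 : ℤ) + κ t.W - κ t.N = 2 := by rw [kW]; ring
    have e2 : (1 : ℤ) + κ t.E - κ t.S = 2 := by rw [kE, kS]; ring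
    have e3 : (-1 : ℤ) + κ t.W - κ t.S = 0 := by rw [kW, kS]; ring
    have e4 : (1 : ℤ) + κ t.N - κ t.E = 0 := by rw [kE]; ring
    set A' := dz A t.W t.N t.E t.S with hA'
    have cA' : ∀ t' ∈ t :: L, t'.c ∈ A' := by
      intro t' ht'
      have h1 := H.ec t' ht' t ht
      unfold Lt.e at h1
      push Not at h1
      exact ⟨(H.cA t' ht').1, h1.1, h1.2.1, h1.2.2.1, h1.2.2.2⟩
    have eA' : ∀ t' ∈ L, ∀ x, t'.e x → x ∈ A' := by
      intro t' ht' x hx
      refine ⟨(H.eA t' (List.mem_cons_of_mem _ ht') x hx).1, ?_, ?_, ?_, ?_⟩ <;>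
        · rintro rfl
          exact hdis.1 t' ht' _ (by unfold Lt.e; tauto) hx
    have uA' : u ∈ A' := ⟨H.uA, uW.symm, uN.symm, uE.symm, uS.symm⟩
    have H' : LnOk κ A' u L := by
      refine ⟨uA', fun t' ht' => ⟨cA' t' (List.mem_cons_of_mem _ ht'),
        (H.cA t' (List.mem_cons_of_mem _ ht')).2⟩, fun t' ht' x hx => ⟨eA' t' ht' x hx,
        (H.eA t' (List.mem_cons_of_mem _ ht') x hx).2⟩, fun t' ht' t'' ht'' =>
        H.ec t' (List.mem_cons_of_mem _ ht') t'' (List.mem_cons_of_mem _ ht''),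
        fun t' ht' => H.ne t' (List.mem_cons_of_mem _ ht'), hdis.2,
        fun t' ht' => H.kap t' (List.mem_cons_of_mem _ ht')⟩
    have hΦ' : Dep {x | x ∈ A' ∧ ∀ t' ∈ L, ¬ t'.e x} Φ := by
      refine hΦ.congr ?_
      ext x
      simp only [Set.mem_setOf_eq, List.mem_cons, forall_eq_or_imp]
      rw [hA']
      unfold dz Lt.e
      simp only [Set.mem_setOf_eq]
      tauto
    -- the arcs of `h`
    have hEW : h t.E = t.W := by rw [← dW]; simp
    have hSN : h t.S = t.N := by rw [← dN]; simp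
    have hA'h : Stable A' h := by
      rintro x ⟨x0, x1, x2, x3, x4⟩
      refine ⟨hA x x0, ?_, ?_, ?_, ?_⟩ <;> intro hh <;> rw [eq_iff] at hh
      · exact x3 (hh.trans dW)
      · exact x4 (hh.trans dN)
      · exact x1 (hh.trans hEW)
      · exact x2 (hh.trans hSN)
    have key : ∀ b, RF κ L Φ (tg b (1 + κ t.W - κ t.N) (1 + κ t.E - κ t.S) (-1 + κ t.W - κ t.S)
        (1 + κ t.N - κ t.E) (κ t.W - κ t.N) (κ t.E - κ t.S) (κ t.W - κ t.S) (κ t.N - κ t.E)
        t.W t.N t.E t.S (insL u (t :: L) h)) =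
        LF u L Φ (if b then LP.jn u t.c 2 2 h else sw u t.c h) := by
      intro b
      rw [insL, ← insL_tg L b _ _ _ _ _ _ _ _ t.W t.N t.E t.S ?_, e1, e2, e3, e4]
      · have h1 := ins_tile hA aW aN aE aS H.uA cA n1 n2 n3 n4 n5 n6
          ⟨uW.symm, uN.symm, uE.symm, uS.symm⟩ ⟨cW, cN, cE, cS⟩ cu.symm dW dW0 dN dN0 b
          (κ t.W - κ t.N) (κ t.E - κ t.S) (κ t.W - κ t.S) (κ t.N - κ t.E)
        have h2 := insL_eqv uA' L (fun t' ht' => ⟨cA' t' (List.mem_cons_of_mem _ ht'),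
          eA' t' ht' _ (Or.inr (Or.inl rfl)), eA' t' ht' _ (Or.inl rfl)⟩) h1
        have h3 : Dep A' (RF κ L Φ) := RF_dep κ L hΦ' eA' H'.ne H'.dis
        rw [h3 _ _ h2]
        apply ih ?_ H' ?_ hΦ'
        · cases b
          · exact hA'h.ren (swap_mem uA' (cA' t ht))
          · exact hA'h.jn uA' (cA' t ht) _ _
        · intro t' ht'
          obtain ⟨q1, q2, q3, q4⟩ := hD t' (List.mem_cons_of_mem _ ht')
          have uu : ∀ x, t'.e x → x ≠ u ∧ x ≠ t.c := fun x hx =>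
            ⟨(H.eA t' (List.mem_cons_of_mem _ ht') x hx).2, fun hh =>
              H.ec t ht t' (List.mem_cons_of_mem _ ht') (hh ▸ hx)⟩
          obtain ⟨w1, w2⟩ := uu t'.W (Or.inl rfl)
          obtain ⟨w3, w4⟩ := uu t'.N (Or.inr (Or.inl rfl))
          obtain ⟨w5, w6⟩ := uu t'.E (Or.inr (Or.inr (Or.inl rfl)))
          obtain ⟨w7, w8⟩ := uu t'.S (Or.inr (Or.inr (Or.inr rfl)))
          have r1 : t'.W ≠ h u := fun hh => w5 (by rw [← q1, hh, h.invol])
          have r2 : t'.W ≠ h t.c := fun hh => w6 (by rw [← q1, hh, h.invol])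
          have r3 : t'.N ≠ h u := fun hh => w7 (by rw [← q3, hh, h.invol])
          have r4 : t'.N ≠ h t.c := fun hh => w8 (by rw [← q3, hh, h.invol])
          cases b
          · simp only [Bool.false_eq_true, if_false]
            unfold sw
            rw [ren_apply, ren_apply, ren_d, ren_d, Equiv.symm_swap,
              Equiv.swap_apply_of_ne_of_ne w1 w2, Equiv.swap_apply_of_ne_of_ne w3 w4, q1, q3,
              Equiv.swap_apply_of_ne_of_ne w5 w6, Equiv.swap_apply_of_ne_of_ne w7 w8]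
            exact ⟨rfl, q2, rfl, q4⟩
          · simp only [if_true]
            rw [jn_apply _ _ _ _ _ cu.symm, jn_apply _ _ _ _ _ cu.symm, jn_d _ _ _ _ _ cu.symm,
              jn_d _ _ _ _ _ cu.symm]
            simp only [if_neg w1, if_neg w2, if_neg w3, if_neg w4, if_neg r1, if_neg r2,
              if_neg r3, if_neg r4]
            exact ⟨q1, q2, q3, q4⟩
      · intro z hz
        have hz' : t.e z := hz
        refine ⟨(H.eA t ht z hz').2, fun t' ht' => ⟨?_, ?_, ?_⟩⟩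
        · intro hh
          exact H.ec t' (List.mem_cons_of_mem _ ht') t ht (hh ▸ hz')
        · intro hh
          exact hdis.1 t' ht' z hz' (Or.inr (Or.inl hh))
        · intro hh
          exact hdis.1 t' ht' z hz' (Or.inl hh)
    rw [RF, LF_cons]
    simp only
    rw [key false, key true]
    rfl

end Pool.Agent.H64.Q1
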