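import Pool.Agent.H64.Q1.Reg4

/-!
# The exchange theorem for two labelled wirings
-/

namespace Pool.Agent.H64.Q1

open LP Pool.Agent.H13.Q1

variable {D : Type*} [DecidableEq D]

/-- the mean is transported by a map which commutes with the tiles -/
theorem SF_map {J : LP D → LP D} {l : List (Tl D)}
    (hJ : ∀ t ∈ l, ∀ b s, J (t.op b s) = t.op b (J s)) (g : LP D) (Φ : LP D → ℂ) :
    SF (J g) l Φ = SF g l (fun s => Φ (J s)) := by
  induction l generalizing Φ with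
  | nil => rfl
  | cons t l ih =>
    rw [SF_cons, SF_cons, ih (fun t' ht' => hJ t' (List.mem_cons_of_mem _ ht'))]
    congr 1
    funext s
    rw [← hJ t List.mem_cons_self, ← hJ t List.mem_cons_self]

/-- the tile of a tile of a line -/
def Lt.tl (t : Lt D) : Tl D := ⟨t.W, t.N, t.E, t.S, t.p⟩

theorem SF_line (g : LP D) (l : List (Tl D)) (L : List (Lt D)) (Ψ : LP D → ℂ) :
    SF g ((L.map Lt.tl).reverse ++ l) Ψ = SF g l (RT L Ψ) := by
  induction L generalizing l with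
  | nil => rfl
  | cons t L ih =>
    rw [List.map_cons, List.reverse_cons, List.append_assoc, ih]
    rfl

/-- a state of the network -/
def st0 (g : LP D) : List (Tl D) → LP D
  | [] => g
  | t :: l => t.op false (st0 g l)

theorem st0_St (g : LP D) (l : List (Tl D)) : St g l (st0 g l) := by
  induction l with
  | nil => exact St.nil
  | cons t l ih => exact St.cons false ih

theorem gau_gau_neg (φ : D → ℤ) (f : LP D) : gau φ (gau (fun x => - φ x) f) = f := by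
  apply LP.ext
  · intro x; rfl
  · intro x
    rw [gau_d, gau_d, gau_apply]; ring

/-- the insertion of a line in a true wiring -/
def Jn (κ0 κ : D → ℤ) (u v w : D) (c : ℤ) (L : List (Lt D)) (s : LP D) : LP D :=
  gau (fun x => -κ x) (insL w L (LP.jn u v 2 c (gau κ0 s)))

theorem gau_Jn (κ0 κ : D → ℤ) (u v w : D) (c : ℤ) (L : List (Lt D)) (s : LP D) :
    gau κ (Jn κ0 κ u v w c L s) = insL w L (LP.jn u v 2 c (gau κ0 s)) := by
  unfold Jn
  rw [gau_gau_neg]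

theorem jn_tg {u v : D} (huv : u ≠ v) (c c' : ℤ) (b : Bool) (t1 t2 t3 t4 k1 k2 k3 k4 : ℤ)
    {z0 z1 z2 z3 : D} (hu : u ≠ z0 ∧ u ≠ z1 ∧ u ≠ z2 ∧ u ≠ z3)
    (hv : v ≠ z0 ∧ v ≠ z1 ∧ v ≠ z2 ∧ v ≠ z3)
    (n1 : z0 ≠ z1) (n3 : z0 ≠ z3) (n4 : z1 ≠ z2) (n6 : z2 ≠ z3) (h : LP D) :
    LP.jn u v c c' (tg b t1 t2 t3 t4 k1 k2 k3 k4 z0 z1 z2 z3 h) =
      tg b t1 t2 t3 t4 k1 k2 k3 k4 z0 z1 z2 z3 (LP.jn u v c c' h) := by
  obtain ⟨u0, u1, u2, u3⟩ := hu
  obtain ⟨v0, v1, v2, v3⟩ := hv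
  unfold tg
  cases b
  · simp only [Bool.false_eq_true, if_false]
    rw [jn_jn u v z0 z3 _ _ _ _ _ huv u0 u3 v0 v3 n3, jn_jn u v z1 z2 _ _ _ _ _ huv u1 u2 v1 v2 n4]
  · simp only [if_true]
    rw [jn_jn u v z0 z1 _ _ _ _ _ huv u0 u1 v0 v1 n1, jn_jn u v z2 z3 _ _ _ _ _ huv u2 u3 v2 v3 n6]

theorem Jn_comm {κ0 κ : D → ℤ} {u v w : D} (huv : u ≠ v) {c : ℤ} {L : List (Lt D)} {t : Tl D}
    (hz : ∀ z, z = t.z0 ∨ z = t.z1 ∨ z = t.z2 ∨ z = t.z3 → z ≠ u ∧ z ≠ v ∧ z ≠ w ∧ κ0 z = κ z ∧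
      ∀ t' ∈ L, z ≠ t'.c ∧ z ≠ t'.N ∧ z ≠ t'.W)
    (n1 : t.z0 ≠ t.z1) (n3 : t.z0 ≠ t.z3) (n4 : t.z1 ≠ t.z2) (n6 : t.z2 ≠ t.z3)
    (b : Bool) (s : LP D) : Jn κ0 κ u v w c L (t.op b s) = t.op b (Jn κ0 κ u v w c L s) := by
  obtain ⟨a1, a2, a3, a4, a5⟩ := hz t.z0 (Or.inl rfl)
  obtain ⟨b1, b2, b3, b4, b5⟩ := hz t.z1 (Or.inr (Or.inl rfl))
  obtain ⟨c1, c2, c3, c4, c5⟩ := hz t.z2 (Or.inr (Or.inr (Or.inl rfl)))
  obtain ⟨d1, d2, d3, d4, d5⟩ := hz t.z3 (Or.inr (Or.inr (Or.inr rfl)))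
  have inj : ∀ f f' : LP D, gau κ f = gau κ f' → f = f' := fun f f' h => by
    rw [← gau_neg κ f, h, gau_neg]
  apply inj
  rw [gau_Jn]
  unfold Tl.op
  rw [gau_tl, gau_tl, gau_Jn, a4, b4, c4, d4, jn_tg huv 2 c b _ _ _ _ _ _ _ _
    ⟨a1.symm, b1.symm, c1.symm, d1.symm⟩ ⟨a2.symm, b2.symm, c2.symm, d2.symm⟩ n1 n3 n4 n6,
    insL_tg]
  intro z hz'
  exact ⟨(hz z hz').2.2.1, (hz z hz').2.2.2.2⟩

/-- the names of the tiles of a line are fresh -/
structure Fresh (g : LP D) (T : Set D) (κ : D → ℤ) (L : List (Lt D)) : Prop where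
  eT : ∀ t ∈ L, ∀ x, t.e x → x ∉ T
  ne : ∀ t ∈ L, t.W ≠ t.N ∧ t.W ≠ t.E ∧ t.W ≠ t.S ∧ t.N ≠ t.E ∧ t.N ≠ t.S ∧ t.E ≠ t.S
  dis : L.Pairwise fun t t' => ∀ x, t.e x → ¬ t'.e x
  kap : ∀ t ∈ L, κ t.W = κ t.N + 1 ∧ κ t.E = κ t.N + 1 ∧ κ t.S = κ t.N
  dm : Dm L g

/-- an end of a tile of the line -/
def Le (L : List (Lt D)) (x : D) : Prop := ∃ t ∈ L, t.e x

theorem Fresh.le_g {g : LP D} {T : Set D} {κ : D → ℤ} {L : List (Lt D)} (h : Fresh g T κ L)
    {x : D} (hx : Le L (g x)) : Le L x := by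
  obtain ⟨t, ht, hx⟩ := hx
  obtain ⟨h1, -, h2, -⟩ := h.dm t ht
  refine ⟨t, ht, ?_⟩
  have e1 : g t.E = t.W := by rw [← h1]; simp
  have e2 : g t.S = t.N := by rw [← h2]; simp
  rcases hx with hx | hx | hx | hx <;> rw [eq_iff] at hx
  · exact Or.inr (Or.inr (Or.inl (hx.trans h1)))
  · exact Or.inr (Or.inr (Or.inr (hx.trans h2)))
  · exact Or.inl (hx.trans e1)
  · exact Or.inr (Or.inl (hx.trans e2))

/-- one side of the exchange -/
theorem side {g : LP D} {u v : D} {T : Set D} {l : List (Tl D)} {F : List (Fe D)}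
    (hI : Inv g u v T l F) {κ0 κ : D → ℤ} (hκ : ∀ z, z ≠ v → κ z = κ0 z) {w : D}
    (hw : w = u ∨ w = v) {c : ℤ} {L L' : List (Lt D)}
    (hc : ∀ t ∈ L, t.c ∈ fn F) (hF : Fresh g T κ0 L) (hF' : Fresh g T κ0 L')
    (hd : ∀ x, Le L x → ¬ Le L' x) {Ψ : LP D → ℂ}
    (hΨ : Dep {x | (x ∈ AF u v F ∨ x ∉ T) ∧ ¬ Le L x ∧ ¬ Le L' x} Ψ) :
    SF (Jn κ0 κ u v w c L g) ((L.map Lt.tl).reverse ++ l) Ψ =
      SG g l κ0 ((pb (LP.jn u v 2 c) * LF w L : Module.End ℂ (LP D → ℂ))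
        (fun h => Ψ (gau (fun x => -κ x) h))) := by
  have huv : u ≠ v := by rw [← hI.gu]; exact g.ne2 u
  have AFT : ∀ x ∈ AF u v F, x ∈ T := by
    rintro x (rfl | rfl | h)
    · exact hI.T0.1
    · exact hI.T0.2
    · exact hI.FT x h
  have LT : ∀ x, Le L x → x ∉ T := fun x ⟨t, ht, hx⟩ => hF.eT t ht x hx
  have LT' : ∀ x, Le L' x → x ∉ T := fun x ⟨t, ht, hx⟩ => hF'.eT t ht x hx
  have wT : w ∈ T := by rcases hw with rfl | rfl; exacts [hI.T0.1, hI.T0.2]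
  have wA : w ∈ AF u v F := by rcases hw with rfl | rfl; exacts [Or.inl rfl, Or.inr (Or.inl rfl)]
  have hκL : ∀ t ∈ L, κ t.W = κ0 t.W ∧ κ t.N = κ0 t.N ∧ κ t.E = κ0 t.E ∧ κ t.S = κ0 t.S := by
    intro t ht
    have q : ∀ x, t.e x → κ x = κ0 x := fun x hx => hκ x (fun e => hF.eT t ht x hx (e ▸ hI.T0.2))
    exact ⟨q _ (Or.inl rfl), q _ (Or.inr (Or.inl rfl)), q _ (Or.inr (Or.inr (Or.inl rfl))),
      q _ (Or.inr (Or.inr (Or.inr rfl)))⟩
  rw [SF_line, SF_map, SG_apply]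
  · apply SF_congr
    intro s hs
    rw [RT_eq κ, gau_Jn]
    set A : Set D := {x | (x ∈ AF u v F ∨ x ∉ T) ∧ ¬ Le L' x} with hA
    set h : LP D := LP.jn u v 2 c (gau κ0 s) with hh
    have hout := hI.out s hs
    have halv := hI.alv s hs
    have sA : Stable A (gau κ0 s) := by
      rintro x ⟨hx1, hx2⟩
      rw [gau_apply]
      rcases hx1 with hx1 | hx1
      · have h1 := halv x hx1
        exact ⟨Or.inl h1, fun h2 => LT' _ h2 (AFT _ h1)⟩
      · have h1 := (hout.2 x hx1).1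
        rw [← h1]
        refine ⟨Or.inr fun h2 => hx1 ?_, fun h2 => hx2 (hF'.le_g h2)⟩
        have := hI.Tg _ h2
        rwa [g.invol] at this
    have uA : u ∈ A := ⟨Or.inl (Or.inl rfl), fun h2 => LT' _ h2 hI.T0.1⟩
    have vA : v ∈ A := ⟨Or.inl (Or.inr (Or.inl rfl)), fun h2 => LT' _ h2 hI.T0.2⟩
    have key := real_line κ (u := w) L (A := A) (h := h)
      (Φ := fun h => Ψ (gau (fun x => -κ x) h)) (sA.jn uA vA _ _) ?_ ?_ ?_
    · exact key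
    · refine ⟨⟨Or.inl wA, fun h2 => LT' _ h2 wT⟩, ?_, ?_, ?_, hF.ne, hF.dis, ?_⟩
      · intro t ht
        have h1 := hc t ht
        refine ⟨⟨Or.inl (Or.inr (Or.inr h1)), fun h2 => LT' _ h2 (hI.FT _ h1)⟩, ?_⟩
        intro h2
        rcases hw with rfl | rfl
        · exact hI.F0.1 (h2 ▸ h1)
        · exact hI.F0.2 (h2 ▸ h1)
      · intro t ht x hx
        have h1 : Le L x := ⟨t, ht, hx⟩
        exact ⟨⟨Or.inr (LT x h1), hd x h1⟩, fun e => LT x h1 (e ▸ wT)⟩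
      · intro t ht t' ht' h1
        exact LT t.c ⟨t', ht', h1⟩ (hI.FT _ (hc t ht))
      · intro t ht
        obtain ⟨q1, q2, q3, q4⟩ := hκL t ht
        rw [q1, q2, q3, q4]
        exact hF.kap t ht
    · intro t ht
      obtain ⟨d1, d2, d3, d4⟩ := hF.dm t ht
      have q : ∀ x, t.e x → x ∉ T ∧ x ≠ u ∧ x ≠ v ∧ g x ≠ u ∧ g x ≠ v := by
        intro x hx
        have h1 := hF.eT t ht x hx
        have h2 : g x ∉ T := fun h => h1 (by have := hI.Tg _ h; rwa [g.invol] at this)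
        exact ⟨h1, fun e => h1 (e ▸ hI.T0.1), fun e => h1 (e ▸ hI.T0.2),
          fun e => h2 (e ▸ hI.T0.1), fun e => h2 (e ▸ hI.T0.2)⟩
      have val : ∀ x, t.e x → h x = g x ∧ h.d x = g.d x + κ0 x - κ0 (g x) := by
        intro x hx
        obtain ⟨x1, x2, x3, x4, x5⟩ := q x hx
        obtain ⟨e1, e2⟩ := hout.2 x x1
        have x4' : x ≠ s u := fun e => x4 (by rw [e1, e, s.invol])
        have x5' : x ≠ s v := fun e => x5 (by rw [e1, e, s.invol])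
        rw [hh, jn_apply _ _ _ _ _ huv, jn_d _ _ _ _ _ huv]
        simp only [gau_apply, if_neg x2, if_neg x3, if_neg x4', if_neg x5', gau_d]
        rw [← e1, ← e2]
        exact ⟨rfl, rfl⟩
      obtain ⟨kW, kE, kS⟩ := hF.kap t ht
      refine ⟨(val _ (Or.inl rfl)).1.trans d1, ?_, (val _ (Or.inr (Or.inl rfl))).1.trans d3, ?_⟩
      · rw [(val _ (Or.inl rfl)).2, d1, d2, kW, kE]; ring
      · rw [(val _ (Or.inr (Or.inl rfl))).2, d3, d4, kS]; ring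
    · have hset : {x | x ∈ A ∧ ∀ t ∈ L, ¬ t.e x} =
          {x | (x ∈ AF u v F ∨ x ∉ T) ∧ ¬ Le L x ∧ ¬ Le L' x} := by
        ext x
        rw [hA]
        unfold Le
        simp only [Set.mem_setOf_eq]
        push Not
        tauto
      rw [hset]
      exact hΨ.gau _
  · intro t ht b s
    obtain ⟨n1, n2, n3, n4, n5, n6⟩ := hI.zne t ht
    apply Jn_comm huv _ n1 n3 n4 n6
    intro z hz
    obtain ⟨z1, z2⟩ := hI.zT t ht z hz
    have zv : z ≠ v := fun e => z2 (Or.inr (Or.inl e))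
    have zu : z ≠ u := fun e => z2 (Or.inl e)
    refine ⟨zu, zv, ?_, (hκ z zv).symm, ?_⟩
    · rcases hw with rfl | rfl
      · exact zu
      · exact zv
    · intro t' ht'
      refine ⟨fun e => z2 (Or.inr (Or.inr (e ▸ hc t' ht'))), fun e => ?_, fun e => ?_⟩
      · exact hF.eT t' ht' z (Or.inr (Or.inl e)) z1
      · exact hF.eT t' ht' z (Or.inl e) z1

/-- **The exchange theorem.** The line made of the real tiles `L1` crosses the part `F1` of the front of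
the region `l`, or the line made of the real tiles `L2` crosses the part `F2`. -/
theorem exchange_wiring {g : LP D} {u v : D} {T : Set D} {l : List (Tl D)} {F1 F2 : List (Fe D)}
    (h : Bt g u v T l (F1 ++ F2)) {κ κ2 : D → ℤ} (hκ : ∀ c ∈ F1 ++ F2, κ c.1 = c.2.1)
    (hκ2 : κ2 v = κ v + 4) (hκ2' : ∀ z, z ≠ v → κ2 z = κ z) {L1 L2 : List (Lt D)}
    (h1 : L1.map (fun t => (t.c, t.p)) = F1.map fun c => (c.1, wa c.2.2))
    (h2 : L2.map (fun t => (t.c, t.p)) = F2.map fun c => (c.1, 1 - (wa c.2.2)⁻¹))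
    (hF1 : Fresh g T κ L1) (hF2 : Fresh g T κ L2) (hd : ∀ x, Le L1 x → ¬ Le L2 x)
    {Ψ : LP D → ℂ}
    (hΨ : Dep {x | (x ∈ AF u v (F1 ++ F2) ∨ x ∉ T) ∧ ¬ Le L1 x ∧ ¬ Le L2 x} Ψ) :
    SF (Jn κ κ u v u 2 L1 g) ((L1.map Lt.tl).reverse ++ l) Ψ =
      SF (Jn κ κ2 u v v (-2) L2 g) ((L2.map Lt.tl).reverse ++ l) Ψ := by
  have hI := h.inv
  have hc1 : ∀ t ∈ L1, t.c ∈ fn (F1 ++ F2) := by
    intro t ht
    have := List.mem_map_of_mem (f := fun t : Lt D => (t.c, t.p)) ht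
    rw [h1] at this
    obtain ⟨c, hc, hc'⟩ := List.mem_map.1 this
    have e : c.1 = t.c := congrArg Prod.fst hc'
    rw [← e, fn_append]
    exact List.mem_append_left _ (List.mem_map_of_mem hc)
  have hc2 : ∀ t ∈ L2, t.c ∈ fn (F1 ++ F2) := by
    intro t ht
    have := List.mem_map_of_mem (f := fun t : Lt D => (t.c, t.p)) ht
    rw [h2] at this
    obtain ⟨c, hc, hc'⟩ := List.mem_map.1 this
    have e : c.1 = t.c := congrArg Prod.fst hc'
    rw [← e, fn_append]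
    exact List.mem_append_right _ (List.mem_map_of_mem hc)
  have hΨ' : Dep {x | (x ∈ AF u v (F1 ++ F2) ∨ x ∉ T) ∧ ¬ Le L2 x ∧ ¬ Le L1 x} Ψ := by
    refine hΨ.congr ?_
    ext x
    simp only [Set.mem_setOf_eq]
    tauto
  rw [side hI (κ0 := κ) (κ := κ) (fun _ _ => rfl) (Or.inl rfl) (c := 2) hc1 hF1 hF2 hd hΨ,
    side hI (κ0 := κ) (κ := κ2) hκ2' (Or.inr rfl) (c := -2) hc2 hF2 hF1
      (fun x hx hx' => hd x hx' hx) hΨ']
  set Φ : LP D → ℂ := fun h => Ψ (gau (fun x => -κ x) h) with hΦ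
  have e1 : (pb (LP.jn u v 2 2) * LF u L1 : Module.End ℂ (LP D → ℂ)) = opA 2 u v (fw F1) := by
    unfold opA Pool.Agent.H13.Q1.Lu LF
    congr 2
    have : (fun t : Lt D => (Rop 2 u t.c t.p (1 - t.p) : Module.End ℂ (LP D → ℂ))) =
        (fun c : D × ℂ => Rop 2 u c.1 c.2 (1 - c.2)) ∘ (fun t : Lt D => (t.c, t.p)) := rfl
    rw [this, ← List.map_map, h1]
    rfl
  have e2 : (pb (LP.jn u v 2 (-2)) * LF v L2 : Module.End ℂ (LP D → ℂ)) =
      pb (LP.jn u v 2 (-2)) * Lv 2 v (fw F2) := by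
    unfold Pool.Agent.H13.Q1.Lv LF
    congr 2
    have : (fun t : Lt D => (Rop 2 v t.c t.p (1 - t.p) : Module.End ℂ (LP D → ℂ))) =
        (fun c : D × ℂ => Rop 2 v c.1 c.2 (1 - c.2)) ∘ (fun t : Lt D => (t.c, t.p)) := rfl
    rw [this, ← List.map_map, h2, List.map_map]
    unfold fw
    rw [List.map_map]
    apply List.map_congr_left
    intro c _
    simp only [Function.comp_apply, sub_sub_cancel]
  have e3 : (fun h => Ψ (gau (fun x => -κ2 x) h)) =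
      (pb (gau (g1 v (-(2 * 2)))) : Module.End ℂ (LP D → ℂ)) Φ := by
    funext r
    change Ψ _ = Ψ _
    congr 1
    apply LP.ext
    · intro x; rfl
    · intro x
      rw [gau_d, gau_d, gau_d, gau_apply]
      have q : ∀ y, κ2 y = κ y - g1 v (-(2 * 2)) y := by
        intro y
        unfold g1
        by_cases hy : y = v
        · rw [if_pos hy, hy, hκ2]; ring
        · rw [if_neg hy, hκ2' y hy]; ring
      rw [q, q]; ring
  rw [e1, e2, e3]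
  -- the general formal exchange
  have hp0 := h.p0 κ hκ
  rw [fw_append] at hp0
  have hAlv : Alv u v (fw F1 ++ fw F2) = AF u v (F1 ++ F2) := by rw [← fw_append, alv_fw]
  have AFT : ∀ x ∈ AF u v (F1 ++ F2), x ∈ T := by
    rintro x (rfl | rfl | h)
    · exact hI.T0.1
    · exact hI.T0.2
    · exact hI.FT x h
  have LT1 : ∀ x, Le L1 x → x ∉ T := fun x ⟨t, ht, hx⟩ => hF1.eT t ht x hx
  have LT2 : ∀ x, Le L2 x → x ∉ T := fun x ⟨t, ht, hx⟩ => hF2.eT t ht x hx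
  set C : Set D := {x | x ∉ T ∧ ¬ Le L1 x ∧ ¬ Le L2 x} with hC
  set G : LP D := gau κ (st0 g l) with hG
  have hst := st0_St g l
  have gC : Stable C g := by
    rintro x ⟨x1, x2, x3⟩
    refine ⟨fun h2 => x1 ?_, fun h2 => x2 (hF1.le_g h2), fun h2 => x3 (hF2.le_g h2)⟩
    have := hI.Tg _ h2
    rwa [g.invol] at this
  have CT : ∀ x ∈ C, x ∉ T := fun x hx => hx.1
  have eqC : ∀ s, St g l s → Eqv C (gau κ g) (gau κ s) := by
    intro s hs
    exact (((hI.out s hs).mono CT gC)).gau κ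
  have key := P0.ext hp0 (C := C) (G := G) (by rw [hAlv]; exact fun x hx => hI.alv _ hst x hx)
    (eqC _ hst).stable (by rw [hAlv]; exact fun x hx hx' => hx'.1 (AFT x hx)) (by
      intro Φ1 Φ2 hΦ12
      rw [SG_apply, SG_apply]
      apply SF_congr
      intro s hs
      apply hΦ12
      rw [hAlv]
      exact ⟨hI.alv s hs, (eqC _ hst).symm.trans (eqC s hs)⟩) (Φ := Φ) (by
      have : {x | x ∈ Alv u v (fw F1 ++ fw F2) ∨ x ∈ C} =
          {x | (x ∈ AF u v (F1 ++ F2) ∨ x ∉ T) ∧ ¬ Le L1 x ∧ ¬ Le L2 x} := by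
        ext x
        rw [hAlv, hC]
        simp only [Set.mem_setOf_eq]
        constructor
        · rintro (h3 | ⟨h3, h4, h5⟩)
          · exact ⟨Or.inl h3, fun h4 => LT1 x h4 (AFT x h3), fun h4 => LT2 x h4 (AFT x h3)⟩
          · exact ⟨Or.inr h3, h4, h5⟩
        · rintro ⟨h3 | h3, h4, h5⟩
          · exact Or.inl h3
          · exact Or.inr ⟨h3, h4, h5⟩
      rw [this]
      exact hΨ.gau _)
  rw [key]
  rfl

end Pool.Agent.H64.Q1
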