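import Pool.Agent.H64.Q1.Reg6

/-!
# The wires of an inserted line; transport of a growth; networks with a given outer wiring
-/

namespace Pool.Agent.H64.Q1

open LP Pool.Agent.H81.G1 Pool.Agent.H13.Q1 Finset

variable {D : Type*} [DecidableEq D]

/-! ### The renaming of an insertion -/

/-- the renaming of an insertion -/
def insP (w : D) : List (Lt D) → Equiv.Perm D
  | [] => 1
  | t :: L => insP w L * (Equiv.swap t.c t.N * Equiv.swap w t.W)

theorem insL_eq (w : D) (L : List (Lt D)) (h : LP D) : insL w L h = ren (insP w L) h := by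
  induction L generalizing h with
  | nil => rfl
  | cons t L ih =>
    rw [insL, ih, insP, ren_mul, ren_mul]
    rfl

/-- the names of a line are different -/
structure LD (w : D) (L : List (Lt D)) : Prop where
  one : ∀ t ∈ L, t.W ≠ w ∧ t.N ≠ w ∧ t.c ≠ w ∧ t.W ≠ t.N ∧ t.W ≠ t.c ∧ t.N ≠ t.c
  two : L.Pairwise fun t t' => t.W ≠ t'.W ∧ t.W ≠ t'.N ∧ t.W ≠ t'.c ∧ t.N ≠ t'.W ∧ t.N ≠ t'.N ∧
    t.N ≠ t'.c ∧ t.c ≠ t'.W ∧ t.c ≠ t'.N ∧ t.c ≠ t'.c

omit [DecidableEq D] in
theorem LD.tail {w : D} {t : Lt D} {L : List (Lt D)} (h : LD w (t :: L)) : LD w L :=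
  ⟨fun t' ht' => h.one t' (List.mem_cons_of_mem _ ht'), (List.pairwise_cons.1 h.two).2⟩

theorem insP_fix {w : D} {L : List (Lt D)} {x : D} (h0 : x ≠ w)
    (h : ∀ t ∈ L, x ≠ t.c ∧ x ≠ t.N ∧ x ≠ t.W) : insP w L x = x := by
  induction L with
  | nil => rfl
  | cons t L ih =>
    obtain ⟨h1, h2, h3⟩ := h t List.mem_cons_self
    rw [insP, Equiv.Perm.mul_apply, Equiv.Perm.mul_apply, Equiv.swap_apply_of_ne_of_ne h0 h3,
      Equiv.swap_apply_of_ne_of_ne h1 h2]
    exact ih fun t' ht' => h t' (List.mem_cons_of_mem _ ht')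

theorem insP_c {w : D} {L : List (Lt D)} (H : LD w L) {t : Lt D} (ht : t ∈ L) :
    insP w L t.c = t.N := by
  induction L with
  | nil => exact absurd ht List.not_mem_nil
  | cons s L ih =>
    have h2 := List.pairwise_cons.1 H.two
    obtain ⟨a1, a2, a3, a4, a5, a6⟩ := H.one s List.mem_cons_self
    rw [insP, Equiv.Perm.mul_apply, Equiv.Perm.mul_apply]
    rcases List.mem_cons.1 ht with rfl | ht'
    · rw [Equiv.swap_apply_of_ne_of_ne a3 a5.symm, Equiv.swap_apply_left]
      apply insP_fix a2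
      intro t' ht'
      obtain ⟨b1, b2, b3, b4, b5, b6, b7, b8, b9⟩ := h2.1 t' ht'
      exact ⟨b6, b5, b4⟩
    · obtain ⟨b1, b2, b3, b4, b5, b6, b7, b8, b9⟩ := h2.1 t ht'
      obtain ⟨c1, c2, c3, c4, c5, c6⟩ := H.one t ht
      rw [Equiv.swap_apply_of_ne_of_ne c3 b3.symm, Equiv.swap_apply_of_ne_of_ne b9.symm b6.symm]
      exact ih H.tail ht'

theorem insP_N {w : D} {L : List (Lt D)} (H : LD w L) {t : Lt D} (ht : t ∈ L) :
    insP w L t.N = t.c := by
  induction L with
  | nil => exact absurd ht List.not_mem_nil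
  | cons s L ih =>
    have h2 := List.pairwise_cons.1 H.two
    obtain ⟨a1, a2, a3, a4, a5, a6⟩ := H.one s List.mem_cons_self
    rw [insP, Equiv.Perm.mul_apply, Equiv.Perm.mul_apply]
    rcases List.mem_cons.1 ht with rfl | ht'
    · rw [Equiv.swap_apply_of_ne_of_ne a2 a4.symm, Equiv.swap_apply_right]
      apply insP_fix a3
      intro t' ht'
      obtain ⟨b1, b2, b3, b4, b5, b6, b7, b8, b9⟩ := h2.1 t' ht'
      exact ⟨b9, b8, b7⟩
    · obtain ⟨b1, b2, b3, b4, b5, b6, b7, b8, b9⟩ := h2.1 t ht'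
      obtain ⟨c1, c2, c3, c4, c5, c6⟩ := H.one t ht
      rw [Equiv.swap_apply_of_ne_of_ne c2 b2.symm, Equiv.swap_apply_of_ne_of_ne b8.symm b5.symm]
      exact ih H.tail ht'

theorem insP_w {w : D} {t : Lt D} {L : List (Lt D)} (H : LD w (t :: L)) :
    insP w (t :: L) w = t.W := by
  have h2 := List.pairwise_cons.1 H.two
  obtain ⟨a1, a2, a3, a4, a5, a6⟩ := H.one t List.mem_cons_self
  rw [insP, Equiv.Perm.mul_apply, Equiv.Perm.mul_apply, Equiv.swap_apply_left,
    Equiv.swap_apply_of_ne_of_ne a5 a4]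
  apply insP_fix a1
  intro t' ht'
  obtain ⟨b1, b2, b3, b4, b5, b6, b7, b8, b9⟩ := h2.1 t' ht'
  exact ⟨b3, b2, b1⟩

theorem insP_W {w : D} {L : List (Lt D)} (H : LD w L) : ∀ (i : ℕ) (hi : i < L.length),
    insP w L (L[i]).W = if h : i + 1 < L.length then (L[i + 1]).W else w := by
  induction L with
  | nil => intro i hi; simp at hi
  | cons s L ih =>
    intro i hi
    have h2 := List.pairwise_cons.1 H.two
    obtain ⟨a1, a2, a3, a4, a5, a6⟩ := H.one s List.mem_cons_self
    rw [insP, Equiv.Perm.mul_apply, Equiv.Perm.mul_apply]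
    cases i with
    | zero =>
      rw [List.getElem_cons_zero, Equiv.swap_apply_right,
        Equiv.swap_apply_of_ne_of_ne a3.symm a2.symm]
      cases L with
      | nil =>
        rw [dif_neg (by simp)]
        rfl
      | cons s' L =>
        rw [dif_pos (by simp)]
        exact insP_w H.tail
    | succ i =>
      rw [List.getElem_cons_succ]
      have hi' : i < L.length := by simpa using hi
      have ht' : L[i] ∈ L := List.getElem_mem hi'
      obtain ⟨b1, b2, b3, b4, b5, b6, b7, b8, b9⟩ := h2.1 _ ht'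
      obtain ⟨c1, c2, c3, c4, c5, c6⟩ := H.tail.one _ ht'
      rw [Equiv.swap_apply_of_ne_of_ne c1 b1.symm, Equiv.swap_apply_of_ne_of_ne b7.symm b4.symm,
        ih H.tail i hi']
      by_cases h : i + 1 < L.length
      · rw [dif_pos h, dif_pos (by simpa using h), List.getElem_cons_succ]
      · rw [dif_neg h, dif_neg (by simpa using h)]

/-! ### The wires of a wiring with an inserted line -/

section Jn

variable {g : LP D} {κ0 κ : D → ℤ} {u v w : D} {c : ℤ} {L : List (Lt D)}

theorem Jn_apply (huv : g u = v) (x : D) :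
    Jn κ0 κ u v w c L g (insP w L x) = insP w L (g x) := by
  have hne : u ≠ v := by rw [← huv]; exact g.ne2 u
  have hvu : g v = u := by rw [← huv, g.invol]
  unfold Jn
  rw [insL_eq, gau_apply, ren_apply, Equiv.symm_apply_apply]
  congr 1
  rw [jn_apply _ _ _ _ _ hne]
  simp only [gau_apply]
  rw [huv, hvu]
  by_cases h1 : x = u
  · rw [if_pos h1, h1, huv]
  · by_cases h2 : x = v
    · rw [if_neg h1, if_pos h2, h2, hvu]
    · rw [if_neg h1, if_neg h2, if_neg h2, if_neg h1]

theorem Jn_d (huv : g u = v) {x : D} (h1 : x ≠ u) (h2 : x ≠ v) :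
    (Jn κ0 κ u v w c L g).d (insP w L x) =
      g.d x + κ0 x - κ0 (g x) - κ (insP w L x) + κ (insP w L (g x)) := by
  have hne : u ≠ v := by rw [← huv]; exact g.ne2 u
  have hvu : g v = u := by rw [← huv, g.invol]
  have key := Jn_apply (κ0 := κ0) (κ := κ) (w := w) (c := c) (L := L) huv x
  unfold Jn at key ⊢
  rw [insL_eq] at key ⊢
  rw [gau_apply] at key
  have hu' : (gau κ0 g) u = v := huv
  have hv' : (gau κ0 g) v = u := hvu
  rw [gau_d, key, ren_d, Equiv.symm_apply_apply, jn_d _ _ _ _ _ hne, if_neg h1, if_neg h2,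
    if_neg (by rw [hu']; exact h2), if_neg (by rw [hv']; exact h1), gau_d]
  ring

theorem Jn_du (huv : g u = v) : (Jn κ0 κ u v w c L g).d (insP w L u) =
    c - κ (insP w L u) + κ (insP w L v) := by
  have hne : u ≠ v := by rw [← huv]; exact g.ne2 u
  have key := Jn_apply (κ0 := κ0) (κ := κ) (w := w) (c := c) (L := L) huv u
  unfold Jn at key ⊢
  rw [insL_eq] at key ⊢
  rw [gau_apply] at key
  rw [gau_d, key, ren_d, Equiv.symm_apply_apply, jn_d _ _ _ _ _ hne, if_pos rfl, huv]
  ring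

theorem Jn_dv (huv : g u = v) : (Jn κ0 κ u v w c L g).d (insP w L v) =
    -c - κ (insP w L v) + κ (insP w L u) := by
  have hne : u ≠ v := by rw [← huv]; exact g.ne2 u
  have hvu : g v = u := by rw [← huv, g.invol]
  have key := Jn_apply (κ0 := κ0) (κ := κ) (w := w) (c := c) (L := L) huv v
  unfold Jn at key ⊢
  rw [insL_eq] at key ⊢
  rw [gau_apply] at key
  rw [gau_d, key, ren_d, Equiv.symm_apply_apply, jn_d _ _ _ _ _ hne, if_neg hne.symm, if_pos rfl,
    hvu]
  ring

/-- a wire which does not meet the line -/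
theorem Jn_keep (huv : g u = v) {x : D} (h1 : x ≠ u) (h2 : x ≠ v)
    (f1 : insP w L x = x) (f2 : insP w L (g x) = g x) (k1 : κ0 x = κ x) (k2 : κ0 (g x) = κ (g x)) :
    Jn κ0 κ u v w c L g x = g x ∧ (Jn κ0 κ u v w c L g).d x = g.d x := by
  have a := Jn_apply (κ0 := κ0) (κ := κ) (w := w) (c := c) (L := L) huv x
  have b := Jn_d (κ0 := κ0) (κ := κ) (w := w) (c := c) (L := L) huv h1 h2
  rw [f1, f2] at a b
  exact ⟨a, by rw [b, k1, k2]; ring⟩

end Jn

/-! ### Transport of a growth -/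

section map

variable {D' : Type*} [DecidableEq D']

/-- a tile with other names -/
def Tl.map (j : D → D') (t : Tl D) : Tl D' := ⟨j t.z0, j t.z1, j t.z2, j t.z3, t.w⟩

/-- an end of the front with another name -/
def Fe.map (j : D → D') (c : Fe D) : Fe D' := (j c.1, c.2)

theorem Bt.map {g : LP D} {g' : LP D'} {j : D → D'} (hj : Function.Injective j)
    (hg : ∀ x, g' (j x) = j (g x)) (hd : ∀ x, g'.d (j x) = g.d x) {u v : D} {T : Set D}
    {l : List (Tl D)} {F : List (Fe D)} (h : Bt g u v T l F) :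
    Bt g' (j u) (j v) (j '' T) (l.map (Tl.map j)) (F.map (Fe.map j)) := by
  induction h with
  | nil h =>
    have e : j '' {x | x = u ∨ x = v} = {x | x = j u ∨ x = j v} := by
      ext x
      simp only [Set.mem_image, Set.mem_setOf_eq]
      constructor
      · rintro ⟨y, rfl | rfl, rfl⟩
        · exact Or.inl rfl
        · exact Or.inr rfl
      · rintro (rfl | rfl)
        · exact ⟨_, Or.inl rfl, rfl⟩
        · exact ⟨_, Or.inr rfl, rfl⟩
    rw [e]
    exact Bt.nil (by rw [hg, h])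
  | @edge T l F1 F2 x k θ h hx hθ ih =>
    have e : j '' {y | y ∈ T ∨ y = x ∨ y = g x} = {y | y ∈ j '' T ∨ y = j x ∨ y = g' (j x)} := by
      rw [hg]
      ext y
      simp only [Set.mem_image, Set.mem_setOf_eq]
      constructor
      · rintro ⟨z, hz | rfl | rfl, rfl⟩
        · exact Or.inl ⟨z, hz, rfl⟩
        · exact Or.inr (Or.inl rfl)
        · exact Or.inr (Or.inr rfl)
      · rintro (⟨z, hz, rfl⟩ | rfl | rfl)
        · exact ⟨z, Or.inl hz, rfl⟩
        · exact ⟨_, Or.inr (Or.inl rfl), rfl⟩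
        · exact ⟨_, Or.inr (Or.inr rfl), rfl⟩
    rw [e]
    rw [List.map_append] at ih
    have h1 := Bt.edge (F1.map (Fe.map j)) (F2.map (Fe.map j)) (j x) k θ ih (by
      rintro ⟨y, hy, hyx⟩
      exact hx (hj hyx ▸ hy)) hθ
    rw [List.map_append, List.map_cons, List.map_cons]
    have e2 : Fe.map j (g x, k + g.d x + 2, θ + (Real.pi : ℂ)) =
        (g' (j x), k + g'.d (j x) + 2, θ + (Real.pi : ℂ)) := by
      unfold Fe.map
      simp only
      rw [hg, hd]
    rw [e2]
    exact h1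
  | @fill T l F1 F2 z0 z1 z2 z3 k θ0 θ1 h hw ih =>
    rw [List.map_append] at ih
    simp only [List.map_cons] at ih
    have h1 := Bt.fill (F1.map (Fe.map j)) (F2.map (Fe.map j)) (j z0) (j z1) (j z2) (j z3) k θ0 θ1
      ih hw
    rw [List.map_append, List.map_cons]
    exact h1
  | @rot T l F x k θ h ih =>
    rw [List.map_append]
    rw [List.map_cons] at ih
    exact Bt.rot _ _ _ _ ih

end map

/-! ### Networks with a given outer wiring -/

section cut

variable {Q : Type*} [DecidableEq Q]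

/-- the pairing `ρ` cut at `q0` (root) and at `q1` (mark) -/
def cutf (ρ : LP Q) (q0 q1 : Q) : Q ⊕ Fin 4 → Q ⊕ Fin 4
  | .inl x => if x = q0 then .inr 0 else if x = ρ q0 then .inr 1 else if x = q1 then .inr 2 else
      if x = ρ q1 then .inr 3 else .inl (ρ x)
  | .inr k => if k = 0 then .inl q0 else if k = 1 then .inl (ρ q0) else if k = 2 then .inl q1 else
      .inl (ρ q1)

/-- its turnings -/
def cutd (ρ : LP Q) (q0 q1 : Q) : Q ⊕ Fin 4 → ℤ
  | .inl x => if x = q0 then 0 else if x = ρ q0 then ρ.d (ρ q0) else if x = q1 then 0 else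
      if x = ρ q1 then ρ.d (ρ q1) else ρ.d x
  | .inr k => if k = 0 then 0 else if k = 1 then - ρ.d (ρ q0) else if k = 2 then 0 else
      - ρ.d (ρ q1)

/-- the cut pairing -/
def cut (ρ : LP Q) {q0 q1 : Q} (h1 : q1 ≠ q0) (h2 : q1 ≠ ρ q0) : LP (Q ⊕ Fin 4) :=
  have h3 : ρ q0 ≠ q0 := ρ.ne q0
  have h4 : ρ q1 ≠ q1 := ρ.ne q1
  have h5 : ρ q1 ≠ q0 := fun e => h2 (by rw [← e, ρ.invol])
  have h6 : ρ q1 ≠ ρ q0 := fun e => h1 (by rw [← ρ.invol q1, e, ρ.invol])
  have hinv : ∀ x, cutf ρ q0 q1 (cutf ρ q0 q1 x) = x := by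
    rintro (x | k)
    · by_cases a : x = q0
      · subst a; simp [cutf]
      by_cases b : x = ρ q0
      · subst b; simp [cutf, h3]
      by_cases c : x = q1
      · subst c; simp [cutf, h1, h2]
      by_cases d : x = ρ q1
      · subst d; simp [cutf, h4, h5, h6]
      · have a' : ρ x ≠ q0 := fun e => b (by rw [← e, ρ.invol])
        have b' : ρ x ≠ ρ q0 := fun e => a (by rw [← ρ.invol x, e, ρ.invol])
        have c' : ρ x ≠ q1 := fun e => d (by rw [← e, ρ.invol])
        have d' : ρ x ≠ ρ q1 := fun e => c (by rw [← ρ.invol x, e, ρ.invol])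
        simp only [cutf, a, b, c, d, a', b', c', d', if_false, ρ.invol]
    · fin_cases k <;> simp [cutf, h1, h2, h3, h4, h5, h6]
  { p := Function.Involutive.toPerm (cutf ρ q0 q1) hinv
    d := cutd ρ q0 q1
    inv := hinv
    ne' := by
      rintro (x | k) h
      · change cutf ρ q0 q1 (.inl x) = .inl x at h
        unfold cutf at h
        simp only at h
        split_ifs at h
        exact ρ.ne x (Sum.inl.inj h)
      · change cutf ρ q0 q1 (.inr k) = .inr k at h
        unfold cutf at h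
        simp only at h
        split_ifs at h
    ant := by
      rintro (x | k)
      · change cutd ρ q0 q1 (cutf ρ q0 q1 (.inl x)) = -cutd ρ q0 q1 (.inl x)
        by_cases a : x = q0
        · subst a; simp [cutf, cutd]
        by_cases b : x = ρ q0
        · subst b; simp [cutf, cutd, h3]
        by_cases c : x = q1
        · subst c; simp [cutf, cutd, h1, h2]
        by_cases d : x = ρ q1
        · subst d; simp [cutf, cutd, h4, h5, h6]
        · have a' : ρ x ≠ q0 := fun e => b (by rw [← e, ρ.invol])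
          have b' : ρ x ≠ ρ q0 := fun e => a (by rw [← ρ.invol x, e, ρ.invol])
          have c' : ρ x ≠ q1 := fun e => d (by rw [← e, ρ.invol])
          have d' : ρ x ≠ ρ q1 := fun e => c (by rw [← ρ.invol x, e, ρ.invol])
          simp only [cutf, cutd, a, b, c, d, a', b', c', d', if_false, ρ.anti]
      · change cutd ρ q0 q1 (cutf ρ q0 q1 (.inr k)) = -cutd ρ q0 q1 (.inr k)
        fin_cases k <;> simp [cutf, cutd, h1, h2, h3, h4, h5, h6] }

end cut

section half

variable {Q : Type*} [DecidableEq Q] [Fintype Q] {ι : Type*}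

/-- the joins of the exposed ends `ex q` with the sockets `sk q` -/
noncomputable def sockets (ex sk : Q → D) : List (D × D × ℤ) :=
  (Finset.univ : Finset Q).toList.map fun q => (ex q, sk q, 0)

omit [DecidableEq D] [DecidableEq Q] in
theorem mem_sockets (ex sk : Q → D) (q : Q) : (ex q, sk q, (0 : ℤ)) ∈ sockets ex sk := by
  unfold sockets
  exact List.mem_map.2 ⟨q, by simp, rfl⟩

omit [DecidableEq D] in
theorem jm_map (ex sk : Q → D) (l : List Q) :
    ∀ x, x ∈ jm (l.map fun q => (ex q, sk q, (0 : ℤ))) ↔ ∃ q ∈ l, x = ex q ∨ x = sk q := by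
  intro x
  induction l with
  | nil => simp [jm]
  | cons q l ih =>
    simp only [List.map_cons, jm, List.mem_cons, ih, exists_eq_or_imp, or_assoc]

omit [DecidableEq D] in
theorem jm_sockets (ex sk : Q → D) (x : D) :
    x ∈ jm (sockets ex sk) ↔ ∃ q, x = ex q ∨ x = sk q := by
  unfold sockets
  rw [jm_map]
  simp

omit [DecidableEq D] in
theorem sockets_nodup {ex sk : Q → D} (h1 : Function.Injective ex) (h2 : Function.Injective sk)
    (h3 : ∀ q q', ex q ≠ sk q') : (jm (sockets ex sk)).Nodup := by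
  unfold sockets
  have key : ∀ l : List Q, l.Nodup → (jm (l.map fun q => (ex q, sk q, (0 : ℤ)))).Nodup := by
    intro l hl
    induction l with
    | nil => exact List.nodup_nil
    | cons q l ih =>
      rw [List.nodup_cons] at hl
      simp only [List.map_cons, jm, List.nodup_cons, List.mem_cons, not_or, jm_map]
      refine ⟨⟨h3 q q, ?_⟩, ?_, ih hl.2⟩
      · rintro ⟨q', hq', h | h⟩
        · exact hl.1 (h1 h ▸ hq')
        · exact h3 _ _ h
      · rintro ⟨q', hq', h | h⟩
        · exact h3 _ _ h.symm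
        · exact hl.1 (h2 h ▸ hq')
  exact key _ (Finset.nodup_toList _)

/-- **A network whose exposed ends `E q` are wired by `ρ`**: the ends `E q` are wired in `G` to names
`ex q` with turning `lam q`, the sockets `sk` are wired by the cut pairing, all the other wires of the
network are wires of `G`. -/
structure Half (N : Net ι) (e : ι × Dir → D) (G : LP D) (E : Q → ι × Dir) (lam : Q → ℤ)
    (ρ : LP Q) (ex : Q → D) (sk : Q ⊕ Fin 4 → D) : Prop where
  inj : Function.Injective e
  exi : Function.Injective ex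
  ski : Function.Injective sk
  exsk : ∀ q x, ex q ≠ sk x
  eex : ∀ x q, e x ≠ ex q
  esk : ∀ x q, e x ≠ sk q
  a : ∀ q, G (e (E q)) = ex q ∧ G.d (e (E q)) = lam q
  c : ∀ x, (∀ q, x ≠ E q) → G (e x) = e (N.π x) ∧ G.d (e x) = N.t x
  d : ∀ q, N.π (E q) = E (ρ q) ∧ N.t (E q) = lam q + ρ.d q - lam (ρ q)

omit [DecidableEq D] in
theorem Half.rlz {N : Net ι} {e : ι × Dir → D} {G : LP D} {E : Q → ι × Dir} {lam : Q → ℤ}
    {ρ : LP Q} {ex : Q → D} {sk : Q ⊕ Fin 4 → D} (H : Half N e G E lam ρ ex sk) {q0 q1 : Q}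
    (h1 : q1 ≠ q0) (h2 : q1 ≠ ρ q0)
    (hb : ∀ x, G (sk x) = sk (cut ρ h1 h2 x) ∧ G.d (sk x) = (cut ρ h1 h2).d x)
    (hx0 : N.x0 = E q0) (hy0 : N.y0 = E q1) :
    Rlz N e G (sockets ex (fun q => sk (.inl q))) (sk (.inr 0)) (sk (.inr 1)) (sk (.inr 3))
      (-lam q0) (lam q1) := by
  have h3 : ρ q0 ≠ q0 := ρ.ne q0
  have h4 : ρ q1 ≠ q1 := ρ.ne q1
  have h5 : ρ q1 ≠ q0 := fun e => h2 (by rw [← e, ρ.invol])
  have h6 : ρ q1 ≠ ρ q0 := fun e => h1 (by rw [← ρ.invol q1, e, ρ.invol])
  have ns : ∀ k : Fin 4, sk (.inr k) ∉ jm (sockets ex (fun q => sk (.inl q))) := by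
    intro k
    rw [jm_sockets]
    rintro ⟨q, h | h⟩
    · exact H.exsk _ _ h.symm
    · exact absurd (H.ski h) (by simp)
  have out : ∀ q, Pth G (JR (sockets ex (fun q => sk (.inl q)))) (e (E q)) (ex q) (lam q) :=
    fun q => Pth.of (H.a q).1 (H.a q).2
  have back : ∀ q, Pth G (JR (sockets ex (fun q => sk (.inl q)))) (ex q) (e (E q)) (-lam q) := by
    intro q
    have e1 : G (ex q) = e (E q) := by rw [← (H.a q).1, G.invol]
    refine Pth.of e1 ?_
    rw [← (H.a q).1, G.anti, (H.a q).2]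
  have jo : ∀ q, JR (sockets ex (fun q => sk (.inl q))) (ex q) (sk (.inl q)) 0 :=
    fun q => Or.inl (mem_sockets ex _ q)
  have oj : ∀ q, JR (sockets ex (fun q => sk (.inl q))) (sk (.inl q)) (ex q) 0 := fun q => by
    have := (jo q).symm
    simpa using this
  have so : ∀ x, Pth G (JR (sockets ex (fun q => sk (.inl q)))) (sk x) (sk (cut ρ h1 h2 x))
      ((cut ρ h1 h2).d x) := fun x => Pth.of (hb x).1 (hb x).2
  have cl : ∀ x, cut ρ h1 h2 x = cutf ρ q0 q1 x := fun _ => rfl
  have cd : ∀ x, (cut ρ h1 h2).d x = cutd ρ q0 q1 x := fun _ => rfl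
  refine ⟨H.inj, sockets_nodup H.exi (fun a b h => Sum.inl.inj (H.ski h))
    (fun q q' => H.exsk q _), ?_, ⟨ns 0, ns 1, ns 3⟩, fun x => ⟨H.esk x _, H.esk x _, H.esk x _⟩,
    fun h => absurd (H.ski h) (by simp), ?_, ?_, ?_, ?_⟩
  · intro x hx
    rw [jm_sockets] at hx
    obtain ⟨q, h | h⟩ := hx
    · exact H.eex _ _ h
    · exact H.esk _ _ h
  · intro x n1 n2 n3 n4
    by_cases hx : ∃ q, x = E q
    · obtain ⟨q, rfl⟩ := hx
      rw [hx0] at n1 n3
      rw [hy0] at n2 n4
      rw [(H.d q0).1] at n1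
      rw [(H.d q1).1] at n2
      have m1 : q ≠ ρ q0 := fun e => n1 (by rw [e])
      have m2 : q ≠ ρ q1 := fun e => n2 (by rw [e])
      have m3 : q ≠ q0 := fun e => n3 (by rw [e])
      have m4 : q ≠ q1 := fun e => n4 (by rw [e])
      have e1 : cut ρ h1 h2 (.inl q) = .inl (ρ q) := by
        rw [cl]; simp only [cutf, m1, m2, m3, m4, if_false]
      have e2 : (cut ρ h1 h2).d (.inl q) = ρ.d q := by
        rw [cd]; simp only [cutd, m1, m2, m3, m4, if_false]
      have s1 := so (.inl q)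
      rw [e1, e2] at s1
      have := ((out q).trans (jo q) s1).trans (oj _) (back (ρ q))
      rw [(H.d q).1, (H.d q).2]
      convert this using 1
      ring
    · push Not at hx
      exact Pth.of (H.c x hx).1 (H.c x hx).2
  · have e1 : cut ρ h1 h2 (.inr 0) = .inl q0 := by rw [cl]; simp [cutf]
    have e2 : (cut ρ h1 h2).d (.inr 0) = 0 := by rw [cd]; simp [cutd]
    have s1 := so (.inr 0)
    rw [e1, e2] at s1
    have := s1.trans (oj _) (back q0)
    rw [hx0]
    convert this using 1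
    ring
  · have e1 : cut ρ h1 h2 (.inl (ρ q1)) = .inr 3 := by
      rw [cl]; simp only [cutf, h4, h5, h6, if_false, if_true]
    have e2 : (cut ρ h1 h2).d (.inl (ρ q1)) = ρ.d (ρ q1) := by
      rw [cd]; simp only [cutd, h4, h5, h6, if_false, if_true]
    have s1 := so (.inl (ρ q1))
    rw [e1, e2] at s1
    have := (out (ρ q1)).trans (jo _) s1
    rw [hy0, (H.d q1).1, (H.d (ρ q1)).2, ρ.invol]
    convert this using 1
    ring
  · have e1 : cut ρ h1 h2 (.inl (ρ q0)) = .inr 1 := by
      rw [cl]; simp only [cutf, h3, if_false, if_true]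
    have s1 := so (.inl (ρ q0))
    rw [e1] at s1
    rw [hx0, (H.d q0).1]
    exact ⟨_, (out (ρ q0)).trans (jo _) s1⟩

end half

end Pool.Agent.H64.Q1
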