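import Pool.Agent.H64.Q1.Reg7

/-!
# Growth of a rectangle

`nm k x y`: names of the wires of the grid `[0, w) × [0, h)`. `k = 0, 1`: upper and lower end of the
horizontal edge `(x, y)` (`x < w`, `y ≤ h`); `k = 2, 3`: right and left end of the vertical edge `(x, y)`
(`x ≤ w`, `y < h`). The tile `(x, y)` has the ends `S = nm 0 x y`, `N = nm 1 x (y + 1)`, `W = nm 2 x y`,
`E = nm 3 (x + 1) y`.
-/

namespace Pool.Agent.H64.Q1

open LP Pool.Agent.H81.G1 Pool.Agent.H13.Q1

variable {D : Type*} [DecidableEq D]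

/-- the angle of the direction `k` -/
noncomputable def ang (φ : ℂ) (k : ℤ) : ℂ := φ + k * (Real.pi / 2)

theorem ang_add_two (φ : ℂ) (k : ℤ) : ang φ (k + 2) = ang φ k + Real.pi := by
  unfold ang; push_cast; ring

theorem ang_sub_two (φ : ℂ) (k : ℤ) : ang φ (k - 2) = ang φ k - Real.pi := by
  unfold ang; push_cast; ring

theorem ang_add_four (φ : ℂ) (k : ℤ) : ang φ (k + 4) = ang φ k + 2 * Real.pi := by
  unfold ang; push_cast; ring

/-- valid names -/
def Val (w h : ℕ) (k : Fin 4) (x y : ℕ) : Prop :=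
  if k = 0 ∨ k = 1 then x < w ∧ y ≤ h else x ≤ w ∧ y < h

/-- the names of a rectangle -/
structure RectN (g : LP D) (u v : D) (w h : ℕ) (nm : Fin 4 → ℕ → ℕ → D) : Prop where
  uv : g u = v
  inj : ∀ k x y k' x' y', Val w h k x y → Val w h k' x' y' → nm k x y = nm k' x' y' →
    k = k' ∧ x = x' ∧ y = y'
  nu : ∀ k x y, Val w h k x y → nm k x y ≠ u ∧ nm k x y ≠ v
  hor : ∀ x y, x < w → y ≤ h → g (nm 1 x y) = nm 0 x y ∧ g.d (nm 1 x y) = 0
  ver : ∀ x y, x ≤ w → y < h → g (nm 2 x y) = nm 3 x y ∧ g.d (nm 2 x y) = 0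

/-- a growth whose names are bounded -/
def Bb (g : LP D) (u v : D) (nm : Fin 4 → ℕ → ℕ → D) (P : Fin 4 → ℕ → ℕ → Prop)
    (l : List (Tl D)) (F : List (Fe D)) : Prop :=
  ∃ T, Bt g u v T l F ∧ ∀ z ∈ T, z = u ∨ z = v ∨ ∃ k x y, P k x y ∧ z = nm k x y

theorem Bb.mono {g : LP D} {u v : D} {nm : Fin 4 → ℕ → ℕ → D} {P P' : Fin 4 → ℕ → ℕ → Prop}
    {l : List (Tl D)} {F : List (Fe D)} (h : Bb g u v nm P l F)
    (hP : ∀ k x y, P k x y → P' k x y) : Bb g u v nm P' l F := by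
  obtain ⟨T, h1, h2⟩ := h
  refine ⟨T, h1, fun z hz => ?_⟩
  rcases h2 z hz with h | h | ⟨k, x, y, h, e⟩
  · exact Or.inl h
  · exact Or.inr (Or.inl h)
  · exact Or.inr (Or.inr ⟨k, x, y, hP k x y h, e⟩)

section rect

variable {g : LP D} {u v : D} {w h : ℕ} {nm : Fin 4 → ℕ → ℕ → D}

/-- a new wire -/
theorem Bb.edge (H : RectN g u v w h nm) {P P' : Fin 4 → ℕ → ℕ → Prop} {l : List (Tl D)}
    (F1 F2 : List (Fe D)) (hB : Bb g u v nm P l (F1 ++ F2)) {k k' : Fin 4} {x y : ℕ} {j : ℤ} {θ : ℂ}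
    (hθ : Complex.sin θ ≠ 0) (hv : Val w h k x y) (hk : g (nm k x y) = nm k' x y)
    (hd : g.d (nm k x y) = 0) (hnew : ¬ P k x y) (hPv : ∀ k x y, P k x y → Val w h k x y)
    (hP : ∀ k x y, P k x y → P' k x y) (hP1 : P' k x y) (hP2 : P' k' x y) :
    Bb g u v nm P' l (F1 ++ (nm k x y, j, θ) :: (nm k' x y, j + 2, θ + Real.pi) :: F2) := by
  obtain ⟨T, h1, h2⟩ := hB
  have hx : nm k x y ∉ T := by
    intro hx
    rcases h2 _ hx with e | e | ⟨k1, x1, y1, e1, e⟩
    · exact (H.nu k x y hv).1 e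
    · exact (H.nu k x y hv).2 e
    · obtain ⟨a, b, c⟩ := H.inj _ _ _ _ _ _ hv (hPv _ _ _ e1) e
      subst a b c
      exact hnew e1
  have key := Bt.edge F1 F2 (nm k x y) j θ h1 hx hθ
  rw [hk, hd, add_zero] at key
  refine ⟨_, key, ?_⟩
  rintro z (hz | hz | hz)
  · rcases h2 z hz with e | e | ⟨k1, x1, y1, e1, e⟩
    · exact Or.inl e
    · exact Or.inr (Or.inl e)
    · exact Or.inr (Or.inr ⟨k1, x1, y1, hP _ _ _ e1, e⟩)
  · exact Or.inr (Or.inr ⟨k, x, y, hP1, hz⟩)
  · exact Or.inr (Or.inr ⟨k', x, y, hP2, hz⟩)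

/-- the ends of the front at the bottom -/
noncomputable def fB (nm : Fin 4 → ℕ → ℕ → D) (φ : ℂ) (n : ℕ) : List (Fe D) :=
  (List.range n).map fun x => (nm 1 x 0, -1, ang φ (-1))

/-- the ends of the front on the horizontal line `y`, from right to left -/
noncomputable def fR (nm : Fin 4 → ℕ → ℕ → D) (φ : ℂ) (y n m : ℕ) : List (Fe D) :=
  ((List.range' n m).map fun x => (nm 0 x y, 1, ang φ 1)).reverse

/-- the ends of the front at the right -/
noncomputable def fC (nm : Fin 4 → ℕ → ℕ → D) (φ : ℂ) (w n : ℕ) : List (Fe D) :=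
  (List.range n).map fun y => (nm 2 w y, 0, ang φ 0)

/-- the ends of the front at the left, from top to bottom -/
noncomputable def fD (nm : Fin 4 → ℕ → ℕ → D) (φ : ℂ) (n : ℕ) : List (Fe D) :=
  ((List.range n).map fun y => (nm 3 0 y, 2, ang φ 2)).reverse

omit [DecidableEq D] in
theorem fB_succ (φ : ℂ) (n : ℕ) : fB nm φ (n + 1) = fB nm φ n ++ [(nm 1 n 0, -1, ang φ (-1))] := by
  unfold fB; rw [List.range_succ, List.map_append]; rfl

omit [DecidableEq D] in
theorem fC_succ (φ : ℂ) (n : ℕ) : fC nm φ w (n + 1) = fC nm φ w n ++ [(nm 2 w n, 0, ang φ 0)] := by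
  unfold fC; rw [List.range_succ, List.map_append]; rfl

omit [DecidableEq D] in
theorem fD_succ (φ : ℂ) (n : ℕ) : fD nm φ (n + 1) = (nm 3 0 n, 2, ang φ 2) :: fD nm φ n := by
  unfold fD; rw [List.range_succ, List.map_append, List.reverse_append]; rfl

omit [DecidableEq D] in
theorem fR_succ (φ : ℂ) (y n : ℕ) : fR nm φ y 0 (n + 1) = (nm 0 n y, 1, ang φ 1) ::
    fR nm φ y 0 n := by
  unfold fR
  rw [List.range'_1_concat, List.map_append, List.reverse_append]
  simp

omit [DecidableEq D] in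
theorem fR_first (φ : ℂ) (y n m : ℕ) : fR nm φ y n (m + 1) = fR nm φ y (n + 1) m ++
    [(nm 0 n y, 1, ang φ 1)] := by
  unfold fR
  rw [List.range'_succ, List.map_cons, List.reverse_cons]

/-- the bottom wires -/
theorem rect_bottom (H : RectN g u v w h nm) {φ : ℂ} (hφ : ∀ k, Complex.sin (ang φ k) ≠ 0) :
    ∀ n, n ≤ w → Bb g u v nm (fun k x y => (k = 0 ∨ k = 1) ∧ x < n ∧ y = 0) []
      (fB nm φ n ++ fR nm φ 0 0 n) := by
  intro n
  induction n with
  | zero =>
    intro _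
    refine ⟨_, Bt.nil H.uv, ?_⟩
    rintro z (hz | hz)
    · exact Or.inl hz
    · exact Or.inr (Or.inl hz)
  | succ n ih =>
    intro hn
    have h1 := Bb.edge H (fB nm φ n) (fR nm φ 0 0 n) (ih (by omega)) (k := 1) (k' := 0) (x := n)
      (y := 0) (j := -1) (hφ (-1)) (by simp [Val]; omega) (H.hor n 0 (by omega) (by omega)).1
      (H.hor n 0 (by omega) (by omega)).2 (by rintro ⟨-, h, -⟩; omega)
      (P' := fun k x y => (k = 0 ∨ k = 1) ∧ x < n + 1 ∧ y = 0)
      (by rintro k x y ⟨h, h', rfl⟩; unfold Val; rw [if_pos h]; omega)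
      (by rintro k x y ⟨h, h', rfl⟩; exact ⟨h, by omega, rfl⟩)
      ⟨Or.inr rfl, by omega, rfl⟩ ⟨Or.inl rfl, by omega, rfl⟩
    rw [fB_succ, fR_succ, List.append_assoc]
    have e : ang φ (-1) + (Real.pi : ℂ) = ang φ 1 := by
      rw [← ang_add_two]; norm_num
    rw [e] at h1
    exact h1

/-- the tile `(x, y)` -/
noncomputable def rT (nm : Fin 4 → ℕ → ℕ → D) (p : ℕ × ℕ) : Tl D :=
  ⟨nm 0 p.1 p.2, nm 2 p.1 p.2, nm 1 p.1 (p.2 + 1), nm 3 (p.1 + 1) p.2, 1 / 2⟩

/-- the tiles of a row, from right to left -/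
def rw' (y n : ℕ) : List (ℕ × ℕ) := ((List.range n).map fun x => (x, y)).reverse

theorem rw'_succ (y n : ℕ) : rw' y (n + 1) = (n, y) :: rw' y n := by
  unfold rw'; rw [List.range_succ, List.map_append, List.reverse_append]; rfl

/-- the tiles of a rectangle -/
def rI (w : ℕ) : ℕ → List (ℕ × ℕ)
  | 0 => []
  | y + 1 => rw' y w ++ rI w y

/-- the used names -/
def Us (w y n : ℕ) (k : Fin 4) (x' y' : ℕ) : Prop :=
  if k = 0 ∨ k = 1 then x' < w ∧ (y' ≤ y ∨ (y' = y + 1 ∧ x' < n)) else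
    (x' ≤ w ∧ y' < y) ∨ (y' = y ∧ x' ≤ n)

theorem half_wt (φ : ℂ) : wa (ang φ 0 - ang φ 1 + Real.pi) = 1 / 2 ∧
    Complex.sin ((ang φ 0 - ang φ 1 + Real.pi + Real.pi) / 3) ≠ 0 := by
  have e0 : ang φ 0 - ang φ 1 + (Real.pi : ℂ) = Real.pi / 2 := by
    unfold ang; push_cast; ring
  have e1 : ang φ 0 - ang φ 1 + (Real.pi : ℂ) + Real.pi = 3 * (Real.pi / 2) := by
    rw [e0]; ring
  have s1 : Complex.sin ((3 * ((Real.pi : ℂ) / 2)) / 3) = 1 := by
    have : (3 * ((Real.pi : ℂ) / 2)) / 3 = Real.pi / 2 := by ring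
    rw [this, Complex.sin_pi_div_two]
  refine ⟨?_, ?_⟩
  · rw [e0]
    unfold wa
    have e2 : ((Real.pi : ℂ) / 2 + Real.pi) / 3 = Real.pi / 2 := by ring
    have e3 : ((Real.pi : ℂ) / 2) / 3 = Real.pi / 6 := by ring
    rw [e2, e3, Complex.sin_pi_div_two, div_one]
    have : Complex.sin ((Real.pi : ℂ) / 6) = ((Real.sin (Real.pi / 6) : ℝ) : ℂ) := by
      push_cast; rfl
    rw [this, Real.sin_pi_div_six]
    push_cast; rfl
  · rw [e1, s1]
    exact one_ne_zero

/-- a row of tiles -/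
theorem rect_row (H : RectN g u v w h nm) {φ : ℂ} (hφ : ∀ k, Complex.sin (ang φ k) ≠ 0)
    {y : ℕ} (hy : y < h) (hw : 0 < w) {A C : List (Fe D)} {l : List (Tl D)}
    (h0 : Bb g u v nm (fun k x' y' => if k = 0 ∨ k = 1 then x' < w ∧ y' ≤ y else x' ≤ w ∧ y' < y)
      l (A ++ (fR nm φ y 0 w ++ C))) :
    ∀ n, n ≤ w → Bb g u v nm (Us w y n) ((rw' y n).map (rT nm) ++ l)
      (A ++ (fR nm φ y n (w - n) ++ (nm 2 n y, 0, ang φ 0) :: (fR nm φ (y + 1) 0 n ++
        (nm 3 0 y, 2, ang φ 2) :: C))) := by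
  intro n
  induction n with
  | zero =>
    intro _
    rw [← List.append_assoc] at h0
    have h1 := Bb.edge H (A ++ fR nm φ y 0 w) C h0 (k := 2) (k' := 3) (x := 0)
      (y := y) (j := 0) (hφ 0) (by simp [Val]; omega) (H.ver 0 y (by omega) hy).1
      (H.ver 0 y (by omega) hy).2 (by rw [if_neg (by decide)]; omega) (P' := Us w y 0)
      (by
        intro k x' y' hP
        unfold Val
        by_cases hk : k = 0 ∨ k = 1
        · rw [if_pos hk] at hP ⊢; omega
        · rw [if_neg hk] at hP ⊢; omega)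
      (by
        intro k x' y' hP
        unfold Us
        by_cases hk : k = 0 ∨ k = 1
        · rw [if_pos hk] at hP ⊢; exact ⟨hP.1, Or.inl hP.2⟩
        · rw [if_neg hk] at hP ⊢; exact Or.inl hP)
      (by unfold Us; rw [if_neg (by decide)]; right; omega)
      (by unfold Us; rw [if_neg (by decide)]; right; omega)
    have e : ang φ 0 + (Real.pi : ℂ) = ang φ 2 := by
      rw [← ang_add_two]; norm_num
    rw [e] at h1
    have e2 : fR nm φ (y + 1) 0 0 = [] := rfl
    rw [e2, List.nil_append, Nat.sub_zero]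
    rw [List.append_assoc] at h1
    exact h1
  | succ n ih =>
    intro hn
    obtain ⟨m, hm⟩ : ∃ m, w - n = m + 1 := ⟨w - n - 1, by omega⟩
    have hm' : w - (n + 1) = m := by omega
    have h1 := ih (by omega)
    rw [hm, fR_first] at h1
    set A' := A ++ fR nm φ y (n + 1) m with hA'
    set B := fR nm φ (y + 1) 0 n ++ (nm 3 0 y, 2, ang φ 2) :: C with hB
    have e0 : A ++ (fR nm φ y (n + 1) m ++ [(nm 0 n y, (1 : ℤ), ang φ 1)] ++
        (nm 2 n y, (0 : ℤ), ang φ 0) :: B) = (A' ++ [(nm 0 n y, (1 : ℤ), ang φ 1),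
          (nm 2 n y, (0 : ℤ), ang φ 0)]) ++ B := by
      rw [hA']; simp
    rw [e0] at h1
    have hUv : ∀ k x' y', Us w y n k x' y' → Val w h k x' y' := by
      intro k x' y' hP
      unfold Us at hP
      unfold Val
      by_cases hk : k = 0 ∨ k = 1
      · rw [if_pos hk] at hP ⊢; omega
      · rw [if_neg hk] at hP ⊢; omega
    -- the wire `N`
    have h2 := Bb.edge H _ B h1 (k := 1) (k' := 0) (x := n) (y := y + 1) (j := -1)
      (P' := fun k x' y' => Us w y n k x' y' ∨ ((k = 0 ∨ k = 1) ∧ x' = n ∧ y' = y + 1))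
      (hφ (-1)) (by simp [Val]; omega)
      (H.hor n (y + 1) (by omega) (by omega)).1 (H.hor n (y + 1) (by omega) (by omega)).2
      (by unfold Us; rw [if_pos (by decide)]; omega) hUv (fun k x' y' hP => Or.inl hP)
      (Or.inr ⟨Or.inr rfl, rfl, rfl⟩) (Or.inr ⟨Or.inl rfl, rfl, rfl⟩)
    have e1 : ang φ (-1) + (Real.pi : ℂ) = ang φ 1 := by
      rw [← ang_add_two]; norm_num
    rw [e1] at h2
    have e3 : (A' ++ [(nm 0 n y, (1 : ℤ), ang φ 1), (nm 2 n y, (0 : ℤ), ang φ 0)]) ++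
        (nm 1 n (y + 1), (-1 : ℤ), ang φ (-1)) :: (nm 0 n (y + 1), (-1 + 2 : ℤ), ang φ 1) :: B =
        (A' ++ [(nm 0 n y, (1 : ℤ), ang φ 1), (nm 2 n y, (0 : ℤ), ang φ 0),
          (nm 1 n (y + 1), (-1 : ℤ), ang φ (-1))]) ++
          ((nm 0 n (y + 1), (1 : ℤ), ang φ 1) :: B) := by
      simp
    rw [e3] at h2
    -- the wire `E`
    have hver := H.ver (n + 1) y (by omega) hy
    have hver1 : g (nm 3 (n + 1) y) = nm 2 (n + 1) y := by rw [← hver.1, g.invol]
    have hver2 : g.d (nm 3 (n + 1) y) = 0 := by rw [← hver.1, g.anti, hver.2]; rfl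
    have h3 := Bb.edge H _ _ h2 (k := 3) (k' := 2) (x := n + 1) (y := y) (j := -2)
      (P' := Us w y (n + 1)) (hφ (-2)) (by simp [Val]; omega) hver1 hver2
      (by
        unfold Us; rw [if_neg (by decide)]
        rintro (hP | ⟨hP, -⟩)
        · omega
        · exact absurd hP (by decide))
      (by
        rintro k x' y' (hP | ⟨hk, rfl, rfl⟩)
        · exact hUv k x' y' hP
        · unfold Val; rw [if_pos hk]; omega)
      (by
        rintro k x' y' (hP | ⟨hk, rfl, rfl⟩)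
        · unfold Us at hP ⊢
          by_cases hk : k = 0 ∨ k = 1
          · rw [if_pos hk] at hP ⊢; omega
          · rw [if_neg hk] at hP ⊢; omega
        · unfold Us; rw [if_pos hk]; omega)
      (by unfold Us; rw [if_neg (by decide)]; right; omega)
      (by unfold Us; rw [if_neg (by decide)]; right; omega)
    have e4 : ang φ (-2) + (Real.pi : ℂ) = ang φ 0 := by
      rw [← ang_add_two]; norm_num
    rw [e4] at h3
    -- the tile
    obtain ⟨w1, w2⟩ := half_wt φ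
    obtain ⟨T, h4, h5⟩ := h3
    have e5 : ang φ 1 - (Real.pi : ℂ) = ang φ (-1) := by
      rw [← ang_sub_two]; norm_num
    have e6 : ang φ 0 - (Real.pi : ℂ) = ang φ (-2) := by
      rw [← ang_sub_two]; norm_num
    have h6 := Bt.fill (g := g) (u := u) (v := v) (T := T) (l := (rw' y n).map (rT nm) ++ l)
      A' ((nm 2 (n + 1) y, 0, ang φ 0) :: (nm 0 n (y + 1), 1, ang φ 1) :: B)
      (nm 0 n y) (nm 2 n y) (nm 1 n (y + 1)) (nm 3 (n + 1) y) 1 (ang φ 1) (ang φ 0) (by
        rw [e5, e6]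
        have : (1 : ℤ) - 1 = 0 := by norm_num
        rw [this]
        have : (1 : ℤ) - 2 = -1 := by norm_num
        rw [this]
        have : (1 : ℤ) - 3 = -2 := by norm_num
        rw [this]
        have e7 : (A' ++ [(nm 0 n y, (1 : ℤ), ang φ 1), (nm 2 n y, (0 : ℤ), ang φ 0),
            (nm 1 n (y + 1), (-1 : ℤ), ang φ (-1))]) ++ (nm 3 (n + 1) y, (-2 : ℤ), ang φ (-2)) ::
            (nm 2 (n + 1) y, (-2 + 2 : ℤ), ang φ 0) :: ((nm 0 n (y + 1), (1 : ℤ), ang φ 1) :: B) =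
            A' ++ (nm 0 n y, (1 : ℤ), ang φ 1) :: (nm 2 n y, (0 : ℤ), ang φ 0) ::
            (nm 1 n (y + 1), (-1 : ℤ), ang φ (-1)) :: (nm 3 (n + 1) y, (-2 : ℤ), ang φ (-2)) ::
            ((nm 2 (n + 1) y, (0 : ℤ), ang φ 0) :: (nm 0 n (y + 1), (1 : ℤ), ang φ 1) :: B) := by
          simp
        rw [e7] at h4
        exact h4) w2
    refine ⟨T, ?_, h5⟩
    rw [w1] at h6
    rw [hm', fR_succ, rw'_succ, List.map_cons, List.cons_append, List.cons_append, ← List.append_assoc]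
    exact h6

/-- all the rows -/
theorem rect_rows (H : RectN g u v w h nm) (hw : 0 < w) {φ : ℂ}
    (hφ : ∀ k, Complex.sin (ang φ k) ≠ 0) : ∀ y, y ≤ h →
    Bb g u v nm (fun k x' y' => if k = 0 ∨ k = 1 then x' < w ∧ y' ≤ y else x' ≤ w ∧ y' < y)
      ((rI w y).map (rT nm))
      ((fB nm φ w ++ fC nm φ w y) ++ (fR nm φ y 0 w ++ fD nm φ y)) := by
  intro y
  induction y with
  | zero =>
    intro _
    have h1 := rect_bottom H hφ w le_rfl
    have e1 : fC nm φ w 0 = [] := rfl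
    have e2 : fD nm φ 0 = [] := rfl
    rw [e1, e2, List.append_nil, List.append_nil]
    refine h1.mono ?_
    rintro k x y ⟨hk, hx, rfl⟩
    rw [if_pos hk]
    exact ⟨hx, le_rfl⟩
  | succ y ih =>
    intro hy
    have h1 := rect_row H hφ (show y < h by omega) hw (ih (by omega)) w le_rfl
    rw [Nat.sub_self] at h1
    have e1 : fR nm φ y w 0 = [] := rfl
    rw [e1, List.nil_append] at h1
    rw [fC_succ, fD_succ, rI, List.map_append]
    have e2 : (fB nm φ w ++ (fC nm φ w y ++ [(nm 2 w y, (0 : ℤ), ang φ 0)])) ++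
        (fR nm φ (y + 1) 0 w ++ (nm 3 0 y, (2 : ℤ), ang φ 2) :: fD nm φ y) =
        (fB nm φ w ++ fC nm φ w y) ++ (nm 2 w y, (0 : ℤ), ang φ 0) :: (fR nm φ (y + 1) 0 w ++
          (nm 3 0 y, (2 : ℤ), ang φ 2) :: fD nm φ y) := by
      simp
    rw [e2]
    refine h1.mono ?_
    intro k x' y' hP
    unfold Us at hP
    by_cases hk : k = 0 ∨ k = 1
    · rw [if_pos hk] at hP ⊢; omega
    · rw [if_neg hk] at hP ⊢; omega

/-- a full turn of a part of the front -/
noncomputable def rt4 (c : Fe D) : Fe D := (c.1, c.2.1 + 4, c.2.2 + 2 * Real.pi)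

theorem Bt.rots {T : Set D} {l : List (Tl D)} (F : List (Fe D)) : ∀ F' : List (Fe D),
    Bt g u v T l (F ++ F') → Bt g u v T l (F' ++ F.map rt4) := by
  induction F with
  | nil =>
    intro F' hB
    simpa using hB
  | cons c F ih =>
    intro F' hB
    obtain ⟨x, k, θ⟩ := c
    rw [List.cons_append] at hB
    have h1 := Bt.rot _ _ _ _ hB
    rw [List.append_assoc] at h1
    have h2 := ih _ h1
    rw [List.append_assoc] at h2
    exact h2

/-- **Growth of a rectangle.** The front: left side from top to bottom, bottom from left to right;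
right side from bottom to top, top from right to left. -/
theorem rect_bt (H : RectN g u v w h nm) (hw : 0 < w) {φ : ℂ}
    (hφ : ∀ k, Complex.sin (ang φ k) ≠ 0) :
    ∃ T, Bt g u v T ((rI w h).map (rT nm))
      ((((List.range h).map fun y => (nm 3 0 y, 2, ang φ 2)).reverse ++
        (List.range w).map fun x => (nm 1 x 0, 3, ang φ 3)) ++
      (((List.range h).map fun y => (nm 2 w y, 4, ang φ 4)) ++
        ((List.range w).map fun x => (nm 0 x h, 5, ang φ 5)).reverse)) := by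
  obtain ⟨T, h1, -⟩ := rect_rows H hw hφ h le_rfl
  refine ⟨T, ?_⟩
  have e0 : (fB nm φ w ++ fC nm φ w h) ++ (fR nm φ h 0 w ++ fD nm φ h) =
      (fB nm φ w ++ fC nm φ w h ++ fR nm φ h 0 w) ++ fD nm φ h := by simp
  rw [e0] at h1
  have h2 := Bt.rots _ _ h1
  have e1 : (fB nm φ w ++ fC nm φ w h ++ fR nm φ h 0 w).map rt4 =
      ((List.range w).map fun x => (nm 1 x 0, (3 : ℤ), ang φ 3)) ++
      (((List.range h).map fun y => (nm 2 w y, (4 : ℤ), ang φ 4)) ++
        ((List.range w).map fun x => (nm 0 x h, (5 : ℤ), ang φ 5)).reverse) := by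
    have a3 : ang φ (-1) + 2 * (Real.pi : ℂ) = ang φ 3 := by rw [← ang_add_four]; norm_num
    have a4 : ang φ 0 + 2 * (Real.pi : ℂ) = ang φ 4 := by rw [← ang_add_four]; norm_num
    have a5 : ang φ 1 + 2 * (Real.pi : ℂ) = ang φ 5 := by rw [← ang_add_four]; norm_num
    unfold fB fC fR
    rw [List.map_append, List.map_append, List.append_assoc, List.map_map, List.map_map,
      List.map_reverse, List.map_map, ← List.range_eq_range']
    have f1 : (rt4 ∘ fun x => (nm 1 x 0, (-1 : ℤ), ang φ (-1))) =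
        fun x => (nm 1 x 0, (3 : ℤ), ang φ 3) := by
      funext x; unfold rt4; simp only [Function.comp_apply]; rw [a3]; norm_num
    have f2 : (rt4 ∘ fun y => (nm 2 w y, (0 : ℤ), ang φ 0)) =
        fun y => (nm 2 w y, (4 : ℤ), ang φ 4) := by
      funext x; unfold rt4; simp only [Function.comp_apply]; rw [a4]; norm_num
    have f3 : (rt4 ∘ fun x => (nm 0 x h, (1 : ℤ), ang φ 1)) =
        fun x => (nm 0 x h, (5 : ℤ), ang φ 5) := by
      funext x; unfold rt4; simp only [Function.comp_apply]; rw [a5]; norm_num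
    rw [f1, f2, f3]
  rw [e1] at h2
  rw [List.append_assoc]
  exact h2

end rect

end Pool.Agent.H64.Q1
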