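import Pool.Agent.H64.Q1.Reg8

/-!
# The exchange theorem for networks

Names: `r x` names of the region (its wires, front, track), `o x b` an end of a tile which is not moved
and its exposure, `l c d` an end of a tile of a line, `s x` the sockets of the outer wiring.
-/

namespace Pool.Agent.H64.Q1

open LP Pool.Agent.H81.G1 Pool.Agent.H13.Q1

/-! ### Names and the common wiring -/

/-- names -/
inductive Nm (A B C E : Type*)
  | r (x : A)
  | o (x : B) (b : Bool)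
  | l (x : C) (d : Dir)
  | s (x : E)
  deriving DecidableEq

/-- opposite ends -/
def opD : Dir → Dir
  | .W => .E | .E => .W | .N => .S | .S => .N

/-- the common wiring -/
def gN {A B C E : Type*} (gA : LP A) (gE : LP E) : LP (Nm A B C E) :=
  let f : Nm A B C E → Nm A B C E := fun x => match x with
    | .r x => .r (gA x)
    | .o x b => .o x (!b)
    | .l x d => .l x (opD d)
    | .s x => .s (gE x)
  have hf : ∀ x, f (f x) = x := by
    rintro (x | ⟨x, b⟩ | ⟨x, d⟩ | x)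
    · simp [f]
    · simp [f]
    · cases d <;> rfl
    · simp [f]
  { p := Function.Involutive.toPerm f hf
    d := fun x => match x with
      | .r x => gA.d x
      | .o _ _ => 0
      | .l _ _ => 0
      | .s x => gE.d x
    inv := hf
    ne' := by
      rintro (x | ⟨x, b⟩ | ⟨x, d⟩ | x) h
      · exact gA.ne x (Nm.r.inj h)
      · have := (Nm.o.inj h).2
        cases b <;> exact absurd this (by simp)
      · have := (Nm.l.inj h).2
        cases d <;> exact absurd this (by simp [opD])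
      · exact gE.ne x (Nm.s.inj h)
    ant := by
      rintro (x | ⟨x, b⟩ | ⟨x, d⟩ | x)
      · exact gA.anti x
      · rfl
      · rfl
      · exact gE.anti x }

section gN

variable {A B C E : Type*} (gA : LP A) (gE : LP E)

theorem gN_r (x : A) : gN (B := B) (C := C) gA gE (.r x) = .r (gA x) ∧
    (gN (B := B) (C := C) gA gE).d (.r x) = gA.d x := ⟨rfl, rfl⟩

theorem gN_o (x : B) (b : Bool) : gN (A := A) (C := C) gA gE (.o x b) = .o x (!b) ∧
    (gN (A := A) (C := C) gA gE).d (.o x b) = 0 := ⟨rfl, rfl⟩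

theorem gN_l (x : C) (d : Dir) : gN (A := A) (B := B) gA gE (.l x d) = .l x (opD d) ∧
    (gN (A := A) (B := B) gA gE).d (.l x d) = 0 := ⟨rfl, rfl⟩

theorem gN_s (x : E) : gN (A := A) (B := B) (C := C) gA gE (.s x) = .s (gE x) ∧
    (gN (A := A) (B := B) (C := C) gA gE).d (.s x) = gE.d x := ⟨rfl, rfl⟩

end gN

/-- the end `d` of a tile read from its end `s` -/
def rel : Dir → Dir → Dir
  | .W, d => d
  | .N, .N => .W | .N, .E => .N | .N, .S => .E | .N, .W => .S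
  | .E, .E => .W | .E, .S => .N | .E, .W => .E | .E, .N => .S
  | .S, .S => .W | .S, .W => .N | .S, .N => .E | .S, .E => .S

theorem rel_0 (s : Dir) : rel s s = .W := by cases s <;> rfl
theorem rel_1 (s : Dir) : rel s (rc s) = .N := by cases s <;> rfl
theorem rel_2 (s : Dir) : rel s (rc (rc s)) = .E := by cases s <;> rfl
theorem rel_3 (s : Dir) : rel s (rc (rc (rc s))) = .S := by cases s <;> rfl

theorem rel_inj {s d d' : Dir} (h : rel s d = rel s d') : d = d' := by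
  cases s <;> cases d <;> cases d' <;> first | rfl | exact absurd h (by simp [rel])

theorem dir_cases (s d : Dir) : d = s ∨ d = rc s ∨ d = rc (rc s) ∨ d = rc (rc (rc s)) := by
  cases s <;> cases d <;> simp [rc]

/-! ### One side of the exchange -/

/-- the zeros of the names -/
def kN {A B C E : Type*} (kA : A → ℤ) (kC : C → ℤ) : Nm A B C E → ℤ
  | .r x => kA x
  | .o _ _ => 0
  | .l c .W => kC c + 1
  | .l c .E => kC c + 1
  | .l c .N => kC c
  | .l c .S => kC c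
  | .s _ => 0

/-- the tile `i` of the line -/
def lnT {A B C E : Type*} {n : ℕ} (cL : Fin n → C) (fL : Fin n → A) (p : Fin n → ℂ) (i : Fin n) :
    Lt (Nm A B C E) :=
  ⟨.l (cL i) .W, .l (cL i) .N, .l (cL i) .E, .l (cL i) .S, .r (fL i), p i⟩

section side

variable {R A O C Q ι : Type*} [DecidableEq A] [DecidableEq O] [DecidableEq C] [DecidableEq Q]
  {n m : ℕ}

/-- the names of the ends of the network -/
def eN (J : R ⊕ O ⊕ Fin n ≃ ι) (er : R × Dir → A) (cL : Fin n → C) (s : Fin n → Dir)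
    (x : ι × Dir) : Nm A (O × Dir) C (Q ⊕ Fin 4) :=
  match J.symm x.1 with
  | .inl i => .r (er (i, x.2))
  | .inr (.inl o) => .o (o, x.2) false
  | .inr (.inr i) => .l (cL i) (rel (s i) x.2)

/-- region, other tile, tile of the line -/
def jr (J : R ⊕ O ⊕ Fin n ≃ ι) (x : R × Dir) : ι × Dir := (J (.inl x.1), x.2)
/-- other tile -/
def jo (J : R ⊕ O ⊕ Fin n ≃ ι) (x : O × Dir) : ι × Dir := (J (.inr (.inl x.1)), x.2)
/-- tile of the line -/
def jl (J : R ⊕ O ⊕ Fin n ≃ ι) (i : Fin n) (d : Dir) : ι × Dir := (J (.inr (.inr i)), d)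

/-- a network with a line over the front `fL` of a region -/
structure LineNet (gA : LP A) (er : R × Dir → A) (pL : Fin n → R × Dir) (kL : Fin n → ℤ)
    (J : R ⊕ O ⊕ Fin n ≃ ι) (s : Fin n → Dir) (N : Net ι) : Prop where
  inv : ∀ x, N.π (N.π x) = x
  neg : ∀ x, N.t (N.π x) = -N.t x
  rr : ∀ x y, gA (er x) = er y → N.π (jr J x) = jr J y ∧ N.t (jr J x) = gA.d (er x)
  rl : ∀ i, N.π (jr J (pL i)) = jl J i (rc (s i)) ∧ N.t (jr J (pL i)) = gA.d (er (pL i))
  ll : ∀ i j : Fin n, (j : ℕ) = i + 1 → N.π (jl J i (rc (rc (s i)))) = jl J j (s j) ∧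
    N.t (jl J i (rc (rc (s i)))) = kL j - kL i

/-- the exposed ends of a network with a line; `w'` is at the first tile of the line -/
structure Exps (er : R × Dir → A) (pL : Fin n → R × Dir) (pO : Fin m → R × Dir)
    (kL : Fin n → ℤ) (gA : LP A) (fL : Fin n → A) (fO : Fin m → A) (w w' : A) (κw κw' : ℤ)
    (J : R ⊕ O ⊕ Fin n ≃ ι) (s : Fin n → Dir)
    (E : Q → ι × Dir) (lam : Q → ℤ) (ex : Q → Nm A (O × Dir) C (Q ⊕ Fin 4)) : Prop where
  cases : ∀ q, (∃ i, E q = jl J i (rc (rc (rc (s i)))) ∧ lam q = 0 ∧ ex q = .r (fL i)) ∨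
    (∃ i, E q = jr J (pO i) ∧ lam q = gA.d (er (pO i)) ∧ ex q = .r (fO i)) ∨
    (∃ x, E q = jo J x ∧ lam q = 0 ∧ ex q = .o x true) ∨
    (∃ i : Fin n, (i : ℕ) + 1 = n ∧ E q = jl J i (rc (rc (s i))) ∧ lam q = κw - (kL i + 1) ∧
      ex q = .r w) ∨
    (∃ i : Fin n, (i : ℕ) = 0 ∧ E q = jl J i (s i) ∧ lam q = 1 - kL i + κw' ∧ ex q = .r w')
  sL : ∀ i, ∃ q, E q = jl J i (rc (rc (rc (s i))))
  sO : ∀ i, ∃ q, E q = jr J (pO i)
  so : ∀ x, ∃ q, E q = jo J x
  sw : ∀ i : Fin n, (i : ℕ) + 1 = n → ∃ q, E q = jl J i (rc (rc (s i)))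
  sw' : ∀ i : Fin n, (i : ℕ) = 0 → ∃ q, E q = jl J i (s i)
  exi : Function.Injective ex

theorem eN_r (J : R ⊕ O ⊕ Fin n ≃ ι) (er : R × Dir → A) (cL : Fin n → C) (s : Fin n → Dir)
    (x : R × Dir) : eN (Q := Q) J er cL s (jr J x) = .r (er x) := by
  unfold eN jr
  simp only [Equiv.symm_apply_apply]

theorem eN_o (J : R ⊕ O ⊕ Fin n ≃ ι) (er : R × Dir → A) (cL : Fin n → C) (s : Fin n → Dir)
    (x : O × Dir) : eN (Q := Q) J er cL s (jo J x) = .o x false := by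
  unfold eN jo
  simp only [Equiv.symm_apply_apply]

theorem eN_l (J : R ⊕ O ⊕ Fin n ≃ ι) (er : R × Dir → A) (cL : Fin n → C) (s : Fin n → Dir)
    (i : Fin n) (d : Dir) : eN (Q := Q) J er cL s (jl J i d) = .l (cL i) (rel (s i) d) := by
  unfold eN jl
  simp only [Equiv.symm_apply_apply]

theorem j_cases (J : R ⊕ O ⊕ Fin n ≃ ι) (x : ι × Dir) :
    (∃ y, x = jr J y) ∨ (∃ y, x = jo J y) ∨ ∃ i d, x = jl J i d := by
  obtain ⟨i, d⟩ := x
  obtain ⟨j, rfl⟩ := J.surjective i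
  rcases j with j | j | j
  · exact Or.inl ⟨(j, d), rfl⟩
  · exact Or.inr (Or.inl ⟨(j, d), rfl⟩)
  · exact Or.inr (Or.inr ⟨j, d, rfl⟩)

theorem eN_inj {J : R ⊕ O ⊕ Fin n ≃ ι} {er : R × Dir → A} {cL : Fin n → C} {s : Fin n → Dir}
    (her : Function.Injective er) (hcL : Function.Injective cL) :
    Function.Injective (eN (Q := Q) J er cL s) := by
  intro x y h
  rcases j_cases J x with ⟨x', rfl⟩ | ⟨x', rfl⟩ | ⟨i, d, rfl⟩ <;>
    rcases j_cases J y with ⟨y', rfl⟩ | ⟨y', rfl⟩ | ⟨i', d', rfl⟩ <;>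
    simp only [eN_r, eN_o, eN_l] at h
  · rw [her (Nm.r.inj h)]
  · exact absurd h (by simp)
  · exact absurd h (by simp)
  · exact absurd h (by simp)
  · rw [(Nm.o.inj h).1]
  · exact absurd h (by simp)
  · exact absurd h (by simp)
  · exact absurd h (by simp)
  · obtain ⟨h1, h2⟩ := Nm.l.inj h
    have h3 := hcL h1
    subst h3
    rw [rel_inj h2]

theorem lnT_LD {cL : Fin n → C} (hcL : Function.Injective cL) {fL : Fin n → A}
    (hfL : Function.Injective fL) (p : Fin n → ℂ) {w : A} (hw : ∀ i, fL i ≠ w) :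
    LD (.r w) (List.ofFn (lnT (B := O × Dir) (E := Q ⊕ Fin 4) cL fL p)) := by
  constructor
  · intro t ht
    obtain ⟨i, rfl⟩ := (List.mem_ofFn' _ _).1 ht
    simp only [lnT]
    refine ⟨by simp, by simp, fun h => hw i (Nm.r.inj h), by simp, by simp, by simp⟩
  · rw [List.pairwise_ofFn]
    intro i j hij
    have h1 : cL i ≠ cL j := fun h => hij.ne (hcL h)
    have h2 : fL i ≠ fL j := fun h => hij.ne (hfL h)
    simp only [lnT]
    refine ⟨fun h => h1 (Nm.l.inj h).1, by simp, by simp, by simp, fun h => h1 (Nm.l.inj h).1,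
      by simp, by simp, by simp, fun h => h2 (Nm.r.inj h)⟩

variable {gA : LP A} {gE : LP (Q ⊕ Fin 4)} {u v w w' : A} {er : R × Dir → A} {fL : Fin n → A}
  {fO : Fin m → A} {pL : Fin n → R × Dir} {pO : Fin m → R × Dir} {kL : Fin n → ℤ} {cL : Fin n → C}
  {J : R ⊕ O ⊕ Fin n ≃ ι} {s : Fin n → Dir} {N : Net ι}

/-- **One side of the exchange.** -/
theorem side_half (huv : gA u = v) (hww : (w = u ∧ w' = v) ∨ (w = v ∧ w' = u))
    (her : Function.Injective er) (hcL : Function.Injective cL) (hfL : Function.Injective fL)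
    (erf : ∀ x, er x ≠ u ∧ er x ≠ v ∧ (∀ i, er x ≠ fL i) ∧ ∀ i, er x ≠ fO i)
    (fuv : ∀ i, fL i ≠ u ∧ fL i ≠ v) (fuv' : ∀ i, fO i ≠ u ∧ fO i ≠ v)
    (ff : ∀ i j, fO i ≠ fL j)
    (gp : ∀ i, gA (er (pL i)) = fL i) (gp' : ∀ i, gA (er (pO i)) = fO i)
    (cls : ∀ x, (∃ y, gA (er x) = er y) ∨ (∃ i, x = pL i) ∨ ∃ i, x = pO i)
    {κ0 κ : Nm A (O × Dir) C (Q ⊕ Fin 4) → ℤ}
    (hκ : ∀ x, x ≠ .r w → x ≠ .r w' → κ x = κ0 x)
    (hκL : ∀ i, κ0 (.r (fL i)) = kL i ∧ κ0 (.l (cL i) .W) = kL i + 1 ∧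
      κ0 (.l (cL i) .E) = kL i + 1 ∧ κ0 (.l (cL i) .N) = kL i ∧ κ0 (.l (cL i) .S) = kL i)
    {c : ℤ} (hc : (w = u → c = 2) ∧ (w = v → c = -2))
    (p : Fin n → ℂ) (H : LineNet gA er pL kL J s N) {E : Q → ι × Dir} {lam : Q → ℤ}
    {ex : Q → Nm A (O × Dir) C (Q ⊕ Fin 4)} {ρ : LP Q}
    (HE : Exps er pL pO kL gA fL fO w w' (κ (.r w)) (κ (.r w')) J s E lam ex)
    (hρ : ∀ q, N.π (E q) = E (ρ q) ∧ N.t (E q) = lam q + ρ.d q - lam (ρ q)) :
    Half N (eN J er cL s) (Jn κ0 κ (.r u) (.r v) (.r w) c (List.ofFn (lnT cL fL p)) (gN gA gE))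
      E lam ρ ex Nm.s ∧
    ∀ x, Jn κ0 κ (.r u) (.r v) (.r w) c (List.ofFn (lnT cL fL p)) (gN gA gE) (.s x) =
      .s (gE x) ∧ (Jn κ0 κ (.r u) (.r v) (.r w) c (List.ofFn (lnT cL fL p)) (gN gA gE)).d (.s x) =
      gE.d x := by
  have huv' : u ≠ v := by rw [← huv]; exact gA.ne2 u
  have hvu : gA v = u := by rw [← huv, gA.invol]
  have hwu : ∀ i, fL i ≠ w := by
    intro i
    rcases hww with ⟨h, -⟩ | ⟨h, -⟩
    · rw [h]; exact (fuv i).1
    · rw [h]; exact (fuv i).2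
  have hwu' : ∀ i, fL i ≠ w' := by
    intro i
    rcases hww with ⟨-, h⟩ | ⟨-, h⟩
    · rw [h]; exact (fuv i).2
    · rw [h]; exact (fuv i).1
  have hwO : ∀ i, fO i ≠ w ∧ fO i ≠ w' := by
    intro i
    rcases hww with ⟨h, h'⟩ | ⟨h, h'⟩
    · rw [h, h']; exact fuv' i
    · rw [h, h']; exact (fuv' i).symm
  have herw : ∀ x, er x ≠ w ∧ er x ≠ w' := by
    intro x
    obtain ⟨h1, h2, -⟩ := erf x
    rcases hww with ⟨h, h'⟩ | ⟨h, h'⟩
    · rw [h, h']; exact ⟨h1, h2⟩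
    · rw [h, h']; exact ⟨h2, h1⟩
  have hwne : w ≠ w' := by
    rcases hww with ⟨h, h'⟩ | ⟨h, h'⟩
    · rw [h, h']; exact huv'
    · rw [h, h']; exact huv'.symm
  set g : LP (Nm A (O × Dir) C (Q ⊕ Fin 4)) := gN gA gE with hg
  set L := List.ofFn (lnT (B := O × Dir) (E := Q ⊕ Fin 4) cL fL p) with hL
  set G := Jn κ0 κ (.r u) (.r v) (.r w) c L g with hG
  have hLD : LD (.r w) L := lnT_LD hcL hfL p hwu
  have hguv : g (.r u) = .r v := by rw [hg, (gN_r gA gE u).1, huv]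
  have hmem : ∀ i, lnT cL fL p i ∈ L := fun i => (List.mem_ofFn' _ _).2 ⟨i, rfl⟩
  have hlen : L.length = n := by rw [hL, List.length_ofFn]
  -- values of the renaming
  have fixl : ∀ x, x ≠ .r w → (∀ i, x ≠ .r (fL i) ∧ x ≠ .l (cL i) .N ∧ x ≠ .l (cL i) .W) →
      insP (.r w) L x = x := by
    intro x h0 h
    apply insP_fix h0
    intro t ht
    obtain ⟨i, rfl⟩ := (List.mem_ofFn' _ _).1 ht
    exact h i
  have pE : ∀ i, insP (.r w) L (.l (cL i) .E) = .l (cL i) .E := fun i =>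
    fixl _ (by simp) fun j => ⟨by simp, by simp, by simp⟩
  have pS : ∀ i, insP (.r w) L (.l (cL i) .S) = .l (cL i) .S := fun i =>
    fixl _ (by simp) fun j => ⟨by simp, by simp, by simp⟩
  have pc : ∀ i, insP (.r w) L (.r (fL i)) = .l (cL i) .N := fun i => insP_c hLD (hmem i)
  have pN : ∀ i, insP (.r w) L (.l (cL i) .N) = .r (fL i) := fun i => insP_N hLD (hmem i)
  have pr : ∀ x, x ≠ w → (∀ i, x ≠ fL i) → insP (.r w) L (.r x) = .r x := fun x h0 h =>
    fixl _ (fun e => h0 (Nm.r.inj e)) fun j => ⟨fun e => h j (Nm.r.inj e), by simp, by simp⟩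
  have po : ∀ x b, insP (.r w) L (.o x b) = .o x b := fun x b =>
    fixl _ (by simp) fun j => ⟨by simp, by simp, by simp⟩
  have ps : ∀ x, insP (.r w) L (.s x) = .s x := fun x =>
    fixl _ (by simp) fun j => ⟨by simp, by simp, by simp⟩
  have pw' : insP (.r w) L (.r w') = .r w' := pr w' hwne.symm fun i h => hwu' i h.symm
  have getL : ∀ (i : ℕ) (hi : i < L.length), L[i] = lnT cL fL p ⟨i, by rw [hlen] at hi; exact hi⟩ :=
    fun i hi => by simp [hL]
  have pW : ∀ i j : Fin n, (j : ℕ) = i + 1 →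
      insP (.r w) L (.l (cL i) .W) = .l (cL j) .W := by
    intro i j hij
    have h1 : (i : ℕ) < L.length := by rw [hlen]; exact i.2
    have h2 := insP_W hLD i h1
    rw [dif_pos (by rw [hlen]; have := j.2; omega), getL, getL] at h2
    have e1 : (⟨(i : ℕ) + 1, by have := j.2; omega⟩ : Fin n) = j := Fin.ext hij.symm
    rw [e1] at h2
    exact h2
  have pWl : ∀ i : Fin n, (i : ℕ) + 1 = n → insP (.r w) L (.l (cL i) .W) = .r w := by
    intro i hi
    have h1 : (i : ℕ) < L.length := by rw [hlen]; exact i.2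
    have h2 := insP_W hLD i h1
    rw [dif_neg (by rw [hlen]; omega), getL] at h2
    exact h2
  have pw : ∀ i : Fin n, (i : ℕ) = 0 → insP (.r w) L (.r w) = .l (cL i) .W := by
    intro i hi
    obtain ⟨k, rfl⟩ : ∃ k, n = k + 1 := ⟨n - 1, by have := i.2; omega⟩
    have hi' : i = 0 := Fin.ext hi
    subst hi'
    have h3 : L = lnT cL fL p 0 :: List.ofFn (fun i : Fin k => lnT cL fL p i.succ) := by
      rw [hL, List.ofFn_succ]
    have h4 := hLD
    rw [h3] at h4 ⊢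
    exact insP_w h4
  -- zeros
  have kr : ∀ x, x ≠ w → x ≠ w' → κ (.r x) = κ0 (.r x) := fun x h1 h2 =>
    hκ _ (fun e => h1 (Nm.r.inj e)) (fun e => h2 (Nm.r.inj e))
  have kl : ∀ i d, κ (.l i d) = κ0 (.l i d) := fun i d => hκ _ (by simp) (by simp)
  have ko : ∀ x b, κ (.o x b) = κ0 (.o x b) := fun i d => hκ _ (by simp) (by simp)
  have ks : ∀ x, κ (.s x) = κ0 (.s x) := fun i => hκ _ (by simp) (by simp)
  have xuv : ∀ x : Nm A (O × Dir) C (Q ⊕ Fin 4), x ≠ .r w → x ≠ .r w' → x ≠ .r u ∧ x ≠ .r v := by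
    intro x h1 h2
    rcases hww with ⟨h, h'⟩ | ⟨h, h'⟩
    · rw [← h, ← h']; exact ⟨h1, h2⟩
    · rw [← h, ← h']; exact ⟨h2, h1⟩
  -- wires
  have wS : ∀ i, G (.l (cL i) .S) = .r (fL i) ∧ G.d (.l (cL i) .S) = 0 := by
    intro i
    obtain ⟨a1, a2⟩ := xuv (.l (cL i) .S) (by simp) (by simp)
    have h1 := Jn_apply (κ0 := κ0) (κ := κ) (w := .r w) (c := c) (L := L) hguv (.l (cL i) .S)
    have h2 := Jn_d (κ0 := κ0) (κ := κ) (w := .r w) (c := c) (L := L) hguv a1 a2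
    have e1 : g (.l (cL i) .S) = .l (cL i) .N := (gN_l gA gE (cL i) .S).1
    have e2 : g.d (.l (cL i) .S) = 0 := (gN_l gA gE (cL i) .S).2
    rw [e1, pS, pN] at h1
    rw [e1, pS, pN, e2, kl, kr _ (hwu i) (hwu' i)] at h2
    obtain ⟨k1, k2, k3, k4, k5⟩ := hκL i
    refine ⟨h1, ?_⟩
    rw [h2, k1, k4]
    ring
  have wEl : ∀ i : Fin n, (i : ℕ) + 1 = n → G (.l (cL i) .E) = .r w ∧
      G.d (.l (cL i) .E) = κ (.r w) - (kL i + 1) := by
    intro i hi
    obtain ⟨a1, a2⟩ := xuv (.l (cL i) .E) (by simp) (by simp)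
    have h1 := Jn_apply (κ0 := κ0) (κ := κ) (w := .r w) (c := c) (L := L) hguv (.l (cL i) .E)
    have h2 := Jn_d (κ0 := κ0) (κ := κ) (w := .r w) (c := c) (L := L) hguv a1 a2
    have e1 : g (.l (cL i) .E) = .l (cL i) .W := (gN_l gA gE (cL i) .E).1
    have e2 : g.d (.l (cL i) .E) = 0 := (gN_l gA gE (cL i) .E).2
    rw [e1, pE, pWl i hi] at h1
    rw [e1, pE, pWl i hi, e2, kl] at h2
    obtain ⟨k1, k2, k3, k4, k5⟩ := hκL i
    refine ⟨h1, ?_⟩
    rw [h2, k2]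
    ring
  have wE : ∀ i j : Fin n, (j : ℕ) = i + 1 → G (.l (cL i) .E) = .l (cL j) .W ∧
      G.d (.l (cL i) .E) = kL j - kL i := by
    intro i j hij
    obtain ⟨a1, a2⟩ := xuv (.l (cL i) .E) (by simp) (by simp)
    have h1 := Jn_apply (κ0 := κ0) (κ := κ) (w := .r w) (c := c) (L := L) hguv (.l (cL i) .E)
    have h2 := Jn_d (κ0 := κ0) (κ := κ) (w := .r w) (c := c) (L := L) hguv a1 a2
    have e1 : g (.l (cL i) .E) = .l (cL i) .W := (gN_l gA gE (cL i) .E).1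
    have e2 : g.d (.l (cL i) .E) = 0 := (gN_l gA gE (cL i) .E).2
    rw [e1, pE, pW i j hij] at h1
    rw [e1, pE, pW i j hij, e2, kl, kl] at h2
    obtain ⟨k1, k2, k3, k4, k5⟩ := hκL i
    obtain ⟨k1', k2', k3', k4', k5'⟩ := hκL j
    refine ⟨h1, ?_⟩
    rw [h2, k2, k2']
    ring
  have wW : ∀ i : Fin n, (i : ℕ) = 0 → G (.l (cL i) .W) = .r w' ∧
      G.d (.l (cL i) .W) = 1 - kL i + κ (.r w') := by
    intro i hi
    obtain ⟨k1, k2, k3, k4, k5⟩ := hκL i
    rcases hww with ⟨h, h'⟩ | ⟨h, h'⟩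
    · have h1 := Jn_apply (κ0 := κ0) (κ := κ) (w := .r w) (c := c) (L := L) hguv (.r u)
      have h2 := Jn_du (κ0 := κ0) (κ := κ) (w := .r w) (c := c) (L := L) hguv
      rw [hguv, ← h, ← h', pw', pw i hi] at h1
      rw [← h, ← h', pw', pw i hi, kl, k2] at h2
      rw [hG, ← h, ← h']
      exact ⟨h1, by rw [h2, hc.1 h]; ring⟩
    · have hgvu : g (.r v) = .r u := by rw [← hguv, g.invol]
      have h1 := Jn_apply (κ0 := κ0) (κ := κ) (w := .r w) (c := c) (L := L) hguv (.r v)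
      have h2 := Jn_dv (κ0 := κ0) (κ := κ) (w := .r w) (c := c) (L := L) hguv
      rw [hgvu, ← h, ← h', pw', pw i hi] at h1
      rw [← h, ← h', pw', pw i hi, kl, k2] at h2
      rw [hG, ← h, ← h']
      exact ⟨h1, by rw [h2, hc.2 h]; ring⟩
  -- the wires of the region
  have gEr : ∀ x, g (.r (er x)) = .r (gA (er x)) ∧ g.d (.r (er x)) = gA.d (er x) := fun x =>
    gN_r gA gE (er x)
  have prx : ∀ x, insP (.r w) L (.r (er x)) = .r (er x) := fun x =>
    pr _ (herw x).1 (erf x).2.2.1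
  have wR : ∀ x y, gA (er x) = er y → G (.r (er x)) = .r (er y) ∧
      G.d (.r (er x)) = gA.d (er x) := by
    intro x y hxy
    have e1 : g (.r (er x)) = .r (er y) := by rw [(gEr x).1, hxy]
    have h1 := Jn_keep (κ0 := κ0) (κ := κ) (w := .r w) (c := c) (L := L) hguv
      (x := .r (er x)) (fun e => (erf x).1 (Nm.r.inj e)) (fun e => (erf x).2.1 (Nm.r.inj e))
      (prx x) (by rw [e1]; exact prx y) (kr _ (herw x).1 (herw x).2).symm
      (by rw [e1]; exact (kr _ (herw y).1 (herw y).2).symm)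
    rw [e1, (gEr x).2] at h1
    exact h1
  have wP : ∀ i, G (.r (er (pL i))) = .l (cL i) .N ∧ G.d (.r (er (pL i))) = gA.d (er (pL i)) := by
    intro i
    have e1 : g (.r (er (pL i))) = .r (fL i) := by rw [(gEr _).1, gp]
    have h1 := Jn_apply (κ0 := κ0) (κ := κ) (w := .r w) (c := c) (L := L) hguv (.r (er (pL i)))
    have h2 := Jn_d (κ0 := κ0) (κ := κ) (w := .r w) (c := c) (L := L) hguv
      (x := .r (er (pL i))) (fun e => (erf _).1 (Nm.r.inj e)) (fun e => (erf _).2.1 (Nm.r.inj e))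
    rw [e1, prx, pc] at h1
    rw [e1, prx, pc, (gEr _).2, kl, kr _ (herw _).1 (herw _).2] at h2
    obtain ⟨k1, k2, k3, k4, k5⟩ := hκL i
    refine ⟨h1, ?_⟩
    rw [h2, k1, k4]
    ring
  have wO : ∀ i, G (.r (er (pO i))) = .r (fO i) ∧ G.d (.r (er (pO i))) = gA.d (er (pO i)) := by
    intro i
    have e1 : g (.r (er (pO i))) = .r (fO i) := by rw [(gEr _).1, gp']
    have h1 := Jn_keep (κ0 := κ0) (κ := κ) (w := .r w) (c := c) (L := L) hguv
      (x := .r (er (pO i))) (fun e => (erf _).1 (Nm.r.inj e)) (fun e => (erf _).2.1 (Nm.r.inj e))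
      (prx _) (by rw [e1]; exact pr _ (hwO i).1 (ff i)) (kr _ (herw _).1 (herw _).2).symm
      (by rw [e1]; exact (kr _ (hwO i).1 (hwO i).2).symm)
    rw [e1, (gEr _).2] at h1
    exact h1
  have wo : ∀ x, G (.o x false) = .o x true ∧ G.d (.o x false) = 0 := by
    intro x
    have e1 : g (.o x false) = .o x true := (gN_o gA gE x false).1
    have h1 := Jn_keep (κ0 := κ0) (κ := κ) (w := .r w) (c := c) (L := L) hguv
      (x := .o x false) (by simp) (by simp) (po _ _) (by rw [e1]; exact po _ _) (ko _ _).symm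
      (by rw [e1]; exact (ko _ _).symm)
    rw [e1] at h1
    exact ⟨h1.1, h1.2.trans (gN_o gA gE x false).2⟩
  have ws : ∀ x, G (.s x) = .s (gE x) ∧ G.d (.s x) = gE.d x := by
    intro x
    have e1 : g (.s x) = .s (gE x) := (gN_s gA gE x).1
    have h1 := Jn_keep (κ0 := κ0) (κ := κ) (w := .r w) (c := c) (L := L) hguv
      (x := .s x) (by simp) (by simp) (ps _) (by rw [e1]; exact ps _) (ks _).symm
      (by rw [e1]; exact (ks _).symm)
    rw [e1] at h1
    exact ⟨h1.1, h1.2.trans (gN_s gA gE x).2⟩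
  refine ⟨⟨eN_inj her hcL, HE.exi, fun a b h => Nm.s.inj h, ?_, ?_, ?_, ?_, ?_, hρ⟩, ws⟩
  · intro q x
    rcases HE.cases q with ⟨i, -, -, h⟩ | ⟨i, -, -, h⟩ | ⟨y, -, -, h⟩ | ⟨i, -, -, -, h⟩ |
      ⟨i, -, -, -, h⟩ <;> rw [h] <;> simp
  · intro x q
    rcases HE.cases q with ⟨i, -, -, h⟩ | ⟨i, -, -, h⟩ | ⟨y, -, -, h⟩ | ⟨i, -, -, -, h⟩ |
      ⟨i, -, -, -, h⟩ <;> rw [h] <;>
      rcases j_cases J x with ⟨x', rfl⟩ | ⟨x', rfl⟩ | ⟨j, d, rfl⟩ <;>
      simp only [eN_r, eN_o, eN_l] <;> try simp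
    · exact (erf x').2.2.1 i
    · exact (erf x').2.2.2 i
    · exact (herw x').1
    · exact (herw x').2
  · intro x q
    rcases j_cases J x with ⟨x', rfl⟩ | ⟨x', rfl⟩ | ⟨j, d, rfl⟩ <;>
      simp only [eN_r, eN_o, eN_l] <;> simp
  · intro q
    rcases HE.cases q with ⟨i, h1, h2, h3⟩ | ⟨i, h1, h2, h3⟩ | ⟨y, h1, h2, h3⟩ |
      ⟨i, hi, h1, h2, h3⟩ | ⟨i, hi, h1, h2, h3⟩ <;> rw [h1, h2, h3]
    · rw [eN_l, rel_3]; exact wS i
    · rw [eN_r]; exact wO i
    · rw [eN_o]; exact wo y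
    · rw [eN_l, rel_2]; exact wEl i hi
    · rw [eN_l, rel_0]; exact wW i hi
  · intro x hx
    rcases j_cases J x with ⟨x', rfl⟩ | ⟨x', rfl⟩ | ⟨i, d, rfl⟩
    · rcases cls x' with ⟨y, hy⟩ | ⟨i, rfl⟩ | ⟨i, rfl⟩
      · obtain ⟨h1, h2⟩ := H.rr x' y hy
        obtain ⟨h3, h4⟩ := wR x' y hy
        rw [h1, h2, eN_r, eN_r]
        exact ⟨h3, h4⟩
      · obtain ⟨h1, h2⟩ := H.rl i
        obtain ⟨h3, h4⟩ := wP i
        rw [h1, h2, eN_r, eN_l, rel_1]
        exact ⟨h3, h4⟩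
      · obtain ⟨q, hq⟩ := HE.sO i
        exact absurd hq.symm (hx q)
    · obtain ⟨q, hq⟩ := HE.so x'
      exact absurd hq.symm (hx q)
    · rcases dir_cases (s i) d with rfl | rfl | rfl | rfl
      · rcases Nat.eq_zero_or_pos (i : ℕ) with hi | hi
        · obtain ⟨q, hq⟩ := HE.sw' i hi
          exact absurd hq.symm (hx q)
        · have hj : (i : ℕ) - 1 < n := by have := i.2; omega
          set j : Fin n := ⟨(i : ℕ) - 1, hj⟩ with hjd
          have hij : (i : ℕ) = j + 1 := by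
            have : (j : ℕ) = (i : ℕ) - 1 := rfl
            omega
          obtain ⟨h1, h2⟩ := H.ll j i hij
          obtain ⟨h3, h4⟩ := wE j i hij
          have h5 : N.π (jl J i (s i)) = jl J j (rc (rc (s j))) := by rw [← h1, H.inv]
          have h6 : N.t (jl J i (s i)) = -(kL i - kL j) := by rw [← h2, ← H.neg, h1]
          rw [h5, h6, eN_l, eN_l, rel_0, rel_2]
          refine ⟨by rw [← h3, G.invol], ?_⟩
          rw [← h3, G.anti, h4]
      · obtain ⟨h1, h2⟩ := H.rl i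
        obtain ⟨h3, h4⟩ := wP i
        have h5 : N.π (jl J i (rc (s i))) = jr J (pL i) := by rw [← h1, H.inv]
        have h6 : N.t (jl J i (rc (s i))) = -gA.d (er (pL i)) := by rw [← h2, ← H.neg, h1]
        rw [h5, h6, eN_l, eN_r, rel_1]
        refine ⟨by rw [← h3, G.invol], ?_⟩
        rw [← h3, G.anti, h4]
      · by_cases hi : (i : ℕ) + 1 = n
        · obtain ⟨q, hq⟩ := HE.sw i hi
          exact absurd hq.symm (hx q)
        · have hj : (i : ℕ) + 1 < n := by have := i.2; omega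
          obtain ⟨h1, h2⟩ := H.ll i ⟨(i : ℕ) + 1, hj⟩ rfl
          obtain ⟨h3, h4⟩ := wE i ⟨(i : ℕ) + 1, hj⟩ rfl
          rw [h1, h2, eN_l, eN_l, rel_2, rel_0]
          exact ⟨h3, h4⟩
      · obtain ⟨q, hq⟩ := HE.sL i
        exact absurd hq.symm (hx q)

end side

end Pool.Agent.H64.Q1
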